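import Mathlib

set_option autoImplicit false

namespace Pool.Agent.Helper945.AlphaExact

/-- the upper bound `s ≤ 2 ^ (n - 1) + ⌊(n + 1) / 2⌋` for sequences with the global condition -/
theorem upper_nat (n s : ℕ) (hn : 1 ≤ n) (B : ℕ → Finset (Fin n))
    (h1 : ∀ i, i + 1 < s → ¬ B (i + 1) ⊆ B i)
    (h2 : ∀ i k, i + 1 < k → k < s → ¬ B k ⊆ B i ∪ B (i + 1)) :
    s ≤ 2 ^ (n - 1) + (n + 1) / 2 := by
  classical
  rcases Nat.eq_zero_or_pos s with rfl | hs
  · exact Nat.zero_le _
  obtain ⟨t, rfl⟩ : ∃ t, s = t + 1 := ⟨s - 1, by omega⟩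
  set I : ℕ → Finset (Finset (Fin n)) := fun i => Finset.Icc (B (i + 1)) (B i ∪ B (i + 1)) with hI
  have hdisj : Set.PairwiseDisjoint (↑(Finset.range t) : Set ℕ) I := by
    have key : ∀ i j, i < j → j < t → Disjoint (I i) (I j) := by
      intro i j hij hj
      rw [Finset.disjoint_left]
      intro X hX hX'
      rw [hI, Finset.mem_Icc] at hX hX'
      exact h2 i (j + 1) (by omega) (by omega) (hX'.1.trans hX.2)
    intro i hi j hj hij
    simp only [Finset.coe_range, Set.mem_Iio] at hi hj
    rcases lt_or_gt_of_ne hij with h | h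
    · exact key i j h hj
    · exact (key j i h hi).symm
  have hempty : ∅ ∉ (Finset.range t).biUnion I := by
    intro h
    rw [Finset.mem_biUnion] at h
    obtain ⟨i, hi, h⟩ := h
    rw [Finset.mem_range] at hi
    rw [hI, Finset.mem_Icc] at h
    exact h1 i (by omega) (h.1.trans (Finset.empty_subset _))
  have hcard : 1 + ∑ i ∈ Finset.range t, (I i).card ≤ 2 ^ n := by
    have h3 : (insert ∅ ((Finset.range t).biUnion I)).card ≤ (Finset.univ : Finset (Finset (Fin n))).card :=
      Finset.card_le_card (Finset.subset_univ _)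
    rw [Finset.card_insert_of_notMem hempty, Finset.card_biUnion hdisj, Finset.card_univ,
      Fintype.card_finset, Fintype.card_fin] at h3
    omega
  have hterm : ∀ i, i < t → (2 : ℤ) + (B i).card - (B (i + 1)).card ≤ (I i).card := by
    intro i hi
    have hne := h1 i (by omega)
    have hc : (I i).card = 2 ^ ((B i ∪ B (i + 1)).card - (B (i + 1)).card) := by
      rw [hI]; exact Finset.card_Icc_finset Finset.subset_union_right
    have hlt : (B i).card + 1 ≤ (B i ∪ B (i + 1)).card := by
      apply Finset.card_lt_card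
      refine ⟨Finset.subset_union_left, fun h => hne ?_⟩
      exact Finset.subset_union_right.trans h
    have hle : (B (i + 1)).card ≤ (B i ∪ B (i + 1)).card := Finset.card_le_card Finset.subset_union_right
    have h4 : (B i ∪ B (i + 1)).card - (B (i + 1)).card + 1 ≤
        2 ^ ((B i ∪ B (i + 1)).card - (B (i + 1)).card) := Nat.lt_two_pow_self
    rw [← hc] at h4
    omega
  have hsum : ∑ i ∈ Finset.range t, ((2 : ℤ) + (B i).card - (B (i + 1)).card) ≤
      ∑ i ∈ Finset.range t, ((I i).card : ℤ) :=
    Finset.sum_le_sum fun i hi => hterm i (Finset.mem_range.1 hi)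
  have htel : ∑ i ∈ Finset.range t, ((2 : ℤ) + (B i).card - (B (i + 1)).card) =
      2 * t + (B 0).card - (B t).card := by
    clear hsum hterm hcard hempty hdisj h1 h2 hs
    induction t with
    | zero => simp
    | succ t ih => rw [Finset.sum_range_succ, ih]; push_cast; ring
  have hBt : (B t).card ≤ n := by
    simpa using Finset.card_le_univ (B t)
  have hcast : (1 : ℤ) + ∑ i ∈ Finset.range t, ((I i).card : ℤ) ≤ 2 ^ n := by exact_mod_cast hcard
  obtain ⟨m, rfl⟩ : ∃ m, n = m + 1 := ⟨n - 1, by omega⟩
  have hp : (2 : ℤ) ^ (m + 1) = 2 * ((2 ^ m : ℕ) : ℤ) := by push_cast; ring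
  rw [hp] at hcast
  simp only [Nat.add_sub_cancel]
  omega

theorem upper (n s : ℕ) (hn : 1 ≤ n) (B : Fin s → Finset (Fin n))
    (h1 : ∀ i j : Fin s, j.val = i.val + 1 → ¬ B j ⊆ B i)
    (h2 : ∀ i j k : Fin s, j.val = i.val + 1 → j < k → ¬ B k ⊆ B i ∪ B j) :
    s ≤ 2 ^ (n - 1) + (n + 1) / 2 := by
  classical
  apply upper_nat n s hn (fun i => if h : i < s then B ⟨i, h⟩ else ∅)
  · intro i hi
    have hi' : i < s := by omega
    simp only [hi, hi', dif_pos]
    exact h1 ⟨i, hi'⟩ ⟨i + 1, hi⟩ rfl
  · intro i k hik hk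
    have hi : i + 1 < s := by omega
    have hi' : i < s := by omega
    simp only [hk, hi, hi', dif_pos]
    exact h2 ⟨i, hi'⟩ ⟨i + 1, hi⟩ ⟨k, hk⟩ rfl hik

/-- the lower bound from an admissible ordering of all subsets -/
theorem lower (n : ℕ) (hn : 1 ≤ n) (A : Fin (2 ^ n) ≃ Finset (Fin n))
    (hA0 : ∀ i : Fin (2 ^ n), i.val = 0 → A i = ∅)
    (hA1 : ∀ i j : Fin (2 ^ n), j.val = i.val + 1 →
      (A i ⊂ A j ∨ A j ⊂ A i) ∧ (symmDiff (A i) (A j)).card = 1)
    (hA2 : ∀ i j : Fin (2 ^ n), A i ⊂ A j → j < i → i.val = j.val + 1) :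
    ∃ B : Fin (2 ^ (n - 1) + (n + 1) / 2) → Finset (Fin n),
      Function.Injective B ∧
      (∀ i, i.val = 0 → B i = ∅) ∧
      (∀ i j, j.val = i.val + 1 → ¬ B j ⊆ B i) ∧
      (∀ i j k, j.val = i.val + 1 → j < k → ¬ B k ⊆ B i ∪ B j) := by
  classical
  set K : Finset (Fin (2 ^ n)) := Finset.univ.filter
    (fun p => ∀ q : Fin (2 ^ n), q.val = p.val + 1 → A p ⊂ A q) with hK
  have hmem : ∀ p, p ∈ K ↔ ∀ q : Fin (2 ^ n), q.val = p.val + 1 → A p ⊂ A q := by
    intro p; rw [hK]; simp
  have hN : 2 ≤ 2 ^ n := by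
    calc 2 = 2 ^ 1 := rfl
      _ ≤ 2 ^ n := Nat.pow_le_pow_right (by norm_num) hn
  -- cardinalities of consecutive sets
  have hstep : ∀ i j : Fin (2 ^ n), j.val = i.val + 1 →
      (A i ⊂ A j ∧ (A j).card = (A i).card + 1) ∨ (¬ A i ⊂ A j ∧ (A i).card = (A j).card + 1) := by
    intro i j hij
    obtain ⟨h, hc⟩ := hA1 i j hij
    rcases h with h | h
    · left
      refine ⟨h, ?_⟩
      have h1 : symmDiff (A i) (A j) = A j \ A i := by
        rw [symmDiff_def]
        simp [Finset.sdiff_eq_empty_iff_subset.2 h.1]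
      rw [h1, Finset.card_sdiff_of_subset h.1] at hc
      have := Finset.card_lt_card h
      omega
    · right
      refine ⟨fun h' => (h.1.trans h'.1 |> fun _ => h'.2 h.1), ?_⟩
      have h1 : symmDiff (A i) (A j) = A i \ A j := by
        rw [symmDiff_def]
        simp [Finset.sdiff_eq_empty_iff_subset.2 h.1]
      rw [h1, Finset.card_sdiff_of_subset h.1] at hc
      have := Finset.card_lt_card h
      omega
  -- counting
  have hcount : ∀ m : ℕ, ∀ hm : m < 2 ^ n,
      2 * (K.filter (fun p => p.val < m)).card = m + (A ⟨m, hm⟩).card := by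
    intro m
    induction m with
    | zero =>
      intro hm
      have h0 : A ⟨0, hm⟩ = ∅ := hA0 _ rfl
      rw [h0]
      simp
    | succ m ih =>
      intro hm
      have hm' : m < 2 ^ n := by omega
      have ih' := ih hm'
      have hs := hstep ⟨m, hm'⟩ ⟨m + 1, hm⟩ rfl
      by_cases hmK : (⟨m, hm'⟩ : Fin (2 ^ n)) ∈ K
      · have h1 : K.filter (fun p => p.val < m + 1) =
            insert ⟨m, hm'⟩ (K.filter (fun p => p.val < m)) := by
          ext p
          simp only [Finset.mem_filter, Finset.mem_insert, Fin.ext_iff]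
          constructor
          · rintro ⟨hp, hlt⟩
            by_cases hpm : p.val = m
            · exact Or.inl hpm
            · exact Or.inr ⟨hp, by omega⟩
          · rintro (hp | ⟨hp, hlt⟩)
            · have : p = ⟨m, hm'⟩ := Fin.ext hp
              exact ⟨this ▸ hmK, by omega⟩
            · exact ⟨hp, by omega⟩
        have h2 : (⟨m, hm'⟩ : Fin (2 ^ n)) ∉ K.filter (fun p => p.val < m) := by
          simp
        rw [h1, Finset.card_insert_of_notMem h2]
        have h3 := (hmem _).1 hmK ⟨m + 1, hm⟩ rfl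
        rcases hs with hs | hs
        · omega
        · exact absurd h3 hs.1
      · have h1 : K.filter (fun p => p.val < m + 1) = K.filter (fun p => p.val < m) := by
          ext p
          simp only [Finset.mem_filter]
          constructor
          · rintro ⟨hp, hlt⟩
            refine ⟨hp, ?_⟩
            rcases Nat.lt_succ_iff_lt_or_eq.1 hlt with h | h
            · exact h
            · exfalso
              apply hmK
              have : p = ⟨m, hm'⟩ := Fin.ext h
              exact this ▸ hp
          · rintro ⟨hp, hlt⟩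
            exact ⟨hp, by omega⟩
        rw [h1]
        rcases hs with hs | hs
        · exfalso
          apply hmK
          rw [hmem]
          intro q hq
          have : q = ⟨m + 1, hm⟩ := Fin.ext hq
          rw [this]
          exact hs.1
        · omega
  -- the last set
  have hlast : 2 ^ n - 1 < 2 ^ n := by omega
  set z : Fin (2 ^ n) := ⟨2 ^ n - 1, hlast⟩ with hz
  have hzK : z ∈ K := by
    rw [hmem]
    intro q hq
    exfalso
    have := q.2
    rw [hz] at hq
    simp only at hq
    omega
  have hKcard : K.card = (K.filter (fun p => p.val < 2 ^ n - 1)).card + 1 := by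
    have h1 : K = insert z (K.filter (fun p => p.val < 2 ^ n - 1)) := by
      ext p
      simp only [Finset.mem_filter, Finset.mem_insert]
      constructor
      · intro hp
        by_cases h : p.val < 2 ^ n - 1
        · exact Or.inr ⟨hp, h⟩
        · left
          apply Fin.ext
          have := p.2
          rw [hz]
          simp only
          omega
      · rintro (rfl | ⟨hp, -⟩)
        · exact hzK
        · exact hp
    have h2 : z ∉ K.filter (fun p => p.val < 2 ^ n - 1) := by
      rw [hz]; simp
    conv_lhs => rw [h1]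
    rw [Finset.card_insert_of_notMem h2]
  have hr1 : (A z).card ≤ n := by simpa using Finset.card_le_univ (A z)
  have hr2 : n ≤ (A z).card + 1 := by
    obtain ⟨j, hj⟩ := A.surjective Finset.univ
    by_cases hjz : j = z
    · rw [← hjz, hj]; simp
    · have h1 : A z ⊂ A j := by
        rw [hj]
        rw [Finset.ssubset_univ_iff, ← hj]
        intro h
        exact hjz (A.injective h.symm)
      have h2 : j < z := by
        rw [Fin.lt_def, hz]
        have := j.2
        have h3 : j.val ≠ 2 ^ n - 1 := fun h => hjz (Fin.ext h)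
        simp only
        omega
      have h3 := hA2 z j h1 h2
      have h4 := hstep j z h3
      have h5 : (A j).card = n := by rw [hj]; simp
      omega
  have hcz := hcount (2 ^ n - 1) hlast
  have hcardK : K.card = 2 ^ (n - 1) + (n + 1) / 2 := by
    obtain ⟨m, rfl⟩ : ∃ m, n = m + 1 := ⟨n - 1, by omega⟩
    have hp : 2 ^ (m + 1) = 2 * 2 ^ m := by ring
    rw [← hz] at hcz
    simp only [Nat.add_sub_cancel]
    omega
  set e := K.orderEmbOfFin hcardK with he
  have heK : ∀ i, e i ∈ K := fun i => Finset.orderEmbOfFin_mem K hcardK i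
  have hsurj : ∀ p ∈ K, ∃ i, e i = p := by
    intro p hp
    have : p ∈ Set.range e := by
      rw [he, Finset.range_orderEmbOfFin]; exact hp
    exact this
  have hlater : ∀ p q : Fin (2 ^ n), p ∈ K → p < q → ¬ A q ⊆ A p := by
    intro p q hp hpq hsub
    have hss : A q ⊂ A p := by
      refine lt_of_le_of_ne hsub ?_
      intro h
      exact (ne_of_gt hpq) (A.injective h)
    have h1 := hA2 q p hss hpq
    have h2 := (hmem p).1 hp q h1
    exact hss.2 h2.1
  refine ⟨fun i => A (e i), ?_, ?_, ?_, ?_⟩
  · intro i j hij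
    exact e.injective (A.injective hij)
  · intro i hi
    have h0 : (⟨0, by omega⟩ : Fin (2 ^ n)) ∈ K := by
      rw [hmem]
      intro q hq
      have h1 : A ⟨0, by omega⟩ = ∅ := hA0 _ rfl
      rw [h1, Finset.empty_ssubset, Finset.nonempty_iff_ne_empty]
      intro h
      have := A.injective (h.trans h1.symm)
      rw [this] at hq
      simp at hq
    obtain ⟨k, hk⟩ := hsurj _ h0
    have hik : i ≤ k := by rw [Fin.le_def]; omega
    have h1 : e i ≤ e k := e.monotone hik
    apply hA0
    rw [hk, Fin.le_def] at h1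
    simpa using h1
  · intro i j hij
    exact hlater _ _ (heK i) (e.strictMono (by rw [Fin.lt_def]; omega))
  · intro i j k hij hjk hsub
    change A (e k) ⊆ A (e i) ∪ A (e j) at hsub
    have hpp : e i < e j := e.strictMono (by rw [Fin.lt_def]; omega)
    have hpq : e j < e k := e.strictMono hjk
    -- the next element of K
    have hnext : ∀ p ∈ K, e i < p → e j ≤ p := by
      intro p hp hlt
      obtain ⟨l, rfl⟩ := hsurj p hp
      have h1 : i < l := e.lt_iff_lt.1 hlt
      apply e.monotone
      rw [Fin.le_def]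
      rw [Fin.lt_def] at h1
      omega
    rw [Fin.lt_def] at hpp hpq
    have hb1 : (e i).val + 1 < 2 ^ n := lt_of_le_of_lt hpp (e j).2
    set p1 : Fin (2 ^ n) := ⟨(e i).val + 1, hb1⟩ with hp1
    have hup : A (e i) ⊂ A p1 := (hmem _).1 (heK i) p1 rfl
    by_cases hK1 : p1 ∈ K
    · have h1 : e j = p1 := by
        apply le_antisymm
        · apply hnext p1 hK1
          rw [Fin.lt_def, hp1]; simp
        · rw [Fin.le_def, hp1]; simp only; omega
      rw [h1] at hsub
      have h2 : A (e i) ∪ A p1 = A p1 := Finset.union_eq_right.2 hup.1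
      rw [h2] at hsub
      refine hlater p1 (e k) hK1 ?_ hsub
      rw [← h1, Fin.lt_def]; exact hpq
    · have h3 : ∃ q : Fin (2 ^ n), q.val = p1.val + 1 ∧ ¬ A p1 ⊂ A q := by
        by_contra hcon
        push Not at hcon
        exact hK1 ((hmem p1).2 hcon)
      obtain ⟨p2, hp2, hns⟩ := h3
      have hdown : A p2 ⊂ A p1 := by
        rcases (hA1 p1 p2 hp2).1 with h | h
        · exact absurd h hns
        · exact h
      have hp1v : p1.val = (e i).val + 1 := rfl
      have hK2 : p2 ∈ K := by
        rw [hmem]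
        intro p3 hp3
        rcases (hA1 p2 p3 hp3).1 with h | h
        · exact h
        · exfalso
          have h4 : A p3 ⊂ A p1 := h.trans hdown
          have h5 := hA2 p3 p1 h4 (by rw [Fin.lt_def]; omega)
          omega
      have hej : e j = p2 := by
        apply le_antisymm
        · apply hnext p2 hK2
          rw [Fin.lt_def]; omega
        · rw [Fin.le_def]
          have h6 : e j ≠ p1 := fun h => hK1 (h ▸ heK j)
          have h7 : (e j).val ≠ p1.val := fun h => h6 (Fin.ext h)
          omega
      have hsub2 : A (e k) ⊆ A p1 := by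
        refine hsub.trans ?_
        rw [hej]
        exact Finset.union_subset hup.1 hdown.1
      have hejv : (e j).val = p2.val := by rw [hej]
      have hss : A (e k) ⊂ A p1 := by
        refine lt_of_le_of_ne hsub2 ?_
        intro h
        have h8 : (e k).val = p1.val := by rw [A.injective h]
        omega
      have h9 := hA2 (e k) p1 hss (by rw [Fin.lt_def]; omega)
      omega

/-- the exact value, from an admissible ordering of all subsets -/
theorem exact_of_order (n : ℕ) (hn : 1 ≤ n)
    (h : ∃ A : Fin (2 ^ n) ≃ Finset (Fin n),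
        (∀ i : Fin (2 ^ n), i.val = 0 → A i = ∅) ∧
        (∀ i j : Fin (2 ^ n), j.val = i.val + 1 →
            (A i ⊂ A j ∨ A j ⊂ A i) ∧ (symmDiff (A i) (A j)).card = 1) ∧
        (∀ i j : Fin (2 ^ n), A i ⊂ A j → j < i → i.val = j.val + 1)) :
    IsGreatest {s : ℕ | ∃ B : Fin s → Finset (Fin n),
      Function.Injective B ∧
      (∀ i : Fin s, i.val = 0 → B i = ∅) ∧
      (∀ i j : Fin s, j.val = i.val + 1 → ¬ B j ⊆ B i) ∧
      (∀ i j k : Fin s, j.val = i.val + 1 → j < k → ¬ B k ⊆ B i ∪ B j)}
      (2 ^ (n - 1) + (n + 1) / 2) := by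
  constructor
  · obtain ⟨A, h0, h1, h2⟩ := h
    exact lower n hn A h0 h1 h2
  · rintro s ⟨B, -, -, h1, h2⟩
    exact upper n s hn B h1 h2

end Pool.Agent.Helper945.AlphaExact
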