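import Mathlib

set_option autoImplicit false

open PowerSeries Finset

namespace Pool.Agent.Helper945.Disc

/-- tail sequence: inverse of `(1 - X) * U`. -/
noncomputable def H (u : ℕ → ℝ) (n : ℕ) : ℝ :=
  coeff n (((1 - X) * PowerSeries.mk u : PowerSeries ℝ)⁻¹)

lemma key_inv (u : ℕ → ℝ) (hu : u 0 = 1) :
    ((1 - X) * PowerSeries.mk u : PowerSeries ℝ) * PowerSeries.mk (H u) = 1 := by
  have h : PowerSeries.mk (H u) = ((1 - X) * PowerSeries.mk u : PowerSeries ℝ)⁻¹ := by
    ext n
    simp [H]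
  rw [h]
  apply PowerSeries.mul_inv_cancel
  simp [hu]

lemma H_zero (u : ℕ → ℝ) (hu : u 0 = 1) : H u 0 = 1 := by
  have h := congrArg (coeff 0) (key_inv u hu)
  simpa [hu] using h

lemma coeff_one_sub_X_mul (φ : PowerSeries ℝ) (n : ℕ) :
    coeff (n + 1) ((1 - X) * φ) = coeff (n + 1) φ - coeff n φ := by
  rw [sub_mul, one_mul, map_sub, coeff_succ_X_mul]

lemma H_succ (u : ℕ → ℝ) (hu : u 0 = 1) (n : ℕ) :
    H u (n + 1) = ∑ k ∈ range (n + 1), (u k - u (k + 1)) * H u (n - k) := by
  have h := congrArg (coeff (n + 1)) (key_inv u hu)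
  rw [coeff_mul, Finset.Nat.sum_antidiagonal_eq_sum_range_succ
    (fun i j => coeff i ((1 - X) * PowerSeries.mk u : PowerSeries ℝ) * coeff j (PowerSeries.mk (H u))),
    Finset.sum_range_succ'] at h
  simp only [coeff_one_sub_X_mul, coeff_mk, Nat.add_sub_add_right, Nat.sub_zero] at h
  have h0 : coeff 0 ((1 - X) * PowerSeries.mk u : PowerSeries ℝ) = 1 := by simp [hu]
  rw [h0, one_mul] at h
  have h1 : coeff (n + 1) (1 : PowerSeries ℝ) = 0 := by
    rw [coeff_one]; simp
  rw [h1] at h
  have h2 : ∑ k ∈ range (n + 1), (u k - u (k + 1)) * H u (n - k) =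
      - ∑ k ∈ range (n + 1), (u (k + 1) - u k) * H u (n - k) := by
    rw [← Finset.sum_neg_distrib]
    apply Finset.sum_congr rfl
    intro k _
    ring
  rw [h2]
  linarith

/-- The renewal equation: `H k - H (k+1)` is the probability of a gap `k+1`. -/
lemma renewal (u : ℕ → ℝ) (hu : u 0 = 1) (n : ℕ) :
    u (n + 1) = ∑ k ∈ range (n + 1), (H u k - H u (k + 1)) * u (n - k) := by
  have h' : ((1 - X) * PowerSeries.mk (H u) : PowerSeries ℝ) * PowerSeries.mk u = 1 := by
    linear_combination key_inv u hu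
  have h := congrArg (coeff (n + 1)) h'
  rw [coeff_mul, Finset.Nat.sum_antidiagonal_eq_sum_range_succ
    (fun i j => coeff i ((1 - X) * PowerSeries.mk (H u) : PowerSeries ℝ) * coeff j (PowerSeries.mk u)),
    Finset.sum_range_succ'] at h
  simp only [coeff_one_sub_X_mul, coeff_mk, Nat.add_sub_add_right, Nat.sub_zero] at h
  have h0 : coeff 0 ((1 - X) * PowerSeries.mk (H u) : PowerSeries ℝ) = 1 := by simp [H_zero u hu]
  rw [h0, one_mul] at h
  have h1 : coeff (n + 1) (1 : PowerSeries ℝ) = 0 := by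
    rw [coeff_one]; simp
  rw [h1] at h
  have h2 : ∑ k ∈ range (n + 1), (H u k - H u (k + 1)) * u (n - k) =
      - ∑ k ∈ range (n + 1), (H u (k + 1) - H u k) * u (n - k) := by
    rw [← Finset.sum_neg_distrib]
    apply Finset.sum_congr rfl
    intro k _
    ring
  rw [h2]
  linarith

/-- The second order identity. -/
lemma H_second (u : ℕ → ℝ) (hu : u 0 = 1) (x : ℝ) (hu1 : u 1 = x) (n : ℕ) :
    H u (n + 1) - H u (n + 2) =
      ∑ k ∈ range (n + 1), (u (k + 2) - (1 + x) * u (k + 1) + x * u k) * H u (n - k) := by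
  have e1 := H_succ u hu (n + 1)
  have e2 := H_succ u hu n
  rw [Finset.sum_range_succ'] at e1
  simp only [Nat.sub_zero, Nat.add_sub_add_right, zero_add, hu, hu1] at e1
  have e3 : ∑ k ∈ range (n + 1), (u (k + 2) - (1 + x) * u (k + 1) + x * u k) * H u (n - k) =
      x * ∑ k ∈ range (n + 1), (u k - u (k + 1)) * H u (n - k)
        - ∑ k ∈ range (n + 1), (u (k + 1) - u (k + 1 + 1)) * H u (n - k) := by
    rw [Finset.mul_sum, ← Finset.sum_sub_distrib]
    apply Finset.sum_congr rfl
    intro k _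
    ring
  rw [e3, ← e2, e1]
  ring

/-- the perturbed sequence -/
noncomputable def useq (x : ℝ) (M : ℕ) (κ : ℕ → ℝ) (n : ℕ) : ℝ :=
  x ^ (min n (2 * M)) + x ^ (2 * M) * κ n

structure Hyp (x δ ρ : ℝ) (M : ℕ) (κ : ℕ → ℝ) : Prop where
  hx0 : 0 < x
  hx1 : x < 1
  hM : 1 ≤ M
  hρ : 2 * ρ = x ^ M - x ^ (2 * M)
  hκ1 : ∀ n, n ≤ 4 * M → κ n = 0
  hκ2 : ∀ n, 6 * M ≤ n → κ n = 0
  hδ0 : 0 ≤ δ
  hd1 : ∀ n, |κ (n + 1) - κ n| ≤ δ * (1 - x)
  hd2 : ∀ n, |κ (n + 2) - (1 + x) * κ (n + 1) + x * κ n| ≤ δ * (1 - x) ^ 2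
  hs1 : 3 * δ ≤ ρ ^ 6
  hs2 : 3 * δ ≤ x ^ (2 * M) * ρ ^ 5

section Main

variable {x δ ρ : ℝ} {M : ℕ} {κ : ℕ → ℝ}

lemma useq_zero (h : Hyp x δ ρ M κ) : useq x M κ 0 = 1 := by
  simp [useq, h.hκ1 0 (Nat.zero_le _)]

lemma useq_one (h : Hyp x δ ρ M κ) : useq x M κ 1 = x := by
  have hM := h.hM
  have h1 : min 1 (2 * M) = 1 := by omega
  simp [useq, h.hκ1 1 (by omega), h1]

lemma rho_pos (h : Hyp x δ ρ M κ) : 0 < ρ := by
  have hM := h.hM
  have : x ^ (2 * M) < x ^ M := pow_lt_pow_right_of_lt_one₀ h.hx0 h.hx1 (by omega)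
  have := h.hρ
  linarith

lemma rho_lt_one (h : Hyp x δ ρ M κ) : ρ < 1 := by
  have h1 : x ^ M ≤ 1 := pow_le_one₀ h.hx0.le h.hx1.le
  have h2 : 0 < x ^ (2 * M) := pow_pos h.hx0 _
  have := h.hρ
  linarith

lemma useq_second (_h : Hyp x δ ρ M κ) (k : ℕ) :
    useq x M κ (k + 2) - (1 + x) * useq x M κ (k + 1) + x * useq x M κ k =
      (if k + 1 = 2 * M then x ^ (2 * M) * (1 - x) else 0)
        + x ^ (2 * M) * (κ (k + 2) - (1 + x) * κ (k + 1) + x * κ k) := by
  have key : x ^ (min (k + 2) (2 * M)) - (1 + x) * x ^ (min (k + 1) (2 * M))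
      + x * x ^ (min k (2 * M)) = (if k + 1 = 2 * M then x ^ (2 * M) * (1 - x) else 0) := by
    rcases lt_trichotomy (k + 1) (2 * M) with h1 | h1 | h1
    · rw [if_neg (by omega), min_eq_left (by omega), min_eq_left (by omega), min_eq_left (by omega)]
      ring
    · rw [if_pos h1, ← h1, min_eq_right (by omega), min_eq_left (by omega), min_eq_left (by omega)]
      ring
    · rw [if_neg (by omega), min_eq_right (by omega), min_eq_right (by omega),
        min_eq_right (by omega)]
      ring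
  simp only [useq]
  linear_combination key

lemma D_zero_left (h : Hyp x δ ρ M κ) {k : ℕ} (hk : k + 2 ≤ 4 * M) :
    κ (k + 2) - (1 + x) * κ (k + 1) + x * κ k = 0 := by
  rw [h.hκ1 _ hk, h.hκ1 _ (by omega), h.hκ1 _ (by omega)]; ring

lemma D_zero_right (h : Hyp x δ ρ M κ) {k : ℕ} (hk : 6 * M ≤ k) :
    κ (k + 2) - (1 + x) * κ (k + 1) + x * κ k = 0 := by
  rw [h.hκ2 _ (by omega), h.hκ2 _ (by omega), h.hκ2 _ hk]; ring

lemma fform (h : Hyp x δ ρ M κ) (n : ℕ) :
    H (useq x M κ) (n + 1) - H (useq x M κ) (n + 2) =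
      (if 2 * M ≤ n + 1 then x ^ (2 * M) * (1 - x) * H (useq x M κ) (n + 1 - 2 * M) else 0)
      + x ^ (2 * M) * ∑ k ∈ range (n + 1),
        (κ (k + 2) - (1 + x) * κ (k + 1) + x * κ k) * H (useq x M κ) (n - k) := by
  have hM := h.hM
  rw [H_second _ (useq_zero h) x (useq_one h)]
  rw [Finset.mul_sum]
  have h1 : ∀ k ∈ range (n + 1), (useq x M κ (k + 2) - (1 + x) * useq x M κ (k + 1)
      + x * useq x M κ k) * H (useq x M κ) (n - k) =
      (if k = 2 * M - 1 then x ^ (2 * M) * (1 - x) * H (useq x M κ) (n - k) else 0) +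
      x ^ (2 * M) * ((κ (k + 2) - (1 + x) * κ (k + 1) + x * κ k) * H (useq x M κ) (n - k)) := by
    intro k _
    rw [useq_second h k]
    by_cases hk : k + 1 = 2 * M
    · rw [if_pos hk, if_pos (by omega)]; ring
    · rw [if_neg hk, if_neg (by omega)]; ring
  rw [Finset.sum_congr rfl h1, Finset.sum_add_distrib]
  congr 1
  rw [Finset.sum_ite_eq' (range (n + 1)) (2 * M - 1)]
  by_cases h2 : 2 * M ≤ n + 1
  · rw [if_pos h2, if_pos (by rw [Finset.mem_range]; omega)]
    congr 2
    omega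
  · rw [if_neg h2, if_neg (by rw [Finset.mem_range]; omega)]

lemma H_one (h : Hyp x δ ρ M κ) : H (useq x M κ) 1 = 1 - x := by
  rw [H_succ _ (useq_zero h) 0]
  simp [useq_zero h, useq_one h, H_zero _ (useq_zero h)]

lemma H_init (h : Hyp x δ ρ M κ) : ∀ j, 1 ≤ j → j ≤ 2 * M → H (useq x M κ) j = 1 - x := by
  intro j hj
  induction j, hj using Nat.le_induction with
  | base => intro _; exact H_one h
  | succ j hj ih =>
    intro hj2
    have h1 := ih (by omega)
    obtain ⟨n, rfl⟩ : ∃ n, j = n + 1 := ⟨j - 1, by omega⟩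
    have h2 := fform h n
    rw [if_neg (by omega), Finset.sum_eq_zero, mul_zero, add_zero] at h2
    · rw [show n + 1 + 1 = n + 2 by ring]
      linarith
    · intro k hk
      rw [Finset.mem_range] at hk
      rw [D_zero_left h (by omega), zero_mul]

/-- the induction statement -/
def St (u : ℕ → ℝ) (ρ : ℝ) (M n : ℕ) : Prop :=
  (∀ j, 1 ≤ j → j ≤ n → 0 < H u j) ∧ (∀ j, 1 ≤ j → j + 1 ≤ n → H u (j + 1) ≤ H u j) ∧
    (∀ j, 1 ≤ j → j + M ≤ n → ρ * H u j ≤ H u (j + M))

lemma St.anti {u : ℕ → ℝ} {n : ℕ} (h : St u ρ M n) {i j : ℕ} (hi : 1 ≤ i) (hij : i ≤ j)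
    (hj : j ≤ n) : H u j ≤ H u i := by
  induction j, hij using Nat.le_induction with
  | base => exact le_rfl
  | succ j hij ih => exact (h.2.1 j (by omega) hj).trans (ih (by omega))

lemma St.chain (h : Hyp x δ ρ M κ) {n : ℕ} (hS : St (useq x M κ) ρ M n) :
    ∀ r j i : ℕ, 1 ≤ i → i ≤ j → j ≤ n → j ≤ i + r * M →
      ρ ^ r * H (useq x M κ) i ≤ H (useq x M κ) j := by
  have hρ0 := rho_pos h
  have hρ1 := rho_lt_one h
  intro r
  induction r with
  | zero =>
    intro j i hi hij hj hr
    have : j = i := by omega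
    subst this
    simp
  | succ r ih =>
    intro j i hi hij hj hr
    have hHi := hS.1 i hi (by omega)
    have hpr : ρ ^ r ≤ 1 := pow_le_one₀ hρ0.le hρ1.le
    have hpr0 : 0 < ρ ^ r := pow_pos hρ0 r
    rcases le_or_gt j M with hjM | hjM
    · rw [H_init h j (by omega) (by omega), H_init h i hi (by omega)]
      have : ρ ^ (r + 1) ≤ 1 := pow_le_one₀ hρ0.le hρ1.le
      have hx := h.hx1
      nlinarith
    · have h1 := hS.2.2 (j - M) (by omega) (by omega)
      rw [Nat.sub_add_cancel hjM.le] at h1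
      rcases le_or_gt i (j - M) with h2 | h2
      · have h3 := ih (j - M) i hi h2 (by omega) (by
          have : (r + 1) * M = r * M + M := by ring
          omega)
        calc ρ ^ (r + 1) * H (useq x M κ) i = ρ * (ρ ^ r * H (useq x M κ) i) := by ring
          _ ≤ ρ * H (useq x M κ) (j - M) := by gcongr
          _ ≤ _ := h1
      · have h3 := hS.anti (i := j - M) (j := i) (by omega) h2.le (by omega)
        calc ρ ^ (r + 1) * H (useq x M κ) i = ρ ^ r * (ρ * H (useq x M κ) i) := by ring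
          _ ≤ 1 * (ρ * H (useq x M κ) i) := by gcongr
          _ ≤ ρ * H (useq x M κ) (j - M) := by rw [one_mul]; gcongr
          _ ≤ _ := h1

lemma two_M_mul_le (h : Hyp x δ ρ M κ) : (2 * M : ℝ) * (1 - x) * x ^ (2 * M) ≤ 1 := by
  have h1 : (1 - x) * ∑ k ∈ range (2 * M), x ^ k = 1 - x ^ (2 * M) := by
    have := mul_neg_geom_sum x (2 * M)
    exact this
  have h2 : (2 * M : ℝ) * x ^ (2 * M) ≤ ∑ k ∈ range (2 * M), x ^ k := by
    have : ∑ k ∈ range (2 * M), x ^ (2 * M) ≤ ∑ k ∈ range (2 * M), x ^ k := by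
      apply Finset.sum_le_sum
      intro k hk
      rw [Finset.mem_range] at hk
      exact pow_le_pow_of_le_one h.hx0.le h.hx1.le hk.le
    simpa using this
  have h3 : 0 < x ^ (2 * M) := pow_pos h.hx0 _
  have h4 := h.hx1
  nlinarith

lemma sum_bound (h : Hyp x δ ρ M κ) {c : ℕ → ℝ} {β C : ℝ} (m : ℕ) (hβ : 0 ≤ β)
    (hC : 0 ≤ C) (hc : ∀ k, |c k| ≤ β) (hc0 : ∀ k, c k ≠ 0 → 4 * M - 1 ≤ k ∧ k < 6 * M)
    (hpos : ∀ k, k < m → 0 ≤ H (useq x M κ) (m - k))
    (hC1 : ∀ k, 4 * M - 1 ≤ k → k < 6 * M → k < m → H (useq x M κ) (m - k) ≤ C)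
    (hC2 : 4 * M - 1 ≤ m → m < 6 * M → 1 - x ≤ C) :
    x ^ (2 * M) * |∑ k ∈ range (m + 1), c k * H (useq x M κ) (m - k)| * (1 - x) ≤ 3 * (β * C) := by
  have hx1 := h.hx1
  have hy : 0 < 1 - x := by linarith
  have hM := h.hM
  have hterm : ∀ k ∈ range (m + 1), |c k * H (useq x M κ) (m - k)| * (1 - x) ≤
      (if k ∈ Finset.Ico (4 * M - 1) (6 * M) then β * C * (1 - x) else 0)
        + (if k = m then β * C else 0) := by
    intro k hk
    rw [Finset.mem_range] at hk
    by_cases hck : c k = 0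
    · rw [hck, zero_mul, abs_zero, zero_mul]
      have : 0 ≤ β * C := mul_nonneg hβ hC
      have : 0 ≤ β * C * (1 - x) := mul_nonneg this hy.le
      split_ifs <;> linarith
    · obtain ⟨h1, h2⟩ := hc0 k hck
      rw [if_pos (by rw [Finset.mem_Ico]; exact ⟨h1, h2⟩)]
      rw [abs_mul]
      rcases Nat.lt_or_ge k m with h3 | h3
      · rw [if_neg (by omega), add_zero, abs_of_nonneg (hpos k h3)]
        have := hC1 k h1 h2 h3
        have h4 := hpos k h3
        have h5 := hc k
        gcongr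
      · have hkm : k = m := by omega
        subst hkm
        rw [if_pos rfl, Nat.sub_self, H_zero _ (useq_zero h), abs_one, mul_one]
        have h5 := hc k
        have h6 := hC2 h1 h2
        have h7 : |c k| * (1 - x) ≤ β * C := by gcongr
        have h8 : 0 ≤ β * C * (1 - x) := mul_nonneg (mul_nonneg hβ hC) hy.le
        linarith
  have hsum : |∑ k ∈ range (m + 1), c k * H (useq x M κ) (m - k)| * (1 - x) ≤
      (2 * M + 1) * (β * C * (1 - x)) + β * C := by
    calc |∑ k ∈ range (m + 1), c k * H (useq x M κ) (m - k)| * (1 - x)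
        ≤ (∑ k ∈ range (m + 1), |c k * H (useq x M κ) (m - k)|) * (1 - x) := by
          gcongr
          exact Finset.abs_sum_le_sum_abs _ _
      _ = ∑ k ∈ range (m + 1), |c k * H (useq x M κ) (m - k)| * (1 - x) := by
          rw [Finset.sum_mul]
      _ ≤ ∑ k ∈ range (m + 1), ((if k ∈ Finset.Ico (4 * M - 1) (6 * M)
            then β * C * (1 - x) else 0) + (if k = m then β * C else 0)) :=
          Finset.sum_le_sum hterm
      _ = ∑ k ∈ range (m + 1), (if k ∈ Finset.Ico (4 * M - 1) (6 * M)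
            then β * C * (1 - x) else 0) + ∑ k ∈ range (m + 1), (if k = m then β * C else 0) :=
          Finset.sum_add_distrib
      _ ≤ (2 * M + 1) * (β * C * (1 - x)) + β * C := by
          apply add_le_add
          · rw [← Finset.sum_filter, Finset.sum_const, nsmul_eq_mul]
            have h9 : 0 ≤ β * C * (1 - x) := mul_nonneg (mul_nonneg hβ hC) hy.le
            have h10 : ((Finset.filter (fun k => k ∈ Finset.Ico (4 * M - 1) (6 * M))
                (range (m + 1))).card : ℝ) ≤ 2 * M + 1 := by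
              have h11 : (Finset.filter (fun k => k ∈ Finset.Ico (4 * M - 1) (6 * M))
                  (range (m + 1))) ⊆ Finset.Ico (4 * M - 1) (6 * M) := by
                intro k hk
                exact (Finset.mem_filter.mp hk).2
              have h12 := Finset.card_le_card h11
              rw [Nat.card_Ico] at h12
              have h13 : (Finset.filter (fun k => k ∈ Finset.Ico (4 * M - 1) (6 * M))
                (range (m + 1))).card ≤ 2 * M + 1 := by omega
              exact_mod_cast h13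
            gcongr
          · rw [Finset.sum_ite_eq']
            rw [if_pos (by rw [Finset.mem_range]; omega)]
  have h14 := two_M_mul_le h
  have h15 : 0 < x ^ (2 * M) := pow_pos h.hx0 _
  have h16 : x ^ (2 * M) ≤ 1 := pow_le_one₀ h.hx0.le hx1.le
  have h17 : 0 ≤ β * C := mul_nonneg hβ hC
  calc x ^ (2 * M) * |∑ k ∈ range (m + 1), c k * H (useq x M κ) (m - k)| * (1 - x)
      = x ^ (2 * M) * (|∑ k ∈ range (m + 1), c k * H (useq x M κ) (m - k)| * (1 - x)) := by ring
    _ ≤ x ^ (2 * M) * ((2 * M + 1) * (β * C * (1 - x)) + β * C) := by gcongr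
    _ = ((2 * M : ℝ) * (1 - x) * x ^ (2 * M) + x ^ (2 * M) * (1 - x) + x ^ (2 * M)) * (β * C) := by
        ring
    _ ≤ (1 + 1 * 1 + 1) * (β * C) := by
        gcongr
        have := h.hx0
        linarith
    _ = 3 * (β * C) := by ring

lemma step_anti (h : Hyp x δ ρ M κ) {n : ℕ} (hn : 2 * M ≤ n) (hS : St (useq x M κ) ρ M n) :
    H (useq x M κ) (n + 1) ≤ H (useq x M κ) n := by
  have hM := h.hM
  have hx0 := h.hx0
  have hx1 := h.hx1
  have hρ0 := rho_pos h
  obtain ⟨m, rfl⟩ : ∃ m, n = m + 1 := ⟨n - 1, by omega⟩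
  have h1 := fform h m
  rw [if_pos hn] at h1
  rcases Nat.eq_or_lt_of_le hn with h2 | h2
  · rw [Finset.sum_eq_zero, mul_zero, add_zero, ← h2, Nat.sub_self, H_zero _ (useq_zero h),
      mul_one] at h1
    · have : 0 < x ^ (2 * M) * (1 - x) := mul_pos (pow_pos hx0 _) (by linarith)
      rw [show m + 1 + 1 = m + 2 by ring, ← h2]
      linarith
    · intro k hk
      rw [Finset.mem_range] at hk
      rw [D_zero_left h (by omega), zero_mul]
  · set J := m + 1 - 2 * M with hJ
    have hHJ := hS.1 J (by omega) (by omega)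
    have hb := sum_bound h (c := fun k => κ (k + 2) - (1 + x) * κ (k + 1) + x * κ k)
      (β := δ * (1 - x) ^ 2) (C := H (useq x M κ) J / ρ ^ 5) m
      (mul_nonneg h.hδ0 (by positivity)) (by positivity) h.hd2
      (fun k hk => by
        by_contra hcon
        rw [not_and_or, not_le, not_lt] at hcon
        rcases hcon with hcon | hcon
        · exact hk (D_zero_left h (by omega))
        · exact hk (D_zero_right h hcon))
      (fun k hk => (hS.1 (m - k) (by omega) (by omega)).le)
      (fun k hk1 hk2 hk3 => by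
        rw [le_div_iff₀ (by positivity), mul_comm]
        exact St.chain h hS 5 J (m - k) (by omega) (by omega) (by omega) (by omega))
      (fun hk1 hk2 => by
        rw [le_div_iff₀ (by positivity), mul_comm, ← H_one h]
        exact St.chain h hS 5 J 1 (by omega) (by omega) (by omega) (by omega))
    set Sg := ∑ k ∈ range (m + 1),
        (κ (k + 2) - (1 + x) * κ (k + 1) + x * κ k) * H (useq x M κ) (m - k) with hSg
    have hy : 0 < 1 - x := by linarith
    have h3 : x ^ (2 * M) * |Sg| ≤ x ^ (2 * M) * (1 - x) * H (useq x M κ) J := by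
      have h4 : 3 * (δ * (1 - x) ^ 2 * (H (useq x M κ) J / ρ ^ 5)) ≤
          (x ^ (2 * M) * (1 - x) * H (useq x M κ) J) * (1 - x) := by
        have h5 := h.hs2
        calc 3 * (δ * (1 - x) ^ 2 * (H (useq x M κ) J / ρ ^ 5))
            = (3 * δ) * ((1 - x) ^ 2 * (H (useq x M κ) J / ρ ^ 5)) := by ring
          _ ≤ (x ^ (2 * M) * ρ ^ 5) * ((1 - x) ^ 2 * (H (useq x M κ) J / ρ ^ 5)) := by gcongr
          _ = _ := by field_simp
      have h6 := hb.trans h4
      exact le_of_mul_le_mul_right h6 hy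
    have h7 : -(x ^ (2 * M) * |Sg|) ≤ x ^ (2 * M) * Sg := by
      have := neg_abs_le Sg
      have h8 : 0 < x ^ (2 * M) := pow_pos hx0 _
      nlinarith
    rw [show m + 1 + 1 = m + 2 by ring]
    linarith

lemma useq_diff (_h : Hyp x δ ρ M κ) (k : ℕ) :
    useq x M κ k - useq x M κ (k + 1) =
      (if k < 2 * M then x ^ k * (1 - x) else 0) - x ^ (2 * M) * (κ (k + 1) - κ k) := by
  have key : x ^ (min k (2 * M)) - x ^ (min (k + 1) (2 * M)) =
      (if k < 2 * M then x ^ k * (1 - x) else 0) := by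
    split_ifs with h1
    · rw [min_eq_left (by omega), min_eq_left (by omega)]; ring
    · rw [min_eq_right (by omega), min_eq_right (by omega)]; ring
  simp only [useq]
  linear_combination key

lemma step_harnack (h : Hyp x δ ρ M κ) {n : ℕ} (hn : 2 * M ≤ n) (hS : St (useq x M κ) ρ M n) :
    ρ * H (useq x M κ) (n + 1 - M) ≤ H (useq x M κ) (n + 1) := by
  have hM := h.hM
  have hx0 := h.hx0
  have hx1 := h.hx1
  have hy : 0 < 1 - x := by linarith
  have hρ0 := rho_pos h
  have h1 := H_succ _ (useq_zero h) n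
  have h2 : ∀ k ∈ range (n + 1), (useq x M κ k - useq x M κ (k + 1)) * H (useq x M κ) (n - k) =
      (if k < 2 * M then x ^ k * (1 - x) * H (useq x M κ) (n - k) else 0)
        - x ^ (2 * M) * ((κ (k + 1) - κ k) * H (useq x M κ) (n - k)) := by
    intro k _
    rw [useq_diff h]
    split_ifs <;> ring
  rw [Finset.sum_congr rfl h2, Finset.sum_sub_distrib, ← Finset.mul_sum] at h1
  have hHJ := hS.1 (n - M) (by omega) (by omega)
  have hb := sum_bound h (c := fun k => κ (k + 1) - κ k)
      (β := δ * (1 - x)) (C := H (useq x M κ) (n - M) / ρ ^ 5) n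
      (mul_nonneg h.hδ0 hy.le) (by positivity) h.hd1
      (fun k hk => by
        by_contra hcon
        rw [not_and_or, not_le, not_lt] at hcon
        rcases hcon with hcon | hcon
        · exact hk (by rw [h.hκ1 _ (by omega), h.hκ1 _ (by omega), sub_zero])
        · exact hk (by rw [h.hκ2 _ (by omega), h.hκ2 _ (by omega), sub_zero]))
      (fun k hk => (hS.1 (n - k) (by omega) (by omega)).le)
      (fun k hk1 hk2 hk3 => by
        rw [le_div_iff₀ (by positivity), mul_comm]
        exact St.chain h hS 5 (n - M) (n - k) (by omega) (by omega) (by omega) (by omega))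
      (fun hk1 hk2 => by
        rw [le_div_iff₀ (by positivity), mul_comm, ← H_one h]
        exact St.chain h hS 5 (n - M) 1 (by omega) (by omega) (by omega) (by omega))
  set Sg := ∑ k ∈ range (n + 1), (κ (k + 1) - κ k) * H (useq x M κ) (n - k) with hSg
  have h3 : x ^ (2 * M) * |Sg| ≤ ρ * H (useq x M κ) (n - M) := by
    have h4 : 3 * (δ * (1 - x) * (H (useq x M κ) (n - M) / ρ ^ 5)) ≤
        (ρ * H (useq x M κ) (n - M)) * (1 - x) := by
      have h5 := h.hs1
      calc 3 * (δ * (1 - x) * (H (useq x M κ) (n - M) / ρ ^ 5))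
          = (3 * δ) * ((1 - x) * (H (useq x M κ) (n - M) / ρ ^ 5)) := by ring
        _ ≤ (ρ ^ 6) * ((1 - x) * (H (useq x M κ) (n - M) / ρ ^ 5)) := by gcongr
        _ = _ := by field_simp
    exact le_of_mul_le_mul_right (hb.trans h4) hy
  have h6 : (x ^ M - x ^ (2 * M)) * H (useq x M κ) (n - M) ≤
      ∑ k ∈ range (n + 1), (if k < 2 * M then x ^ k * (1 - x) * H (useq x M κ) (n - k) else 0) := by
    have h7 : ∑ k ∈ Finset.Ico M (2 * M), x ^ k * (1 - x) = x ^ M - x ^ (2 * M) := by
      have e1 : ∀ k, x ^ k * (1 - x) = x ^ k - x ^ (k + 1) := by intro k; ring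
      simp_rw [e1]
      rw [Finset.sum_Ico_eq_sub _ (by omega), Finset.sum_range_sub', Finset.sum_range_sub']
      ring
    rw [← h7, Finset.sum_mul, ← Finset.sum_filter]
    calc ∑ k ∈ Finset.Ico M (2 * M), x ^ k * (1 - x) * H (useq x M κ) (n - M)
        ≤ ∑ k ∈ Finset.Ico M (2 * M), x ^ k * (1 - x) * H (useq x M κ) (n - k) := by
          apply Finset.sum_le_sum
          intro k hk
          rw [Finset.mem_Ico] at hk
          have := hS.anti (i := n - k) (j := n - M) (by omega) (by omega) (by omega)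
          gcongr
      _ ≤ _ := by
          apply Finset.sum_le_sum_of_subset_of_nonneg
          · intro k hk
            rw [Finset.mem_Ico] at hk
            rw [Finset.mem_filter, Finset.mem_range]
            omega
          · intro k hk _
            rw [Finset.mem_filter, Finset.mem_range] at hk
            have := hS.1 (n - k) (by omega) (by omega)
            positivity
  have h8 : x ^ (2 * M) * Sg ≤ x ^ (2 * M) * |Sg| := by
    have := le_abs_self Sg
    gcongr
  have h9 := h.hρ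
  have h10 : H (useq x M κ) (n + 1 - M) ≤ H (useq x M κ) (n - M) :=
    hS.anti (by omega) (by omega) (by omega)
  calc ρ * H (useq x M κ) (n + 1 - M) ≤ ρ * H (useq x M κ) (n - M) := by gcongr
    _ = (x ^ M - x ^ (2 * M)) * H (useq x M κ) (n - M) - ρ * H (useq x M κ) (n - M) := by
        rw [← h9]; ring
    _ ≤ _ := by rw [h1]; linarith

lemma St_all (h : Hyp x δ ρ M κ) : ∀ n, 2 * M ≤ n → St (useq x M κ) ρ M n := by
  have hM := h.hM
  have hx1 := h.hx1
  have hρ0 := rho_pos h
  have hρ1 := rho_lt_one h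
  intro n hn
  induction n, hn using Nat.le_induction with
  | base =>
    refine ⟨fun j h1 h2 => ?_, fun j h1 h2 => ?_, fun j h1 h2 => ?_⟩
    · rw [H_init h j h1 h2]; linarith
    · rw [H_init h j h1 (by omega), H_init h (j + 1) (by omega) h2]
    · rw [H_init h j h1 (by omega), H_init h (j + M) (by omega) h2]
      nlinarith
  | succ n hn ih =>
    have h1 := step_anti h hn ih
    have h2 := step_harnack h hn ih
    have h3 := ih.1 (n + 1 - M) (by omega) (by omega)
    refine ⟨fun j hj1 hj2 => ?_, fun j hj1 hj2 => ?_, fun j hj1 hj2 => ?_⟩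
    · rcases Nat.lt_or_ge n j with hj | hj
      · have : j = n + 1 := by omega
        subst this
        exact lt_of_lt_of_le (mul_pos hρ0 h3) h2
      · exact ih.1 j hj1 hj
    · rcases Nat.lt_or_ge n (j + 1) with hj | hj
      · have : j = n := by omega
        subst this
        exact h1
      · exact ih.2.1 j hj1 hj
    · rcases Nat.lt_or_ge n (j + M) with hj | hj
      · have : j + M = n + 1 := by omega
        rw [this]
        have h5 : j = n + 1 - M := by omega
        rw [h5]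
        exact h2
      · exact ih.2.2 j hj1 hj

lemma H_pos (h : Hyp x δ ρ M κ) (n : ℕ) : 0 < H (useq x M κ) n := by
  rcases Nat.eq_zero_or_pos n with h0 | h0
  · subst h0; rw [H_zero _ (useq_zero h)]; norm_num
  · exact (St_all h (2 * M + n) (by omega)).1 n h0 (by omega)

lemma H_anti (h : Hyp x δ ρ M κ) (n : ℕ) : H (useq x M κ) (n + 1) ≤ H (useq x M κ) n := by
  rcases Nat.eq_zero_or_pos n with h0 | h0
  · subst h0; rw [H_zero _ (useq_zero h), H_one h]; linarith [h.hx0]
  · exact (St_all h (2 * M + n + 1) (by omega)).2.1 n h0 (by omega)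

end Main

/-- A real sequence is a renewal sequence if it satisfies the renewal equation for some gap
distribution `f` (`f k` is the probability of a gap `k + 1`). -/
def IsRenewal (u : ℕ → ℝ) : Prop :=
  u 0 = 1 ∧ ∃ f : ℕ → ℝ, (∀ k, 0 ≤ f k) ∧ (∀ n, ∑ k ∈ range n, f k ≤ 1) ∧
    ∀ n, u (n + 1) = ∑ k ∈ range (n + 1), f k * u (n - k)

theorem isRenewal_of_hyp {x δ ρ : ℝ} {M : ℕ} {κ : ℕ → ℝ} (h : Hyp x δ ρ M κ) :
    IsRenewal (useq x M κ) := by
  refine ⟨useq_zero h, fun k => H (useq x M κ) k - H (useq x M κ) (k + 1),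
    fun k => by linarith [H_anti h k], fun n => ?_, fun n => renewal _ (useq_zero h) n⟩
  rw [Finset.sum_range_sub', H_zero _ (useq_zero h)]
  linarith [H_pos h n]

end Pool.Agent.Helper945.Disc
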