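import Pool.Agent.Helper945.RenThr

set_option autoImplicit false

open Finset

namespace Pool.Agent.Helper945.RenCore

/-! ### The binomial bound -/

/-- `j ^ j e^{-j} / j!`. -/
noncomputable def ph (j : ℕ) : ℝ := ((j : ℝ) / Real.exp 1) ^ j / (j.factorial : ℝ)

lemma ph_nonneg (j : ℕ) : 0 ≤ ph j := by unfold ph; positivity

lemma pow_exp_le (j : ℕ) (x : ℝ) (hx : 0 ≤ x) :
    x ^ j * Real.exp (-x) ≤ ((j : ℝ) / Real.exp 1) ^ j := by
  rcases Nat.eq_zero_or_pos j with rfl | hj
  · simp only [pow_zero, one_mul]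
    rw [Real.exp_le_one_iff]; linarith
  · have hj' : (0:ℝ) < j := by exact_mod_cast hj
    have h1 : x / j ≤ Real.exp (x / j - 1) := by
      have := Real.add_one_le_exp (x / j - 1)
      linarith
    have h2 : (x / j) ^ j ≤ Real.exp (x - j) := by
      have h3 := pow_le_pow_left₀ (by positivity) h1 j
      rw [← Real.exp_nat_mul] at h3
      have h4 : (j : ℝ) * (x / j - 1) = x - j := by field_simp
      rwa [h4] at h3
    have h3 : x ^ j ≤ (j:ℝ) ^ j * Real.exp (x - j) := by
      rw [div_pow, div_le_iff₀ (by positivity)] at h2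
      linarith
    calc x ^ j * Real.exp (-x) ≤ ((j:ℝ) ^ j * Real.exp (x - j)) * Real.exp (-x) :=
          mul_le_mul_of_nonneg_right h3 (Real.exp_pos _).le
      _ = (j:ℝ) ^ j * Real.exp (-j) := by
          rw [mul_assoc, ← Real.exp_add]; ring_nf
      _ = ((j : ℝ) / Real.exp 1) ^ j := by
          rw [div_pow, ← Real.exp_nat_mul, mul_one, Real.exp_neg]; rfl

lemma binom_bound (κ : ℝ) (h0 : 0 ≤ κ) (h1 : κ ≤ 1) (i j : ℕ) :
    ((i + j).choose j : ℝ) * (1 - κ) ^ i * κ ^ j ≤ Real.exp (κ * j) * ph j := by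
  have hc : ((i + j).choose j : ℝ) ≤ ((i + j : ℕ) : ℝ) ^ j / (j.factorial : ℝ) :=
    Nat.choose_le_pow_div j (i + j)
  have h2 : (1 - κ) ^ i ≤ Real.exp (-(κ * i)) := by
    have h3 : 1 - κ ≤ Real.exp (-κ) := by
      have := Real.add_one_le_exp (-κ); linarith
    have h4 := pow_le_pow_left₀ (by linarith) h3 i
    rw [← Real.exp_nat_mul] at h4
    rwa [show (i:ℝ) * -κ = -(κ * i) by ring] at h4
  have h5 := pow_exp_le j (κ * ((i + j : ℕ) : ℝ)) (by positivity)
  calc ((i + j).choose j : ℝ) * (1 - κ) ^ i * κ ^ j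
      ≤ (((i + j : ℕ) : ℝ) ^ j / (j.factorial : ℝ)) * Real.exp (-(κ * i)) * κ ^ j := by
        refine mul_le_mul_of_nonneg_right ?_ (by positivity)
        exact mul_le_mul hc h2 (pow_nonneg (by linarith) _) (by positivity)
    _ = Real.exp (κ * j) * (((κ * ((i + j : ℕ) : ℝ)) ^ j * Real.exp (-(κ * ((i + j : ℕ) : ℝ))))
          / (j.factorial : ℝ)) := by
        have h6 : Real.exp (-(κ * i)) = Real.exp (κ * j) * Real.exp (-(κ * ((i + j : ℕ) : ℝ))) := by
          rw [← Real.exp_add]; push_cast; ring_nf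
        rw [h6, mul_pow]
        ring
    _ ≤ Real.exp (κ * j) * ph j := by
        refine mul_le_mul_of_nonneg_left ?_ (Real.exp_pos _).le
        unfold ph
        exact div_le_div_of_nonneg_right h5 (by positivity)

lemma ph_le_sqrt (j : ℕ) (hj : 1 ≤ j) : ph j ≤ 1 / Real.sqrt (2 * Real.pi * j) := by
  have hj' : (0:ℝ) < j := by exact_mod_cast hj
  have hs : 0 < Real.sqrt (2 * Real.pi * j) := Real.sqrt_pos.mpr (by positivity)
  have h1 := Stirling.le_factorial_stirling j
  unfold ph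
  rw [div_le_div_iff₀ (by positivity) hs, one_mul, mul_comm]
  exact h1

lemma ph_le_inv_exp (j : ℕ) (hj : 1 ≤ j) : ph j ≤ Real.exp (-1) := by
  rcases eq_or_lt_of_le hj with rfl | hj2
  · unfold ph
    rw [Real.exp_neg]
    simp
  · refine (ph_le_sqrt j hj).trans ?_
    have hj' : (2:ℝ) ≤ j := by exact_mod_cast hj2
    have hpi := Real.pi_gt_three
    have h1 : (3:ℝ) ≤ Real.sqrt (2 * Real.pi * j) := by
      rw [Real.le_sqrt (by norm_num) (by positivity)]
      nlinarith
    have h2 : Real.exp 1 ≤ 3 := by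
      have := Real.exp_one_lt_d9; linarith
    rw [Real.exp_neg, ← one_div]
    exact one_div_le_one_div_of_le (Real.exp_pos 1) (h2.trans h1)

lemma ph_le_inv_sqrt (j J : ℕ) (hJ : 1 ≤ J) (hj : J ≤ j) : ph j ≤ 1 / Real.sqrt J := by
  have hJ' : (0:ℝ) < J := by exact_mod_cast hJ
  refine (ph_le_sqrt j (hJ.trans hj)).trans ?_
  refine one_div_le_one_div_of_le (Real.sqrt_pos.mpr hJ') (Real.sqrt_le_sqrt ?_)
  have hpi := Real.pi_gt_three
  have : (J:ℝ) ≤ j := by exact_mod_cast hj
  nlinarith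

/-! ### Deep excursions -/

lemma deep_sum {g : ℕ → ℝ} (G : GapLaw g) (N b : ℕ) : ∀ K n, n ≤ N →
    ∑ k ∈ range (K + 1), Ex g N k (fun l => if l.sum = n then (ws b l : ℝ) else 0)
      ≤ K * ∑ m ∈ range b, (m : ℝ) * g m := by
  set M : ℝ := ∑ m ∈ range b, (m : ℝ) * g m with hM
  have hM0 : 0 ≤ M := sum_nonneg fun m _ => mul_nonneg (Nat.cast_nonneg m) (G.nonneg m)
  intro K
  induction K with
  | zero =>
    intro n _
    simp [Ex, ws]
  | succ K ih =>
    intro n hn
    rw [sum_range_succ']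
    have h0 : Ex g N 0 (fun l => if l.sum = n then (ws b l : ℝ) else 0) = 0 := by
      simp [Ex, ws]
    rw [h0, add_zero]
    have hstep : ∀ k ∈ range (K + 1),
        Ex g N (k + 1) (fun l => if l.sum = n then (ws b l : ℝ) else 0)
        = ∑ m ∈ range (n + 1), g m * ((if b ≤ m then 0 else (m:ℝ)) * P g k (n - m)
            + Ex g N k (fun l => if l.sum = n - m then (ws b l : ℝ) else 0)) := by
      intro k _
      simp only [Ex]
      symm
      refine (sum_subset_zero_on_sdiff (range_mono (by omega)) ?_ ?_)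
      · intro m hm
        rw [mem_sdiff, mem_range, mem_range] at hm
        have : (fun l : List ℕ => if (m :: l).sum = n then (ws b (m :: l) : ℝ) else 0)
            = fun _ => 0 := by
          funext l; rw [if_neg (by rw [List.sum_cons]; omega)]
        rw [this, Ex_zero, mul_zero]
      · intro m hm
        rw [mem_range] at hm
        rw [← Ex_ind g N k (n - m) (by omega), ← Ex_mul, ← Ex_add]
        congr 2
        funext l
        by_cases h : l.sum = n - m
        · have hs : (m :: l).sum = n := by rw [List.sum_cons]; omega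
          have hw : (ws b (m :: l) : ℝ) = (if b ≤ m then 0 else (m:ℝ)) + ws b l := by
            simp only [ws, List.map_cons, List.sum_cons]
            push_cast
            split_ifs <;> simp
          rw [if_pos hs, if_pos h, if_pos h, hw, mul_one]
        · have hs : ¬ (m :: l).sum = n := by rw [List.sum_cons]; omega
          rw [if_neg hs, if_neg h, if_neg h]
          simp
    rw [sum_congr rfl hstep, sum_comm]
    have h1 : ∀ m ∈ range (n + 1), ∑ k ∈ range (K + 1), g m *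
          ((if b ≤ m then 0 else (m:ℝ)) * P g k (n - m)
            + Ex g N k (fun l => if l.sum = n - m then (ws b l : ℝ) else 0))
        ≤ (if b ≤ m then 0 else (m:ℝ) * g m) + g m * (K * M) := by
      intro m hm
      rw [mem_range] at hm
      rw [← mul_sum, sum_add_distrib, ← mul_sum, mul_add]
      have h2 := ih (n - m) (by omega)
      have h3 : ∑ k ∈ range (K + 1), P g k (n - m) ≤ 1 :=
        (sum_P_le_u G _ _).trans (u_le_one G _)
      have h4 : g m * ((if b ≤ m then 0 else (m:ℝ)) * ∑ k ∈ range (K + 1), P g k (n - m))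
          ≤ (if b ≤ m then 0 else (m:ℝ) * g m) := by
        split_ifs
        · simp
        · have h5 : (m:ℝ) * ∑ k ∈ range (K + 1), P g k (n - m) ≤ m :=
            mul_le_of_le_one_right (Nat.cast_nonneg m) h3
          have := mul_le_mul_of_nonneg_left h5 (G.nonneg m)
          linarith
      have h5 := mul_le_mul_of_nonneg_left h2 (G.nonneg m)
      linarith
    refine (sum_le_sum h1).trans ?_
    rw [sum_add_distrib, ← sum_mul]
    have h6 : ∑ m ∈ range (n + 1), (if b ≤ m then 0 else (m:ℝ) * g m) ≤ M := by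
      have : ∑ m ∈ range (n + 1), (if b ≤ m then 0 else (m:ℝ) * g m)
          = ∑ m ∈ (range (n + 1)).filter (fun m => ¬ b ≤ m), (m:ℝ) * g m := by
        rw [sum_filter]
        refine sum_congr rfl fun m _ => ?_
        by_cases h : b ≤ m <;> simp [h]
      rw [this]
      refine sum_le_sum_of_subset_of_nonneg ?_
        fun m _ _ => mul_nonneg (Nat.cast_nonneg m) (G.nonneg m)
      intro m hm
      simp only [mem_filter, mem_range] at hm ⊢
      omega
    have h7 : (∑ m ∈ range (n + 1), g m) * (K * M) ≤ K * M :=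
      mul_le_of_le_one_left (mul_nonneg (Nat.cast_nonneg K) hM0) (G.sum_le _)
    push_cast
    linarith

/-- Probability of a deep excursion. -/
lemma deep_bound {g : ℕ → ℝ} (G : GapLaw g) (N b Q K : ℕ) (hb : 1 ≤ b) (hQ : 1 ≤ Q) (C U0 : ℝ)
    (hU0 : 1 ≤ U0) (hU : U0 ≤ ∑ n ∈ range b, u g n) (hK : (K : ℝ) ≤ C * U0) :
    ∑ k ∈ range (K + 1), Ex g N k (fun l => if l.sum = N ∧ Q * b ≤ ws b l then 1 else 0)
      ≤ 2 * C / Q := by
  set M : ℝ := ∑ m ∈ range b, (m : ℝ) * g m with hM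
  have hM0 : 0 ≤ M := sum_nonneg fun m _ => mul_nonneg (Nat.cast_nonneg m) (G.nonneg m)
  have hb' : (0:ℝ) < b := by exact_mod_cast hb
  have hQ' : (0:ℝ) < Q := by exact_mod_cast hQ
  have h1 : ∀ k ∈ range (K + 1),
      Ex g N k (fun l => if l.sum = N ∧ Q * b ≤ ws b l then 1 else 0)
      ≤ (1 / ((Q:ℝ) * b)) * Ex g N k (fun l => if l.sum = N then (ws b l : ℝ) else 0) := by
    intro k _
    rw [← Ex_mul]
    refine Ex_mono G.nonneg N k _ _ fun l => ?_
    by_cases h : l.sum = N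
    · simp only [h, true_and, if_true]
      split_ifs with h2
      · rw [one_div, inv_mul_eq_div, le_div_iff₀ (by positivity), one_mul]
        exact_mod_cast h2
      · positivity
    · simp [h]
  refine (sum_le_sum h1).trans ?_
  rw [← mul_sum]
  have h2 := deep_sum G N b K N le_rfl
  rw [← hM] at h2
  have h3 := mean_mul_le G b
  rw [← hM] at h3
  have hUb : 0 < ∑ n ∈ range b, u g n := by linarith
  have h4 : (K:ℝ) * M ≤ 2 * C * b := by
    have hM2 : M * U0 ≤ 2 * b := (mul_le_mul_of_nonneg_left hU hM0).trans h3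
    have h5 : (K:ℝ) * M ≤ C * U0 * M := mul_le_mul_of_nonneg_right hK hM0
    have hC : 0 ≤ C := by
      by_contra hC
      push Not at hC
      have : C * U0 < 0 := mul_neg_of_neg_of_pos hC (by linarith)
      have h6 : (0:ℝ) ≤ K := Nat.cast_nonneg K
      linarith
    have h6 := mul_le_mul_of_nonneg_left hM2 hC
    linarith
  calc 1 / ((Q:ℝ) * b) * ∑ k ∈ range (K + 1),
        Ex g N k (fun l => if l.sum = N then (ws b l : ℝ) else 0)
      ≤ 1 / ((Q:ℝ) * b) * (2 * C * b) :=
        mul_le_mul_of_nonneg_left (h2.trans h4) (by positivity)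
    _ = 2 * C / Q := by field_simp

/-! ### The multiscale inequality -/

/-- Indicator of a proposition. -/
noncomputable def ind (p : Prop) [Decidable p] : ℝ := if p then 1 else 0

lemma ind_nonneg (p : Prop) [Decidable p] : 0 ≤ ind p := by unfold ind; split_ifs <;> norm_num

lemma ind_pos {p : Prop} [Decidable p] (h : p) : ind p = 1 := if_pos h

lemma multiscale (l : List ℕ) (Q a0 L J : ℕ) :
    (L : ℝ) ≤ ∑ i ∈ range L, (ind (ws (Q ^ (L - i) * a0) l < Q ^ (L - i) * a0)
      + ind (Q * (Q ^ (L - i) * a0) ≤ ws (Q ^ (L - i) * a0) l)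
      + ind (Q * (Q ^ (L - (i + 1)) * a0) ≤ ws (Q ^ (L - (i + 1)) * a0) l)
      + ind (ws (Q ^ (L - i) * a0) l < Q * (Q ^ (L - i) * a0) ∧ J ≤ cnt (Q ^ (L - i) * a0) l))
      + J := by
  rcases Nat.eq_zero_or_pos Q with rfl | hQ
  · -- degenerate, but harmless
    have h1 : ∀ i ∈ range L, (1:ℝ) ≤ (ind (ws (0 ^ (L - i) * a0) l < 0 ^ (L - i) * a0)
      + ind (0 * (0 ^ (L - i) * a0) ≤ ws (0 ^ (L - i) * a0) l)
      + ind (0 * (0 ^ (L - (i + 1)) * a0) ≤ ws (0 ^ (L - (i + 1)) * a0) l)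
      + ind (ws (0 ^ (L - i) * a0) l < 0 * (0 ^ (L - i) * a0)
          ∧ J ≤ cnt (0 ^ (L - i) * a0) l)) := by
      intro i _
      have e : ind (0 * (0 ^ (L - i) * a0) ≤ ws (0 ^ (L - i) * a0) l) = 1 :=
        ind_pos (by rw [zero_mul]; exact Nat.zero_le _)
      have e1 := ind_nonneg (ws (0 ^ (L - i) * a0) l < 0 ^ (L - i) * a0)
      have e2 := ind_nonneg (0 * (0 ^ (L - (i + 1)) * a0) ≤ ws (0 ^ (L - (i + 1)) * a0) l)
      have e3 := ind_nonneg (ws (0 ^ (L - i) * a0) l < 0 * (0 ^ (L - i) * a0)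
          ∧ J ≤ cnt (0 ^ (L - i) * a0) l)
      linarith
    have h2 := sum_le_sum h1
    rw [sum_const, card_range, nsmul_eq_mul, mul_one] at h2
    have : (0:ℝ) ≤ J := Nat.cast_nonneg J
    linarith
  set c : ℕ → ℝ := fun i => ((min (cnt (Q ^ (L - i) * a0) l) J : ℕ) : ℝ) with hc
  have h1 : ∀ i ∈ range L, (1:ℝ) - (c (i + 1) - c i) ≤ (ind (ws (Q ^ (L - i) * a0) l
        < Q ^ (L - i) * a0)
      + ind (Q * (Q ^ (L - i) * a0) ≤ ws (Q ^ (L - i) * a0) l)
      + ind (Q * (Q ^ (L - (i + 1)) * a0) ≤ ws (Q ^ (L - (i + 1)) * a0) l)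
      + ind (ws (Q ^ (L - i) * a0) l < Q * (Q ^ (L - i) * a0)
          ∧ J ≤ cnt (Q ^ (L - i) * a0) l)) := by
    intro i hi
    rw [mem_range] at hi
    have hbb : Q * (Q ^ (L - (i + 1)) * a0) = Q ^ (L - i) * a0 := by
      rw [show L - i = (L - (i + 1)) + 1 by omega, pow_succ]; ring
    simp only [hc]
    generalize hb' : Q ^ (L - (i + 1)) * a0 = b' at *
    generalize hb : Q ^ (L - i) * a0 = b at *
    have hle : b' ≤ b := by rw [← hbb]; exact Nat.le_mul_of_pos_left _ hQ
    have hm := cnt_mono hle l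
    have hl := level_le hle l
    have hmin : min (cnt b l) J ≤ min (cnt b' l) J := min_le_min_right _ hm
    have hmin' : ((min (cnt b l) J : ℕ) : ℝ) ≤ ((min (cnt b' l) J : ℕ) : ℝ) := by
      exact_mod_cast hmin
    have e1 := ind_nonneg (ws b l < b)
    have e2 := ind_nonneg (Q * b ≤ ws b l)
    have e3 := ind_nonneg (Q * b' ≤ ws b' l)
    have e4 := ind_nonneg (ws b l < Q * b ∧ J ≤ cnt b l)
    by_cases p1 : ws b l < b
    · rw [ind_pos p1]; linarith
    by_cases p2 : Q * b ≤ ws b l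
    · rw [ind_pos p2]; linarith
    by_cases p3 : Q * b' ≤ ws b' l
    · rw [ind_pos p3]; linarith
    by_cases p4 : ws b l < Q * b ∧ J ≤ cnt b l
    · rw [ind_pos p4]; linarith
    push Not at p1 p2 p3 p4
    have hJ := p4 p2
    have hlt : cnt b l < cnt b' l := by
      rcases hm.eq_or_lt with h | h
      · exfalso
        rw [← h] at hl
        omega
      · exact h
    have h5 : min (cnt b l) J + 1 ≤ min (cnt b' l) J := by omega
    have h6 : ((min (cnt b l) J : ℕ) : ℝ) + 1 ≤ ((min (cnt b' l) J : ℕ) : ℝ) := by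
      exact_mod_cast h5
    linarith
  have h2 := sum_le_sum h1
  rw [sum_sub_distrib, sum_range_sub, sum_const, card_range, nsmul_eq_mul, mul_one] at h2
  have h3 : c L ≤ J := by
    simp only [hc]
    exact_mod_cast min_le_right _ _
  have h4 : 0 ≤ c 0 := by simp only [hc]; positivity
  linarith

/-- The threshold lemma. -/
lemma threshold {g : ℕ → ℝ} (G : GapLaw g) (Q a0 L J K : ℕ) (hQ : 2 ≤ Q) (ha0 : 1 ≤ a0)
    (hL : 1 ≤ L) (hJ : 1 ≤ J) (C κ0 : ℝ) (hκ0 : 1 - g 1 ≤ κ0)
    (hK : (K : ℝ) ≤ C * ∑ n ∈ range a0, u g n) :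
    ∑ k ∈ range (K + 1), P g k (Q ^ L * a0) ≤
      Real.exp (κ0 * Q ^ L) * Real.exp (-1) + 4 * C / Q
        + Q * (Real.exp (κ0 * Q ^ L) * (1 / Real.sqrt J)) + J / L := by
  set N : ℕ := Q ^ L * a0 with hN
  have hQ' : (0:ℝ) < Q := by exact_mod_cast (show 0 < Q by omega)
  have hU0 : 1 ≤ ∑ n ∈ range a0, u g n := by
    have : u g 0 ≤ ∑ n ∈ range a0, u g n := single_le_sum (f := u g)
      (fun i _ => u_nonneg G.nonneg i) (by rw [mem_range]; omega)
    rwa [u_zero] at this
  have hκ0pos : 0 ≤ κ0 := by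
    have h1 := G.sum_le 2
    rw [sum_range_succ, sum_range_one, G.zero] at h1
    linarith
  set E : ℝ := Real.exp (κ0 * Q ^ L) with hE
  have hEpos : 0 < E := Real.exp_pos _
  -- bound for one window at one level
  have hW : ∀ b, 2 ≤ b → N ≤ Q ^ L * b → ∀ c j0 : ℕ, ∀ ψ : ℝ, 0 ≤ ψ →
      (∀ j, j0 ≤ j → ph j ≤ ψ) →
      ∑ k ∈ range (K + 1), Ex g N k (fun l => if l.sum = N ∧ c ≤ ws b l ∧ ws b l < c + b ∧
        j0 ≤ cnt b l then 1 else 0) ≤ E * ψ := by
    intro b hb hNb c j0 ψ hψ hph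
    have hsum0 : g 1 ≤ ∑ m ∈ range b, g m :=
      single_le_sum (f := g) (fun i _ => G.nonneg i) (by rw [mem_range]; omega)
    have hsum1 := G.sum_le b
    have hsum2 : 0 ≤ ∑ m ∈ range b, g m := sum_nonneg fun m _ => G.nonneg m
    refine window_bound G N b c j0 (K + 1) (by omega) (E * ψ) (1 - ∑ m ∈ range b, g m) rfl ?_
      (by positivity)
    intro i j hj hjb
    refine (binom_bound _ (by linarith) (by linarith) i j).trans ?_
    refine mul_le_mul ?_ (hph j hj) (ph_nonneg j) hEpos.le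
    rw [hE, Real.exp_le_exp]
    have hjQ : j ≤ Q ^ L := by
      have h1 : j * b ≤ Q ^ L * b := hjb.trans hNb
      exact Nat.le_of_mul_le_mul_right h1 (by omega)
    have hjQ' : (j:ℝ) ≤ (Q:ℝ) ^ L := by exact_mod_cast hjQ
    exact mul_le_mul (by linarith) hjQ' (Nat.cast_nonneg j) hκ0pos
  -- abbreviations
  set bb : ℕ → ℕ := fun i => Q ^ (L - i) * a0 with hbb
  have hbb1 : ∀ i, 1 ≤ bb i := fun i => Nat.mul_pos (Nat.pow_pos (by omega)) (by omega)
  have hbb2 : ∀ i, i < L → 2 ≤ bb i := by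
    intro i hi
    have h1 : Q ^ 1 ≤ Q ^ (L - i) := Nat.pow_le_pow_right (by omega) (by omega)
    have h2 : Q ^ 1 * 1 ≤ Q ^ (L - i) * a0 := Nat.mul_le_mul h1 ha0
    rw [pow_one, mul_one] at h2
    simp only [hbb]; omega
  have hbbN : ∀ i, N ≤ Q ^ L * bb i := by
    intro i
    simp only [hbb, hN]
    refine Nat.mul_le_mul_left _ ?_
    exact Nat.le_mul_of_pos_left _ (Nat.pow_pos (by omega))
  have hbbN' : ∀ i, bb i ≤ N := by
    intro i
    simp only [hbb, hN]
    exact Nat.mul_le_mul_right _ (Nat.pow_le_pow_right (by omega) (by omega))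
  have hbba : ∀ i, a0 ≤ bb i := by
    intro i
    simp only [hbb]
    exact Nat.le_mul_of_pos_left _ (Nat.pow_pos (by omega))
  set A : ℕ → List ℕ → ℝ := fun i l => if l.sum = N ∧ 0 ≤ ws (bb i) l ∧ ws (bb i) l < 0 + bb i ∧
        1 ≤ cnt (bb i) l then 1 else 0 with hA
  set B : ℕ → List ℕ → ℝ := fun i l => if l.sum = N ∧ Q * bb i ≤ ws (bb i) l then 1 else 0
    with hB
  set D : ℕ → ℕ → List ℕ → ℝ := fun i r l => if l.sum = N ∧ r * bb i ≤ ws (bb i) l ∧
        ws (bb i) l < r * bb i + bb i ∧ J ≤ cnt (bb i) l then 1 else 0 with hD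
  have hpt : ∀ l, (L:ℝ) * (if l.sum = N then 1 else 0) ≤
      ∑ i ∈ range L, (A i l + B i l + B (i + 1) l + ∑ r ∈ range Q, D i r l)
        + J * (if l.sum = N then 1 else 0) := by
    intro l
    have hD0 : ∀ i r, 0 ≤ D i r l := fun i r => by simp only [hD]; split_ifs <;> norm_num
    by_cases h : l.sum = N
    · rw [if_pos h, mul_one, mul_one]
      refine (multiscale l Q a0 L J).trans ?_
      refine add_le_add ?_ le_rfl
      refine sum_le_sum fun i hi => ?_
      rw [mem_range] at hi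
      have hwl := ws_add_wl (bb i) l
      have e1 : ind (ws (bb i) l < bb i) ≤ A i l := by
        unfold ind
        split_ifs with h1
        · have h2 : 1 ≤ cnt (bb i) l := by
            by_contra h3
            have h4 := wl_eq_zero (bb i) l (by omega)
            have := hbbN' i
            omega
          simp only [hA]
          rw [if_pos ⟨h, Nat.zero_le _, by omega, h2⟩]
        · simp only [hA]; split_ifs <;> norm_num
      have e2 : ∀ i, ind (Q * bb i ≤ ws (bb i) l) ≤ B i l := by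
        intro i
        unfold ind
        split_ifs with h1
        · simp only [hB]; rw [if_pos ⟨h, h1⟩]
        · simp only [hB]; split_ifs <;> norm_num
      have e3 : ind (ws (bb i) l < Q * bb i ∧ J ≤ cnt (bb i) l) ≤ ∑ r ∈ range Q, D i r l := by
        unfold ind
        split_ifs with h1
        · have hr : ws (bb i) l / bb i ∈ range Q := by
            rw [mem_range]
            exact Nat.div_lt_of_lt_mul (by rw [mul_comm]; exact h1.1)
          refine le_trans ?_ (single_le_sum (f := fun r => D i r l) (fun r _ => hD0 i r) hr)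
          have hb0 : 0 < bb i := hbb1 i
          have h3 := Nat.div_mul_le_self (ws (bb i) l) (bb i)
          have h4 : ws (bb i) l < ws (bb i) l / bb i * bb i + bb i := by
            have := Nat.lt_div_mul_add (a := ws (bb i) l) hb0
            exact this
          simp only [hD]
          rw [if_pos ⟨h, h3, h4, h1.2⟩]
        · exact sum_nonneg fun r _ => hD0 i r
      have e2a := e2 i
      have e2b := e2 (i + 1)
      simp only [hbb] at e1 e2a e2b e3 ⊢
      linarith
    · rw [if_neg h, mul_zero, mul_zero, add_zero]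
      refine sum_nonneg fun i _ => ?_
      have e1 : 0 ≤ A i l := by simp only [hA]; split_ifs <;> norm_num
      have e2 : ∀ i, 0 ≤ B i l := fun i => by simp only [hB]; split_ifs <;> norm_num
      have e3 : 0 ≤ ∑ r ∈ range Q, D i r l := sum_nonneg fun r _ => hD0 i r
      have := e2 i
      have := e2 (i + 1)
      linarith
  set X : ℝ := ∑ k ∈ range (K + 1), P g k N with hX
  have hX1 : X ≤ 1 := (sum_P_le_u G _ _).trans (u_le_one G _)
  have hmain : (L:ℝ) * X ≤ ∑ i ∈ range L, (∑ k ∈ range (K + 1), Ex g N k (A i)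
      + ∑ k ∈ range (K + 1), Ex g N k (B i) + ∑ k ∈ range (K + 1), Ex g N k (B (i + 1))
      + ∑ r ∈ range Q, ∑ k ∈ range (K + 1), Ex g N k (D i r)) + J * X := by
    have h1 : ∀ k ∈ range (K + 1), (L:ℝ) * P g k N ≤ ∑ i ∈ range L, (Ex g N k (A i)
        + Ex g N k (B i) + Ex g N k (B (i + 1)) + ∑ r ∈ range Q, Ex g N k (D i r))
        + J * P g k N := by
      intro k _
      rw [← Ex_ind g N k N le_rfl, ← Ex_mul, ← Ex_mul]
      refine (Ex_mono G.nonneg N k _ _ hpt).trans (le_of_eq ?_)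
      rw [Ex_add, Ex_sum]
      congr 1
      refine sum_congr rfl fun i _ => ?_
      rw [Ex_add, Ex_add, Ex_add, Ex_sum]
    have h2 := sum_le_sum h1
    rw [← mul_sum, sum_add_distrib, ← mul_sum] at h2
    refine h2.trans (le_of_eq ?_)
    congr 1
    rw [sum_comm]
    refine sum_congr rfl fun i _ => ?_
    rw [sum_add_distrib, sum_add_distrib, sum_add_distrib]
    congr 1
    rw [sum_comm]
  have hbound : ∀ i ∈ range L, (∑ k ∈ range (K + 1), Ex g N k (A i)
      + ∑ k ∈ range (K + 1), Ex g N k (B i) + ∑ k ∈ range (K + 1), Ex g N k (B (i + 1))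
      + ∑ r ∈ range Q, ∑ k ∈ range (K + 1), Ex g N k (D i r))
      ≤ E * Real.exp (-1) + 4 * C / Q + Q * (E * (1 / Real.sqrt J)) := by
    intro i hi
    rw [mem_range] at hi
    have h1 := hW (bb i) (hbb2 i hi) (hbbN i) 0 1 (Real.exp (-1)) (Real.exp_pos _).le
      (fun j hj => ph_le_inv_exp j hj)
    have h2 : ∀ i, ∑ k ∈ range (K + 1), Ex g N k (B i) ≤ 2 * C / Q := by
      intro i
      refine deep_bound G N (bb i) Q K (hbb1 i) (by omega) C _ hU0 ?_ hK
      exact sum_le_sum_of_subset_of_nonneg (range_mono (hbba i))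
        fun n _ _ => u_nonneg G.nonneg n
    have h3 : ∑ r ∈ range Q, ∑ k ∈ range (K + 1), Ex g N k (D i r)
        ≤ Q * (E * (1 / Real.sqrt J)) := by
      calc ∑ r ∈ range Q, ∑ k ∈ range (K + 1), Ex g N k (D i r)
          ≤ ∑ r ∈ range Q, E * (1 / Real.sqrt J) := by
            refine sum_le_sum fun r _ => ?_
            exact hW (bb i) (hbb2 i hi) (hbbN i) (r * bb i) J (1 / Real.sqrt J) (by positivity)
              (fun j hj => ph_le_inv_sqrt j J hJ hj)
        _ = Q * (E * (1 / Real.sqrt J)) := by rw [sum_const, card_range, nsmul_eq_mul]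
    have h2a := h2 i
    have h2b := h2 (i + 1)
    have h4 : 2 * C / Q + 2 * C / Q = 4 * C / Q := by ring
    linarith
  have h5 := sum_le_sum hbound
  rw [sum_const, card_range, nsmul_eq_mul] at h5
  have hL' : (0:ℝ) < L := by exact_mod_cast (show 0 < L by omega)
  have h6 : (J:ℝ) * X ≤ J := mul_le_of_le_one_right (Nat.cast_nonneg J) hX1
  have h7 : (L:ℝ) * X ≤ L * (E * Real.exp (-1) + 4 * C / Q + Q * (E * (1 / Real.sqrt J))) + J := by
    linarith
  have h8 : (L:ℝ) * (J / L) = J := by field_simp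
  have h9 : (L:ℝ) * X ≤ L * (E * Real.exp (-1) + 4 * C / Q + Q * (E * (1 / Real.sqrt J))
      + J / L) := by
    rw [mul_add, h8]; exact h7
  exact le_of_mul_le_mul_left h9 hL'

/-! ### The discrete theorem -/

theorem discrete (η : ℝ) (hη : 0 < η) (hη1 : η ≤ 1) :
    ∃ c : ℝ, 0 < c ∧ ∃ κ0 : ℝ, 0 < κ0 ∧ ∃ m0 : ℕ, 0 < m0 ∧
      ∀ g : ℕ → ℝ, GapLaw g → 1 - g 1 ≤ κ0 → ∀ N : ℕ, 0 < N → m0 ∣ N →
        Real.exp (-1) + η ≤ u g N → ∀ n ≤ N, c ≤ u g n := by
  obtain ⟨c1, hc1, hc1le, C, hC, κ1, hκ1, hkey⟩ := key (η / 8) (by linarith) (by linarith)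
  obtain ⟨Q, hQ⟩ : ∃ Q : ℕ, max (2:ℝ) (32 * C / η) < (Q:ℝ) := exists_nat_gt _
  have hQ2 : (2:ℝ) < Q := (le_max_left _ _).trans_lt hQ
  have hQ2' : 2 ≤ Q := by
    have : 2 < Q := by exact_mod_cast hQ2
    omega
  have hQC : 32 * C / η < Q := (le_max_right _ _).trans_lt hQ
  have hQpos : (0:ℝ) < Q := by linarith
  obtain ⟨J, hJ⟩ : ∃ J : ℕ, max (1:ℝ) ((16 * (Q:ℝ) / η) ^ 2) < (J:ℝ) := exists_nat_gt _
  have hJ1 : (1:ℝ) < J := (le_max_left _ _).trans_lt hJ
  have hJ1' : 1 ≤ J := by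
    have : 1 < J := by exact_mod_cast hJ1
    omega
  have hJ2 : (16 * Q / η) ^ 2 < J := (le_max_right _ _).trans_lt hJ
  obtain ⟨L, hL⟩ : ∃ L : ℕ, max (1:ℝ) (8 * (J:ℝ) / η) < (L:ℝ) := exists_nat_gt _
  have hL1 : (1:ℝ) < L := (le_max_left _ _).trans_lt hL
  have hL1' : 1 ≤ L := by
    have : 1 < L := by exact_mod_cast hL1
    omega
  have hL2 : 8 * J / η < L := (le_max_right _ _).trans_lt hL
  -- choice of κ0
  set δ : ℝ := Real.log (1 + η / 8) with hδ
  have hδpos : 0 < δ := Real.log_pos (by linarith)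
  have hQL : (0:ℝ) < (Q:ℝ) ^ L := by positivity
  refine ⟨c1 ^ (Q ^ L + 1), by positivity, min κ1 (δ / Q ^ L), by positivity, Q ^ L,
    Nat.pow_pos (by omega), ?_⟩
  intro g G hg N hN hdvd hu
  have hgκ1 : 1 - g 1 ≤ κ1 := hg.trans (min_le_left _ _)
  have hgδ : 1 - g 1 ≤ δ / Q ^ L := hg.trans (min_le_right _ _)
  obtain ⟨a0, rfl⟩ := hdvd
  have ha0 : 1 ≤ a0 := by
    rcases Nat.eq_zero_or_pos a0 with rfl | h
    · simp at hN
    · exact h
  rcases hkey g G hgκ1 a0 ha0 with h | ⟨K, hK, hqK⟩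
  · intro n hn
    have h1 : n = n / a0 * a0 + n % a0 := by
      have := Nat.div_add_mod n a0
      rw [mul_comm] at this; omega
    have h2 : n / a0 ≤ Q ^ L := by
      have h3 : n / a0 ≤ Q ^ L * a0 / a0 := Nat.div_le_div_right hn
      rwa [Nat.mul_div_cancel _ (by omega)] at h3
    have h3 : n % a0 < a0 := Nat.mod_lt _ (by omega)
    have h4 := h a0 le_rfl
    have h5 := h (n % a0) h3.le
    have h6 := u_pow_le G a0 (n / a0)
    have h7 := u_mul_le G (n / a0 * a0) (n % a0)
    rw [← h1] at h7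
    have h8 : c1 ^ (Q ^ L) ≤ u g (n / a0 * a0) := by
      calc c1 ^ (Q ^ L) ≤ c1 ^ (n / a0) := pow_le_pow_of_le_one hc1.le hc1le h2
        _ ≤ u g a0 ^ (n / a0) := pow_le_pow_left₀ hc1.le h4 _
        _ ≤ _ := h6
    rw [pow_succ]
    exact (mul_le_mul h8 h5 hc1.le (u_nonneg G.nonneg _)).trans h7
  · exfalso
    have h1 := threshold G Q a0 L J K hQ2' ha0 hL1' hJ1' C (δ / Q ^ L) hgδ hK
    have h2 := u_split G (Q ^ L * a0) (K + 1)
    have h3 : q g (K + 1) (Q ^ L * a0) ≤ η / 8 := (q_succ_le G K _).trans (hqK _)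
    have h4 : δ / (Q:ℝ) ^ L * Q ^ L = δ := by field_simp
    have h5 : Real.exp δ = 1 + η / 8 := Real.exp_log (by linarith)
    rw [h4, h5] at h1
    have h6 : 4 * C / Q ≤ η / 8 := by
      rw [div_lt_iff₀ hη] at hQC
      rw [div_le_iff₀ hQpos]
      linarith
    have h7 : (Q:ℝ) * ((1 + η / 8) * (1 / Real.sqrt J)) ≤ η / 8 := by
      have h8 : 16 * Q / η ≤ Real.sqrt J := by
        rw [Real.le_sqrt (by positivity) (by positivity)]; exact hJ2.le
      have h9 : 0 < Real.sqrt J := lt_of_lt_of_le (by positivity) h8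
      rw [div_le_iff₀ hη] at h8
      have h10 : (1 + η / 8) ≤ 2 := by linarith
      have h11 : (Q:ℝ) * ((1 + η / 8) * (1 / Real.sqrt J)) = (Q * (1 + η / 8)) / Real.sqrt J := by
        ring
      rw [h11, div_le_iff₀ h9]
      have h12 : (Q:ℝ) * (1 + η / 8) ≤ Q * 2 := mul_le_mul_of_nonneg_left h10 hQpos.le
      linarith
    have h8 : (J:ℝ) / L ≤ η / 8 := by
      rw [div_lt_iff₀ hη] at hL2
      rw [div_le_iff₀ (by linarith)]
      linarith
    have h9 : (1 + η / 8) * Real.exp (-1) ≤ Real.exp (-1) + η / 8 := by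
      have h10 : Real.exp (-1) ≤ 1 := by rw [Real.exp_le_one_iff]; norm_num
      have h11 := mul_le_mul_of_nonneg_left h10 (show 0 ≤ η / 8 by linarith)
      linarith
    linarith

end Pool.Agent.Helper945.RenCore
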