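import Pool.Agent.Helper945.Volt
import Pool.Agent.Helper945.RenMain

set_option autoImplicit false

open MeasureTheory Set Filter Topology

namespace Pool.Agent.Helper945.Discr

open Pool.Agent.Helper945.RenCore Pool.Agent.Helper945.LapU

/-- The gap law with tail `h * k (j * h)`. -/
noncomputable def dg (k : ℝ → ℝ) (h : ℝ) : ℕ → ℝ
  | 0 => 0
  | 1 => 1 - h * k h
  | (j + 2) => h * (k ((j + 1 : ℕ) * h) - k ((j + 2 : ℕ) * h))

lemma dg_sum (k : ℝ → ℝ) (h : ℝ) : ∀ j : ℕ,
    ∑ m ∈ Finset.range (j + 2), dg k h m = 1 - h * k ((j + 1 : ℕ) * h)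
  | 0 => by simp [Finset.sum_range_succ, dg]
  | j + 1 => by
      rw [Finset.sum_range_succ, dg_sum k h j]
      simp only [dg]
      ring

lemma dg_gap {k : ℝ → ℝ} (hk0 : ∀ x, 0 ≤ k x) (hanti : AntitoneOn k (Ioi 0)) {h : ℝ} (hh : 0 < h)
    (h1 : h * k h ≤ 1) : GapLaw (dg k h) where
  zero := rfl
  nonneg n := by
    match n with
    | 0 => exact le_rfl
    | 1 => simp only [dg]; linarith
    | (j + 2) =>
      simp only [dg]
      refine mul_nonneg hh.le (sub_nonneg.mpr (hanti ?_ ?_ ?_))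
      · rw [mem_Ioi]; positivity
      · rw [mem_Ioi]; positivity
      · push_cast
        nlinarith
  sum_le n := by
    match n with
    | 0 => simp
    | 1 => simp [dg]
    | (j + 2) =>
      rw [dg_sum]
      have := mul_nonneg hh.le (hk0 ((j + 1 : ℕ) * h))
      linarith

lemma dg_H (k : ℝ → ℝ) (h : ℝ) (j : ℕ) : H (dg k h) (j + 1) = h * k ((j + 1 : ℕ) * h) := by
  unfold H
  rw [dg_sum]; ring

lemma dg_u (k : ℝ → ℝ) (h : ℝ) (m : ℕ) :
    u (dg k h) m = 1 - ∑ j ∈ Finset.range m, h * k ((j + 1 : ℕ) * h) * u (dg k h) (m - (j + 1)) := by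
  have h1 := tail_identity (g := dg k h) rfl m
  rw [Finset.sum_range_succ, Nat.sub_self] at h1
  have h2 : H (dg k h) 0 = 1 := by simp [H, dg]
  rw [h2, mul_one] at h1
  have h3 : ∑ n ∈ Finset.range m, u (dg k h) n * H (dg k h) (m - n)
      = ∑ j ∈ Finset.range m, h * k ((j + 1 : ℕ) * h) * u (dg k h) (m - (j + 1)) := by
    rw [← Finset.sum_range_reflect]
    refine Finset.sum_congr rfl fun j hj => ?_
    rw [Finset.mem_range] at hj
    rw [show m - (m - 1 - j) = j + 1 by omega, dg_H, show m - 1 - j = m - (j + 1) by omega]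
    ring
  rw [h3] at h1
  linarith

section
variable {k : ℝ → ℝ} (hanti : AntitoneOn k (Ioi 0)) (hkI : ∀ S T, IntervalIntegrable k volume S T)
include hanti hkI

lemma low {h : ℝ} (hh : 0 < h) (j : ℕ) :
    h * k ((j + 1 : ℕ) * h) ≤ ∫ x in ((j : ℕ) * h)..((j + 1 : ℕ) * h), k x := by
  have h1 : ∫ x in ((j : ℕ) * h)..((j + 1 : ℕ) * h), k ((j + 1 : ℕ) * h)
      = h * k ((j + 1 : ℕ) * h) := by
    rw [intervalIntegral.integral_const, smul_eq_mul]
    push_cast; ring
  rw [← h1]
  refine intervalIntegral.integral_mono_on_of_le_Ioo ?_ intervalIntegrable_const (hkI _ _) ?_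
  · push_cast; nlinarith
  · intro x hx
    have : (0:ℝ) ≤ (j:ℕ) * h := by positivity
    refine hanti ?_ ?_ hx.2.le
    · rw [mem_Ioi]; linarith [hx.1]
    · rw [mem_Ioi]; positivity

lemma upp {h : ℝ} (hh : 0 < h) (j : ℕ) :
    ∫ x in ((j + 1 : ℕ) * h)..((j + 2 : ℕ) * h), k x ≤ h * k ((j + 1 : ℕ) * h) := by
  have h1 : ∫ x in ((j + 1 : ℕ) * h)..((j + 2 : ℕ) * h), k ((j + 1 : ℕ) * h)
      = h * k ((j + 1 : ℕ) * h) := by
    rw [intervalIntegral.integral_const, smul_eq_mul]
    push_cast; ring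
  rw [← h1]
  refine intervalIntegral.integral_mono_on_of_le_Ioo ?_ (hkI _ _) intervalIntegrable_const ?_
  · push_cast; nlinarith
  · intro x hx
    have : (0:ℝ) < (j + 1 : ℕ) * h := by positivity
    refine hanti ?_ ?_ hx.1.le
    · rw [mem_Ioi]; positivity
    · rw [mem_Ioi]; linarith [hx.1]

lemma sum_low {h : ℝ} (hh : 0 < h) (m : ℕ) :
    ∑ j ∈ Finset.range m, h * k ((j + 1 : ℕ) * h) ≤ ∫ x in (0:ℝ)..(m * h), k x := by
  have h1 := intervalIntegral.sum_integral_adjacent_intervals (μ := volume) (f := k)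
    (a := fun j : ℕ => (j:ℝ) * h) (n := m) (fun j _ => hkI _ _)
  simp only [Nat.cast_zero, zero_mul] at h1
  rw [← h1]
  exact Finset.sum_le_sum fun j _ => low hanti hkI hh j

lemma sum_upp (hk0 : ∀ x, 0 ≤ k x) {h : ℝ} (hh : 0 < h) (m : ℕ) :
    ∫ x in (0:ℝ)..(m * h), k x ≤ (∫ x in (0:ℝ)..h, k x)
      + ∑ j ∈ Finset.range m, h * k ((j + 1 : ℕ) * h) := by
  rcases Nat.eq_zero_or_pos m with rfl | hm
  · simp only [Nat.cast_zero, zero_mul, intervalIntegral.integral_same, Finset.range_zero,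
      Finset.sum_empty, add_zero]
    exact intervalIntegral.integral_nonneg hh.le fun x _ => hk0 x
  obtain ⟨m', rfl⟩ : ∃ m', m = m' + 1 := ⟨m - 1, by omega⟩
  have h1 := intervalIntegral.sum_integral_adjacent_intervals (μ := volume) (f := k)
    (a := fun j : ℕ => (j:ℝ) * h) (n := m' + 1) (fun j _ => hkI _ _)
  simp only [Nat.cast_zero, zero_mul] at h1
  rw [← h1, Finset.sum_range_succ']
  have h2 : ∑ j ∈ Finset.range m', ∫ x in ((j + 1 : ℕ) * h)..((j + 1 + 1 : ℕ) * h), k x
      ≤ ∑ j ∈ Finset.range m', h * k ((j + 1 : ℕ) * h) :=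
    Finset.sum_le_sum fun j _ => upp hanti hkI hh j
  have h3 : ∑ j ∈ Finset.range m', h * k ((j + 1 : ℕ) * h)
      ≤ ∑ j ∈ Finset.range (m' + 1), h * k ((j + 1 : ℕ) * h) :=
    Finset.sum_le_sum_of_subset_of_nonneg (Finset.range_mono (by omega))
      fun j _ _ => mul_nonneg hh.le (hk0 _)
  simp only [Nat.cast_zero, zero_mul, zero_add, Nat.cast_one, one_mul]
  linarith

end

/-- A weight that makes the kernel small. -/
lemma exists_theta {k : ℝ → ℝ} (hkI : ∀ S T, IntervalIntegrable k volume S T) :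
    ∃ n : ℕ, ∫ x in (0:ℝ)..1, k x * Real.exp (-(n * x)) ≤ 1 / 2 := by
  have h1 : Tendsto (fun n : ℕ => ∫ x in (0:ℝ)..1, k x * Real.exp (-(n * x))) atTop
      (𝓝 (∫ x in (0:ℝ)..1, (0:ℝ))) := by
    refine intervalIntegral.tendsto_integral_filter_of_dominated_convergence (fun x => ‖k x‖)
      (Eventually.of_forall fun n => ?_) (Eventually.of_forall fun n => ?_) (hkI 0 1).norm ?_
    · exact (hkI 0 1).aestronglyMeasurable_restrict_uIoc.mul (by fun_prop)
    · refine Eventually.of_forall fun x hx => ?_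
      rw [uIoc_of_le zero_le_one] at hx
      rw [norm_mul]
      refine mul_le_of_le_one_right (norm_nonneg _) ?_
      rw [Real.norm_eq_abs, abs_of_pos (Real.exp_pos _), Real.exp_le_one_iff]
      have : 0 ≤ (n:ℝ) * x := mul_nonneg (Nat.cast_nonneg n) hx.1.le
      linarith
    · refine Eventually.of_forall fun x hx => ?_
      rw [uIoc_of_le zero_le_one] at hx
      have h2 : Tendsto (fun n : ℕ => Real.exp (-((n:ℝ) * x))) atTop (𝓝 0) := by
        refine Real.tendsto_exp_neg_atTop_nhds_zero.comp ?_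
        exact tendsto_natCast_atTop_atTop.atTop_mul_const hx.1
      simpa using h2.const_mul (k x)
  rw [intervalIntegral.integral_zero] at h1
  have h2 := h1.eventually (gt_mem_nhds (show (0:ℝ) < 1 / 2 by norm_num))
  obtain ⟨n, hn⟩ := h2.exists
  exact ⟨n, hn.le⟩

theorem discretise (k p : ℝ → ℝ) (hk0 : ∀ x, 0 ≤ k x) (hanti : AntitoneOn k (Ioi 0))
    (hkI : ∀ S T, IntervalIntegrable k volume S T) (hp : Continuous p)
    (hV : ∀ t, 0 ≤ t → p t + ∫ x in (0:ℝ)..t, k x * p (t - x) = 1) (ε : ℝ) (hε : 0 < ε) :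
    ∃ n0 : ℕ, ∀ n : ℕ, n0 ≤ n → 0 < n → ∃ g : ℕ → ℝ, GapLaw g ∧ 1 - g 1 ≤ ε ∧
      ∀ m ≤ n, |u g m - p (m / n)| ≤ ε := by
  obtain ⟨θ, hθ⟩ := exists_theta hkI
  obtain ⟨M, hM⟩ : ∃ M, ∀ x ∈ Icc (0:ℝ) 1, ‖p x‖ ≤ M :=
    isCompact_Icc.exists_bound_of_continuousOn hp.continuousOn
  have hM0 : 0 ≤ M := (norm_nonneg _).trans (hM 0 ⟨le_rfl, zero_le_one⟩)
  set A : ℝ := ∫ x in (0:ℝ)..1, k x with hA
  have hA0 : 0 ≤ A := intervalIntegral.integral_nonneg zero_le_one fun x _ => hk0 x
  set E0 : ℝ := ε * Real.exp (-θ) / 2 with hE0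
  have hE0pos : 0 < E0 := by positivity
  -- uniform continuity
  obtain ⟨h1, hh1, huc⟩ : ∃ h1 > 0, ∀ x ∈ Icc (0:ℝ) 1, ∀ y ∈ Icc (0:ℝ) 1, dist x y < h1 →
      dist (p x) (p y) < E0 / 2 / (A + 1) := by
    have := isCompact_Icc.uniformContinuousOn_of_continuous (hp.continuousOn (s := Icc (0:ℝ) 1))
    rw [Metric.uniformContinuousOn_iff] at this
    exact this _ (by positivity)
  -- small mass near zero
  have hprim : Tendsto (fun h => ∫ x in (0:ℝ)..h, k x) (𝓝 0) (𝓝 0) := by
    have := (intervalIntegral.continuous_primitive (μ := volume) hkI 0).tendsto 0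
    simpa using this
  set δ0 : ℝ := min (min ε 1) (E0 / 2 / (M + 1)) with hδ0
  have hδ0pos : 0 < δ0 := by positivity
  obtain ⟨h2, hh2, hsm⟩ := Metric.eventually_nhds_iff.mp (hprim.eventually (gt_mem_nhds hδ0pos))
  obtain ⟨n0, hn0⟩ := exists_nat_gt (1 / min h1 h2)
  refine ⟨n0, fun n hn hnpos => ?_⟩
  have hn' : (0:ℝ) < n := by exact_mod_cast hnpos
  set h : ℝ := 1 / n with hh
  have hhpos : 0 < h := by positivity
  have hhlt : h < min h1 h2 := by
    have h3 : (n0:ℝ) ≤ n := by exact_mod_cast hn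
    have h4 : 0 < min h1 h2 := lt_min hh1 hh2
    rw [div_lt_iff₀ h4] at hn0
    rw [hh, div_lt_iff₀ hn']
    nlinarith
  have hhh1 : h < h1 := hhlt.trans_le (min_le_left _ _)
  have hhh2 : h < h2 := hhlt.trans_le (min_le_right _ _)
  have hnh : (n:ℝ) * h = 1 := by rw [hh]; field_simp
  have hmass : ∫ x in (0:ℝ)..h, k x < δ0 := hsm (by
    rw [Real.dist_eq, sub_zero, abs_of_pos hhpos]; exact hhh2)
  have hkh : h * k h ≤ ∫ x in (0:ℝ)..h, k x := by
    have := low hanti hkI hhpos 0
    simpa using this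
  have hδε : δ0 ≤ ε := (min_le_left _ _).trans (min_le_left _ _)
  have hδ1 : δ0 ≤ 1 := (min_le_left _ _).trans (min_le_right _ _)
  have hδE : δ0 ≤ E0 / 2 / (M + 1) := min_le_right _ _
  have G : GapLaw (dg k h) := dg_gap hk0 hanti hhpos (by linarith)
  refine ⟨dg k h, G, ?_, ?_⟩
  · simp only [dg]; linarith
  -- the error bound
  have hbr : ∀ m ≤ n, |∑ j ∈ Finset.range m, (h * k ((j + 1 : ℕ) * h) * p ((m - (j + 1) : ℕ) * h)
      - ∫ x in ((j : ℕ) * h)..((j + 1 : ℕ) * h), k x * p (m * h - x))| ≤ E0 := by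
    intro m hm
    have hm' : (m:ℝ) ≤ n := by exact_mod_cast hm
    have hmh : (m:ℝ) * h ≤ 1 := by
      rw [← hnh]; exact mul_le_mul_of_nonneg_right hm' hhpos.le
    have hterm : ∀ j ∈ Finset.range m, |h * k ((j + 1 : ℕ) * h) * p ((m - (j + 1) : ℕ) * h)
        - ∫ x in ((j : ℕ) * h)..((j + 1 : ℕ) * h), k x * p (m * h - x)|
        ≤ M * ((∫ x in ((j : ℕ) * h)..((j + 1 : ℕ) * h), k x) - h * k ((j + 1 : ℕ) * h))
          + E0 / 2 / (A + 1) * ∫ x in ((j : ℕ) * h)..((j + 1 : ℕ) * h), k x := by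
      intro j hj
      rw [Finset.mem_range] at hj
      have hjm : ((j + 1 : ℕ) : ℝ) ≤ m := by exact_mod_cast hj
      have hcast : ((m - (j + 1) : ℕ) : ℝ) * h = m * h - (j + 1 : ℕ) * h := by
        rw [Nat.cast_sub (by omega)]; ring
      have hlen : ((j + 1 : ℕ) : ℝ) * h - (j : ℕ) * h = h := by push_cast; ring
      have hle : ((j : ℕ) : ℝ) * h ≤ (j + 1 : ℕ) * h := by linarith
      have hc : h * k ((j + 1 : ℕ) * h) * p ((m - (j + 1) : ℕ) * h)
          = ∫ x in ((j : ℕ) * h)..((j + 1 : ℕ) * h),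
            k ((j + 1 : ℕ) * h) * p ((m - (j + 1) : ℕ) * h) := by
        rw [intervalIntegral.integral_const, hlen, smul_eq_mul]; ring
      have hi2 : IntervalIntegrable (fun x => k x * p (m * h - x)) volume ((j : ℕ) * h)
          ((j + 1 : ℕ) * h) := (hkI _ _).mul_continuousOn (by fun_prop)
      rw [hc, ← intervalIntegral.integral_sub intervalIntegrable_const hi2]
      have hg : ∫ x in ((j : ℕ) * h)..((j + 1 : ℕ) * h),
            (M * (k x - k ((j + 1 : ℕ) * h)) + E0 / 2 / (A + 1) * k x)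
          = M * ((∫ x in ((j : ℕ) * h)..((j + 1 : ℕ) * h), k x) - h * k ((j + 1 : ℕ) * h))
          + E0 / 2 / (A + 1) * ∫ x in ((j : ℕ) * h)..((j + 1 : ℕ) * h), k x := by
        rw [intervalIntegral.integral_add (((hkI _ _).sub intervalIntegrable_const).const_mul _)
          ((hkI _ _).const_mul _), intervalIntegral.integral_const_mul,
          intervalIntegral.integral_const_mul,
          intervalIntegral.integral_sub (hkI _ _) intervalIntegrable_const,
          intervalIntegral.integral_const, hlen, smul_eq_mul]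
      rw [← hg, ← Real.norm_eq_abs]
      refine intervalIntegral.norm_integral_le_of_norm_le hle (Eventually.of_forall fun x hx => ?_)
        ((((hkI _ _).sub intervalIntegrable_const).const_mul _).add ((hkI _ _).const_mul _))
      rw [mem_Ioc] at hx
      have hx0 : 0 ≤ (j:ℝ) * h := by positivity
      have hmem1 : ((m - (j + 1) : ℕ) : ℝ) * h ∈ Icc (0:ℝ) 1 := by
        refine ⟨by positivity, ?_⟩
        rw [hcast]
        have : 0 ≤ ((j + 1 : ℕ) : ℝ) * h := by positivity
        linarith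
      have hjmh : ((j + 1 : ℕ) : ℝ) * h ≤ m * h := mul_le_mul_of_nonneg_right hjm hhpos.le
      have hmem2 : (m:ℝ) * h - x ∈ Icc (0:ℝ) 1 := ⟨by linarith, by linarith⟩
      have hd : dist (((m - (j + 1) : ℕ) : ℝ) * h) ((m:ℝ) * h - x) < h1 := by
        rw [Real.dist_eq, hcast, abs_lt]
        constructor <;> linarith
      have hpd := huc _ hmem1 _ hmem2 hd
      rw [Real.dist_eq] at hpd
      have hkx : k ((j + 1 : ℕ) * h) ≤ k x := by
        refine hanti ?_ ?_ hx.2
        · rw [mem_Ioi]; linarith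
        · rw [mem_Ioi]; positivity
      have hsplit : k ((j + 1 : ℕ) * h) * p ((m - (j + 1) : ℕ) * h) - k x * p (m * h - x)
          = -(k x - k ((j + 1 : ℕ) * h)) * p ((m - (j + 1) : ℕ) * h)
            + k x * (p ((m - (j + 1) : ℕ) * h) - p (m * h - x)) := by ring
      rw [hsplit]
      refine (norm_add_le _ _).trans ?_
      rw [norm_mul, norm_mul, norm_neg, Real.norm_of_nonneg (sub_nonneg.mpr hkx),
        Real.norm_of_nonneg (hk0 x)]
      have e1 := mul_le_mul_of_nonneg_left (hM _ hmem1) (sub_nonneg.mpr hkx)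
      have e2 := mul_le_mul_of_nonneg_left hpd.le (hk0 x)
      rw [← Real.norm_eq_abs] at e2
      linarith
    refine (Finset.abs_sum_le_sum_abs _ _).trans ((Finset.sum_le_sum hterm).trans ?_)
    rw [Finset.sum_add_distrib, ← Finset.mul_sum, ← Finset.mul_sum, Finset.sum_sub_distrib]
    have hadj := intervalIntegral.sum_integral_adjacent_intervals (μ := volume) (f := k)
      (a := fun j : ℕ => (j:ℝ) * h) (n := m) (fun j _ => hkI _ _)
    simp only [Nat.cast_zero, zero_mul] at hadj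
    rw [hadj]
    have hup := sum_upp hanti hkI hk0 hhpos m
    have hAm : ∫ x in (0:ℝ)..(m * h), k x ≤ A := by
      have h3 := intervalIntegral.integral_add_adjacent_intervals (hkI 0 (m * h)) (hkI (m * h) 1)
      have h4 : 0 ≤ ∫ x in ((m:ℝ) * h)..1, k x :=
        intervalIntegral.integral_nonneg hmh fun x _ => hk0 x
      linarith
    have e1 : M * ((∫ x in (0:ℝ)..(m * h), k x)
        - ∑ j ∈ Finset.range m, h * k ((j + 1 : ℕ) * h)) ≤ E0 / 2 := by
      have h3 : (∫ x in (0:ℝ)..(m * h), k x)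
        - ∑ j ∈ Finset.range m, h * k ((j + 1 : ℕ) * h) ≤ E0 / 2 / (M + 1) := by linarith
      have h4 := mul_le_mul_of_nonneg_left h3 hM0
      refine h4.trans ?_
      rw [mul_div_assoc', div_le_iff₀ (by positivity)]
      nlinarith
    have e2 : E0 / 2 / (A + 1) * ∫ x in (0:ℝ)..(m * h), k x ≤ E0 / 2 := by
      have h4 := mul_le_mul_of_nonneg_left hAm (show 0 ≤ E0 / 2 / (A + 1) by positivity)
      refine h4.trans ?_
      rw [div_mul_eq_mul_div, div_le_iff₀ (by positivity)]
      nlinarith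
    linarith
  -- the kernel sum
  have hker : ∀ m ≤ n, ∑ j ∈ Finset.range m, h * k ((j + 1 : ℕ) * h)
      * Real.exp (-(θ * ((j + 1 : ℕ) * h))) ≤ 1 / 2 := by
    intro m hm
    have hm' : (m:ℝ) ≤ n := by exact_mod_cast hm
    have hmh : (m:ℝ) * h ≤ 1 := by
      rw [← hnh]; exact mul_le_mul_of_nonneg_right hm' hhpos.le
    set k' : ℝ → ℝ := fun x => k x * Real.exp (-(θ * x)) with hk'
    have hk'I : ∀ S T, IntervalIntegrable k' volume S T := fun S T =>
      (hkI S T).mul_continuousOn (by fun_prop)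
    have hk'a : AntitoneOn k' (Ioi 0) := by
      intro x hx y hy hxy
      simp only [hk']
      refine mul_le_mul (hanti hx hy hxy) ?_ (Real.exp_pos _).le (hk0 x)
      rw [Real.exp_le_exp]
      have : (θ:ℝ) * x ≤ θ * y := mul_le_mul_of_nonneg_left hxy (Nat.cast_nonneg θ)
      linarith
    have h3 := sum_low hk'a hk'I hhpos m
    have h4 : ∫ x in (0:ℝ)..(m * h), k' x ≤ ∫ x in (0:ℝ)..1, k' x := by
      have h5 := intervalIntegral.integral_add_adjacent_intervals (hk'I 0 (m * h)) (hk'I (m * h) 1)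
      have h6 : 0 ≤ ∫ x in ((m:ℝ) * h)..1, k' x :=
        intervalIntegral.integral_nonneg hmh fun x _ => mul_nonneg (hk0 x) (Real.exp_pos _).le
      linarith
    refine le_trans (le_of_eq ?_) (h3.trans (h4.trans hθ))
    refine Finset.sum_congr rfl fun j _ => ?_
    simp only [hk']
    ring
  have herr : ∀ m, m ≤ n → |u (dg k h) m - p (m * h)| ≤ 2 * E0 * Real.exp (θ * (m * h)) := by
    intro m
    induction m using Nat.strong_induction_on with
    | _ m ih =>
      intro hm
      have hpm : p (m * h) = 1 - ∑ j ∈ Finset.range m,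
          ∫ x in ((j : ℕ) * h)..((j + 1 : ℕ) * h), k x * p (m * h - x) := by
        have h3 := hV (m * h) (by positivity)
        have hadj := intervalIntegral.sum_integral_adjacent_intervals (μ := volume)
          (f := fun x => k x * p (m * h - x)) (a := fun j : ℕ => (j:ℝ) * h) (n := m)
          (fun j _ => (hkI _ _).mul_continuousOn (by fun_prop))
        simp only [Nat.cast_zero, zero_mul] at hadj
        rw [hadj]
        linarith
      have hdiff : u (dg k h) m - p (m * h)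
          = -(∑ j ∈ Finset.range m, h * k ((j + 1 : ℕ) * h) *
              (u (dg k h) (m - (j + 1)) - p ((m - (j + 1) : ℕ) * h)))
            - ∑ j ∈ Finset.range m, (h * k ((j + 1 : ℕ) * h) * p ((m - (j + 1) : ℕ) * h)
              - ∫ x in ((j : ℕ) * h)..((j + 1 : ℕ) * h), k x * p (m * h - x)) := by
        rw [dg_u k h m, hpm, Finset.sum_sub_distrib]
        have h3 : ∑ j ∈ Finset.range m, h * k ((j + 1 : ℕ) * h) *
              (u (dg k h) (m - (j + 1)) - p ((m - (j + 1) : ℕ) * h))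
            = ∑ j ∈ Finset.range m, h * k ((j + 1 : ℕ) * h) * u (dg k h) (m - (j + 1))
              - ∑ j ∈ Finset.range m, h * k ((j + 1 : ℕ) * h) * p ((m - (j + 1) : ℕ) * h) := by
          rw [← Finset.sum_sub_distrib]
          exact Finset.sum_congr rfl fun j _ => by ring
        rw [h3]; ring
      rw [hdiff]
      have h4 := hbr m hm
      have h5 : |∑ j ∈ Finset.range m, h * k ((j + 1 : ℕ) * h) *
              (u (dg k h) (m - (j + 1)) - p ((m - (j + 1) : ℕ) * h))|
          ≤ E0 * Real.exp (θ * (m * h)) := by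
        refine (Finset.abs_sum_le_sum_abs _ _).trans ?_
        have h6 : ∀ j ∈ Finset.range m, |h * k ((j + 1 : ℕ) * h) *
              (u (dg k h) (m - (j + 1)) - p ((m - (j + 1) : ℕ) * h))|
            ≤ 2 * E0 * Real.exp (θ * (m * h)) * (h * k ((j + 1 : ℕ) * h)
              * Real.exp (-(θ * ((j + 1 : ℕ) * h)))) := by
          intro j hj
          rw [Finset.mem_range] at hj
          have h7 := ih (m - (j + 1)) (by omega) (by omega)
          have h8 : 0 ≤ h * k ((j + 1 : ℕ) * h) := mul_nonneg hhpos.le (hk0 _)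
          rw [abs_mul, abs_of_nonneg h8]
          refine (mul_le_mul_of_nonneg_left h7 h8).trans (le_of_eq ?_)
          have h9 : Real.exp (θ * ((m - (j + 1) : ℕ) * h))
              = Real.exp (θ * (m * h)) * Real.exp (-(θ * ((j + 1 : ℕ) * h))) := by
            rw [← Real.exp_add, Nat.cast_sub (by omega)]
            congr 1; ring
          rw [h9]; ring
        refine (Finset.sum_le_sum h6).trans ?_
        rw [← Finset.mul_sum]
        have h7 := mul_le_mul_of_nonneg_left (hker m hm)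
          (show 0 ≤ 2 * E0 * Real.exp (θ * (m * h)) by positivity)
        linarith
      have h6 : E0 ≤ E0 * Real.exp (θ * (m * h)) := by
        refine le_mul_of_one_le_right hE0pos.le ?_
        rw [Real.one_le_exp_iff]
        positivity
      rw [abs_le] at h4 h5 ⊢
      constructor <;> linarith [h4.1, h4.2, h5.1, h5.2]
  intro m hm
  have h3 := herr m hm
  have hm' : (m:ℝ) ≤ n := by exact_mod_cast hm
  have hmh : (m:ℝ) * h ≤ 1 := by
    rw [← hnh]; exact mul_le_mul_of_nonneg_right hm' hhpos.le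
  have h4 : Real.exp (θ * (m * h)) ≤ Real.exp θ := by
    rw [Real.exp_le_exp]
    exact mul_le_of_le_one_right (Nat.cast_nonneg θ) hmh
  have h5 : (m:ℝ) / n = m * h := by rw [hh]; ring
  rw [h5]
  refine h3.trans ?_
  have h6 : 2 * E0 * Real.exp θ = ε := by
    rw [hE0]
    have : Real.exp (-(θ:ℝ)) * Real.exp θ = 1 := by rw [← Real.exp_add]; simp
    calc 2 * (ε * Real.exp (-(θ:ℝ)) / 2) * Real.exp θ = ε * (Real.exp (-(θ:ℝ)) * Real.exp θ) := by
          ring
      _ = ε := by rw [this, mul_one]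
  rw [← h6]
  exact mul_le_mul_of_nonneg_left h4 (by positivity)

end Pool.Agent.Helper945.Discr
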