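import Mathlib

set_option autoImplicit false
set_option linter.unusedSectionVars false

open MeasureTheory Set Filter Topology

namespace Pool.Agent.Helper945.ExLow

/-- The `j`-th term of the example. -/
noncomputable def phi (lam a : ℝ) (j : ℕ) (t : ℝ) : ℝ :=
  Real.exp (-(lam * max (t - j * a) 0)) * (lam * max (t - j * a) 0) ^ j / (j.factorial : ℝ)

/-- The p-function whose canonical measure is a point mass. -/
noncomputable def pex (lam a : ℝ) (t : ℝ) : ℝ := ∑' j : ℕ, phi lam a j t

section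
variable {lam a : ℝ} (hl : 0 < lam) (ha : 0 < a)
include hl ha

lemma phi_nonneg (j : ℕ) (t : ℝ) : 0 ≤ phi lam a j t := by
  unfold phi
  have : 0 ≤ max (t - j * a) 0 := le_max_right _ _
  positivity

lemma phi_le (j : ℕ) (T t : ℝ) (hT : 0 ≤ T) (ht : t ≤ T) :
    phi lam a j t ≤ (lam * T) ^ j / (j.factorial : ℝ) := by
  unfold phi
  have h0 : 0 ≤ max (t - j * a) 0 := le_max_right _ _
  have h1 : max (t - j * a) 0 ≤ T := by
    refine max_le ?_ hT
    have : 0 ≤ (j:ℝ) * a := by positivity
    linarith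
  refine div_le_div_of_nonneg_right ?_ (by positivity)
  have h2 : Real.exp (-(lam * max (t - j * a) 0)) ≤ 1 := by
    rw [Real.exp_le_one_iff]
    have : 0 ≤ lam * max (t - j * a) 0 := by positivity
    linarith
  calc Real.exp (-(lam * max (t - j * a) 0)) * (lam * max (t - j * a) 0) ^ j
      ≤ 1 * (lam * max (t - j * a) 0) ^ j := mul_le_mul_of_nonneg_right h2 (by positivity)
    _ ≤ (lam * T) ^ j := by
        rw [one_mul]
        exact pow_le_pow_left₀ (by positivity) (mul_le_mul_of_nonneg_left h1 hl.le) j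

lemma pex_continuousOn : ContinuousOn (pex lam a) (Ici 0) := by
  intro t ht
  have h1 : ContinuousOn (pex lam a) (Iic (|t| + 1)) := by
    unfold pex
    refine continuousOn_tsum (u := fun j : ℕ => (lam * (|t| + 1)) ^ j / (j.factorial : ℝ))
      (fun j => ?_) (Real.summable_pow_div_factorial _) (fun j x hx => ?_)
    · unfold phi; fun_prop
    · rw [Real.norm_of_nonneg (phi_nonneg hl ha j x)]
      exact phi_le hl ha j _ x (by positivity) hx
  have h2 : ContinuousAt (pex lam a) t :=
    h1.continuousAt (Iic_mem_nhds (by have := le_abs_self t; linarith))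
  exact h2.continuousWithinAt

lemma phi_zero_of_le (j : ℕ) (hj : 1 ≤ j) (t : ℝ) (ht : t ≤ j * a) : phi lam a j t = 0 := by
  unfold phi
  rw [max_eq_right (by linarith), mul_zero, zero_pow (by omega), mul_zero, zero_div]

lemma laplace_base (s : ℝ) (hs : 0 < s) (j : ℕ) :
    IntegrableOn (fun x : ℝ => Real.exp (-(s * x)) *
      (Real.exp (-(lam * x)) * (lam * x) ^ j / (j.factorial : ℝ))) (Ioi 0) ∧
    ∫ x in Ioi (0:ℝ), Real.exp (-(s * x)) *
      (Real.exp (-(lam * x)) * (lam * x) ^ j / (j.factorial : ℝ))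
      = lam ^ j / (s + lam) ^ (j + 1) := by
  have hsl : 0 < s + lam := by linarith
  have hg := Real.integral_rpow_mul_exp_neg_mul_Ioi (a := (j:ℝ) + 1) (r := s + lam)
    (by positivity) hsl
  have hc : ∀ x : ℝ, Real.exp (-(s * x)) *
      (Real.exp (-(lam * x)) * (lam * x) ^ j / (j.factorial : ℝ))
      = lam ^ j / (j.factorial : ℝ) * (x ^ ((j:ℝ) + 1 - 1) * Real.exp (-((s + lam) * x))) := by
    intro x
    have h1 : (j:ℝ) + 1 - 1 = (j:ℝ) := by ring
    have h2 : Real.exp (-((s + lam) * x)) = Real.exp (-(s * x)) * Real.exp (-(lam * x)) := by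
      rw [← Real.exp_add]; congr 1; ring
    rw [h1, Real.rpow_natCast, h2, mul_pow]; ring
  have hv : ∫ x in Ioi (0:ℝ), Real.exp (-(s * x)) *
      (Real.exp (-(lam * x)) * (lam * x) ^ j / (j.factorial : ℝ))
      = lam ^ j / (s + lam) ^ (j + 1) := by
    simp_rw [hc]
    rw [integral_const_mul, hg, Real.Gamma_nat_eq_factorial]
    have h3 : (1 / (s + lam)) ^ ((j:ℝ) + 1) = 1 / (s + lam) ^ (j + 1) := by
      have : (j:ℝ) + 1 = ((j + 1 : ℕ) : ℝ) := by push_cast; ring
      rw [this, Real.rpow_natCast, div_pow, one_pow]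
    rw [h3]
    field_simp
  refine ⟨?_, hv⟩
  by_contra hcon
  rw [integral_undef hcon] at hv
  have : 0 < lam ^ j / (s + lam) ^ (j + 1) := by positivity
  linarith

lemma laplace_phi (s : ℝ) (hs : 0 < s) (j : ℕ) :
    IntegrableOn (fun t : ℝ => Real.exp (-(s * t)) * phi lam a j t) (Ioi 0) ∧
    ∫ t in Ioi (0:ℝ), Real.exp (-(s * t)) * phi lam a j t
      = 1 / (s + lam) * (lam * Real.exp (-(s * a)) / (s + lam)) ^ j := by
  obtain ⟨h1, h2⟩ := laplace_base hl ha s hs j
  set ψ : ℝ → ℝ := fun x : ℝ => Real.exp (-(s * x)) *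
      (Real.exp (-(lam * x)) * (lam * x) ^ j / (j.factorial : ℝ)) with hψ
  have hja : 0 ≤ (j:ℝ) * a := by positivity
  have heq : (Ioi (0:ℝ)).indicator (fun t : ℝ => Real.exp (-(s * t)) * phi lam a j t)
      = fun t => Real.exp (-(s * (j * a))) * (Ioi (0:ℝ)).indicator ψ (t - j * a) := by
    funext t
    rcases le_or_gt t 0 with ht | ht
    · rw [indicator_of_notMem (by rw [mem_Ioi]; linarith),
        indicator_of_notMem (by rw [mem_Ioi]; linarith), mul_zero]
    · rw [indicator_of_mem (show t ∈ Ioi (0:ℝ) from ht)]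
      rcases lt_or_ge 0 (t - j * a) with h | h
      · rw [indicator_of_mem (show t - j * a ∈ Ioi (0:ℝ) from h)]
        simp only [hψ, phi]
        rw [max_eq_left h.le]
        have : Real.exp (-(s * t)) = Real.exp (-(s * (j * a))) * Real.exp (-(s * (t - j * a))) := by
          rw [← Real.exp_add]; congr 1; ring
        rw [this]; ring
      · rw [indicator_of_notMem (by rw [mem_Ioi]; linarith), mul_zero]
        have hj : 1 ≤ j := by
          rcases Nat.eq_zero_or_pos j with rfl | hj
          · simp at h; linarith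
          · exact hj
        rw [phi_zero_of_le hl ha j hj t (by linarith), mul_zero]
  have hψI : Integrable ((Ioi (0:ℝ)).indicator ψ) := by
    rw [integrable_indicator_iff measurableSet_Ioi]; exact h1
  constructor
  · rw [← integrable_indicator_iff measurableSet_Ioi, heq]
    exact (hψI.comp_sub_right _).const_mul _
  · rw [← integral_indicator measurableSet_Ioi, heq, integral_const_mul,
      integral_sub_right_eq_self (fun x => (Ioi (0:ℝ)).indicator ψ x),
      integral_indicator measurableSet_Ioi, h2]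
    have : Real.exp (-(s * (j * a))) = Real.exp (-(s * a)) ^ j := by
      rw [← Real.exp_nat_mul]; congr 1; ring
    rw [this, div_pow, mul_pow, pow_succ]
    field_simp

lemma laplace_pex (s : ℝ) (hs : 0 < s) :
    ∫ t in Ioi (0:ℝ), Real.exp (-(s * t)) * pex lam a t
      = 1 / (s + lam * (1 - Real.exp (-(s * a)))) := by
  have hsl : 0 < s + lam := by linarith
  set r : ℝ := lam * Real.exp (-(s * a)) / (s + lam) with hr
  have hr0 : 0 ≤ r := by positivity
  have hexp : Real.exp (-(s * a)) ≤ 1 := by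
    rw [Real.exp_le_one_iff]
    have : 0 < s * a := by positivity
    linarith
  have hr1 : r < 1 := by
    rw [hr, div_lt_one hsl]
    have := mul_le_mul_of_nonneg_left hexp hl.le
    linarith
  have hgeo : HasSum (fun j : ℕ => 1 / (s + lam) * r ^ j) (1 / (s + lam) * (1 - r)⁻¹) :=
    (hasSum_geometric_of_lt_one hr0 hr1).mul_left _
  have h1 := hasSum_integral_of_summable_integral_norm
    (μ := volume.restrict (Ioi (0:ℝ))) (F := fun (j : ℕ) t => Real.exp (-(s * t)) * phi lam a j t)
    (fun j => (laplace_phi hl ha s hs j).1) (by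
      have : ∀ j : ℕ, ∫ t in Ioi (0:ℝ), ‖Real.exp (-(s * t)) * phi lam a j t‖
          = 1 / (s + lam) * r ^ j := by
        intro j
        rw [← (laplace_phi hl ha s hs j).2]
        congr 1
        funext t
        exact Real.norm_of_nonneg (mul_nonneg (Real.exp_pos _).le (phi_nonneg hl ha j t))
      simp_rw [this]
      exact hgeo.summable)
  have h2 : ∀ j : ℕ, ∫ t in Ioi (0:ℝ), Real.exp (-(s * t)) * phi lam a j t
      = 1 / (s + lam) * r ^ j := fun j => (laplace_phi hl ha s hs j).2
  simp_rw [h2, tsum_mul_left] at h1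
  have h3 := h1.unique hgeo
  unfold pex
  rw [h3]
  have h4 : s + lam * (1 - Real.exp (-(s * a))) = (s + lam) * (1 - r) := by
    rw [hr]; field_simp; ring
  rw [h4]
  have : 1 - r ≠ 0 := by linarith
  field_simp

lemma pex_small (t : ℝ) (ht0 : 0 ≤ t) (ht : t ≤ a) : pex lam a t = Real.exp (-(lam * t)) := by
  unfold pex
  rw [tsum_eq_single 0]
  · unfold phi; simp [ht0]
  · intro j hj
    refine phi_zero_of_le hl ha j (by omega) t (ht.trans ?_)
    have : (1:ℝ) ≤ j := by exact_mod_cast Nat.one_le_iff_ne_zero.mpr hj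
    nlinarith

lemma pex_one (ha1 : a ≤ 1) (ha2 : 1 ≤ 2 * a) :
    pex lam a 1 = Real.exp (-lam) + lam * (1 - a) * Real.exp (-(lam * (1 - a))) := by
  unfold pex
  rw [tsum_eq_sum (s := Finset.range 2)]
  · rw [Finset.sum_range_succ, Finset.sum_range_one]
    unfold phi
    have h1 : max (1 - a) 0 = 1 - a := max_eq_left (by linarith)
    simp [h1]
    ring
  · intro j hj
    rw [Finset.mem_range, not_lt] at hj
    refine phi_zero_of_le hl ha j (by omega) 1 (ha2.trans ?_)
    have : (2:ℝ) ≤ j := by exact_mod_cast hj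
    exact mul_le_mul_of_nonneg_right this ha.le

lemma pex_kingman : ContinuousOn (pex lam a) (Ici 0) ∧ ∃ μ : Measure ℝ, μ (Iic 0) = 0 ∧
    Integrable (fun x : ℝ => 1 - Real.exp (-x)) μ ∧ ∃ b : ℝ, 0 ≤ b ∧
    ∀ s : ℝ, 0 < s → (∫ t in Ioi (0:ℝ), Real.exp (-(s * t)) * pex lam a t) *
      (s + b + ∫ x, (1 - Real.exp (-(s * x))) ∂μ) = 1 := by
  refine ⟨pex_continuousOn hl ha, ENNReal.ofReal lam • Measure.dirac a, ?_, ?_, 0, le_rfl, ?_⟩
  · rw [Measure.smul_apply, Measure.dirac_apply' _ measurableSet_Iic]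
    simp [ha]
  · refine Integrable.smul_measure ?_ ENNReal.ofReal_ne_top
    exact integrable_dirac (by simp [enorm_lt_top])
  · intro s hs
    rw [laplace_pex hl ha s hs, integral_smul_measure, integral_dirac,
      ENNReal.toReal_ofReal hl.le, smul_eq_mul, add_zero]
    have hexp : Real.exp (-(s * a)) ≤ 1 := by
      rw [Real.exp_le_one_iff]
      have : 0 < s * a := by positivity
      linarith
    have h1 : 0 < s + lam * (1 - Real.exp (-(s * a))) := by
      have : 0 ≤ lam * (1 - Real.exp (-(s * a))) := mul_nonneg hl.le (by linarith)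
      linarith
    field_simp

end

/-- Below `1/e` there is no uniform lower bound. -/
theorem exists_bad (M : ℝ) (hM0 : 0 < M) (hM1 : M < Real.exp (-1)) (δ : ℝ) (hδ : 0 < δ) :
    ∃ lam a : ℝ, 0 < lam ∧ 0 < a ∧ pex lam a 1 = M ∧
      ∃ t ∈ Icc (0:ℝ) 1, pex lam a t < δ := by
  have h1 : Tendsto (fun n : ℕ => Real.exp (-((n:ℝ) * (1 / 4)))) atTop (𝓝 0) :=
    Real.tendsto_exp_neg_atTop_nhds_zero.comp
      (tendsto_natCast_atTop_atTop.atTop_mul_const (by norm_num))
  obtain ⟨n, hn⟩ := ((h1.eventually (gt_mem_nhds (lt_min hδ hM0))).and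
    (eventually_ge_atTop 2)).exists
  obtain ⟨hn1, hn2⟩ := hn
  have hnδ : Real.exp (-((n:ℝ) * (1 / 4))) < δ := hn1.trans_le (min_le_left _ _)
  have hnM : Real.exp (-((n:ℝ) * (1 / 4))) < M := hn1.trans_le (min_le_right _ _)
  set lam : ℝ := (n:ℝ) with hlam
  have hlam2 : (2:ℝ) ≤ lam := by rw [hlam]; exact_mod_cast hn2
  have hl : 0 < lam := by linarith
  have hexpM : Real.exp (-lam) < M := by
    refine lt_of_le_of_lt ?_ hnM
    rw [Real.exp_le_exp]; linarith
  have hivt : M - Real.exp (-lam) ∈ (fun y : ℝ => y * Real.exp (-y)) '' Icc (0:ℝ) 1 := by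
    refine intermediate_value_Icc zero_le_one (by fun_prop) ?_
    simp only [zero_mul, one_mul]
    constructor
    · linarith
    · have := Real.exp_pos (-lam); linarith
  obtain ⟨y, ⟨hy0, hy1⟩, hy⟩ := hivt
  simp only at hy
  set a : ℝ := 1 - y / lam with ha
  have hyl : y / lam ≤ 1 / 2 := by
    rw [div_le_iff₀ hl]; linarith
  have hyl0 : 0 ≤ y / lam := by positivity
  have hapos : 0 < a := by rw [ha]; linarith
  have hly : lam * (1 - a) = y := by rw [ha]; field_simp; ring
  refine ⟨lam, a, hl, hapos, ?_, a / 2, ⟨by linarith, by rw [ha]; linarith⟩, ?_⟩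
  · rw [pex_one hl hapos (by rw [ha]; linarith) (by rw [ha]; linarith), hly, hy]
    ring
  · rw [pex_small hl hapos (a / 2) (by linarith) (by linarith)]
    refine lt_of_le_of_lt ?_ hnδ
    rw [Real.exp_le_exp]
    have : 1 / 2 ≤ a := by rw [ha]; linarith
    nlinarith

end Pool.Agent.Helper945.ExLow
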