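import Mathlib

set_option autoImplicit false

open Finset

namespace Pool.Agent.Helper945.Proc

/-- the pattern with a renewal at time `0` only -/
def pat0 : ℕ → Bool := fun n => decide (n = 0)

/-- renewal at `0`, then the next renewal at `k + 1`, from which the pattern `w` is followed -/
def shift (k : ℕ) (w : ℕ → Bool) : ℕ → Bool :=
  fun n => if n = 0 then true else if n ≤ k then false else w (n - (k + 1))

/-- expectation functional of the renewal process observed up to time `T` -/
noncomputable def Phi (f : ℕ → ℝ) (T : ℕ) (F : (ℕ → Bool) → ℝ) : ℝ :=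
  (∑ k : Fin T, f k * Phi f (T - (k + 1)) (fun w => F (shift k w)))
    + (1 - ∑ k : Fin T, f k) * F pat0
termination_by T
decreasing_by
  have := k.isLt
  omega

lemma Phi_eq (f : ℕ → ℝ) (T : ℕ) (F : (ℕ → Bool) → ℝ) :
    Phi f T F = (∑ k ∈ range T, f k * Phi f (T - (k + 1)) (fun w => F (shift k w)))
      + (1 - ∑ k ∈ range T, f k) * F pat0 := by
  rw [Phi, Finset.sum_range, Finset.sum_range]

lemma Phi_congr (f : ℕ → ℝ) (T : ℕ) (F G : (ℕ → Bool) → ℝ)
    (h : ∀ w, w 0 = true → F w = G w) : Phi f T F = Phi f T G := by
  rw [Phi_eq, Phi_eq]
  congr 1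
  · apply Finset.sum_congr rfl
    intro k _
    congr 2
    funext w
    exact h _ (by simp [shift])
  · rw [h pat0 (by simp [pat0])]

lemma Phi_add (f : ℕ → ℝ) (T : ℕ) : ∀ (F G : (ℕ → Bool) → ℝ),
    Phi f T (fun w => F w + G w) = Phi f T F + Phi f T G := by
  induction T using Nat.strong_induction_on with
  | _ T ih =>
    intro F G
    rw [Phi_eq, Phi_eq f T F, Phi_eq f T G]
    have : ∀ k ∈ range T, f k * Phi f (T - (k + 1)) (fun w => F (shift k w) + G (shift k w)) =
        f k * Phi f (T - (k + 1)) (fun w => F (shift k w)) +
        f k * Phi f (T - (k + 1)) (fun w => G (shift k w)) := by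
      intro k hk
      rw [Finset.mem_range] at hk
      rw [ih _ (by omega)]
      ring
    rw [Finset.sum_congr rfl this, Finset.sum_add_distrib]
    ring

lemma Phi_smul (f : ℕ → ℝ) (T : ℕ) (c : ℝ) : ∀ (F : (ℕ → Bool) → ℝ),
    Phi f T (fun w => c * F w) = c * Phi f T F := by
  induction T using Nat.strong_induction_on with
  | _ T ih =>
    intro F
    rw [Phi_eq, Phi_eq f T F]
    have : ∀ k ∈ range T, f k * Phi f (T - (k + 1)) (fun w => c * F (shift k w)) =
        c * (f k * Phi f (T - (k + 1)) (fun w => F (shift k w))) := by
      intro k hk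
      rw [Finset.mem_range] at hk
      rw [ih _ (by omega)]
      ring
    rw [Finset.sum_congr rfl this, ← Finset.mul_sum]
    ring

lemma Phi_const (f : ℕ → ℝ) (T : ℕ) (c : ℝ) : Phi f T (fun _ => c) = c := by
  induction T using Nat.strong_induction_on with
  | _ T ih =>
    rw [Phi_eq]
    have : ∀ k ∈ range T, f k * Phi f (T - (k + 1)) (fun _ => c) = f k * c := by
      intro k hk
      rw [Finset.mem_range] at hk
      rw [ih _ (by omega)]
    rw [Finset.sum_congr rfl this, ← Finset.sum_mul]
    ring

lemma Phi_nonneg (f : ℕ → ℝ) (hf : ∀ k, 0 ≤ f k) (hf1 : ∀ n, ∑ k ∈ range n, f k ≤ 1) (T : ℕ) :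
    ∀ (F : (ℕ → Bool) → ℝ), (∀ w, 0 ≤ F w) → 0 ≤ Phi f T F := by
  induction T using Nat.strong_induction_on with
  | _ T ih =>
    intro F hF
    rw [Phi_eq]
    apply add_nonneg
    · apply Finset.sum_nonneg
      intro k hk
      rw [Finset.mem_range] at hk
      exact mul_nonneg (hf k) (ih _ (by omega) _ (fun w => hF _))
    · exact mul_nonneg (by linarith [hf1 T]) (hF _)

lemma Phi_mono (f : ℕ → ℝ) (hf : ∀ k, 0 ≤ f k) (hf1 : ∀ n, ∑ k ∈ range n, f k ≤ 1) (T : ℕ)
    (F G : (ℕ → Bool) → ℝ) (h : ∀ w, F w ≤ G w) : Phi f T F ≤ Phi f T G := by
  have h1 := Phi_nonneg f hf hf1 T (fun w => G w + (-1) * F w) (fun w => by linarith [h w])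
  rw [Phi_add f T G (fun w => (-1) * F w), Phi_smul] at h1
  linarith

/-- indicator of the set of patterns that are true at all times of `l` -/
noncomputable def chi {T : Type*} (l : List T) (w : T → Bool) : ℝ :=
  if ∀ b ∈ l, w b = true then 1 else 0

/-- product of `u` over the successive gaps of a list of times -/
def Ud (u : ℕ → ℝ) : List ℕ → ℝ
  | [] => 1
  | b :: l => u b * Ud u (l.map (· - b))
termination_by l => l.length

lemma Ud_nil (u : ℕ → ℝ) : Ud u [] = 1 := by rw [Ud]
lemma Ud_cons (u : ℕ → ℝ) (b : ℕ) (l : List ℕ) : Ud u (b :: l) = u b * Ud u (l.map (· - b)) := by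
  rw [Ud]

theorem Phi_chi (u f : ℕ → ℝ) (hu : u 0 = 1)
    (hr : ∀ n, u (n + 1) = ∑ k ∈ range (n + 1), f k * u (n - k)) (T : ℕ) :
    ∀ l : List ℕ, l.Pairwise (· ≤ ·) → (∀ b ∈ l, b ≤ T) → Phi f T (chi l) = Ud u l := by
  induction T using Nat.strong_induction_on with
  | _ T ih =>
    intro l
    induction l with
    | nil =>
      intro _ _
      rw [Ud_nil]
      have : chi ([] : List ℕ) = fun _ => (1 : ℝ) := by
        funext w; simp [chi]
      rw [this, Phi_const]
    | cons b l ihl =>
      intro hl hT
      rcases Nat.eq_zero_or_pos b with hb | hb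
      · subst hb
        rw [Ud_cons, hu, one_mul]
        have h1 : l.map (· - 0) = l := by simp
        rw [h1, ← ihl (List.Pairwise.of_cons hl) (fun c hc => hT c (List.mem_cons_of_mem _ hc))]
        apply Phi_congr
        intro w hw
        simp [chi, hw]
      · have hbT : b ≤ T := hT b (List.mem_cons_self)
        have hge : ∀ c ∈ b :: l, b ≤ c := by
          intro c hc
          rcases List.mem_cons.mp hc with rfl | hc
          · exact le_rfl
          · exact (List.pairwise_cons.mp hl).1 c hc
        have hpat : chi (b :: l) pat0 = 0 := by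
          unfold chi
          rw [if_neg]
          intro h
          have := h b List.mem_cons_self
          simp [pat0] at this
          omega
        have hterm : ∀ k ∈ range T, f k * Phi f (T - (k + 1)) (fun w => chi (b :: l) (shift k w)) =
            (if k < b then f k * u (b - 1 - k) * Ud u (l.map (· - b)) else 0) := by
          intro k hk
          rw [Finset.mem_range] at hk
          split_ifs with hkb
          · have h2 : (fun w => chi (b :: l) (shift k w)) = chi ((b :: l).map (· - (k + 1))) := by
              funext w
              have h3 : (∀ c ∈ b :: l, shift k w c = true) ↔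
                  (∀ c ∈ (b :: l).map (· - (k + 1)), w c = true) := by
                constructor
                · intro h c hc
                  obtain ⟨d, hd, rfl⟩ := List.mem_map.mp hc
                  have h4 := h d hd
                  have h5 := hge d hd
                  simpa [shift, show d ≠ 0 by omega, show ¬ d ≤ k by omega] using h4
                · intro h d hd
                  have h5 := hge d hd
                  have h4 := h (d - (k + 1)) (List.mem_map.mpr ⟨d, hd, rfl⟩)
                  simpa [shift, show d ≠ 0 by omega, show ¬ d ≤ k by omega] using h4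
              unfold chi
              by_cases h4 : ∀ c ∈ b :: l, shift k w c = true
              · rw [if_pos h4, if_pos (h3.mp h4)]
              · rw [if_neg h4, if_neg (fun h5 => h4 (h3.mpr h5))]
            rw [h2, ih (T - (k + 1)) (by omega)]
            · rw [List.map_cons, Ud_cons, List.map_map]
              have h6 : ((fun x => x - (b - (k + 1))) ∘ fun x => x - (k + 1)) = (fun x => x - b) := by
                funext x
                simp only [Function.comp_apply]
                omega
              rw [h6, show b - (k + 1) = b - 1 - k by omega]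
              ring
            · apply List.Pairwise.map _ _ hl
              intro c d hcd
              exact Nat.sub_le_sub_right hcd _
            · intro c hc
              obtain ⟨d, hd, rfl⟩ := List.mem_map.mp hc
              have := hT d hd
              omega
          · have h2 : (fun w => chi (b :: l) (shift k w)) = fun _ => (0 : ℝ) := by
              funext w
              unfold chi
              rw [if_neg]
              intro h
              have := h b List.mem_cons_self
              simp [shift, show b ≠ 0 by omega, show b ≤ k by omega] at this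
            rw [h2, Phi_const, mul_zero]
        rw [Phi_eq, hpat, mul_zero, add_zero, Finset.sum_congr rfl hterm, Ud_cons,
          ← Finset.sum_filter]
        have h7 : (range T).filter (fun k => k < b) = range b := by
          ext k
          simp only [Finset.mem_filter, Finset.mem_range]
          omega
        rw [h7, ← Finset.sum_mul]
        congr 1
        obtain ⟨b', rfl⟩ : ∃ b', b = b' + 1 := ⟨b - 1, by omega⟩
        rw [hr b']
        rfl

end Pool.Agent.Helper945.Proc
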