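import Mathlib
import Pool.Agent.Helper945.Proc

set_option autoImplicit false

open Finset Filter Topology MeasureTheory
open scoped NNReal CompactlySupported

namespace Pool.Agent.Helper945.Limit

open Pool.Agent.Helper945.Proc

/-- the space of all `0/1`-valued paths on `[0,∞)` -/
def Path : Type := ℝ≥0 → Bool

instance : TopologicalSpace Path := (Pi.topologicalSpace : TopologicalSpace (ℝ≥0 → Bool))
instance : T2Space Path := (inferInstance : T2Space (ℝ≥0 → Bool))
instance : CompactSpace Path := (inferInstance : CompactSpace (ℝ≥0 → Bool))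
instance : MeasurableSpace Path := borel Path
instance : BorelSpace Path := ⟨rfl⟩

/-- embed a discrete pattern with mesh `1/N` -/
noncomputable def emb (N : ℕ) (w : ℕ → Bool) : Path := fun t => w ⌊t * N⌋₊

section

variable (N : ℕ → ℕ) (f : ℕ → ℕ → ℝ)

/-- the functional at stage `j` -/
noncomputable def Lam (F : C_c(Path, ℝ)) (j : ℕ) : ℝ :=
  Phi (f j) (j * N j) (fun w => F (emb (N j) w))

variable (hf : ∀ j k, 0 ≤ f j k) (hf1 : ∀ j n, ∑ k ∈ range n, f j k ≤ 1)

include hf hf1

lemma exists_lim (F : C_c(Path, ℝ)) :
    ∃ c, Tendsto (Lam N f F) (hyperfilter ℕ : Filter ℕ) (𝓝 c) := by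
  obtain ⟨B, hB⟩ := isCompact_univ.exists_bound_of_continuousOn
    (f := F) F.continuous.continuousOn
  have hmem : ∀ j, Lam N f F j ∈ Set.Icc (-B) B := by
    intro j
    have hb : ∀ w, -B ≤ F (emb (N j) w) ∧ F (emb (N j) w) ≤ B := by
      intro w
      have := hB (emb (N j) w) (Set.mem_univ _)
      rw [Real.norm_eq_abs, abs_le] at this
      exact this
    constructor
    · rw [← Phi_const (f j) (j * N j) (-B)]
      exact Phi_mono _ (hf j) (hf1 j) _ _ _ (fun w => (hb w).1)
    · rw [← Phi_const (f j) (j * N j) B]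
      exact Phi_mono _ (hf j) (hf1 j) _ _ _ (fun w => (hb w).2)
  obtain ⟨c, -, hc⟩ := isCompact_Icc.ultrafilter_le_nhds' ((hyperfilter ℕ).map (Lam N f F))
    (Ultrafilter.mem_map.mpr (Filter.univ_mem' hmem))
  exact ⟨c, hc⟩

/-- the limit functional -/
noncomputable def L : C_c(Path, ℝ) →ₚ[ℝ] ℝ where
  toFun F := Classical.choose (exists_lim N f hf hf1 F)
  map_add' F G := by
    apply tendsto_nhds_unique (Classical.choose_spec (exists_lim N f hf hf1 (F + G)))
    have h := (Classical.choose_spec (exists_lim N f hf hf1 F)).add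
      (Classical.choose_spec (exists_lim N f hf hf1 G))
    refine h.congr (fun j => ?_)
    exact (Phi_add (f j) (j * N j) _ _).symm
  map_smul' c F := by
    apply tendsto_nhds_unique (Classical.choose_spec (exists_lim N f hf hf1 (c • F)))
    have h := (Classical.choose_spec (exists_lim N f hf hf1 F)).const_mul c
    refine h.congr (fun j => ?_)
    exact (Phi_smul (f j) (j * N j) c _).symm
  monotone' F G hFG := by
    apply le_of_tendsto_of_tendsto' (Classical.choose_spec (exists_lim N f hf hf1 F))
      (Classical.choose_spec (exists_lim N f hf hf1 G))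
    intro j
    exact Phi_mono _ (hf j) (hf1 j) _ _ _ (fun w => hFG _)

lemma L_spec (F : C_c(Path, ℝ)) {c : ℝ}
    (h : Tendsto (Lam N f F) (hyperfilter ℕ : Filter ℕ) (𝓝 c)) : L N f hf hf1 F = c :=
  tendsto_nhds_unique (Classical.choose_spec (exists_lim N f hf hf1 F)) h

end

lemma continuous_chi (l : List ℝ≥0) : Continuous (fun w : Path => chi l w) := by
  induction l with
  | nil =>
    have : (fun w : Path => chi ([] : List ℝ≥0) w) = fun _ => 1 := by
      funext w; simp [chi]
    rw [this]; exact continuous_const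
  | cons t l ih =>
    have : (fun w : Path => chi (t :: l) w) =
        fun w : Path => (if w t = true then (1 : ℝ) else 0) * chi l w := by
      funext w
      unfold chi
      by_cases h1 : w t = true
      · rw [if_pos h1, one_mul]
        by_cases h2 : ∀ b ∈ l, w b = true
        · rw [if_pos h2, if_pos]
          intro b hb
          rcases List.mem_cons.mp hb with rfl | hb
          · exact h1
          · exact h2 b hb
        · rw [if_neg h2, if_neg]
          intro h3
          exact h2 (fun b hb => h3 b (List.mem_cons_of_mem _ hb))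
      · rw [if_neg h1, zero_mul, if_neg]
        intro h3
        exact h1 (h3 t List.mem_cons_self)
    rw [this]
    apply Continuous.mul _ ih
    have h1 : Continuous (fun b : Bool => (if b = true then (1 : ℝ) else 0)) :=
      continuous_of_discreteTopology
    have h2 : Continuous (fun w : Path => w t) := continuous_apply t
    exact h1.comp h2

/-- the indicator of a cylinder as a compactly supported continuous function -/
noncomputable def chiC (l : List ℝ≥0) : C_c(Path, ℝ) :=
  ⟨⟨fun w => chi l w, continuous_chi l⟩, HasCompactSupport.of_compactSpace _⟩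

lemma chiC_apply (l : List ℝ≥0) (w : Path) : chiC l w = chi l w := rfl

/-- product of `p` over the gaps of a list of times -/
noncomputable def V (p : ℝ≥0 → ℝ) : List ℝ≥0 → ℝ
  | [] => 1
  | t :: l => p t * V p (l.map (· - t))
termination_by l => l.length

lemma V_nil (p : ℝ≥0 → ℝ) : V p [] = 1 := by rw [V]
lemma V_cons (p : ℝ≥0 → ℝ) (b : ℝ≥0) (l : List ℝ≥0) :
    V p (b :: l) = p b * V p (l.map (· - b)) := by
  rw [V]

lemma tendsto_Ud (p : ℝ≥0 → ℝ) (hp : Continuous p) (N : ℕ → ℕ) (U : Filter ℕ) :
    ∀ (n : ℕ) (B : List (ℕ → ℕ)) (l : List ℝ≥0), B.length = n →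
      List.Forall₂ (fun b t => Tendsto (fun j => ((b j : ℕ) : ℝ≥0) / (N j : ℝ≥0)) U (𝓝 t)) B l →
      Tendsto (fun j => Ud (fun n => p ((n : ℝ≥0) / (N j : ℝ≥0))) (B.map (fun b => b j))) U
        (𝓝 (V p l)) := by
  intro n
  induction n with
  | zero =>
    intro B l hB h
    have : B = [] := List.length_eq_zero_iff.mp hB
    subst this
    cases h
    simp only [List.map_nil, Ud_nil, V_nil]
    exact tendsto_const_nhds
  | succ n ih =>
    intro B l hB h
    cases h with
    | nil => simp at hB
    | @cons b t B' l' hbt h' =>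
      have hlen : B'.length = n := by simpa using hB
      simp only [List.map_cons, Ud_cons, V_cons, List.map_map]
      apply Tendsto.mul
      · exact (hp.tendsto t).comp hbt
      · have h2 := ih (B'.map (fun c j => c j - b j)) (l'.map (· - t)) (by simpa using hlen) (by
          rw [List.forall₂_map_left_iff, List.forall₂_map_right_iff]
          refine h'.imp ?_
          intro c s hc
          have h3 : (fun j => ((c j - b j : ℕ) : ℝ≥0) / (N j : ℝ≥0)) =
              fun j => ((c j : ℕ) : ℝ≥0) / (N j : ℝ≥0) - ((b j : ℕ) : ℝ≥0) / (N j : ℝ≥0) := by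
            funext j
            rw [Nat.cast_tsub, tsub_div]
          rw [h3]
          exact hc.sub hbt)
        simp only [List.map_map] at h2
        exact h2

lemma tendsto_floor (N : ℕ → ℕ) (hN : Tendsto N atTop atTop) (t : ℝ≥0) :
    Tendsto (fun j => ((⌊t * (N j : ℝ≥0)⌋₊ : ℕ) : ℝ≥0) / (N j : ℝ≥0)) atTop (𝓝 t) := by
  have h1 := tendsto_nat_floor_mul_div_atTop (R := ℝ) (a := (t : ℝ)) t.2
  have h2 : Tendsto (fun j => ((N j : ℕ) : ℝ)) atTop atTop :=
    tendsto_natCast_atTop_atTop.comp hN
  have h3 := h1.comp h2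
  rw [← NNReal.tendsto_coe]
  refine h3.congr (fun j => ?_)
  simp only [Function.comp_apply, NNReal.coe_div, NNReal.coe_natCast]
  congr 2

/-- existence of the regenerative phenomenon from renewal skeletons -/
theorem exists_process (p : ℝ≥0 → ℝ) (hp : Continuous p) (hp0 : p 0 = 1)
    (N : ℕ → ℕ) (hN : Tendsto N atTop atTop) (f : ℕ → ℕ → ℝ)
    (hf : ∀ j k, 0 ≤ f j k) (hf1 : ∀ j n, ∑ k ∈ range n, f j k ≤ 1)
    (hr : ∀ j n, p (((n + 1 : ℕ) : ℝ≥0) / (N j : ℝ≥0)) =
      ∑ k ∈ range (n + 1), f j k * p (((n - k : ℕ) : ℝ≥0) / (N j : ℝ≥0))) :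
    ∃ P : Measure Path, IsProbabilityMeasure P ∧
      ∀ l : List ℝ≥0, l.Pairwise (· ≤ ·) → P.real {w : Path | ∀ t ∈ l, w t = true} = V p l := by
  set P := RealRMK.rieszMeasure (L N f hf hf1) with hP
  have hfin : IsFiniteMeasure P := inferInstance
  have hLchi : ∀ l : List ℝ≥0, l.Pairwise (· ≤ ·) → L N f hf hf1 (chiC l) = V p l := by
    intro l hl
    apply L_spec
    have h1 := tendsto_Ud p hp N (hyperfilter ℕ : Filter ℕ) l.length
      (l.map (fun t j => ⌊t * (N j : ℝ≥0)⌋₊)) l (by simp) (by
        rw [List.forall₂_map_left_iff]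
        rw [List.forall₂_same]
        intro t _
        exact (tendsto_floor N hN t).mono_left
          (by rw [← Nat.cofinite_eq_atTop]; exact hyperfilter_le_cofinite))
    refine h1.congr' ?_
    obtain ⟨T, hT⟩ : ∃ T : ℕ, ∀ t ∈ l, t ≤ T := by
      clear hl h1
      induction l with
      | nil => exact ⟨0, by simp⟩
      | cons a l ih =>
        obtain ⟨T, hT⟩ := ih
        obtain ⟨S, hS⟩ := exists_nat_ge a
        refine ⟨max S T, ?_⟩
        intro t ht
        rcases List.mem_cons.mp ht with rfl | ht
        · exact hS.trans (by exact_mod_cast le_max_left _ _)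
        · exact (hT t ht).trans (by exact_mod_cast le_max_right _ _)
    have hev : ∀ᶠ j in (hyperfilter ℕ : Filter ℕ), T ≤ j := by
      have : ∀ᶠ j in atTop, T ≤ j := eventually_ge_atTop T
      rw [← Nat.cofinite_eq_atTop] at this
      exact hyperfilter_le_cofinite this
    filter_upwards [hev] with j hj
    unfold Lam
    have h2 : (fun w => (chiC l) (emb (N j) w)) =
        chi (l.map (fun t => ⌊t * (N j : ℝ≥0)⌋₊)) := by
      funext w
      rw [chiC_apply]
      unfold chi emb
      congr 1
      simp
    rw [h2, Phi_chi (fun n => p ((n : ℝ≥0) / (N j : ℝ≥0))) (f j) (by simpa using hp0)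
      (fun n => hr j n)]
    · rw [List.map_map]
      rfl
    · apply List.Pairwise.map _ _ hl
      intro a b hab
      apply Nat.floor_mono
      gcongr
    · intro b hb
      obtain ⟨t, ht, rfl⟩ := List.mem_map.mp hb
      apply Nat.floor_le_of_le
      push_cast
      have := hT t ht
      gcongr
      exact this.trans (by exact_mod_cast hj)
  have hPchi : ∀ l : List ℝ≥0, l.Pairwise (· ≤ ·) →
      P.real {w : Path | ∀ t ∈ l, w t = true} = V p l := by
    intro l hl
    rw [← hLchi l hl, ← RealRMK.integral_rieszMeasure (L N f hf hf1) (chiC l)]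
    have hcl : MeasurableSet {w : Path | ∀ t ∈ l, w t = true} := by
      have : {w : Path | ∀ t ∈ l, w t = true} = (fun w : Path => chi l w) ⁻¹' {1} := by
        ext w
        simp only [Set.mem_ofPred_eq, Set.mem_preimage, Set.mem_singleton_iff, chi]
        constructor
        · intro h; rw [if_pos h]
        · intro h
          by_contra hcon
          rw [if_neg hcon] at h
          norm_num at h
      rw [this]
      exact (continuous_chi l).measurable (measurableSet_singleton _)
    have h3 : (fun w : Path => chiC l w) =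
        Set.indicator {w : Path | ∀ t ∈ l, w t = true} (fun _ => (1 : ℝ)) := by
      funext w
      rw [chiC_apply]
      unfold chi
      by_cases h : ∀ t ∈ l, w t = true
      · rw [if_pos h, Set.indicator_of_mem (by exact h)]
      · rw [if_neg h, Set.indicator_of_notMem (by exact h)]
    rw [h3, integral_indicator_const _ hcl]
    simp [hP]
  refine ⟨P, ?_, hPchi⟩
  have h4 := hPchi [] List.Pairwise.nil
  rw [V_nil] at h4
  have h5 : {w : Path | ∀ t ∈ ([] : List ℝ≥0), w t = true} = Set.univ := by
    ext w; simp
  rw [h5, measureReal_def] at h4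
  refine ⟨?_⟩
  rw [← ENNReal.toReal_eq_one_iff]
  exact h4

end Pool.Agent.Helper945.Limit
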