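import Mathlib
import Pool.Agent.Helper945.Disc
import Pool.Agent.Helper945.Limit

set_option autoImplicit false

open Finset Filter Topology MeasureTheory
open scoped NNReal

namespace Pool.Agent.Helper945.Main

open Pool.Agent.Helper945.Limit Pool.Agent.Helper945.Disc

/-- `p` is a p-function: `p 0 = 1`, `p` has values in `[0,1]`, and there are a probability space
and events `E t` such that `P(E t₀ ∩ ⋯ ∩ E tₙ) = p t₀ * P(E (t₁ - t₀) ∩ ⋯ ∩ E (tₙ - t₀))`
whenever `t₀ ≤ ⋯ ≤ tₙ`. -/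
def IsPFunction (p : ℝ≥0 → ℝ) : Prop :=
  p 0 = 1 ∧ (∀ t, 0 ≤ p t ∧ p t ≤ 1) ∧
  ∃ (Ω : Type) (_ : MeasurableSpace Ω) (P : Measure Ω) (E : ℝ≥0 → Set Ω),
    IsProbabilityMeasure P ∧ (∀ t, MeasurableSet (E t)) ∧
    ∀ (n : ℕ) (t : Fin (n + 1) → ℝ≥0), Monotone t →
      P.real (⋂ i, E (t i)) = p (t 0) * P.real (⋂ i : Fin n, E (t i.succ - t 0))

/-- standard p-functions -/
def IsStd (p : ℝ≥0 → ℝ) : Prop := IsPFunction p ∧ Tendsto p (𝓝 0) (𝓝 1)

lemma isPFunction_of_process (p : ℝ≥0 → ℝ) (hp0 : p 0 = 1) (P : Measure Path)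
    (hP : IsProbabilityMeasure P)
    (h : ∀ l : List ℝ≥0, l.Pairwise (· ≤ ·) → P.real {w : Path | ∀ t ∈ l, w t = true} = V p l) :
    IsPFunction p := by
  refine ⟨hp0, fun t => ?_, Path, inferInstance, P, fun t => {w : Path | w t = true}, hP,
    fun t => ?_, fun n t ht => ?_⟩
  · have h1 := h [t] (List.pairwise_singleton _ _)
    rw [V_cons, List.map_nil, V_nil, mul_one] at h1
    rw [← h1]
    exact ⟨measureReal_nonneg, measureReal_le_one⟩
  · show MeasurableSet ((fun w : Path => w t) ⁻¹' {true})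
    have h2 : Continuous (fun w : Path => w t) := continuous_apply t
    exact ((isClopen_discrete {true}).preimage h2).2.measurableSet
  · have h1 := h (List.ofFn t) (by
      rw [List.pairwise_ofFn]
      intro i j hij
      exact ht hij.le)
    have h2 := h (List.ofFn (fun i : Fin n => t i.succ - t 0)) (by
      rw [List.pairwise_ofFn]
      intro i j hij
      exact tsub_le_tsub_right (ht (Fin.succ_le_succ_iff.mpr hij.le)) _)
    have e1 : (⋂ i, {w : Path | w (t i) = true}) = {w : Path | ∀ s ∈ List.ofFn t, w s = true} := by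
      ext w
      simp only [Set.mem_iInter, Set.mem_ofPred_eq, List.mem_ofFn]
      constructor
      · rintro h s ⟨i, rfl⟩; exact h i
      · intro h i; exact h _ ⟨i, rfl⟩
    have e2 : (⋂ i : Fin n, {w : Path | w (t i.succ - t 0) = true}) =
        {w : Path | ∀ s ∈ List.ofFn (fun i : Fin n => t i.succ - t 0), w s = true} := by
      ext w
      simp only [Set.mem_iInter, Set.mem_ofPred_eq, List.mem_ofFn]
      constructor
      · rintro h s ⟨i, rfl⟩; exact h i
      · intro h i; exact h _ ⟨i, rfl⟩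
    rw [e1, e2, h1, h2, List.ofFn_succ, V_cons, List.map_ofFn]
    rfl

/-- perturbed truncated exponential -/
noncomputable def pert (α : ℝ) (K : ℝ → ℝ) (t : ℝ≥0) : ℝ :=
  Real.exp (-(α * min (t : ℝ) 1)) * (1 + K t)

structure KHyp (ε : ℝ) (K : ℝ → ℝ) : Prop where
  h1 : ∀ t, t ≤ 2 → K t = 0
  h2 : ∀ t, 3 ≤ t → K t = 0
  lip : ∀ s t, |K t - K s| ≤ ε * |t - s|
  sec : ∀ t h, 0 ≤ h → |K (t + 2 * h) - 2 * K (t + h) + K t| ≤ ε * h ^ 2

lemma KHyp.continuous {ε : ℝ} {K : ℝ → ℝ} (h : KHyp ε K) : Continuous K := by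
  have hε : 0 ≤ ε := by
    have := h.lip 0 1
    simp at this
    exact (abs_nonneg _).trans this
  have : LipschitzWith ⟨ε, hε⟩ K := by
    apply LipschitzWith.of_dist_le_mul
    intro s t
    rw [Real.dist_eq, Real.dist_eq]
    exact h.lip t s
  exact this.continuous

lemma pert_isStd_aux {α : ℝ} (hα : 0 < α) {ε : ℝ} {K : ℝ → ℝ} (hK : KHyp ε K)
    {a A B ρ : ℝ} (ha : a = Real.exp (-(α / 2))) (hA : A = Real.exp (-α)) (hB : B = 1 - A)
    (hρ : 2 * ρ = a - A) (hε0 : 0 ≤ ε) (hε1 : 6 * ε ≤ B ^ 2 * ρ ^ 6)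
    (hε2 : 6 * ε ≤ B ^ 2 * (A * ρ ^ 5)) : IsStd (pert α K) := by
  have hA0 : 0 < A := by rw [hA]; exact Real.exp_pos _
  have hA1 : A < 1 := by rw [hA, Real.exp_lt_one_iff]; linarith
  have hB0 : 0 < B := by linarith
  have hB1 : B < 1 := by linarith
  have hcont : Continuous (pert α K) := by
    unfold pert
    have := hK.continuous
    fun_prop
  have hp0 : pert α K 0 = 1 := by
    simp [pert, hK.h1 0 (by norm_num)]
  have hyp : ∀ M : ℕ, 1 ≤ M → Hyp (Real.exp (-(α / (2 * M)))) (2 * ε / B ^ 2) ρ M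
      (fun n => K ((n : ℝ) / (2 * M))) := by
    intro M hM
    have hM' : (0 : ℝ) < M := by exact_mod_cast hM
    set x := Real.exp (-(α / (2 * M))) with hx
    have hx0 : 0 < x := Real.exp_pos _
    have hx1 : x < 1 := by
      rw [hx, Real.exp_lt_one_iff]
      have : 0 < α / (2 * M) := by positivity
      linarith
    have hxM : x ^ M = a := by
      rw [hx, ← Real.exp_nat_mul, ha]
      congr 1
      field_simp
    have hx2M : x ^ (2 * M) = A := by
      rw [hx, ← Real.exp_nat_mul, hA]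
      congr 1
      push_cast
      field_simp
    have hbern : B ≤ 2 * M * (1 - x) := by
      have h1 : (1 - x) * ∑ k ∈ range (2 * M), x ^ k = 1 - x ^ (2 * M) := mul_neg_geom_sum x (2 * M)
      have h2 : ∑ k ∈ range (2 * M), x ^ k ≤ ∑ k ∈ range (2 * M), (1 : ℝ) :=
        Finset.sum_le_sum (fun k _ => pow_le_one₀ hx0.le hx1.le)
      rw [Finset.sum_const, Finset.card_range, nsmul_eq_mul, mul_one] at h2
      push_cast at h2
      rw [hB, ← hx2M, ← h1]
      nlinarith
    have hinv : 1 / (2 * (M : ℝ)) ≤ (1 - x) / B := by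
      rw [div_le_div_iff₀ (by positivity) hB0]
      linarith
    have hy : 0 < 1 - x := by linarith
    have hBB : 1 / B ≤ 1 / B ^ 2 := by
      apply one_div_le_one_div_of_le (by positivity)
      nlinarith
    have hinv0 : 0 < 1 / (2 * (M : ℝ)) := by positivity
    have hfirst : ∀ n : ℕ, |K (((n + 1 : ℕ) : ℝ) / (2 * M)) - K ((n : ℝ) / (2 * M))| ≤
        ε * (1 / (2 * M)) := by
      intro n
      have h3 := hK.lip ((n : ℝ) / (2 * M)) (((n + 1 : ℕ) : ℝ) / (2 * M))
      have h4 : ((n + 1 : ℕ) : ℝ) / (2 * M) - (n : ℝ) / (2 * M) = 1 / (2 * M) := by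
        push_cast; ring
      rw [h4, abs_of_pos hinv0] at h3
      exact h3
    refine ⟨hx0, hx1, hM, ?_, ?_, ?_, ?_, ?_, ?_, ?_, ?_⟩
    · rw [hxM, hx2M, hρ]
    · intro n hn
      apply hK.h1
      rw [div_le_iff₀ (by positivity)]
      have : (n : ℝ) ≤ ((4 * M : ℕ) : ℝ) := by exact_mod_cast hn
      push_cast at this
      linarith
    · intro n hn
      apply hK.h2
      rw [le_div_iff₀ (by positivity)]
      have : ((6 * M : ℕ) : ℝ) ≤ (n : ℝ) := by exact_mod_cast hn
      push_cast at this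
      linarith
    · positivity
    · intro n
      refine (hfirst n).trans ?_
      calc ε * (1 / (2 * M)) ≤ ε * ((1 - x) / B) := by gcongr
        _ = ε * (1 - x) * (1 / B) := by ring
        _ ≤ ε * (1 - x) * (1 / B ^ 2) := by gcongr
        _ ≤ ε * (1 - x) * (1 / B ^ 2) + ε * (1 - x) * (1 / B ^ 2) := by
            have : 0 ≤ ε * (1 - x) * (1 / B ^ 2) := by positivity
            linarith
        _ = 2 * ε / B ^ 2 * (1 - x) := by ring
    · intro n
      have h5 := hK.sec ((n : ℝ) / (2 * M)) (1 / (2 * M)) hinv0.le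
      have h6 : (n : ℝ) / (2 * M) + 2 * (1 / (2 * M)) = ((n + 2 : ℕ) : ℝ) / (2 * M) := by
        push_cast; ring
      have h7 : (n : ℝ) / (2 * M) + 1 / (2 * M) = ((n + 1 : ℕ) : ℝ) / (2 * M) := by
        push_cast; ring
      rw [h6, h7] at h5
      have h8 := hfirst n
      have h9 : K (((n + 2 : ℕ) : ℝ) / (2 * M)) - (1 + x) * K (((n + 1 : ℕ) : ℝ) / (2 * M))
          + x * K ((n : ℝ) / (2 * M)) =
          (K (((n + 2 : ℕ) : ℝ) / (2 * M)) - 2 * K (((n + 1 : ℕ) : ℝ) / (2 * M))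
            + K ((n : ℝ) / (2 * M))) +
          (1 - x) * (K (((n + 1 : ℕ) : ℝ) / (2 * M)) - K ((n : ℝ) / (2 * M))) := by ring
      rw [h9]
      calc |(K (((n + 2 : ℕ) : ℝ) / (2 * M)) - 2 * K (((n + 1 : ℕ) : ℝ) / (2 * M))
            + K ((n : ℝ) / (2 * M))) +
          (1 - x) * (K (((n + 1 : ℕ) : ℝ) / (2 * M)) - K ((n : ℝ) / (2 * M)))|
          ≤ |K (((n + 2 : ℕ) : ℝ) / (2 * M)) - 2 * K (((n + 1 : ℕ) : ℝ) / (2 * M))
            + K ((n : ℝ) / (2 * M))| +
            |(1 - x) * (K (((n + 1 : ℕ) : ℝ) / (2 * M)) - K ((n : ℝ) / (2 * M)))| := abs_add_le _ _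
        _ ≤ ε * (1 / (2 * M)) ^ 2 + (1 - x) * (ε * (1 / (2 * M))) := by
            rw [abs_mul, abs_of_pos hy]
            gcongr
        _ ≤ ε * ((1 - x) / B) ^ 2 + (1 - x) * (ε * ((1 - x) / B)) := by gcongr
        _ = ε * (1 - x) ^ 2 * (1 / B ^ 2) + ε * (1 - x) ^ 2 * (1 / B) := by ring
        _ ≤ ε * (1 - x) ^ 2 * (1 / B ^ 2) + ε * (1 - x) ^ 2 * (1 / B ^ 2) := by gcongr
        _ = 2 * ε / B ^ 2 * (1 - x) ^ 2 := by ring
    · have : 3 * (2 * ε / B ^ 2) = 6 * ε / B ^ 2 := by ring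
      rw [this, div_le_iff₀ (by positivity)]
      linarith
    · have : 3 * (2 * ε / B ^ 2) = 6 * ε / B ^ 2 := by ring
      rw [this, div_le_iff₀ (by positivity), hx2M]
      linarith
  have hskel : ∀ (M : ℕ), 1 ≤ M → ∀ n : ℕ, pert α K ((n : ℝ≥0) / ((2 * M : ℕ) : ℝ≥0)) =
      useq (Real.exp (-(α / (2 * M)))) M (fun n => K ((n : ℝ) / (2 * M))) n := by
    intro M hM n
    have hM' : (0 : ℝ) < M := by exact_mod_cast hM
    unfold pert useq
    have hx2M : Real.exp (-(α / (2 * M))) ^ (2 * M) = Real.exp (-α) := by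
      rw [← Real.exp_nat_mul]
      congr 1
      push_cast
      field_simp
    have hc : (((n : ℝ≥0) / ((2 * M : ℕ) : ℝ≥0) : ℝ≥0) : ℝ) = (n : ℝ) / (2 * M) := by
      push_cast; rfl
    rw [hc]
    rcases le_or_gt n (2 * M) with h | h
    · rw [min_eq_left h]
      have h1 : (n : ℝ) / (2 * M) ≤ 1 := by
        rw [div_le_one (by positivity)]
        exact_mod_cast h
      have hKn : K ((n : ℝ) / (2 * M)) = 0 := hK.h1 _ (by linarith)
      simp only [hKn]
      rw [min_eq_left h1, ← Real.exp_nat_mul]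
      rw [mul_zero, add_zero, add_zero, mul_one]
      congr 1
      field_simp
    · rw [min_eq_right h.le, hx2M]
      have h1 : 1 ≤ (n : ℝ) / (2 * M) := by
        rw [one_le_div (by positivity)]
        exact_mod_cast h.le
      rw [min_eq_right h1, mul_one]
      ring
  have hren : ∀ j : ℕ, IsRenewal (useq (Real.exp (-(α / (2 * ((j + 1 : ℕ) : ℝ))))) (j + 1)
      (fun n => K ((n : ℝ) / (2 * ((j + 1 : ℕ) : ℝ))))) := fun j =>
    isRenewal_of_hyp (hyp (j + 1) (by omega))
  choose _ f hf hf1 hr using hren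
  have hN : Tendsto (fun j : ℕ => 2 * (j + 1)) atTop atTop := by
    apply tendsto_atTop_mono (f := id) _ tendsto_id
    intro j
    simp only [id]
    omega
  obtain ⟨P, hP, hPV⟩ := exists_process (pert α K) hcont hp0 (fun j => 2 * (j + 1)) hN f hf hf1 (by
    intro j n
    have h1 := hr j n
    rw [← hskel (j + 1) (by omega)] at h1
    rw [h1]
    apply Finset.sum_congr rfl
    intro k _
    rw [← hskel (j + 1) (by omega)])
  refine ⟨isPFunction_of_process _ hp0 P hP hPV, ?_⟩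
  have := hcont.tendsto 0
  rw [hp0] at this
  exact this

theorem pert_isStd {α : ℝ} (hα : 0 < α) :
    ∃ ε : ℝ, 0 < ε ∧ ∀ K, KHyp ε K → IsStd (pert α K) := by
  set a := Real.exp (-(α / 2)) with ha
  set A := Real.exp (-α) with hA
  have hA0 : 0 < A := Real.exp_pos _
  have hA1 : A < 1 := by rw [hA, Real.exp_lt_one_iff]; linarith
  have haA : A < a := by
    rw [ha, hA, Real.exp_lt_exp]; linarith
  set ρ := (a - A) / 2 with hρ
  have hρ0 : 0 < ρ := by rw [hρ]; linarith
  have hB0 : 0 < 1 - A := by linarith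
  refine ⟨min ((1 - A) ^ 2 * ρ ^ 6 / 6) ((1 - A) ^ 2 * (A * ρ ^ 5) / 6), ?_, fun K hK => ?_⟩
  · positivity
  · apply pert_isStd_aux (ρ := ρ) hα hK ha hA rfl (by rw [hρ]; ring) (by positivity)
    · have := min_le_left ((1 - A) ^ 2 * ρ ^ 6 / 6) ((1 - A) ^ 2 * (A * ρ ^ 5) / 6)
      linarith
    · have := min_le_right ((1 - A) ^ 2 * ρ ^ 6 / 6) ((1 - A) ^ 2 * (A * ρ ^ 5) / 6)
      linarith

/-- a smooth bump with support `(2,3)` -/
lemma exists_bump : ∃ (K0 : ℝ → ℝ) (C0 C1 : ℝ), 0 ≤ C0 ∧ 0 ≤ C1 ∧ K0 (5 / 2) = 1 ∧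
    (∀ t, 0 ≤ K0 t ∧ K0 t ≤ 1) ∧ (∀ t, t ≤ 2 → K0 t = 0) ∧ (∀ t, 3 ≤ t → K0 t = 0) ∧
    (∀ s t, |K0 t - K0 s| ≤ C0 * |t - s|) ∧
    (∀ t h, 0 ≤ h → |K0 (t + 2 * h) - 2 * K0 (t + h) + K0 t| ≤ C1 * h ^ 2) := by
  let b : ContDiffBump (5 / 2 : ℝ) := ⟨1 / 4, 1 / 2, by norm_num, by norm_num⟩
  have hcd : ContDiff ℝ 2 b := b.contDiff
  have hcs : HasCompactSupport b := b.hasCompactSupport
  obtain ⟨C0, hC0⟩ := hcd.lipschitzWith_of_hasCompactSupport hcs (by norm_num)
  have hcd' : ContDiff ℝ 1 (deriv b) := ContDiff.deriv' hcd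
  have hcs' : HasCompactSupport (deriv b) := hcs.deriv
  obtain ⟨C1, hC1⟩ := hcd'.lipschitzWith_of_hasCompactSupport hcs' (by norm_num)
  have hdiff : Differentiable ℝ b := hcd.differentiable (by norm_num)
  refine ⟨b, C0, C1, C0.2, C1.2, ?_, fun t => ⟨b.nonneg, b.le_one⟩, ?_, ?_, ?_, ?_⟩
  · apply b.one_of_mem_closedBall
    simp [b]
  · intro t ht
    apply b.zero_of_le_dist
    rw [Real.dist_eq, abs_of_nonpos (by linarith)]
    show (1 : ℝ) / 2 ≤ _
    linarith
  · intro t ht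
    apply b.zero_of_le_dist
    rw [Real.dist_eq, abs_of_nonneg (by linarith)]
    show (1 : ℝ) / 2 ≤ _
    linarith
  · intro s t
    have := hC0.dist_le_mul t s
    rwa [Real.dist_eq, Real.dist_eq] at this
  · intro t h hh
    have key : ∀ s ∈ Set.Icc (0 : ℝ) h, ‖deriv (fun s => b (t + h + s) - b (t + s)) s‖ ≤ C1 * h := by
      intro s _
      have e1 : deriv (fun s => b (t + h + s) - b (t + s)) s =
          deriv b (t + h + s) - deriv b (t + s) := by
        rw [deriv_fun_sub, deriv_comp_const_add, deriv_comp_const_add]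
        · exact (hdiff _).comp s ((differentiable_id.const_add _) s)
        · exact (hdiff _).comp s ((differentiable_id.const_add _) s)
      rw [e1]
      have := hC1.dist_le_mul (t + h + s) (t + s)
      rw [Real.dist_eq, Real.dist_eq] at this
      have e2 : t + h + s - (t + s) = h := by ring
      rw [e2, abs_of_nonneg hh] at this
      exact this
    have hd : ∀ s ∈ Set.Icc (0 : ℝ) h, DifferentiableAt ℝ (fun s => b (t + h + s) - b (t + s)) s := by
      intro s _
      apply DifferentiableAt.sub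
      · exact (hdiff _).comp s ((differentiable_id.const_add _) s)
      · exact (hdiff _).comp s ((differentiable_id.const_add _) s)
    have := (convex_Icc (0 : ℝ) h).norm_image_sub_le_of_norm_deriv_le hd key
      (Set.left_mem_Icc.mpr hh) (Set.right_mem_Icc.mpr hh)
    rw [Real.norm_eq_abs, Real.norm_eq_abs, sub_zero, abs_of_nonneg hh] at this
    have e3 : b (t + 2 * h) - 2 * b (t + h) + b t =
        b (t + h + h) - b (t + h) - (b (t + h + 0) - b (t + 0)) := by
      rw [add_zero, add_zero, show t + h + h = t + 2 * h by ring]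
      ring
    rw [e3]
    calc _ ≤ C1 * h * h := this
      _ = C1 * h ^ 2 := by ring

/-- both the small bump and its reciprocal satisfy the hypotheses -/
lemma exists_pair {ε : ℝ} (hε : 0 < ε) : ∃ K : ℝ → ℝ, KHyp ε K ∧
    KHyp ε (fun t => 1 / (1 + K t) - 1) ∧ (∀ t, 0 ≤ K t) ∧ 0 < K (5 / 2) := by
  obtain ⟨K0, C0, C1, hC0, hC1, h1, h01, hz1, hz2, hl, hs⟩ := exists_bump
  set η := min 1 (ε / (C0 + C1 + 2 * C0 ^ 2 + 1)) with hη
  have hden : 0 < C0 + C1 + 2 * C0 ^ 2 + 1 := by positivity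
  have hη0 : 0 < η := by rw [hη]; positivity
  have hη1 : η ≤ 1 := min_le_left _ _
  have hηε : η * (C0 + C1 + 2 * C0 ^ 2 + 1) ≤ ε := by
    have : η ≤ ε / (C0 + C1 + 2 * C0 ^ 2 + 1) := min_le_right _ _
    rwa [le_div_iff₀ hden] at this
  have hv : ∀ t, 1 ≤ 1 + η * K0 t := by
    intro t
    have := (h01 t).1
    have : 0 ≤ η * K0 t := by positivity
    linarith
  have hb1 : η * C0 ≤ ε := by
    have : 0 ≤ η * (C1 + 2 * C0 ^ 2 + 1) := by positivity
    nlinarith
  have hb2 : η * C1 ≤ ε := by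
    have : 0 ≤ η * (C0 + 2 * C0 ^ 2 + 1) := by positivity
    nlinarith
  have hb3 : η * (C1 + 2 * C0 ^ 2) ≤ ε := by
    have : 0 ≤ η * (C0 + 1) := by positivity
    nlinarith
  have hlip : ∀ s t, |η * K0 t - η * K0 s| ≤ η * C0 * |t - s| := by
    intro s t
    rw [← mul_sub, abs_mul, abs_of_pos hη0, mul_assoc]
    gcongr
    exact hl s t
  have hsec : ∀ t h, 0 ≤ h →
      |η * K0 (t + 2 * h) - 2 * (η * K0 (t + h)) + η * K0 t| ≤ η * C1 * h ^ 2 := by
    intro t h hh
    have : η * K0 (t + 2 * h) - 2 * (η * K0 (t + h)) + η * K0 t =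
        η * (K0 (t + 2 * h) - 2 * K0 (t + h) + K0 t) := by ring
    rw [this, abs_mul, abs_of_pos hη0, mul_assoc]
    gcongr
    exact hs t h hh
  refine ⟨fun t => η * K0 t, ⟨?_, ?_, ?_, ?_⟩, ⟨?_, ?_, ?_, ?_⟩, ?_, ?_⟩
  · intro t ht; simp [hz1 t ht]
  · intro t ht; simp [hz2 t ht]
  · intro s t
    exact (hlip s t).trans (by gcongr)
  · intro t h hh
    exact (hsec t h hh).trans (by gcongr)
  · intro t ht; simp [hz1 t ht]
  · intro t ht; simp [hz2 t ht]
  · intro s t
    have hs' := hv s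
    have ht' := hv t
    have e : 1 / (1 + η * K0 t) - 1 - (1 / (1 + η * K0 s) - 1) =
        -(η * K0 t - η * K0 s) / ((1 + η * K0 t) * (1 + η * K0 s)) := by
      have : (1 + η * K0 t) ≠ 0 := by linarith
      have : (1 + η * K0 s) ≠ 0 := by linarith
      field_simp
      ring
    rw [e, abs_div, abs_neg]
    have h2 : 1 ≤ |(1 + η * K0 t) * (1 + η * K0 s)| := by
      rw [abs_of_pos (by positivity)]
      nlinarith
    calc |η * K0 t - η * K0 s| / |(1 + η * K0 t) * (1 + η * K0 s)|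
        ≤ |η * K0 t - η * K0 s| / 1 := by gcongr
      _ ≤ η * C0 * |t - s| := by rw [div_one]; exact hlip s t
      _ ≤ ε * |t - s| := by gcongr
  · intro t h hh
    set v1 := 1 + η * K0 (t + 2 * h) with hv1
    set v0 := 1 + η * K0 (t + h) with hv0
    set v2 := 1 + η * K0 t with hv2
    have g1 : 1 ≤ v1 := hv _
    have g0 : 1 ≤ v0 := hv _
    have g2 : 1 ≤ v2 := hv _
    have e : 1 / v1 - 1 - 2 * (1 / v0 - 1) + (1 / v2 - 1) =
        -(v1 - 2 * v0 + v2) / (v1 * v2) + (-(2 * ((v1 - v0) * (v2 - v0)))) / (v0 * v1 * v2) := by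
      have : v0 ≠ 0 := by linarith
      have : v1 ≠ 0 := by linarith
      have : v2 ≠ 0 := by linarith
      field_simp
      ring
    rw [e]
    have d1 : |v1 - v0| ≤ η * C0 * h := by
      have := hlip (t + h) (t + 2 * h)
      have e1 : t + 2 * h - (t + h) = h := by ring
      rw [e1, abs_of_nonneg hh] at this
      have e2 : v1 - v0 = η * K0 (t + 2 * h) - η * K0 (t + h) := by rw [hv1, hv0]; ring
      rw [e2]; exact this
    have d2 : |v2 - v0| ≤ η * C0 * h := by
      have := hlip (t + h) t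
      have e1 : t - (t + h) = -h := by ring
      rw [e1, abs_neg, abs_of_nonneg hh] at this
      have e2 : v2 - v0 = η * K0 t - η * K0 (t + h) := by rw [hv2, hv0]; ring
      rw [e2]; exact this
    have d3 : |v1 - 2 * v0 + v2| ≤ η * C1 * h ^ 2 := by
      have := hsec t h hh
      have e2 : v1 - 2 * v0 + v2 =
          η * K0 (t + 2 * h) - 2 * (η * K0 (t + h)) + η * K0 t := by rw [hv1, hv0, hv2]; ring
      rw [e2]; exact this
    have p1 : 1 ≤ v1 * v2 := by nlinarith
    have p2 : 1 ≤ v0 * v1 * v2 := by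
      have : 1 ≤ v0 * v1 := by nlinarith
      nlinarith
    calc |(-(v1 - 2 * v0 + v2) / (v1 * v2) + (-(2 * ((v1 - v0) * (v2 - v0)))) / (v0 * v1 * v2))|
        ≤ |(-(v1 - 2 * v0 + v2) / (v1 * v2))| +
          |(-(2 * ((v1 - v0) * (v2 - v0)))) / (v0 * v1 * v2)| := abs_add_le _ _
      _ = |v1 - 2 * v0 + v2| / (v1 * v2) + 2 * (|v1 - v0| * |v2 - v0|) / (v0 * v1 * v2) := by
          have q1 : |v1 * v2| = v1 * v2 := abs_of_pos (by linarith)
          have q2 : |v0 * v1 * v2| = v0 * v1 * v2 := abs_of_pos (by linarith)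
          have q3 : |2 * ((v1 - v0) * (v2 - v0))| = 2 * (|v1 - v0| * |v2 - v0|) := by
            rw [abs_mul, abs_mul, abs_two]
          rw [abs_div, abs_div, abs_neg, abs_neg, q1, q2, q3]
      _ ≤ |v1 - 2 * v0 + v2| / 1 + 2 * (|v1 - v0| * |v2 - v0|) / 1 := by gcongr
      _ ≤ η * C1 * h ^ 2 + 2 * ((η * C0 * h) * (η * C0 * h)) := by
          rw [div_one, div_one]
          gcongr
      _ = η * (C1 + η * (2 * C0 ^ 2)) * h ^ 2 := by ring
      _ ≤ η * (C1 + 1 * (2 * C0 ^ 2)) * h ^ 2 := by gcongr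
      _ ≤ ε * h ^ 2 := by rw [one_mul]; gcongr
  · intro t
    exact mul_nonneg hη0.le (h01 t).1
  · show 0 < η * K0 (5 / 2)
    rw [h1, mul_one]; exact hη0

/-- pointwise infinite divisibility -/
def InfDiv (p : ℝ≥0 → ℝ) : Prop := ∀ n : ℕ, 1 ≤ n → ∃ q, IsStd q ∧ ∀ t, q t ^ n = p t

/-- `q` is a factor of `p` -/
def IsFactor (q p : ℝ≥0 → ℝ) : Prop := IsStd q ∧ ∃ r, IsStd r ∧ ∀ t, p t = q t * r t

/-- the class `I₀` -/
def MemI0 (p : ℝ≥0 → ℝ) : Prop := IsStd p ∧ ∀ q, IsFactor q p → InfDiv q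

/-- the truncated exponential -/
noncomputable def truncExp (lam tau t : ℝ≥0) : ℝ := Real.exp (-((lam : ℝ) * (min tau t : ℝ≥0)))

lemma IsPFunction.scale {p : ℝ≥0 → ℝ} (h : IsPFunction p) (c : ℝ≥0) :
    IsPFunction (fun t => p (c * t)) := by
  obtain ⟨h0, h1, Ω, mΩ, P, E, hP, hE, hreg⟩ := h
  refine ⟨by simpa using h0, fun t => h1 _, Ω, mΩ, P, fun t => E (c * t), hP, fun t => hE _, ?_⟩
  intro n t ht
  have := hreg n (fun i => c * t i) (fun i j hij => by
    have := ht hij
    show c * t i ≤ c * t j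
    gcongr)
  simp only [← mul_tsub] at this
  exact this

lemma IsStd.scale {p : ℝ≥0 → ℝ} (h : IsStd p) (c : ℝ≥0) : IsStd (fun t => p (c * t)) := by
  refine ⟨h.1.scale c, ?_⟩
  have h1 : Tendsto (fun t : ℝ≥0 => c * t) (𝓝 0) (𝓝 0) := by
    have : Continuous (fun t : ℝ≥0 => c * t) := by fun_prop
    have := this.tendsto 0
    rwa [mul_zero] at this
  exact h.2.comp h1

/-- the third renewal inequality -/
lemma IsPFunction.three {p : ℝ≥0 → ℝ} (h : IsPFunction p) (s : ℝ≥0) :
    0 ≤ p (3 * s) - 2 * (p s * p (2 * s)) + p s ^ 3 := by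
  obtain ⟨h0, h1, Ω, mΩ, P, E, hP, hE, hreg⟩ := h
  have e1 : (2 : ℝ≥0) * s - s = s := by
    rw [two_mul, add_tsub_cancel_right]
  have e2 : (3 : ℝ≥0) * s - s = 2 * s := by
    rw [show (3 : ℝ≥0) * s = 2 * s + s by ring, add_tsub_cancel_right]
  have e3 : (3 : ℝ≥0) * s - 2 * s = s := by
    rw [show (3 : ℝ≥0) * s = s + 2 * s by ring, add_tsub_cancel_right]
  have f1 : ∀ t, P.real (E t) = p t := by
    intro t
    have := hreg 0 (fun _ => t) (fun i j _ => le_rfl)
    have g1 : (⋂ _ : Fin (0 + 1), E t) = E t := by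
      ext w
      rw [Set.mem_iInter]
      exact ⟨fun h => h 0, fun h _ => h⟩
    have g2 : (⋂ _ : Fin 0, E (t - t)) = Set.univ := by
      ext w
      rw [Set.mem_iInter]
      exact ⟨fun _ => Set.mem_univ _, fun _ i => i.elim0⟩
    rw [g1, g2] at this
    rw [this]
    simp
  have f2 : ∀ a b : ℝ≥0, a ≤ b → P.real (E a ∩ E b) = p a * p (b - a) := by
    intro a b hab
    have := hreg 1 ![a, b] (by
      intro i j hij
      fin_cases i <;> fin_cases j <;> simp_all)
    have g1 : (⋂ i, E (![a, b] i)) = E a ∩ E b := by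
      ext w; simp [Fin.forall_fin_two]
    have g2 : (⋂ i : Fin 1, E (![a, b] i.succ - ![a, b] 0)) = E (b - a) := by
      ext w; simp
    rw [g1, g2, f1] at this
    exact this
  have f3 : P.real (E s ∩ E (2 * s) ∩ E (3 * s)) = p s ^ 3 := by
    have hs2 : s ≤ 2 * s := by rw [two_mul]; exact le_add_self
    have hs3 : 2 * s ≤ 3 * s := by
      rw [show (3 : ℝ≥0) * s = s + 2 * s by ring]; exact le_add_self
    have := hreg 2 ![s, 2 * s, 3 * s] (by
      intro i j hij
      fin_cases i <;> fin_cases j <;> simp_all [hs2.trans hs3])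
    have g1 : (⋂ i, E (![s, 2 * s, 3 * s] i)) = E s ∩ E (2 * s) ∩ E (3 * s) := by
      ext w; simp [Fin.forall_fin_succ, and_assoc]
    have g2 : (⋂ i : Fin 2, E (![s, 2 * s, 3 * s] i.succ - ![s, 2 * s, 3 * s] 0)) =
        E s ∩ E (2 * s) := by
      ext w; simp [Fin.forall_fin_two, e1, e2]
    rw [g1, g2, f2 s (2 * s) hs2, e1] at this
    rw [this]
    simp
    ring
  have hs1 : s ≤ 3 * s := by
    rw [show (3 : ℝ≥0) * s = 2 * s + s by ring]; exact le_add_self
  have hs3 : 2 * s ≤ 3 * s := by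
    rw [show (3 : ℝ≥0) * s = s + 2 * s by ring]; exact le_add_self
  have k1 := f2 s (3 * s) hs1
  rw [e2] at k1
  have k2 := f2 (2 * s) (3 * s) hs3
  rw [e3] at k2
  -- inclusion-exclusion
  have k3 : P.real ((E s ∩ E (3 * s)) ∪ (E (2 * s) ∩ E (3 * s))) +
      P.real ((E s ∩ E (3 * s)) ∩ (E (2 * s) ∩ E (3 * s))) =
      P.real (E s ∩ E (3 * s)) + P.real (E (2 * s) ∩ E (3 * s)) :=
    measureReal_union_add_inter ((hE _).inter (hE _))
  have k4 : (E s ∩ E (3 * s)) ∩ (E (2 * s) ∩ E (3 * s)) = E s ∩ E (2 * s) ∩ E (3 * s) := by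
    ext w; simp only [Set.mem_inter_iff]; tauto
  have k5 : P.real ((E s ∩ E (3 * s)) ∪ (E (2 * s) ∩ E (3 * s))) ≤ P.real (E (3 * s)) := by
    refine measureReal_mono (fun w hw => ?_) (measure_ne_top _ _)
    rcases hw with hw | hw
    · exact hw.2
    · exact hw.2
  rw [k4, f3, k1, k2] at k3
  rw [f1] at k5
  nlinarith

lemma not_infDiv {α : ℝ} (hα : 0 < α) {ε : ℝ} {K : ℝ → ℝ} (hK : KHyp ε K)
    (hK0 : 0 < K (5 / 2)) : ¬ InfDiv (pert α K) := by
  intro h
  set A := Real.exp (-α) with hA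
  have hA0 : 0 < A := Real.exp_pos _
  set κ := K (5 / 2) with hκ
  set ℓ := Real.log (1 + κ) with hℓ
  have hℓ0 : 0 < ℓ := Real.log_pos (by linarith)
  obtain ⟨n, hn⟩ := exists_nat_gt (α ^ 2 / (2 * A * ℓ))
  have hn0 : (0 : ℝ) < n := lt_of_le_of_lt (by positivity) hn
  have hn1 : 1 ≤ n := by
    have : 0 < n := by exact_mod_cast hn0
    omega
  obtain ⟨q, hq, hqn⟩ := h n hn1
  have hq01 := hq.1.2.1
  set s : ℝ≥0 := 5 / 4 with hs
  have e1 : pert α K s = A := by
    unfold pert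
    have h1 : ((s : ℝ≥0) : ℝ) = 5 / 4 := by rw [hs]; push_cast; norm_num
    rw [h1, hK.h1 _ (by norm_num), min_eq_right (by norm_num)]
    rw [hA]; simp
  have e2 : pert α K (2 * s) = A * (1 + κ) := by
    unfold pert
    have h1 : ((2 * s : ℝ≥0) : ℝ) = 5 / 2 := by rw [hs]; push_cast; norm_num
    rw [h1, min_eq_right (by norm_num), mul_one]
  have e3 : pert α K (3 * s) = A := by
    unfold pert
    have h1 : ((3 * s : ℝ≥0) : ℝ) = 15 / 4 := by rw [hs]; push_cast; norm_num
    rw [h1, hK.h2 _ (by norm_num), min_eq_right (by norm_num)]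
    rw [hA]; simp
  -- the n-th roots
  have r1 : q s = Real.exp (-(α / n)) := by
    have h2 : Real.exp (-(α / n)) ^ n = A := by
      rw [← Real.exp_nat_mul, hA]
      congr 1
      field_simp
    have h3 := hqn s
    rw [e1, ← h2] at h3
    exact (pow_left_inj₀ (hq01 s).1 (Real.exp_pos _).le (by omega)).mp h3
  have r3 : q (3 * s) = Real.exp (-(α / n)) := by
    have h2 : Real.exp (-(α / n)) ^ n = A := by
      rw [← Real.exp_nat_mul, hA]
      congr 1
      field_simp
    have h3 := hqn (3 * s)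
    rw [e3, ← h2] at h3
    exact (pow_left_inj₀ (hq01 _).1 (Real.exp_pos _).le (by omega)).mp h3
  have r2 : q (2 * s) = Real.exp (-(α / n)) * Real.exp (ℓ / n) := by
    have h2 : (Real.exp (-(α / n)) * Real.exp (ℓ / n)) ^ n = A * (1 + κ) := by
      rw [mul_pow, ← Real.exp_nat_mul, ← Real.exp_nat_mul, hA]
      have h4 : (n : ℝ) * (ℓ / n) = ℓ := by field_simp
      have h5 : (n : ℝ) * -(α / n) = -α := by field_simp
      rw [h4, h5, hℓ, Real.exp_log (by linarith)]
    have h3 := hqn (2 * s)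
    rw [e2, ← h2] at h3
    exact (pow_left_inj₀ (hq01 _).1 (by positivity) (by omega)).mp h3
  have key := hq.1.three s
  rw [r1, r2, r3] at key
  set a := Real.exp (-(α / n)) with ha
  have ha0 : 0 < a := Real.exp_pos _
  have hg : 1 + ℓ / n ≤ Real.exp (ℓ / n) := by
    have := Real.add_one_le_exp (ℓ / n)
    linarith
  have ha1 : 1 - a ≤ α / n := by
    have := Real.add_one_le_exp (-(α / n))
    rw [← ha] at this
    linarith
  have ha2 : a ≤ 1 := by
    rw [ha, Real.exp_le_one_iff]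
    have : 0 < α / n := by positivity
    linarith
  have haA : A ≤ a := by
    rw [ha, hA, Real.exp_le_exp]
    have : α / n ≤ α := div_le_self hα.le (by exact_mod_cast hn1)
    linarith
  -- a (1 - 2 a g + a^2) ≥ 0
  have key2 : 0 ≤ 1 - 2 * (a * Real.exp (ℓ / n)) + a ^ 2 := by
    have h1 : a - 2 * (a * (a * Real.exp (ℓ / n))) + a ^ 3 =
        a * (1 - 2 * (a * Real.exp (ℓ / n)) + a ^ 2) := by ring
    rw [h1] at key
    by_contra hcon
    push Not at hcon
    have := mul_neg_of_pos_of_neg ha0 hcon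
    linarith
  have key3 : 2 * A * (ℓ / n) ≤ (α / n) ^ 2 := by
    have h1 : 2 * A * (ℓ / n) ≤ 2 * a * (ℓ / n) := by
      gcongr
    have h2 : 2 * a * (ℓ / n) ≤ 2 * a * (Real.exp (ℓ / n) - 1) := by
      have : ℓ / n ≤ Real.exp (ℓ / n) - 1 := by linarith
      gcongr
    have h3 : 2 * a * (Real.exp (ℓ / n) - 1) ≤ (1 - a) ^ 2 := by nlinarith
    have h4 : (1 - a) ^ 2 ≤ (α / n) ^ 2 := by
      have : 0 ≤ 1 - a := by linarith
      gcongr
    linarith
  have key4 : 2 * A * ℓ * n ≤ α ^ 2 := by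
    have h1 : 2 * A * (ℓ / n) * (n ^ 2) ≤ (α / n) ^ 2 * n ^ 2 := by gcongr
    have h2 : 2 * A * (ℓ / n) * (n ^ 2) = 2 * A * ℓ * n := by field_simp
    have h3 : (α / n) ^ 2 * n ^ 2 = α ^ 2 := by field_simp
    linarith
  rw [div_lt_iff₀ (by positivity)] at hn
  linarith

lemma InfDiv.scale {p : ℝ≥0 → ℝ} (h : InfDiv p) (c : ℝ≥0) : InfDiv (fun t => p (c * t)) := by
  intro n hn
  obtain ⟨q, hq, hqn⟩ := h n hn
  exact ⟨fun t => q (c * t), hq.scale c, fun t => hqn _⟩

/-- For all `lam, tau > 0` the truncated exponential is a standard p-function which is not in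
the class `I₀`. -/
theorem main (lam tau : ℝ≥0) (hlam : 0 < lam) (htau : 0 < tau) :
    IsStd (truncExp lam tau) ∧ ¬ MemI0 (truncExp lam tau) := by
  have hα : (0 : ℝ) < lam * tau / 2 := by positivity
  have hα2 : (0 : ℝ) < lam * tau := by positivity
  constructor
  · obtain ⟨ε, hε, hstd⟩ := pert_isStd hα2
    have h0 : KHyp ε (fun _ => 0) := ⟨fun _ _ => rfl, fun _ _ => rfl, fun s t => by
      simp only [sub_self, abs_zero]; positivity, fun t h _ => by simp; positivity⟩
    have h1 := (hstd _ h0).scale (1 / tau)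
    have h2 : truncExp lam tau = fun t => pert (lam * tau) (fun _ => 0) (1 / tau * t) := by
      funext t
      unfold truncExp pert
      rw [add_zero, mul_one]
      congr 1
      push_cast
      have htau' : (0 : ℝ) < tau := htau
      rcases le_total (tau : ℝ) t with h | h
      · rw [min_eq_left h, min_eq_right]
        · ring
        · rw [one_div, inv_mul_eq_div, one_le_div htau']; exact h
      · rw [min_eq_right h, min_eq_left]
        · field_simp
        · rw [one_div, inv_mul_eq_div, div_le_one htau']; exact h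
    rw [h2]
    exact h1
  · rintro ⟨-, hall⟩
    obtain ⟨ε, hε, hstd⟩ := pert_isStd hα
    obtain ⟨K, hK1, hK2, hK3, hK4⟩ := exists_pair hε
    have hq := (hstd _ hK1).scale (1 / tau)
    have hr := (hstd _ hK2).scale (1 / tau)
    have hfac : IsFactor (fun t => pert (lam * tau / 2) K (1 / tau * t)) (truncExp lam tau) := by
      refine ⟨hq, _, hr, fun t => ?_⟩
      unfold truncExp pert
      push_cast
      have htau' : (0 : ℝ) < tau := htau
      have h3 : (1 + K (1 / tau * t)) ≠ 0 := by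
        have := hK3 (1 / tau * t)
        linarith
      have h4 : Real.exp (-((lam : ℝ) * min (tau : ℝ) t)) =
          Real.exp (-(lam * tau / 2 * min (1 / (tau : ℝ) * t) 1)) *
          Real.exp (-(lam * tau / 2 * min (1 / (tau : ℝ) * t) 1)) := by
        rw [← Real.exp_add]
        congr 1
        rcases le_total (tau : ℝ) t with h | h
        · rw [min_eq_left h, min_eq_right]
          · ring
          · rw [one_div, inv_mul_eq_div, one_le_div htau']; exact h
        · rw [min_eq_right h, min_eq_left]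
          · field_simp
            ring
          · rw [one_div, inv_mul_eq_div, div_le_one htau']; exact h
      have h5 : (1 + K (1 / tau * t)) * (1 + (1 / (1 + K (1 / tau * t)) - 1)) = 1 := by
        rw [add_sub_cancel, mul_one_div_cancel h3]
      rw [h4]
      linear_combination (-(Real.exp (-(lam * tau / 2 * min (1 / (tau : ℝ) * t) 1)) *
          Real.exp (-(lam * tau / 2 * min (1 / (tau : ℝ) * t) 1)))) * h5
    have hdiv := (hall _ hfac).scale tau
    have h5 : (fun t => pert (lam * tau / 2) K (1 / tau * (tau * t))) =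
        pert (lam * tau / 2) K := by
      funext t
      congr 1
      rw [← mul_assoc, one_div_mul_cancel htau.ne', one_mul]
    rw [h5] at hdiv
    exact not_infDiv hα hK1 hK4 hdiv

end Pool.Agent.Helper945.Main
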