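import Pool.Agent.Helper945.PDef
import Pool.Agent.Helper945.Main
import Pool.Agent.Helper945.ExLow

set_option autoImplicit false

open Finset Filter Topology MeasureTheory
open scoped NNReal

namespace Pool.Agent.Helper945.ExP

open Pool.Agent.Helper945.PDef Pool.Agent.Helper945.ExLow

/-! ### The discrete skeleton of the example -/

/-- one term -/
noncomputable def y (N : ℕ) (x : ℝ) (m j : ℕ) : ℝ :=
  if j * N ≤ m then Real.exp (-(((m - j * N : ℕ) : ℝ) * x)) * (((m - j * N : ℕ) : ℝ) * x) ^ j
    / (j.factorial : ℝ) else 0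

/-- the renewal sequence -/
noncomputable def pm (N : ℕ) (x : ℝ) (m : ℕ) : ℝ := ∑ j ∈ range (m + 1), y N x m j

/-- the gap law (index shifted by one) -/
noncomputable def gl (N : ℕ) (x : ℝ) (k : ℕ) : ℝ :=
  if N ∣ k then Real.exp (-x) * x ^ (k / N) / ((k / N).factorial : ℝ) else 0

lemma pm_eq {N : ℕ} (hN : 0 < N) (x : ℝ) (m M : ℕ) (hM : m + 1 ≤ M) :
    pm N x m = ∑ j ∈ range M, y N x m j := by
  unfold pm
  refine sum_subset (range_mono hM) fun j _ hj => ?_
  rw [mem_range, not_lt] at hj
  unfold y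
  rw [if_neg]
  intro h
  have : j ≤ j * N := Nat.le_mul_of_pos_right j hN
  omega

lemma reindex {N : ℕ} (hN : 0 < N) (F : ℕ → ℝ) (n : ℕ) :
    ∑ k ∈ range (n + 1), (if N ∣ k then F (k / N) else 0)
      = ∑ i ∈ range (n + 1), (if i * N ≤ n then F i else 0) := by
  rw [← sum_filter, ← sum_filter]
  refine sum_nbij' (fun k => k / N) (fun i => i * N) ?_ ?_ ?_ ?_ ?_
  · intro k hk
    rw [mem_filter, mem_range] at hk ⊢
    have h1 : k / N * N = k := Nat.div_mul_cancel hk.2
    have h2 : k / N ≤ k := Nat.div_le_self k N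
    constructor
    · omega
    · omega
  · intro i hi
    rw [mem_filter, mem_range] at hi ⊢
    exact ⟨by omega, Dvd.intro_left i rfl⟩
  · intro k hk
    rw [mem_filter] at hk
    exact Nat.div_mul_cancel hk.2
  · intro i _
    exact Nat.mul_div_cancel i hN
  · intro k _
    rfl

lemma renewal {N : ℕ} (hN : 0 < N) (x : ℝ) (n : ℕ) :
    pm N x (n + 1) = ∑ k ∈ range (n + 1), gl N x k * pm N x (n - k) := by
  have h1 : ∀ k ∈ range (n + 1), gl N x k * pm N x (n - k)
      = if N ∣ k then (fun i => Real.exp (-x) * x ^ i / (i.factorial : ℝ) * pm N x (n - i * N))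
        (k / N) else 0 := by
    intro k _
    unfold gl
    split_ifs with h
    · simp only
      rw [Nat.div_mul_cancel h]
    · rw [zero_mul]
  rw [sum_congr rfl h1, reindex hN
    (fun i => Real.exp (-x) * x ^ i / (i.factorial : ℝ) * pm N x (n - i * N))]
  -- the double sum
  set F : ℕ → ℕ → ℝ := fun i j => if (i + j) * N ≤ n then
    Real.exp (-x) * x ^ i / (i.factorial : ℝ) *
      (Real.exp (-(((n - (i + j) * N : ℕ) : ℝ) * x)) * (((n - (i + j) * N : ℕ) : ℝ) * x) ^ j
        / (j.factorial : ℝ)) else 0 with hF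
  have h2 : ∀ i ∈ range (n + 1), (if i * N ≤ n then
      Real.exp (-x) * x ^ i / (i.factorial : ℝ) * pm N x (n - i * N) else 0)
      = ∑ j ∈ range (n + 1 - i), F i j := by
    intro i hi
    rw [mem_range] at hi
    split_ifs with h
    · have hiN : i ≤ i * N := Nat.le_mul_of_pos_right i hN
      rw [pm_eq hN x (n - i * N) (n + 1 - i) (by omega), mul_sum]
      refine sum_congr rfl fun j _ => ?_
      simp only [hF]
      unfold y
      by_cases hj : j * N ≤ n - i * N
      · rw [if_pos hj, if_pos (by rw [add_mul]; omega),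
          show n - i * N - j * N = n - (i + j) * N by rw [add_mul]; omega]
      · rw [if_neg hj, if_neg (by rw [add_mul]; omega), mul_zero]
    · refine (sum_eq_zero fun j _ => ?_).symm
      simp only [hF]
      rw [if_neg]
      intro h3
      apply h
      rw [add_mul] at h3
      omega
  rw [sum_congr rfl h2, ← sum_range_diag_flip]
  have h3 : pm N x (n + 1) = ∑ s ∈ range (n + 1), y N x (n + 1) s := by
    unfold pm
    rw [sum_range_succ _ (n + 1)]
    have : y N x (n + 1) (n + 1) = 0 := by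
      unfold y
      split_ifs with h
      · have h4 : (n + 1) ≤ (n + 1) * N := Nat.le_mul_of_pos_right _ hN
        rw [show n + 1 - (n + 1) * N = 0 by omega]
        simp
      · rfl
    rw [this, add_zero]
  rw [h3]
  refine sum_congr rfl fun s hs => ?_
  rw [mem_range] at hs
  by_cases h : s * N ≤ n
  · have h4 : ∀ i ∈ range (s + 1), F i (s - i) = Real.exp (-(((n + 1 - s * N : ℕ) : ℝ) * x))
        / (s.factorial : ℝ) * (x ^ i * (((n - s * N : ℕ) : ℝ) * x) ^ (s - i) * (s.choose i : ℝ)) := by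
      intro i hi
      rw [mem_range] at hi
      simp only [hF]
      rw [show i + (s - i) = s by omega, if_pos h]
      have h5 : Real.exp (-(((n + 1 - s * N : ℕ) : ℝ) * x))
          = Real.exp (-x) * Real.exp (-(((n - s * N : ℕ) : ℝ) * x)) := by
        rw [← Real.exp_add, show n + 1 - s * N = n - s * N + 1 by omega]
        congr 1
        push_cast
        ring
      have h6 : (s.choose i : ℝ) = (s.factorial : ℝ) / ((i.factorial : ℝ) * ((s - i).factorial : ℝ)) :=
        Nat.cast_choose ℝ (by omega)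
      rw [h5, h6]
      have e1 : (s.factorial : ℝ) ≠ 0 := by positivity
      have e2 : (i.factorial : ℝ) ≠ 0 := by positivity
      have e3 : ((s - i).factorial : ℝ) ≠ 0 := by positivity
      field_simp
    rw [sum_congr rfl h4, ← mul_sum, ← add_pow]
    unfold y
    rw [if_pos (by omega)]
    have h7 : x + ((n - s * N : ℕ) : ℝ) * x = ((n + 1 - s * N : ℕ) : ℝ) * x := by
      rw [show n + 1 - s * N = n - s * N + 1 by omega]
      push_cast
      ring
    rw [h7]
    ring
  · have h4 : ∀ i ∈ range (s + 1), F i (s - i) = 0 := by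
      intro i hi
      rw [mem_range] at hi
      simp only [hF]
      rw [show i + (s - i) = s by omega, if_neg h]
    rw [sum_eq_zero h4]
    unfold y
    split_ifs with h5
    · rw [show n + 1 - s * N = 0 by omega]
      have : s ≠ 0 := by
        rintro rfl
        omega
      simp [this]
    · rfl

lemma gl_nonneg {N : ℕ} {x : ℝ} (hx : 0 ≤ x) (k : ℕ) : 0 ≤ gl N x k := by
  unfold gl
  split_ifs
  · positivity
  · exact le_rfl

lemma gl_sum {N : ℕ} (hN : 0 < N) {x : ℝ} (hx : 0 ≤ x) (n : ℕ) : ∑ k ∈ range n, gl N x k ≤ 1 := by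
  have h1 : ∑ k ∈ range (n + 1), gl N x k ≤ 1 := by
    have h2 : ∑ k ∈ range (n + 1), gl N x k
        = ∑ i ∈ range (n + 1), (if i * N ≤ n then Real.exp (-x) * x ^ i / (i.factorial : ℝ) else 0) :=
      reindex hN (fun i => Real.exp (-x) * x ^ i / (i.factorial : ℝ)) n
    rw [h2]
    calc ∑ i ∈ range (n + 1), (if i * N ≤ n then Real.exp (-x) * x ^ i / (i.factorial : ℝ) else 0)
        ≤ ∑ i ∈ range (n + 1), Real.exp (-x) * (x ^ i / (i.factorial : ℝ)) := by
          refine sum_le_sum fun i _ => ?_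
          split_ifs
          · rw [mul_div_assoc]
          · positivity
      _ = Real.exp (-x) * ∑ i ∈ range (n + 1), x ^ i / (i.factorial : ℝ) := by rw [mul_sum]
      _ ≤ Real.exp (-x) * Real.exp x :=
          mul_le_mul_of_nonneg_left (Real.sum_le_exp_of_nonneg hx _) (Real.exp_pos _).le
      _ = 1 := by rw [← Real.exp_add]; simp
  rw [sum_range_succ] at h1
  have := gl_nonneg (N := N) hx n
  linarith

/-! ### The example is a standard p-function -/

lemma pex_eq_pm {lam : ℝ} (hl : 0 < lam) {N : ℕ} (hN : 0 < N) (m : ℕ) :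
    pex lam 1 ((m : ℝ) / N) = pm N (lam / N) m := by
  have hN' : (0:ℝ) < N := by exact_mod_cast hN
  unfold pex pm
  rw [tsum_eq_sum (s := range (m + 1))]
  · refine sum_congr rfl fun j _ => ?_
    unfold y
    split_ifs with h
    · unfold phi
      have h1 : max ((m : ℝ) / N - j * 1) 0 = ((m - j * N : ℕ) : ℝ) / N := by
        have h2 : ((j * N : ℕ) : ℝ) ≤ m := by exact_mod_cast h
        rw [Nat.cast_sub h]
        push_cast at h2 ⊢
        rw [max_eq_left]
        · field_simp
        · rw [sub_nonneg, mul_one, le_div_iff₀ hN']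
          exact h2
      rw [h1]
      have h3 : lam * (((m - j * N : ℕ) : ℝ) / N) = ((m - j * N : ℕ) : ℝ) * (lam / N) := by ring
      rw [h3]
    · have hj : 1 ≤ j := by
        rcases Nat.eq_zero_or_pos j with rfl | hj
        · omega
        · exact hj
      refine phi_zero_of_le hl one_pos j hj _ ?_
      rw [mul_one, div_le_iff₀ hN']
      push Not at h
      exact_mod_cast h.le
  · intro j hj
    rw [mem_range, not_lt] at hj
    refine phi_zero_of_le hl one_pos j (by omega) _ ?_
    rw [mul_one, div_le_iff₀ hN']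
    have h1 : m ≤ j * N := by
      have : j ≤ j * N := Nat.le_mul_of_pos_right j hN
      omega
    exact_mod_cast h1

lemma of_main {p : ℝ≥0 → ℝ} (h : Main.IsPFunction p) : IsPFunction p := by
  obtain ⟨h0, h1, Ω, mΩ, P, E, hP, hE, hprod⟩ := h
  refine ⟨h0, h1, Ω, mΩ, P, E, hP, hE, fun t => ?_, hprod⟩
  have h2 := hprod 0 (fun _ => t) (fun _ _ _ => le_rfl)
  have e1 : (⋂ _i : Fin 1, E t) = E t := by
    ext ω; simp
  have e2 : (⋂ i : Fin 0, E ((fun _ : Fin 1 => t) i.succ - (fun _ : Fin 1 => t) 0)) = Set.univ := by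
    ext ω; simp
  rw [e2, e1] at h2
  rw [h2]
  simp

lemma pex_main {lam : ℝ} (hl : 0 < lam) : Main.IsPFunction (fun t : ℝ≥0 => pex lam 1 t) := by
  have hcont : Continuous (fun t : ℝ≥0 => pex lam 1 t) :=
    (pex_continuousOn hl one_pos).comp_continuous NNReal.continuous_coe (fun t => t.2)
  have h0 : pex lam 1 ((0 : ℝ≥0) : ℝ) = 1 := by
    rw [NNReal.coe_zero, pex_small hl one_pos 0 le_rfl zero_le_one]
    simp
  obtain ⟨P, hP, hV⟩ := Limit.exists_process (fun t : ℝ≥0 => pex lam 1 t) hcont h0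
    (fun j => j + 1) (tendsto_add_atTop_nat 1) (fun j k => gl (j + 1) (lam / ((j + 1 : ℕ) : ℝ)) k)
    (fun j k => gl_nonneg (by positivity) k)
    (fun j n => gl_sum (Nat.succ_pos j) (by positivity) n) (fun j n => by
      simp only [NNReal.coe_div, NNReal.coe_natCast]
      rw [pex_eq_pm hl (Nat.succ_pos j), renewal (Nat.succ_pos j)]
      refine sum_congr rfl fun k _ => ?_
      rw [pex_eq_pm hl (Nat.succ_pos j)])
  exact Main.isPFunction_of_process _ h0 P hP hV

lemma pex_scaled {lam : ℝ} (hl : 0 < lam) (T : ℝ≥0) :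
    IsStd (fun t : ℝ≥0 => pex lam 1 ((T : ℝ) * t)) := by
  have hcont : Continuous (fun t : ℝ≥0 => pex lam 1 ((T : ℝ) * t)) :=
    (pex_continuousOn hl one_pos).comp_continuous (by fun_prop) (fun t => by
      show (0:ℝ) ≤ T * t
      positivity)
  constructor
  · have h1 := (pex_main hl).scale T
    have h2 := of_main h1
    simpa using h2
  · have h3 : Tendsto (fun t : ℝ≥0 => pex lam 1 ((T : ℝ) * t)) (𝓝 0)
        (𝓝 (pex lam 1 ((T : ℝ) * (0 : ℝ≥0)))) := hcont.tendsto 0
    have h4 : pex lam 1 ((T : ℝ) * (0 : ℝ≥0)) = 1 := by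
      rw [NNReal.coe_zero, mul_zero, pex_small hl one_pos 0 le_rfl zero_le_one]
      simp
    rw [h4] at h3
    exact h3.mono_left nhdsWithin_le_nhds

lemma pex_between {lam : ℝ} (hl : 0 < lam) (t : ℝ) (h1 : 1 ≤ t) (h2 : t ≤ 2) :
    pex lam 1 t = Real.exp (-(lam * t)) + Real.exp (-(lam * (t - 1))) * (lam * (t - 1)) := by
  unfold pex
  rw [tsum_eq_sum (s := Finset.range 2)]
  · rw [Finset.sum_range_succ, Finset.sum_range_one]
    unfold phi
    have h3 : max (t - 1) 0 = t - 1 := max_eq_left (by linarith)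
    have h4 : max t 0 = t := max_eq_left (by linarith)
    simp [h3, h4]
  · intro j hj
    rw [Finset.mem_range, not_lt] at hj
    refine phi_zero_of_le hl one_pos j (by omega) t (h2.trans ?_)
    rw [mul_one]
    exact_mod_cast hj

/-- The extremal example. -/
theorem exists_std {lam M : ℝ} (hl : 0 < lam) (h1 : Real.exp (-lam) ≤ M)
    (h2 : M ≤ Real.exp (-(1 - Real.exp (-lam)))) :
    ∃ p : ℝ≥0 → ℝ, IsStd p ∧ p 1 = M ∧ ∃ t ≤ (1 : ℝ≥0), p t = Real.exp (-lam) := by
  have hexp1 : Real.exp (-lam) < 1 := by rw [Real.exp_lt_one_iff]; linarith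
  set s : ℝ := (1 - Real.exp (-lam)) / lam with hs
  have hs0 : 0 ≤ s := div_nonneg (by linarith) hl.le
  have hs1 : s ≤ 1 := by
    rw [hs, div_le_one hl]
    have := Real.add_one_le_exp (-lam)
    linarith
  have hls : lam * s = 1 - Real.exp (-lam) := by rw [hs]; field_simp
  have hval1 : pex lam 1 1 = Real.exp (-lam) := by
    rw [pex_small hl one_pos 1 zero_le_one le_rfl, mul_one]
  have hval2 : pex lam 1 (1 + s) = Real.exp (-(1 - Real.exp (-lam))) := by
    rw [pex_between hl (1 + s) (by linarith) (by linarith), add_sub_cancel_left, hls]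
    have h3 : Real.exp (-(lam * (1 + s))) = Real.exp (-lam) * Real.exp (-(1 - Real.exp (-lam))) := by
      rw [← Real.exp_add, ← hls]
      congr 1
      ring
    rw [h3]
    ring
  have hivt : M ∈ pex lam 1 '' Set.Icc 1 (1 + s) := by
    refine intermediate_value_Icc (by linarith)
      ((pex_continuousOn hl one_pos).mono fun t ht => ?_) ?_
    · have := ht.1
      show (0:ℝ) ≤ t
      linarith
    · rw [hval1, hval2]
      exact ⟨h1, h2⟩
  obtain ⟨T, ⟨hT1, hT2⟩, hT⟩ := hivt
  have hT0 : 0 ≤ T := by linarith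
  lift T to ℝ≥0 using hT0
  refine ⟨fun t => pex lam 1 ((T : ℝ) * t), pex_scaled hl T, ?_, 1 / T, ?_, ?_⟩
  · simp only [NNReal.coe_one, mul_one]
    exact hT
  · rw [div_le_one (by exact_mod_cast lt_of_lt_of_le one_pos hT1)]
    exact_mod_cast hT1
  · simp only [NNReal.coe_div, NNReal.coe_one]
    rw [mul_one_div_cancel (by linarith)]
    exact hval1

lemma isStd_one : IsStd (fun _ => 1) := by
  refine ⟨⟨rfl, fun _ => ⟨zero_le_one, le_rfl⟩, Unit, inferInstance, Measure.dirac (),
    fun _ => Set.univ, inferInstance, fun _ => MeasurableSet.univ, fun _ => ?_, ?_⟩,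
    tendsto_const_nhds⟩
  · simp
  · intro n t _
    simp

end Pool.Agent.Helper945.ExP
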