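import Pool.Agent.Helper945.Skel

set_option autoImplicit false

open Finset Filter Topology MeasureTheory
open scoped NNReal

namespace Pool.Agent.Helper945.InfLow

open Pool.Agent.Helper945.RenCore Pool.Agent.Helper945.PDef Pool.Agent.Helper945.Skel
  Pool.Agent.Helper945.Sharp

lemma tendsto_zero {p : ℝ≥0 → ℝ} (hp : IsStd p) : Tendsto p (𝓝 0) (𝓝 1) := by
  have h1 : p 0 = 1 := hp.1.1
  have h2 : ContinuousAt p 0 := by
    rw [continuousAt_iff_punctured_nhds, h1]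
    have h3 : ({0}ᶜ : Set ℝ≥0) = Set.Ioi 0 := by
      ext x; simp [pos_iff_ne_zero]
    rw [h3]
    exact hp.2
  have h4 : Tendsto p (𝓝 0) (𝓝 (p 0)) := h2
  rwa [h1] at h4

lemma entropy_le (a x : ℝ) (ha : 0 < a) : a * x - a * Real.log a ≤ Real.exp (x - 1) := by
  have h1 := Real.add_one_le_exp (x - 1 - Real.log a)
  have h2 : Real.exp (x - 1) = a * Real.exp (x - 1 - Real.log a) := by
    rw [Real.exp_sub (x - 1), Real.exp_log ha]; field_simp
  rw [h2]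
  nlinarith

/-- The discrete bound. -/
lemma discrete {f : ℕ → ℝ} (G : GapLaw f) (hK : Real.exp (-1) + (1 - u f 1) ≤ 1) (n z : ℕ)
    (hz : 0 < z) : u f (z + n) ≤ Real.exp (u f n - 1) + 2 * (1 - u f 1) := by
  have hH : H f 1 = 1 - u f 1 := by
    rw [u_one G.zero]
    unfold H
    simp [sum_range_succ, G.zero]
  have h1 := sharp G (by rw [hH]; exact hK) z n hz
  rw [hH] at h1
  set a := max (u f (z - 1)) (Real.exp (-1)) with ha
  have ha0 : 0 < a := lt_of_lt_of_le (Real.exp_pos _) (le_max_right _ _)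
  have hua : u f (z - 1) ≤ a := le_max_left _ _
  have h2 : psi (u f (z - 1)) = - a * Real.log a := rfl
  have h3 : u f z ≤ u f (z - 1) + (1 - u f 1) := by
    obtain ⟨m, rfl⟩ : ∃ m, z = m + 1 := ⟨z - 1, by omega⟩
    rw [u_rec G.zero (m + 1) (by omega), u_one G.zero, Nat.add_sub_cancel,
      show m + 1 + 1 = 2 + m by omega, sum_range_add]
    have h4 : ∑ k ∈ range 2, f k * u f (m + 1 - k) = f 1 * u f m := by
      simp [sum_range_succ, G.zero]
    have h5 : ∑ k ∈ range m, f (2 + k) * u f (m + 1 - (2 + k)) ≤ 1 - f 1 := by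
      have h6 : ∑ k ∈ range m, f (2 + k) * u f (m + 1 - (2 + k)) ≤ ∑ k ∈ range m, f (2 + k) :=
        sum_le_sum fun k _ => mul_le_of_le_one_right (G.nonneg _) (u_le_one G _)
      have h7 := G.sum_le (2 + m)
      rw [sum_range_add] at h7
      have h8 : ∑ k ∈ range 2, f k = f 1 := by simp [sum_range_succ, G.zero]
      rw [h8] at h7
      linarith
    have h9 : f 1 ≤ 1 := by
      have := u_le_one G 1
      rwa [u_one G.zero] at this
    have h10 := u_nonneg G.nonneg m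
    have h11 : f 1 * u f m ≤ u f m := mul_le_of_le_one_left h10 h9
    rw [h4]
    linarith
  have hn0 := u_nonneg G.nonneg n
  have hn1 := u_le_one G n
  have hε : 0 ≤ 1 - u f 1 := by have := u_le_one G 1; linarith
  have h12 := entropy_le a (u f n) ha0
  have h13 : u f z * u f n ≤ (a + (1 - u f 1)) * u f n :=
    mul_le_mul_of_nonneg_right (by linarith) hn0
  have h14 : (1 - u f 1) * u f n ≤ 1 - u f 1 := mul_le_of_le_one_right hε hn1
  rw [h2] at h1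
  nlinarith

/-- The sharp lower bound. -/
theorem le_exp {p : ℝ≥0 → ℝ} (hp : IsStd p) (t : ℝ≥0) (ht : t ≤ 1) :
    p 1 ≤ Real.exp (p t - 1) := by
  rcases eq_or_lt_of_le ht with rfl | ht
  · have := Real.add_one_le_exp (p 1 - 1)
    linarith
  have h0 := tendsto_zero hp
  -- the mesh
  set δ : ℕ → ℝ≥0 := fun N => t - (⌊t * ((N + 1 : ℕ) : ℝ≥0)⌋₊ : ℝ≥0) / ((N + 1 : ℕ) : ℝ≥0) with hδ
  have hfl : ∀ N : ℕ, (⌊t * ((N + 1 : ℕ) : ℝ≥0)⌋₊ : ℝ≥0) / ((N + 1 : ℕ) : ℝ≥0) ≤ t := by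
    intro N
    rw [div_le_iff₀ (by positivity)]
    exact Nat.floor_le (by positivity)
  have hδ1 : ∀ N, δ N ≤ 1 / ((N + 1 : ℕ) : ℝ≥0) := by
    intro N
    simp only [hδ]
    rw [tsub_le_iff_right, ← add_div, le_div_iff₀ (by positivity)]
    have := Nat.lt_floor_add_one (t * ((N + 1 : ℕ) : ℝ≥0))
    exact this.le.trans (le_of_eq (add_comm _ _))
  have hN0 : Tendsto (fun N : ℕ => (1 : ℝ≥0) / ((N + 1 : ℕ) : ℝ≥0)) atTop (𝓝 0) := by
    have := tendsto_one_div_add_atTop_nhds_zero_nat (𝕜 := ℝ≥0)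
    simpa using this
  have hδ0 : Tendsto δ atTop (𝓝 0) :=
    tendsto_of_tendsto_of_tendsto_of_le_of_le tendsto_const_nhds hN0 (fun _ => bot_le) hδ1
  have hp1 : Tendsto (fun N : ℕ => p (1 / ((N + 1 : ℕ) : ℝ≥0))) atTop (𝓝 1) := h0.comp hN0
  have hpδ : Tendsto (fun N : ℕ => p (δ N)) atTop (𝓝 1) := h0.comp hδ0
  have hlim : Tendsto (fun N : ℕ => Real.exp (p t + (1 - p (δ N)) - 1)
      + 2 * (1 - p (1 / ((N + 1 : ℕ) : ℝ≥0)))) atTop (𝓝 (Real.exp (p t - 1))) := by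
    have h1 : Tendsto (fun N : ℕ => Real.exp (p t + (1 - p (δ N)) - 1)
      + 2 * (1 - p (1 / ((N + 1 : ℕ) : ℝ≥0)))) atTop
        (𝓝 (Real.exp (p t + (1 - 1) - 1) + 2 * (1 - 1))) := by
      refine Tendsto.add ?_ ((hp1.const_sub 1).const_mul 2)
      exact (Real.continuous_exp.tendsto _).comp (((hpδ.const_sub 1).const_add (p t)).sub_const 1)
    simpa using h1
  refine ge_of_tendsto hlim ?_
  have hev : ∀ᶠ N : ℕ in atTop, Real.exp (-1) ≤ p (1 / ((N + 1 : ℕ) : ℝ≥0)) := by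
    have h2 : Real.exp (-1) < 1 := by rw [Real.exp_lt_one_iff]; norm_num
    exact (hp1.eventually (lt_mem_nhds h2)).mono fun N h => h.le
  filter_upwards [hev] with N hN
  obtain ⟨f, G, hu⟩ := skeleton hp.1 (1 / ((N + 1 : ℕ) : ℝ≥0))
  set n := ⌊t * ((N + 1 : ℕ) : ℝ≥0)⌋₊ with hn
  have hnN : n < N + 1 := by
    rw [hn, Nat.floor_lt (by positivity)]
    calc t * ((N + 1 : ℕ) : ℝ≥0) < 1 * ((N + 1 : ℕ) : ℝ≥0) :=
          mul_lt_mul_of_pos_right ht (by positivity)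
      _ = ((N + 1 : ℕ) : ℝ≥0) := one_mul _
  have hu1 : u f 1 = p (1 / ((N + 1 : ℕ) : ℝ≥0)) := by rw [hu]; simp
  have hd := discrete G (by rw [hu1]; linarith) n (N + 1 - n) (by omega)
  rw [show N + 1 - n + n = N + 1 by omega, hu (N + 1), hu n, hu1] at hd
  have e1 : ((N + 1 : ℕ) : ℝ≥0) * (1 / ((N + 1 : ℕ) : ℝ≥0)) = 1 := by
    field_simp
  have e2 : (n : ℝ≥0) * (1 / ((N + 1 : ℕ) : ℝ≥0)) = (n : ℝ≥0) / ((N + 1 : ℕ) : ℝ≥0) := by
    rw [mul_one_div]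
  rw [e1, e2] at hd
  have hsm := supermul hp.1 ((n : ℝ≥0) / ((N + 1 : ℕ) : ℝ≥0)) (δ N)
  have e3 : (n : ℝ≥0) / ((N + 1 : ℕ) : ℝ≥0) + δ N = t := by
    simp only [hδ]
    exact add_tsub_cancel_of_le (hfl N)
  rw [e3] at hsm
  have hb := hp.1.2.1 ((n : ℝ≥0) / ((N + 1 : ℕ) : ℝ≥0))
  have hbδ := hp.1.2.1 (δ N)
  have h5 : p ((n : ℝ≥0) / ((N + 1 : ℕ) : ℝ≥0)) ≤ p t + (1 - p (δ N)) := by
    nlinarith
  have h6 : Real.exp (p ((n : ℝ≥0) / ((N + 1 : ℕ) : ℝ≥0)) - 1)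
      ≤ Real.exp (p t + (1 - p (δ N)) - 1) := Real.exp_le_exp.mpr (by linarith)
  linarith

theorem log_le {p : ℝ≥0 → ℝ} (hp : IsStd p) (hp1 : 0 < p 1) (t : ℝ≥0) (ht : t ≤ 1) :
    1 + Real.log (p 1) ≤ p t := by
  have h1 := Real.log_le_log hp1 (le_exp hp t ht)
  rw [Real.log_exp] at h1
  linarith

end Pool.Agent.Helper945.InfLow
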