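import Mathlib

/-!
Uniqueness for Laplace transforms sampled at the positive integers, and the passage from Kingman's
Laplace form to the renewal (Volterra) equation.
-/

set_option autoImplicit false

open MeasureTheory Set Filter Topology

namespace Pool.Agent.Helper945.LapU

lemma poly_zero (f : ℝ → ℝ)
    (hint : ∀ n : ℕ, 0 < n → IntegrableOn (fun t => Real.exp (-(n * t)) * f t) (Ioi 0))
    (h0 : ∀ n : ℕ, 0 < n → ∫ t in Ioi (0:ℝ), Real.exp (-(n * t)) * f t = 0) (q : Polynomial ℝ) :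
    IntegrableOn (fun t => q.eval (Real.exp (-t)) * (Real.exp (-t) * f t)) (Ioi 0) ∧
    ∫ t in Ioi (0:ℝ), q.eval (Real.exp (-t)) * (Real.exp (-t) * f t) = 0 := by
  have hterm : ∀ (i : ℕ) (c : ℝ), (fun t => c * Real.exp (-t) ^ i * (Real.exp (-t) * f t))
      = fun t => c * (Real.exp (-(((i + 1 : ℕ) : ℝ) * t)) * f t) := by
    intro i c
    funext t
    have : Real.exp (-(((i + 1 : ℕ) : ℝ) * t)) = Real.exp (-t) ^ i * Real.exp (-t) := by
      rw [← pow_succ, ← Real.exp_nat_mul]
      congr 1; ring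
    rw [this]; ring
  have hI : ∀ (i : ℕ) (c : ℝ), IntegrableOn
      (fun t => c * Real.exp (-t) ^ i * (Real.exp (-t) * f t)) (Ioi 0) := by
    intro i c
    rw [hterm]
    exact (hint (i + 1) (by omega)).const_mul c
  have heq : (fun t => q.eval (Real.exp (-t)) * (Real.exp (-t) * f t))
      = fun t => ∑ i ∈ Finset.range (q.natDegree + 1),
        q.coeff i * Real.exp (-t) ^ i * (Real.exp (-t) * f t) := by
    funext t
    rw [Polynomial.eval_eq_sum_range, Finset.sum_mul]
  rw [heq]
  refine ⟨integrable_finsetSum _ fun i _ => hI i _, ?_⟩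
  rw [integral_finsetSum _ fun i _ => hI i _]
  refine Finset.sum_eq_zero fun i _ => ?_
  rw [hterm, integral_const_mul, h0 (i + 1) (by omega), mul_zero]

lemma cont_zero (f : ℝ → ℝ)
    (hint : ∀ n : ℕ, 0 < n → IntegrableOn (fun t => Real.exp (-(n * t)) * f t) (Ioi 0))
    (h0 : ∀ n : ℕ, 0 < n → ∫ t in Ioi (0:ℝ), Real.exp (-(n * t)) * f t = 0)
    (φ : ℝ → ℝ) (hφ : Continuous φ) :
    IntegrableOn (fun t => φ (Real.exp (-t)) * (Real.exp (-t) * f t)) (Ioi 0) ∧
    ∫ t in Ioi (0:ℝ), φ (Real.exp (-t)) * (Real.exp (-t) * f t) = 0 := by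
  have h1 : IntegrableOn (fun t => Real.exp (-t) * f t) (Ioi 0) := by
    have := hint 1 one_pos
    simpa using this
  obtain ⟨C, hC⟩ : ∃ C, ∀ x ∈ Icc (0:ℝ) 1, ‖φ x‖ ≤ C :=
    isCompact_Icc.exists_bound_of_continuousOn hφ.continuousOn
  have hmem : ∀ t ∈ Ioi (0:ℝ), Real.exp (-t) ∈ Icc (0:ℝ) 1 := by
    intro t ht
    rw [mem_Ioi] at ht
    exact ⟨(Real.exp_pos _).le, by rw [Real.exp_le_one_iff]; linarith⟩
  have hφI : IntegrableOn (fun t => φ (Real.exp (-t)) * (Real.exp (-t) * f t)) (Ioi 0) := by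
    refine Integrable.bdd_mul h1 ?_ (c := C) ?_
    · exact (hφ.comp (Real.continuous_exp.comp continuous_neg)).aestronglyMeasurable
    · exact (ae_restrict_mem measurableSet_Ioi).mono fun t ht => hC _ (hmem t ht)
  refine ⟨hφI, ?_⟩
  set I : ℝ := ∫ t in Ioi (0:ℝ), ‖Real.exp (-t) * f t‖ with hI
  have hI0 : 0 ≤ I := integral_nonneg fun t => norm_nonneg _
  rw [← norm_eq_zero]
  refine le_antisymm (le_of_forall_pos_le_add fun ε hε => ?_) (norm_nonneg _)
  rw [zero_add]
  obtain ⟨q, hq⟩ := exists_polynomial_near_of_continuousOn 0 1 φ hφ.continuousOn (ε / (I + 1))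
    (by positivity)
  obtain ⟨hqI, hq0⟩ := poly_zero f hint h0 q
  have h2 : ∫ t in Ioi (0:ℝ), φ (Real.exp (-t)) * (Real.exp (-t) * f t)
      = ∫ t in Ioi (0:ℝ), (φ (Real.exp (-t)) - q.eval (Real.exp (-t))) * (Real.exp (-t) * f t) := by
    have h3 := integral_sub hφI hqI
    rw [hq0, sub_zero] at h3
    rw [← h3]
    congr 1
    funext t; ring
  rw [h2]
  calc ‖∫ t in Ioi (0:ℝ), (φ (Real.exp (-t)) - q.eval (Real.exp (-t))) * (Real.exp (-t) * f t)‖
      ≤ ∫ t in Ioi (0:ℝ), ε / (I + 1) * ‖Real.exp (-t) * f t‖ := by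
        refine norm_integral_le_of_norm_le (h1.norm.const_mul _) ?_
        refine (ae_restrict_mem measurableSet_Ioi).mono fun t ht => ?_
        rw [norm_mul]
        refine mul_le_mul_of_nonneg_right ?_ (norm_nonneg _)
        have := hq _ (hmem t ht)
        rw [Real.norm_eq_abs, abs_sub_comm]
        exact this.le
    _ = ε / (I + 1) * I := by rw [integral_const_mul]
    _ ≤ ε := by
        rw [div_mul_eq_mul_div, div_le_iff₀ (by positivity)]
        nlinarith

lemma laplace_le (f : ℝ → ℝ) (hfc : ContinuousOn f (Ioi 0))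
    (hint : ∀ n : ℕ, 0 < n → IntegrableOn (fun t => Real.exp (-(n * t)) * f t) (Ioi 0))
    (h0 : ∀ n : ℕ, 0 < n → ∫ t in Ioi (0:ℝ), Real.exp (-(n * t)) * f t = 0) (t0 : ℝ)
    (ht0 : 0 < t0) : f t0 ≤ 0 := by
  by_contra hpos
  push Not at hpos
  have hca : ContinuousAt f t0 := hfc.continuousAt (Ioi_mem_nhds ht0)
  have hev : ∀ᶠ t in 𝓝 t0, 0 < f t := hca.eventually (lt_mem_nhds hpos)
  obtain ⟨r, hr, hball⟩ := Metric.eventually_nhds_iff.mp (hev.and (Ioi_mem_nhds ht0))
  set d : ℝ := min (Real.exp (-t0) - Real.exp (-(t0 + r / 2)))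
    (Real.exp (-(t0 - r / 2)) - Real.exp (-t0)) with hd
  have hdpos : 0 < d := by
    rw [hd, lt_min_iff]
    constructor
    · rw [sub_pos, Real.exp_lt_exp]; linarith
    · rw [sub_pos, Real.exp_lt_exp]; linarith
  set φ : ℝ → ℝ := fun x => max 0 (d - |x - Real.exp (-t0)|) with hφ
  have hφc : Continuous φ := by
    rw [hφ]; fun_prop
  obtain ⟨hI, hz⟩ := cont_zero f hint h0 φ hφc
  have hnn : ∀ t ∈ Ioi (0:ℝ), 0 ≤ φ (Real.exp (-t)) * (Real.exp (-t) * f t) := by
    intro t _
    by_cases ht : |t - t0| < r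
    · have h1 : 0 < f t := (hball (by rw [Real.dist_eq]; exact ht)).1
      have h2 : 0 ≤ φ (Real.exp (-t)) := le_max_left _ _
      have := Real.exp_pos (-t)
      positivity
    · have h3 : φ (Real.exp (-t)) = 0 := by
        rw [hφ]
        simp only
        refine max_eq_left ?_
        rw [sub_nonpos]
        rw [not_lt] at ht
        rcases le_or_gt 0 (t - t0) with hs | hs
        · rw [abs_of_nonneg hs] at ht
          have h4 : Real.exp (-t) ≤ Real.exp (-(t0 + r / 2)) := by
            rw [Real.exp_le_exp]; linarith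
          rw [abs_sub_comm]
          refine le_trans ?_ (le_abs_self _)
          exact (min_le_left _ _).trans (by linarith)
        · rw [abs_of_neg hs] at ht
          have h4 : Real.exp (-(t0 - r / 2)) ≤ Real.exp (-t) := by
            rw [Real.exp_le_exp]; linarith
          refine le_trans ?_ (le_abs_self _)
          exact (min_le_right _ _).trans (by linarith)
      rw [h3, zero_mul]
  have hae : (fun t => φ (Real.exp (-t)) * (Real.exp (-t) * f t)) =ᵐ[volume.restrict (Ioi 0)]
      fun _ => (0:ℝ) := by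
    have := (setIntegral_eq_zero_iff_of_nonneg_ae
      ((ae_restrict_mem measurableSet_Ioi).mono fun t ht => hnn t ht) hI).mp hz
    exact this
  have hEq := Measure.eqOn_open_of_ae_eq hae isOpen_Ioi (by
    refine (hφc.comp (Real.continuous_exp.comp continuous_neg)).continuousOn.mul ?_
    exact (Real.continuous_exp.comp continuous_neg).continuousOn.mul hfc) continuousOn_const
  have := hEq (show t0 ∈ Ioi (0:ℝ) from ht0)
  simp only at this
  have h5 : φ (Real.exp (-t0)) = d := by
    rw [hφ]; simp [hdpos.le]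
  rw [h5] at this
  have h6 : 0 < d * (Real.exp (-t0) * f t0) := by
    have := Real.exp_pos (-t0); positivity
  linarith

/-- Uniqueness for Laplace transforms. -/
theorem laplace_unique (f : ℝ → ℝ) (hfc : ContinuousOn f (Ioi 0))
    (hint : ∀ n : ℕ, 0 < n → IntegrableOn (fun t => Real.exp (-(n * t)) * f t) (Ioi 0))
    (h0 : ∀ n : ℕ, 0 < n → ∫ t in Ioi (0:ℝ), Real.exp (-(n * t)) * f t = 0) (t0 : ℝ)
    (ht0 : 0 < t0) : f t0 = 0 := by
  refine le_antisymm (laplace_le f hfc hint h0 t0 ht0) ?_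
  have := laplace_le (fun t => - f t) hfc.neg (fun n hn => by
      have := (hint n hn).neg
      refine this.congr_fun (fun t _ => ?_) measurableSet_Ioi
      simp) (fun n hn => by
      have h1 : (fun t => Real.exp (-(n * t)) * -f t) = fun t => -(Real.exp (-(n * t)) * f t) := by
        funext t; ring
      rw [h1, integral_neg, h0 n hn, neg_zero]) t0 ht0
  linarith

end Pool.Agent.Helper945.LapU
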