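import Mathlib

set_option autoImplicit false

open Filter Topology MeasureTheory
open scoped NNReal

namespace Pool.Agent.Helper945.PDef

/-- `p` is a p-function: `p 0 = 1`, `p` takes values in `[0,1]`, and on some probability space
there are measurable events `E t` (`t ≥ 0`) with `P(E t) = p t` such that
`P(E t₀ ∩ ⋯ ∩ E tₙ) = p t₀ * P(E (t₁ - t₀) ∩ ⋯ ∩ E (tₙ - t₀))` whenever `t₀ ≤ ⋯ ≤ tₙ`. -/
def IsPFunction (p : ℝ≥0 → ℝ) : Prop :=
  p 0 = 1 ∧ (∀ t, 0 ≤ p t ∧ p t ≤ 1) ∧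
  ∃ (Ω : Type) (_ : MeasurableSpace Ω) (P : Measure Ω) (E : ℝ≥0 → Set Ω),
    IsProbabilityMeasure P ∧ (∀ t, MeasurableSet (E t)) ∧ (∀ t, P.real (E t) = p t) ∧
    ∀ (n : ℕ) (t : Fin (n + 1) → ℝ≥0), Monotone t →
      P.real (⋂ i, E (t i)) = p (t 0) * P.real (⋂ i : Fin n, E (t i.succ - t 0))

/-- `p` is a standard p-function: a p-function with `p t → 1` as `t → 0+`. -/
def IsStd (p : ℝ≥0 → ℝ) : Prop := IsPFunction p ∧ Tendsto p (𝓝[>] 0) (𝓝 1)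

end Pool.Agent.Helper945.PDef
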