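import Mathlib

/-!
Discrete renewal theory used for the critical value of standard p-functions.
-/

set_option autoImplicit false

open Finset

namespace Pool.Agent.Helper945.RenCore

/-- A (possibly defective) gap law on the positive integers. -/
structure GapLaw (g : ℕ → ℝ) : Prop where
  zero : g 0 = 0
  nonneg : ∀ n, 0 ≤ g n
  sum_le : ∀ n, ∑ m ∈ range n, g m ≤ 1

/-- `P g k n`: the probability that the `k`-th sum of gaps equals `n`. -/
def P (g : ℕ → ℝ) : ℕ → ℕ → ℝ
  | 0, n => if n = 0 then 1 else 0
  | k + 1, n => ∑ m ∈ range (n + 1), g m * P g k (n - m)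

/-- The renewal sequence. -/
def u (g : ℕ → ℝ) (n : ℕ) : ℝ := ∑ k ∈ range (n + 1), P g k n

lemma P_nonneg {g : ℕ → ℝ} (hg : ∀ n, 0 ≤ g n) : ∀ k n, 0 ≤ P g k n
  | 0, n => by simp only [P]; split_ifs <;> norm_num
  | k + 1, n => by
      simp only [P]
      exact sum_nonneg fun m _ => mul_nonneg (hg m) (P_nonneg hg k _)

lemma P_eq_zero {g : ℕ → ℝ} (h0 : g 0 = 0) : ∀ k n, n < k → P g k n = 0
  | 0, n, h => by omega
  | k + 1, n, h => by
      simp only [P]
      refine sum_eq_zero fun m hm => ?_
      rw [mem_range] at hm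
      rcases Nat.eq_zero_or_pos m with rfl | hm0
      · rw [h0, zero_mul]
      · rw [P_eq_zero h0 k (n - m) (by omega), mul_zero]

lemma u_eq {g : ℕ → ℝ} (h0 : g 0 = 0) (n K : ℕ) (hK : n < K) :
    u g n = ∑ k ∈ range K, P g k n := by
  unfold u
  refine sum_subset (range_mono (by omega)) fun k _ hk => ?_
  exact P_eq_zero h0 k n (by simpa using hk)

lemma u_zero (g : ℕ → ℝ) : u g 0 = 1 := by simp [u, P]

lemma u_nonneg {g : ℕ → ℝ} (hg : ∀ n, 0 ≤ g n) (n : ℕ) : 0 ≤ u g n :=
  sum_nonneg fun k _ => P_nonneg hg k n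

lemma u_rec {g : ℕ → ℝ} (h0 : g 0 = 0) (n : ℕ) (hn : 0 < n) :
    u g n = ∑ m ∈ range (n + 1), g m * u g (n - m) := by
  rw [u_eq h0 n (n + 2) (by omega), sum_range_succ']
  have : P g 0 n = 0 := by simp [P, hn.ne']
  rw [this, add_zero]
  simp only [P]
  rw [sum_comm]
  refine sum_congr rfl fun m hm => ?_
  rw [← mul_sum, u_eq h0 (n - m) (n + 1) (by omega)]

lemma u_one {g : ℕ → ℝ} (h0 : g 0 = 0) : u g 1 = g 1 := by
  rw [u_rec h0 1 one_pos]
  simp [sum_range_succ, h0, u_zero]

lemma u_le_one {g : ℕ → ℝ} (G : GapLaw g) : ∀ n, u g n ≤ 1 := by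
  intro n
  induction n using Nat.strong_induction_on with
  | _ n ih =>
    rcases Nat.eq_zero_or_pos n with rfl | hn
    · rw [u_zero]
    · rw [u_rec G.zero n hn]
      calc ∑ m ∈ range (n + 1), g m * u g (n - m) ≤ ∑ m ∈ range (n + 1), g m := by
            refine sum_le_sum fun m _ => ?_
            rcases Nat.eq_zero_or_pos m with rfl | hm
            · rw [G.zero, zero_mul]
            · exact mul_le_of_le_one_right (G.nonneg m) (ih (n - m) (by omega))
        _ ≤ 1 := G.sum_le _

/-- Supermultiplicativity. -/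
lemma u_mul_le {g : ℕ → ℝ} (G : GapLaw g) : ∀ a b, u g a * u g b ≤ u g (a + b) := by
  intro a b
  induction a using Nat.strong_induction_on with
  | _ a ih =>
    rcases Nat.eq_zero_or_pos a with rfl | ha
    · rw [u_zero, one_mul, zero_add]
    · rw [u_rec G.zero a ha, u_rec G.zero (a + b) (by omega), sum_mul]
      calc ∑ m ∈ range (a + 1), g m * u g (a - m) * u g b
          ≤ ∑ m ∈ range (a + 1), g m * u g (a + b - m) := by
            refine sum_le_sum fun m hm => ?_
            rw [mem_range] at hm
            rcases Nat.eq_zero_or_pos m with rfl | hm0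
            · rw [G.zero, zero_mul, zero_mul, zero_mul]
            · rw [mul_assoc]
              refine mul_le_mul_of_nonneg_left ?_ (G.nonneg m)
              have := ih (a - m) (by omega)
              rwa [show a - m + b = a + b - m by omega] at this
        _ ≤ ∑ m ∈ range (a + b + 1), g m * u g (a + b - m) := by
            refine sum_le_sum_of_subset_of_nonneg (range_mono (by omega)) fun m _ _ => ?_
            exact mul_nonneg (G.nonneg m) (u_nonneg G.nonneg _)

lemma u_pow_le {g : ℕ → ℝ} (G : GapLaw g) (a : ℕ) : ∀ k, u g a ^ k ≤ u g (k * a)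
  | 0 => by simp [u_zero]
  | k + 1 => by
      have h1 := u_pow_le G a k
      have h2 := u_mul_le G (k * a) a
      rw [pow_succ, show (k + 1) * a = k * a + a by ring]
      exact (mul_le_mul_of_nonneg_right h1 (u_nonneg G.nonneg _)).trans h2

/-- Visits in the window `[w - T, w]`. -/
def S (g : ℕ → ℝ) (T w : ℕ) : ℝ := ∑ i ∈ range (T + 1), if i ≤ w then u g (w - i) else 0

lemma S_nonneg {g : ℕ → ℝ} (G : GapLaw g) (T w : ℕ) : 0 ≤ S g T w := by
  refine sum_nonneg fun i _ => ?_
  split_ifs
  · exact u_nonneg G.nonneg _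
  · exact le_rfl

lemma S_le {g : ℕ → ℝ} (G : GapLaw g) (T : ℕ) :
    ∀ w, S g T w ≤ ∑ i ∈ range (T + 1), u g i := by
  intro w
  induction w using Nat.strong_induction_on with
  | _ w ih =>
    rcases le_or_gt w T with hw | hw
    · -- initial segment
      have : S g T w = ∑ i ∈ range (w + 1), u g i := by
        unfold S
        rw [← sum_filter]
        have h1 : (range (T + 1)).filter (fun i => i ≤ w) = range (w + 1) := by
          ext i; simp only [mem_filter, mem_range]; omega
        rw [h1]
        rw [← sum_range_reflect (fun i => u g i) (w + 1)]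
        refine sum_congr rfl fun i _ => ?_
        congr 1
      rw [this]
      exact sum_le_sum_of_subset_of_nonneg (range_mono (by omega))
        fun i _ _ => u_nonneg G.nonneg _
    · have h1 : S g T w = ∑ m ∈ range (w + 1), g m * S g T (w - m) := by
        unfold S
        have h2 : ∀ i ∈ range (T + 1), (if i ≤ w then u g (w - i) else 0)
            = ∑ m ∈ range (w + 1), g m * (if i ≤ w - m then u g (w - m - i) else 0) := by
          intro i hi
          rw [mem_range] at hi
          rw [if_pos (by omega), u_rec G.zero (w - i) (by omega)]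
          refine Eq.trans ?_ (sum_subset (range_mono (show w - i + 1 ≤ w + 1 by omega)) ?_)
          · refine sum_congr rfl fun m hm => ?_
            rw [mem_range] at hm
            rw [if_pos (by omega), show w - i - m = w - m - i by omega]
          · intro m hm hm'
            rw [mem_range] at hm hm'
            rw [if_neg (by omega), mul_zero]
        rw [sum_congr rfl h2, sum_comm]
        refine sum_congr rfl fun m _ => ?_
        rw [mul_sum]
      rw [h1]
      have hB : 0 ≤ ∑ i ∈ range (T + 1), u g i := sum_nonneg fun i _ => u_nonneg G.nonneg _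
      calc ∑ m ∈ range (w + 1), g m * S g T (w - m)
          ≤ ∑ m ∈ range (w + 1), g m * ∑ i ∈ range (T + 1), u g i := by
            refine sum_le_sum fun m _ => ?_
            rcases Nat.eq_zero_or_pos m with rfl | hm
            · rw [G.zero, zero_mul, zero_mul]
            · exact mul_le_mul_of_nonneg_left (ih (w - m) (by omega)) (G.nonneg m)
        _ = (∑ m ∈ range (w + 1), g m) * ∑ i ∈ range (T + 1), u g i := by rw [sum_mul]
        _ ≤ 1 * ∑ i ∈ range (T + 1), u g i :=
            mul_le_mul_of_nonneg_right (G.sum_le _) hB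
        _ = _ := one_mul _

/-- Tail of the gap law. -/
def H (g : ℕ → ℝ) (j : ℕ) : ℝ := 1 - ∑ m ∈ range (j + 1), g m

lemma H_nonneg {g : ℕ → ℝ} (G : GapLaw g) (j : ℕ) : 0 ≤ H g j := by
  have := G.sum_le (j + 1)
  unfold H; linarith

/-- The tail identity. -/
lemma tail_identity {g : ℕ → ℝ} (h0 : g 0 = 0) : ∀ m,
    ∑ n ∈ range (m + 1), u g n * H g (m - n) = 1
  | 0 => by simp [u_zero, H, h0]
  | m + 1 => by
      have ih := tail_identity h0 m
      rw [sum_range_succ, Nat.sub_self]
      have hH : ∀ n ∈ range (m + 1), u g n * H g (m + 1 - n)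
          = u g n * H g (m - n) - g (m + 1 - n) * u g n := by
        intro n hn
        rw [mem_range] at hn
        have : H g (m + 1 - n) = H g (m - n) - g (m + 1 - n) := by
          unfold H
          rw [show m + 1 - n + 1 = (m - n + 1) + 1 by omega, sum_range_succ,
            show m - n + 1 = m + 1 - n by omega]
          ring
        rw [this]; ring
      rw [sum_congr rfl hH, sum_sub_distrib, ih]
      have h2 : u g (m + 1) = ∑ n ∈ range (m + 1), g (m + 1 - n) * u g n := by
        rw [u_rec h0 (m + 1) (by omega)]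
        rw [sum_range_succ' (fun k => g k * u g (m + 1 - k)) (m + 1), h0, zero_mul, add_zero]
        rw [← sum_range_reflect (fun n => g (m + 1 - n) * u g n) (m + 1)]
        refine sum_congr rfl fun k hk => ?_
        rw [mem_range] at hk
        rw [show m + 1 - (m + 1 - 1 - k) = k + 1 by omega,
          show m + 1 - (k + 1) = m + 1 - 1 - k by omega]
      have h3 : H g 0 = 1 := by simp [H, h0]
      rw [h3, mul_one, ← h2]
      ring

/-- `∑_{j<b} H_j` dominates the truncated mean. -/
lemma trunc_mean_le {g : ℕ → ℝ} (G : GapLaw g) (b : ℕ) :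
    ∑ m ∈ range b, (m : ℝ) * g m ≤ ∑ j ∈ range b, H g j := by
  -- Σ_{j<b} H_j ≥ Σ_{j<b} Σ_{j<m<b} g m
  have h1 : ∀ j ∈ range b, ∑ m ∈ range b, (if j < m then g m else 0) ≤ H g j := by
    intro j hj
    rw [mem_range] at hj
    have h2 : ∑ m ∈ range b, (if j < m then g m else 0) + ∑ m ∈ range (j + 1), g m
        = ∑ m ∈ range b, g m := by
      have h3 : ∑ m ∈ range (j + 1), g m = ∑ m ∈ range b, (if j < m then 0 else g m) := by
        have h4 : range (j + 1) = (range b).filter (fun m => ¬ j < m) := by
          ext i; simp only [mem_filter, mem_range]; omega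
        rw [h4, sum_filter]
        refine sum_congr rfl fun m _ => ?_
        by_cases h : j < m <;> simp [h]
      rw [h3, ← sum_add_distrib]
      refine sum_congr rfl fun m _ => ?_
      by_cases h : j < m <;> simp [h]
    have := G.sum_le b
    unfold H; linarith
  refine le_trans ?_ (sum_le_sum h1)
  rw [sum_comm]
  refine sum_le_sum fun m hm => ?_
  rw [mem_range] at hm
  rw [← sum_filter]
  have : (range b).filter (fun j => j < m) = range m := by
    ext i; simp only [mem_filter, mem_range]; omega
  rw [this, sum_const, card_range, nsmul_eq_mul]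

lemma mean_mul_le {g : ℕ → ℝ} (G : GapLaw g) (b : ℕ) :
    (∑ m ∈ range b, (m : ℝ) * g m) * ∑ n ∈ range b, u g n ≤ 2 * b := by
  have h1 : (∑ m ∈ range b, (m : ℝ) * g m) * ∑ n ∈ range b, u g n
      ≤ (∑ j ∈ range b, H g j) * ∑ n ∈ range b, u g n :=
    mul_le_mul_of_nonneg_right (trunc_mean_le G b) (sum_nonneg fun n _ => u_nonneg G.nonneg _)
  refine h1.trans ?_
  have h2 : ((2 * b : ℕ) : ℝ) = ∑ m ∈ range (2 * b), ∑ n ∈ range (m + 1), u g n * H g (m - n) := by
    rw [sum_congr rfl (fun m _ => tail_identity G.zero m)]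
    simp
  have h3 : (2 * (b : ℝ)) = ((2 * b : ℕ) : ℝ) := by push_cast; ring
  rw [h3, h2]
  have h4 : ∑ m ∈ range (2 * b), ∑ n ∈ range (m + 1), u g n * H g (m - n)
      = ∑ m ∈ range (2 * b), ∑ n ∈ range (2 * b), (if n ≤ m then u g n * H g (m - n) else 0) := by
    refine sum_congr rfl fun m hm => ?_
    rw [mem_range] at hm
    rw [← sum_filter]
    refine sum_congr ?_ fun _ _ => rfl
    ext i; simp only [mem_filter, mem_range]; omega
  rw [h4, sum_comm, mul_comm, sum_mul]
  have h5 : ∀ n ∈ range b, u g n * ∑ j ∈ range b, H g j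
      ≤ ∑ m ∈ range (2 * b), (if n ≤ m then u g n * H g (m - n) else 0) := by
    intro n hn
    rw [mem_range] at hn
    have h6 : ∑ j ∈ range b, u g n * H g j
        = ∑ m ∈ (range b).map (addRightEmbedding n), u g n * H g (m - n) := by
      rw [sum_map]
      refine sum_congr rfl fun j _ => ?_
      simp [addRightEmbedding]
    rw [mul_sum, h6]
    have h7 : ∑ m ∈ (range b).map (addRightEmbedding n), u g n * H g (m - n)
        = ∑ m ∈ (range b).map (addRightEmbedding n),
          (if n ≤ m then u g n * H g (m - n) else 0) := by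
      refine sum_congr rfl fun m hm => ?_
      rw [mem_map] at hm
      obtain ⟨j, _, rfl⟩ := hm
      rw [if_pos (by simp [addRightEmbedding])]
    rw [h7]
    refine sum_le_sum_of_subset_of_nonneg ?_ fun m _ _ => ?_
    · intro m hm
      rw [mem_map] at hm
      obtain ⟨j, hj, rfl⟩ := hm
      rw [mem_range] at hj ⊢
      simp only [addRightEmbedding, Function.Embedding.coeFn_mk]
      omega
    · split_ifs
      · exact mul_nonneg (u_nonneg G.nonneg _) (H_nonneg G _)
      · exact le_rfl
  refine (sum_le_sum h5).trans ?_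
  refine sum_le_sum_of_subset_of_nonneg (range_mono (by omega)) fun n _ _ => ?_
  refine sum_nonneg fun m _ => ?_
  split_ifs
  · exact mul_nonneg (u_nonneg G.nonneg _) (H_nonneg G _)
  · exact le_rfl

end Pool.Agent.Helper945.RenCore
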