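import Pool.Agent.Helper945.RenCore

set_option autoImplicit false

open Finset

namespace Pool.Agent.Helper945.RenCore

/-- `q g s w`: probability to visit `w` at a step with index at least `s`. -/
def q (g : ℕ → ℝ) : ℕ → ℕ → ℝ
  | 0, w => u g w
  | s + 1, w => ∑ m ∈ range (w + 1), g m * q g s (w - m)

/-- `F g r v`: probability that the `r`-th sum of gaps is at most `v`. -/
def F (g : ℕ → ℝ) (r v : ℕ) : ℝ := ∑ y ∈ range (v + 1), P g r y

lemma q_nonneg {g : ℕ → ℝ} (G : GapLaw g) : ∀ s w, 0 ≤ q g s w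
  | 0, w => u_nonneg G.nonneg w
  | s + 1, w => by
      simp only [q]
      exact sum_nonneg fun m _ => mul_nonneg (G.nonneg m) (q_nonneg G s _)

lemma q_succ_le {g : ℕ → ℝ} (G : GapLaw g) : ∀ s w, q g (s + 1) w ≤ q g s w
  | 0, w => by
      rcases Nat.eq_zero_or_pos w with rfl | hw
      · simp [q, G.zero, u_zero]
      · simp only [q]
        rw [← u_rec G.zero w hw]
  | s + 1, w => by
      rw [q, q]
      exact sum_le_sum fun m _ => mul_le_mul_of_nonneg_left (q_succ_le G s _) (G.nonneg m)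

lemma q_anti {g : ℕ → ℝ} (G : GapLaw g) (w : ℕ) : Antitone fun s => q g s w :=
  antitone_nat_of_succ_le fun s => q_succ_le G s w

lemma q_le_one {g : ℕ → ℝ} (G : GapLaw g) (s w : ℕ) : q g s w ≤ 1 :=
  (q_anti G w (Nat.zero_le s)).trans (u_le_one G w)

lemma q_split {g : ℕ → ℝ} (G : GapLaw g) : ∀ s w, q g s w = P g s w + q g (s + 1) w
  | 0, w => by
      rcases Nat.eq_zero_or_pos w with rfl | hw
      · simp [q, G.zero, u_zero, P]
      · simp only [q, P]
        rw [← u_rec G.zero w hw, if_neg hw.ne', zero_add]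
  | s + 1, w => by
      rw [q, P, q, ← sum_add_distrib]
      refine sum_congr rfl fun m _ => ?_
      rw [q_split G s (w - m)]; ring

lemma u_split {g : ℕ → ℝ} (G : GapLaw g) (w : ℕ) : ∀ s,
    u g w = ∑ k ∈ range s, P g k w + q g s w
  | 0 => by simp [q]
  | s + 1 => by
      rw [sum_range_succ, u_split G w s, q_split G s w]; ring

lemma F_nonneg {g : ℕ → ℝ} (G : GapLaw g) (r v : ℕ) : 0 ≤ F g r v :=
  sum_nonneg fun y _ => P_nonneg G.nonneg r y

lemma F_mono {g : ℕ → ℝ} (G : GapLaw g) (r : ℕ) {v w : ℕ} (h : v ≤ w) : F g r v ≤ F g r w :=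
  sum_le_sum_of_subset_of_nonneg (range_mono (by omega)) fun y _ _ => P_nonneg G.nonneg r y

lemma F_zero (g : ℕ → ℝ) (v : ℕ) : F g 0 v = 1 := by
  unfold F
  simp [P]

lemma F_succ (g : ℕ → ℝ) (r v : ℕ) :
    F g (r + 1) v = ∑ m ∈ range (v + 1), g m * F g r (v - m) := by
  unfold F
  simp only [P]
  have h1 : ∀ y ∈ range (v + 1), ∑ m ∈ range (y + 1), g m * P g r (y - m)
      = ∑ m ∈ range (v + 1), if m ≤ y then g m * P g r (y - m) else 0 := by
    intro y hy
    rw [mem_range] at hy
    rw [← sum_filter]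
    refine sum_congr ?_ fun _ _ => rfl
    ext i; simp only [mem_filter, mem_range]; omega
  rw [sum_congr rfl h1, sum_comm]
  refine sum_congr rfl fun m hm => ?_
  rw [mem_range] at hm
  rw [mul_sum, ← sum_filter]
  have h2 : (range (v + 1)).filter (fun y => m ≤ y)
      = (range (v - m + 1)).map (addRightEmbedding m) := by
    ext i
    simp only [mem_filter, mem_range, mem_map, addRightEmbedding, Function.Embedding.coeFn_mk]
    constructor
    · rintro ⟨h3, h4⟩
      exact ⟨i - m, by omega, by omega⟩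
    · rintro ⟨j, h3, rfl⟩
      omega
  rw [h2, sum_map]
  refine sum_congr rfl fun y _ => ?_
  simp [addRightEmbedding]

lemma F_succ_le {g : ℕ → ℝ} (G : GapLaw g) (r v : ℕ) : F g (r + 1) v ≤ F g r v := by
  rw [F_succ]
  calc ∑ m ∈ range (v + 1), g m * F g r (v - m)
      ≤ ∑ m ∈ range (v + 1), g m * F g r v :=
        sum_le_sum fun m _ => mul_le_mul_of_nonneg_left (F_mono G r (Nat.sub_le _ _)) (G.nonneg m)
    _ = (∑ m ∈ range (v + 1), g m) * F g r v := by rw [sum_mul]
    _ ≤ 1 * F g r v := mul_le_mul_of_nonneg_right (G.sum_le _) (F_nonneg G r v)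
    _ = _ := one_mul _

lemma F_anti {g : ℕ → ℝ} (G : GapLaw g) (v : ℕ) : Antitone fun s => F g s v :=
  antitone_nat_of_succ_le fun s => F_succ_le G s v

lemma sum_P_le_u {g : ℕ → ℝ} (G : GapLaw g) (z s : ℕ) : ∑ k ∈ range s, P g k z ≤ u g z := by
  rw [u_split G z s]
  linarith [q_nonneg G s z]

lemma F_bound {g : ℕ → ℝ} (G : GapLaw g) (s x : ℕ) :
    ((s : ℝ) + 1) * F g s x ≤ ∑ z ∈ range (x + 1), u g z := by
  have h1 : ((s : ℝ) + 1) * F g s x ≤ ∑ k ∈ range (s + 1), F g k x := by
    have : ∑ k ∈ range (s + 1), F g s x ≤ ∑ k ∈ range (s + 1), F g k x :=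
      sum_le_sum fun k hk => F_anti G x (by rw [mem_range] at hk; omega)
    rw [sum_const, card_range, nsmul_eq_mul] at this
    push_cast at this
    exact this
  refine h1.trans ?_
  unfold F
  rw [sum_comm]
  exact sum_le_sum fun z _ => sum_P_le_u G z (s + 1)

lemma q_le_F {g : ℕ → ℝ} (G : GapLaw g) : ∀ s w, q g s w ≤ F g s w
  | 0, w => by rw [F_zero]; exact u_le_one G w
  | s + 1, w => by
      rw [F_succ, q]
      exact sum_le_sum fun m _ => mul_le_mul_of_nonneg_left (q_le_F G s _) (G.nonneg m)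

/-- The first passage decomposition inequality. -/
lemma key_decomp {g : ℕ → ℝ} (G : GapLaw g) (s D : ℕ) (B : ℝ) (hB0 : 0 ≤ B)
    (hB : ∀ z, q g s z ≤ B) : ∀ r v,
    q g (s + r) (D + v) ≤ u g D * u g v + B * (1 - u g v) + F g r v := by
  intro r
  induction r with
  | zero =>
    intro v
    rw [F_zero]
    have h1 : q g (s + 0) (D + v) ≤ 1 := q_le_one G _ _
    have h2 : 0 ≤ u g D * u g v := mul_nonneg (u_nonneg G.nonneg _) (u_nonneg G.nonneg _)
    have h3 : 0 ≤ B * (1 - u g v) := mul_nonneg hB0 (by linarith [u_le_one G v])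
    linarith
  | succ r ih =>
    intro v
    rcases Nat.eq_zero_or_pos v with rfl | hv
    · rw [u_zero]
      have h1 : q g (s + (r + 1)) (D + 0) ≤ u g D := by
        have := q_anti G D (Nat.zero_le (s + (r + 1)))
        simpa [q] using this
      have := F_nonneg G (r + 1) 0
      linarith
    · have hqs : ∀ z, q g (s + r) z ≤ B := fun z => (q_anti G z (Nat.le_add_right s r)).trans (hB z)
      rw [← add_assoc, q]
      have h1 : ∑ m ∈ range (D + v + 1), g m * q g (s + r) (D + v - m)
          ≤ ∑ m ∈ range (D + v + 1), g m * (if m ≤ v then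
              (u g D * u g (v - m) + B * (1 - u g (v - m)) + F g r (v - m)) else B) := by
        refine sum_le_sum fun m _ => mul_le_mul_of_nonneg_left ?_ (G.nonneg m)
        split_ifs with hm
        · have := ih (v - m)
          rwa [show D + (v - m) = D + v - m by omega] at this
        · exact hqs _
      refine h1.trans ?_
      have h2 : ∀ m, g m * (if m ≤ v then
              (u g D * u g (v - m) + B * (1 - u g (v - m)) + F g r (v - m)) else B)
          = (if m ≤ v then (u g D - B) * (g m * u g (v - m)) + g m * F g r (v - m) else 0)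
            + B * g m := by
        intro m
        split_ifs <;> ring
      rw [sum_congr rfl (fun m _ => h2 m), sum_add_distrib, ← sum_filter]
      have h3 : (range (D + v + 1)).filter (fun m => m ≤ v) = range (v + 1) := by
        ext i; simp only [mem_filter, mem_range]; omega
      rw [h3, sum_add_distrib, ← mul_sum, ← mul_sum, ← u_rec G.zero v hv, ← F_succ]
      have h4 := mul_le_mul_of_nonneg_left (G.sum_le (D + v + 1)) hB0
      linarith

/-! ### Schnirelmann density -/

open Classical in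
/-- Number of elements of `[0, n]` outside `A`. -/
noncomputable def cc (A : ℕ → Prop) (n : ℕ) : ℝ := ∑ k ∈ range (n + 1), if A k then 0 else 1

lemma cc_step (A B C : ℕ → Prop) (hA0 : A 0) (hB0 : B 0)
    (hABC : ∀ a b, A a → B b → C (a + b)) (σ : ℝ) (T : ℕ)
    (hB : ∀ n ≤ T, cc B n ≤ (1 - σ) * n) : ∀ n ≤ T, cc C n ≤ (1 - σ) * cc A n := by
  classical
  intro n
  induction n using Nat.strong_induction_on with
  | _ n ih =>
    intro hn
    by_cases hAn : A n
    · have hCn : C n := by simpa using hABC n 0 hAn hB0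
      rcases Nat.eq_zero_or_pos n with rfl | hn0
      · simp [cc, hA0, hCn]
      · obtain ⟨m, rfl⟩ : ∃ m, n = m + 1 := ⟨n - 1, by omega⟩
        have h1 := ih m (by omega) (by omega)
        have h2 : cc C (m + 1) = cc C m := by
          unfold cc; rw [sum_range_succ _ (m + 1), if_pos hCn, add_zero]
        have h3 : cc A (m + 1) = cc A m := by
          unfold cc; rw [sum_range_succ _ (m + 1), if_pos hAn, add_zero]
        rw [h2, h3]; exact h1
    · have ha : A (Nat.findGreatest A n) := Nat.findGreatest_spec (Nat.zero_le n) hA0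
      have hle : Nat.findGreatest A n ≤ n := Nat.findGreatest_le n
      have hgt : ∀ k, Nat.findGreatest A n < k → k ≤ n → ¬ A k :=
        fun k h1 h2 => Nat.findGreatest_is_greatest h1 h2
      generalize Nat.findGreatest A n = a at ha hle hgt
      have hlt : a < n := lt_of_le_of_ne hle (by rintro rfl; exact hAn ha)
      obtain ⟨d, rfl⟩ : ∃ d, n = a + d := ⟨n - a, by omega⟩
      have h1 : cc A (a + d) = cc A a + d := by
        unfold cc
        rw [show a + d + 1 = (a + 1) + d by ring, sum_range_add]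
        congr 1
        rw [sum_congr rfl (g := fun _ => (1 : ℝ))]
        · simp
        · intro x hx
          rw [mem_range] at hx
          rw [if_neg (hgt _ (by omega) (by omega))]
      have h2 : cc C (a + d) ≤ cc C a + cc B d := by
        unfold cc
        rw [show a + d + 1 = (a + 1) + d by ring, sum_range_add, sum_range_succ' _ d, if_pos hB0,
          add_zero]
        gcongr with x hx
        by_cases hBx : B (x + 1)
        · rw [if_pos hBx, if_pos]
          have := hABC a (x + 1) ha hBx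
          rwa [show a + (x + 1) = a + 1 + x by ring] at this
        · rw [if_neg hBx]
          split_ifs <;> norm_num
      have h3 := ih a hlt (by omega)
      have h4 := hB d (by omega)
      rw [h1]
      nlinarith

lemma schnir (v : ℕ → ℝ) (v0 : v 0 = 1) (hv0 : ∀ n, 0 ≤ v n) (hv1 : ∀ n, v n ≤ 1)
    (hmul : ∀ a b, v a * v b ≤ v (a + b)) (T : ℕ) (γ : ℝ) (hγ0 : 0 < γ) (hγ1 : γ ≤ 1)
    (hγ : ∀ n ≤ T, γ * n ≤ ∑ k ∈ range n, v (k + 1)) (j : ℕ) (hj : (1 - γ / 2) ^ j < 1 / 2) :
    ∀ n ≤ T, (γ / 2) ^ (2 * j) ≤ v n := by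
  classical
  set A : ℕ → ℕ → Prop := fun i k => (γ / 2) ^ i ≤ v k with hA
  have hA0 : ∀ i, A i 0 := by
    intro i
    simp only [hA, v0]
    exact pow_le_one₀ (by linarith) (by linarith)
  have hAA : ∀ i a b, A i a → A 1 b → A (i + 1) (a + b) := by
    intro i a b h1 h2
    simp only [hA, pow_one] at h1 h2 ⊢
    rw [pow_succ]
    exact (mul_le_mul h1 h2 (by linarith) (hv0 a)).trans (hmul a b)
  have hcc1 : ∀ n ≤ T, cc (A 1) n ≤ (1 - γ / 2) * n := by
    intro n hn
    have h1 := hγ n hn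
    have h2 : ∑ k ∈ range n, v (k + 1)
        ≤ ∑ k ∈ range n, (γ / 2 + 1 - (if A 1 (k + 1) then (0:ℝ) else 1)) := by
      refine sum_le_sum fun k _ => ?_
      split_ifs with h
      · linarith [hv1 (k + 1)]
      · simp only [hA, pow_one, not_le] at h
        linarith
    have h3 : cc (A 1) n = ∑ k ∈ range n, (if A 1 (k + 1) then (0:ℝ) else 1) := by
      unfold cc
      rw [sum_range_succ', if_pos (hA0 1), add_zero]
    rw [sum_sub_distrib, ← h3, sum_const, card_range, nsmul_eq_mul] at h2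
    linarith
  have hcci : ∀ i, ∀ n ≤ T, cc (A i) n ≤ (1 - γ / 2) ^ i * n := by
    intro i
    induction i with
    | zero =>
      intro n _
      unfold cc
      rw [sum_range_succ', if_pos (hA0 0), add_zero, pow_zero, one_mul]
      calc ∑ k ∈ range n, (if A 0 (k + 1) then (0:ℝ) else 1) ≤ ∑ k ∈ range n, (1:ℝ) := by
            refine sum_le_sum fun k _ => ?_
            split_ifs <;> norm_num
        _ = n := by simp
    | succ i ih =>
      intro n hn
      have h1 := cc_step (A i) (A 1) (A (i + 1)) (hA0 i) (hA0 1) (hAA i) (γ / 2) T hcc1 n hn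
      have h2 := mul_le_mul_of_nonneg_left (ih n hn) (show 0 ≤ 1 - γ / 2 by linarith)
      rw [pow_succ]
      linarith
  intro n hn
  rcases Nat.eq_zero_or_pos n with rfl | hn0
  · rw [v0]
    exact pow_le_one₀ (by linarith) (by linarith)
  by_contra hcon
  push Not at hcon
  have h1 : ∀ k ∈ range (n + 1), (1:ℝ) ≤ (if A j k then (0:ℝ) else 1)
      + (if A j (n + 1 - 1 - k) then (0:ℝ) else 1) := by
    intro k hk
    rw [mem_range] at hk
    by_contra hlt
    push Not at hlt
    have hk1 : A j k := by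
      by_contra h
      rw [if_neg h] at hlt
      split_ifs at hlt <;> norm_num at hlt
    have hk2 : A j (n + 1 - 1 - k) := by
      by_contra h
      rw [if_neg h] at hlt
      split_ifs at hlt <;> norm_num at hlt
    have h3 := mul_le_mul hk1 hk2 (by positivity) (hv0 k)
    have h4 := hmul k (n + 1 - 1 - k)
    rw [show k + (n + 1 - 1 - k) = n by omega] at h4
    rw [two_mul, pow_add] at hcon
    linarith
  have h2 := sum_le_sum h1
  rw [sum_add_distrib, sum_range_reflect (fun k => if A j k then (0:ℝ) else 1) (n + 1)] at h2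
  have h3 := hcci j n hn
  unfold cc at h3
  have h4 : ∑ k ∈ range (n + 1), (1:ℝ) = n + 1 := by simp
  rw [h4] at h2
  have h5 : (1 - γ / 2) ^ j * (n:ℝ) ≤ 1 / 2 * n := by
    have : (0:ℝ) ≤ n := Nat.cast_nonneg n
    exact mul_le_mul_of_nonneg_right hj.le this
  linarith

/-! ### The key dichotomy -/

theorem key (β : ℝ) (hβ : 0 < β) (hβ1 : β ≤ 1) :
    ∃ c1 : ℝ, 0 < c1 ∧ c1 ≤ 1 ∧ ∃ C : ℝ, 0 < C ∧ ∃ κ0 : ℝ, 0 < κ0 ∧
      ∀ g : ℕ → ℝ, GapLaw g → 1 - g 1 ≤ κ0 → ∀ a0 : ℕ, 1 ≤ a0 →
        (∀ x ≤ a0, c1 ≤ u g x) ∨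
          ∃ K : ℕ, (K : ℝ) ≤ C * ∑ n ∈ range a0, u g n ∧ ∀ w, q g K w ≤ β := by
  obtain ⟨j, hj⟩ : ∃ j : ℕ, (1 - β / 4 / 2) ^ j < 1 / 2 :=
    exists_pow_lt_of_lt_one (by norm_num) (by linarith)
  set c1 : ℝ := (β / 4 / 2) ^ (2 * j) with hc1
  have hc1pos : 0 < c1 := by positivity
  have hc1le : c1 ≤ 1 := pow_le_one₀ (by linarith) (by linarith)
  set ε : ℝ := β * c1 ^ 2 / 6 with hε
  have hεpos : 0 < ε := by positivity
  have hc1sq : c1 ^ 2 ≤ 1 := pow_le_one₀ hc1pos.le hc1le
  have hεle : ε ≤ β / 6 := by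
    rw [hε]
    have : β * c1 ^ 2 ≤ β * 1 := mul_le_mul_of_nonneg_left hc1sq hβ.le
    linarith
  obtain ⟨R0, hR0⟩ : ∃ R0 : ℕ, 1 / ε < R0 := exists_nat_gt _
  have hR0ε : 1 < R0 * ε := by
    rw [div_lt_iff₀ hεpos] at hR0; exact hR0
  refine ⟨c1, hc1pos, hc1le, 2 ^ R0 * (2 / ε + 1), by positivity, β / 8, by positivity, ?_⟩
  intro g G hg1 a0 ha0
  rw [or_iff_not_imp_right]
  intro hnot
  push Not at hnot
  set U1 : ℝ := ∑ n ∈ range (a0 + 1), u g n with hU1
  set U0 : ℝ := ∑ n ∈ range a0, u g n with hU0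
  have hU0ge : 1 ≤ U0 := by
    have : u g 0 ≤ U0 := single_le_sum (f := u g) (fun i _ => u_nonneg G.nonneg i)
      (by rw [mem_range]; omega)
    rwa [u_zero] at this
  have hU1le : U1 ≤ 2 * U0 := by
    rw [hU1, sum_range_succ]
    linarith [u_le_one G a0]
  have hU1pos : 0 < U1 := by
    rw [hU1, sum_range_succ]
    linarith [u_nonneg G.nonneg a0]
  set s0 : ℕ := ⌈U1 / ε⌉₊ with hs0
  have hs0ge : U1 / ε ≤ s0 := Nat.le_ceil _
  have hs0le : (s0 : ℝ) ≤ U1 / ε + 1 := (Nat.ceil_lt_add_one (by positivity)).le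
  have hK : ((2 ^ R0 * s0 : ℕ) : ℝ) ≤ 2 ^ R0 * (2 / ε + 1) * U0 := by
    push_cast
    have h1 : (s0 : ℝ) ≤ (2 / ε + 1) * U0 := by
      have : U1 / ε ≤ 2 * U0 / ε := div_le_div_of_nonneg_right hU1le hεpos.le
      calc (s0 : ℝ) ≤ U1 / ε + 1 := hs0le
        _ ≤ 2 * U0 / ε + U0 := by linarith
        _ = (2 / ε + 1) * U0 := by ring
    calc (2:ℝ) ^ R0 * s0 ≤ 2 ^ R0 * ((2 / ε + 1) * U0) :=
          mul_le_mul_of_nonneg_left h1 (by positivity)
      _ = _ := by ring
  obtain ⟨w0, hw0⟩ := hnot (2 ^ R0 * s0) hK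
  -- suprema
  set B : ℕ → ℝ := fun s => ⨆ w, q g s w with hB
  have hbdd : ∀ s, BddAbove (Set.range fun w => q g s w) := fun s =>
    ⟨1, by rintro _ ⟨w, rfl⟩; exact q_le_one G s w⟩
  have hleB : ∀ s w, q g s w ≤ B s := fun s w => le_ciSup (hbdd s) w
  have hB1 : ∀ s, B s ≤ 1 := fun s => ciSup_le fun w => q_le_one G s w
  have hB0 : ∀ s, 0 ≤ B s := fun s => (q_nonneg G s 0).trans (hleB s 0)
  have hBanti : ∀ s t, s ≤ t → B t ≤ B s := fun s t hst =>
    ciSup_le fun w => (q_anti G w hst).trans (hleB s w)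
  -- pigeonhole
  obtain ⟨r, hr, hrB⟩ : ∃ r < R0, B (2 ^ r * s0) - B (2 ^ (r + 1) * s0) ≤ ε := by
    by_contra hcon
    push Not at hcon
    have h1 : ∀ m ≤ R0, m * ε ≤ B (2 ^ 0 * s0) - B (2 ^ m * s0) := by
      intro m
      induction m with
      | zero => intro _; simp
      | succ m ih =>
        intro hm
        have h2 := ih (by omega)
        have h3 := hcon m (by omega)
        have h4 : ((m + 1 : ℕ) : ℝ) * ε = m * ε + ε := by push_cast; ring
        rw [h4]
        linarith
    have h2 := h1 R0 le_rfl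
    linarith [hB1 (2 ^ 0 * s0), hB0 (2 ^ R0 * s0)]
  set s : ℕ := 2 ^ r * s0 with hs
  have hs2 : 2 ^ (r + 1) * s0 = s + s := by rw [hs]; ring
  rw [hs2] at hrB
  have hBs : β < B s := by
    refine lt_of_lt_of_le hw0 ((hleB _ w0).trans (hBanti _ _ ?_))
    rw [hs]
    exact Nat.mul_le_mul_right _ (Nat.pow_le_pow_right (by norm_num) hr.le)
  obtain ⟨w, hw⟩ : ∃ w, B (s + s) - ε < q g (s + s) w :=
    exists_lt_of_lt_ciSup (show B (s + s) - ε < B (s + s) by linarith)
  have hqw : B s - 2 * ε < q g (s + s) w := by linarith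
  have hs0s : s0 ≤ s := by
    rw [hs]; exact Nat.le_mul_of_pos_left _ (by positivity)
  have hFa0 : F g s a0 ≤ ε := by
    have h1 := F_bound G s a0
    rw [← hU1] at h1
    have h2 : U1 ≤ ε * ((s : ℝ) + 1) := by
      have h3 : U1 / ε ≤ (s : ℝ) + 1 := by
        have : (s0 : ℝ) ≤ s := by exact_mod_cast hs0s
        linarith
      rw [div_le_iff₀ hεpos] at h3
      linarith
    have h3 : (0:ℝ) < (s:ℝ) + 1 := by positivity
    by_contra hcon
    push Not at hcon
    have := mul_lt_mul_of_pos_left hcon h3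
    linarith
  have ha0w : a0 < w := by
    by_contra hcon
    push Not at hcon
    have h1 : q g (s + s) w ≤ ε :=
      (q_le_F G _ _).trans ((F_anti G w (Nat.le_add_right s s)).trans
        ((F_mono G s hcon).trans hFa0))
    linarith
  have hux : ∀ x ≤ a0, c1 ^ 2 ≤ u g x → β / 2 ≤ u g (w - x) := by
    intro x hx hcx
    have h1 := key_decomp G s (w - x) (B s) (hB0 s) (hleB s) s x
    rw [show w - x + x = w by omega] at h1
    have h2 : F g s x ≤ ε := (F_mono G s hx).trans hFa0
    have h3 : B s * u g x ≤ u g (w - x) * u g x + 3 * ε := by linarith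
    have hupos : 0 < u g x := lt_of_lt_of_le (by positivity) hcx
    have h4 : β * u g x ≤ B s * u g x := mul_le_mul_of_nonneg_right hBs.le hupos.le
    have h5 : 3 * ε ≤ β / 2 * u g x := by
      rw [hε]
      have := mul_le_mul_of_nonneg_left hcx (show 0 ≤ β / 2 by linarith)
      linarith
    have h6 : β / 2 * u g x ≤ u g (w - x) * u g x := by linarith
    exact le_of_mul_le_mul_right h6 hupos
  intro n
  induction n using Nat.strong_induction_on with
  | _ n ih =>
    intro hn
    refine schnir (u g) (u_zero g) (u_nonneg G.nonneg) (u_le_one G) (u_mul_le G) n (β / 4)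
      (by linarith) (by linarith) ?_ j hj n le_rfl
    intro m hm
    rcases lt_or_ge ((m : ℝ) * β) 4 with hmβ | hmβ
    · have h1 : ∀ k ∈ range m, β / 4 ≤ u g (k + 1) := by
        intro k hk
        rw [mem_range] at hk
        have h2 : u g 1 ^ (k + 1) ≤ u g ((k + 1) * 1) := u_pow_le G 1 (k + 1)
        rw [mul_one, u_one G.zero] at h2
        have h3 : (1 - β / 8) ^ (k + 1) ≤ g 1 ^ (k + 1) :=
          pow_le_pow_left₀ (by linarith) (by linarith) _
        have h4 : 1 + ((k + 1 : ℕ) : ℝ) * (-(β / 8)) ≤ (1 + -(β / 8)) ^ (k + 1) :=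
          one_add_mul_le_pow (by linarith) _
        have h5 : ((k + 1 : ℕ) : ℝ) ≤ m := by exact_mod_cast hk
        have h6 : ((k + 1 : ℕ) : ℝ) * β ≤ m * β := mul_le_mul_of_nonneg_right h5 hβ.le
        have h7 : (1 + -(β / 8)) = 1 - β / 8 := by ring
        rw [h7] at h4
        linarith
      have h2 := sum_le_sum h1
      rw [sum_const, card_range, nsmul_eq_mul] at h2
      linarith
    · have hm4 : 4 ≤ m := by
        have : (4:ℝ) ≤ m := by
          have hm0 : (0:ℝ) ≤ m := Nat.cast_nonneg m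
          nlinarith
        exact_mod_cast this
      have h1 : ∀ x ∈ range (m + 1), β / 2 ≤ (if x ≤ w then u g (w - x) else 0) := by
        intro x hx
        rw [mem_range] at hx
        rw [if_pos (by omega)]
        refine hux x (by omega) ?_
        have h2 := ih (x / 2) (by omega) (by omega)
        have h3 := ih (x - x / 2) (by omega) (by omega)
        have h4 := u_mul_le G (x / 2) (x - x / 2)
        rw [show x / 2 + (x - x / 2) = x by omega] at h4
        have h5 := mul_le_mul h2 h3 hc1pos.le (u_nonneg G.nonneg _)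
        rw [sq]; linarith
      have h2 := sum_le_sum h1
      have h3 : ∑ i ∈ range (m + 1), (if i ≤ w then u g (w - i) else 0)
          ≤ ∑ i ∈ range (m + 1), u g i := S_le G m w
      rw [sum_const, card_range, nsmul_eq_mul] at h2
      rw [sum_range_succ' (fun i => u g i) m, u_zero] at h3
      push_cast at h2
      linarith

end Pool.Agent.Helper945.RenCore
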