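import Pool.Agent.Helper945.RenKey

set_option autoImplicit false

open Finset

namespace Pool.Agent.Helper945.RenCore

/-- Weighted sum over `k`-step paths with steps at most `N`. -/
def Ex (g : ℕ → ℝ) (N : ℕ) : ℕ → (List ℕ → ℝ) → ℝ
  | 0, Φ => Φ []
  | k + 1, Φ => ∑ m ∈ range (N + 1), g m * Ex g N k (fun l => Φ (m :: l))

lemma Ex_mono {g : ℕ → ℝ} (hg : ∀ n, 0 ≤ g n) (N : ℕ) : ∀ k (Φ Ψ : List ℕ → ℝ),
    (∀ l, Φ l ≤ Ψ l) → Ex g N k Φ ≤ Ex g N k Ψ
  | 0, Φ, Ψ, h => h []
  | k + 1, Φ, Ψ, h => by
      simp only [Ex]
      exact sum_le_sum fun m _ => mul_le_mul_of_nonneg_left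
        (Ex_mono hg N k _ _ fun l => h (m :: l)) (hg m)

lemma Ex_add (g : ℕ → ℝ) (N : ℕ) : ∀ k (Φ Ψ : List ℕ → ℝ),
    Ex g N k (fun l => Φ l + Ψ l) = Ex g N k Φ + Ex g N k Ψ
  | 0, Φ, Ψ => rfl
  | k + 1, Φ, Ψ => by
      simp only [Ex]
      rw [← sum_add_distrib]
      refine sum_congr rfl fun m _ => ?_
      rw [Ex_add g N k (fun l => Φ (m :: l)) (fun l => Ψ (m :: l))]; ring

lemma Ex_mul (g : ℕ → ℝ) (N : ℕ) (c : ℝ) : ∀ k (Φ : List ℕ → ℝ),
    Ex g N k (fun l => c * Φ l) = c * Ex g N k Φ
  | 0, Φ => rfl
  | k + 1, Φ => by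
      simp only [Ex]
      rw [mul_sum]
      refine sum_congr rfl fun m _ => ?_
      rw [Ex_mul g N c k (fun l => Φ (m :: l))]; ring

lemma Ex_zero (g : ℕ → ℝ) (N : ℕ) : ∀ k, Ex g N k (fun _ => 0) = 0
  | 0 => rfl
  | k + 1 => by simp only [Ex]; exact sum_eq_zero fun m _ => by rw [Ex_zero g N k, mul_zero]

lemma Ex_sum (g : ℕ → ℝ) (N k : ℕ) {ι : Type*} (s : Finset ι) (Φ : ι → List ℕ → ℝ) :
    Ex g N k (fun l => ∑ i ∈ s, Φ i l) = ∑ i ∈ s, Ex g N k (Φ i) := by
  classical
  induction s using Finset.induction_on with
  | empty => simp [Ex_zero]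
  | insert a s ha ih =>
    simp only [sum_insert ha]
    rw [Ex_add, ih]

lemma Ex_ind (g : ℕ → ℝ) (N : ℕ) : ∀ k n, n ≤ N →
    Ex g N k (fun l => if l.sum = n then 1 else 0) = P g k n
  | 0, n, _ => by simp [Ex, P, eq_comm]
  | k + 1, n, hn => by
      simp only [Ex, P]
      symm
      refine (sum_subset_zero_on_sdiff (range_mono (by omega)) ?_ ?_)
      · intro m hm
        rw [mem_sdiff, mem_range, mem_range] at hm
        have : (fun l : List ℕ => if (m :: l).sum = n then (1:ℝ) else 0) = fun _ => 0 := by
          funext l; rw [if_neg (by rw [List.sum_cons]; omega)]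
        rw [this, Ex_zero, mul_zero]
      · intro m hm
        rw [mem_range] at hm
        rw [← Ex_ind g N k (n - m) (by omega)]
        congr 2
        funext l
        by_cases h : l.sum = n - m
        · rw [if_pos h, if_pos (by rw [List.sum_cons]; omega)]
        · rw [if_neg h, if_neg (by rw [List.sum_cons]; omega)]

/-- Number of parts at least `b`. -/
def cnt (b : ℕ) (l : List ℕ) : ℕ := (l.map fun m => if b ≤ m then 1 else 0).sum

/-- Sum of the parts smaller than `b`. -/
def ws (b : ℕ) (l : List ℕ) : ℕ := (l.map fun m => if b ≤ m then 0 else m).sum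

/-- Sum of the parts at least `b`. -/
def wl (b : ℕ) (l : List ℕ) : ℕ := (l.map fun m => if b ≤ m then m else 0).sum

lemma ws_add_wl (b : ℕ) : ∀ l, ws b l + wl b l = l.sum
  | [] => rfl
  | m :: l => by
      have := ws_add_wl b l
      simp only [ws, wl, List.map_cons, List.sum_cons] at this ⊢
      split_ifs <;> omega

lemma cnt_mul_le (b : ℕ) : ∀ l, cnt b l * b ≤ wl b l
  | [] => by simp [cnt, wl]
  | m :: l => by
      have := cnt_mul_le b l
      simp only [cnt, wl, List.map_cons, List.sum_cons] at this ⊢
      rw [add_mul]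
      split_ifs <;> omega

lemma wl_eq_zero (b : ℕ) : ∀ l, cnt b l = 0 → wl b l = 0
  | [] => fun _ => rfl
  | m :: l => by
      intro h
      simp only [cnt, wl, List.map_cons, List.sum_cons] at h ⊢
      split_ifs at h ⊢ with hb
      · omega
      · have := wl_eq_zero b l (by unfold cnt; simpa using h)
        unfold wl at this
        simpa using this

lemma level_le {b b' : ℕ} (h : b' ≤ b) : ∀ l, ws b l + b * cnt b l ≤ ws b' l + b * cnt b' l
  | [] => by simp [ws, cnt]
  | m :: l => by
      have := level_le h l
      simp only [cnt, ws, List.map_cons, List.sum_cons] at this ⊢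
      rw [mul_add, mul_add]
      split_ifs <;> omega

lemma cnt_mono {b b' : ℕ} (h : b' ≤ b) : ∀ l, cnt b l ≤ cnt b' l
  | [] => le_rfl
  | m :: l => by
      have := cnt_mono h l
      simp only [cnt, List.map_cons, List.sum_cons] at this ⊢
      split_ifs <;> omega

/-- Small part of the gap law. -/
def gs (g : ℕ → ℝ) (b m : ℕ) : ℝ := if b ≤ m then 0 else g m

/-- Large part of the gap law. -/
def gl (g : ℕ → ℝ) (b m : ℕ) : ℝ := if b ≤ m then g m else 0

lemma Ex_split (g : ℕ → ℝ) (N b : ℕ) : ∀ k j w y, w ≤ N → y ≤ N →
    Ex g N k (fun l => if cnt b l = j ∧ ws b l = w ∧ wl b l = y then 1 else 0)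
      = (k.choose j : ℝ) * P (gs g b) (k - j) w * P (gl g b) j y
  | 0, j, w, y, _, _ => by
      simp only [Ex, cnt, ws, wl, List.map_nil, List.sum_nil]
      rcases Nat.eq_zero_or_pos j with rfl | hj
      · simp only [P, Nat.choose_self, Nat.sub_self, Nat.cast_one, one_mul]
        by_cases hw : w = 0 <;> by_cases hy : y = 0 <;> simp [hw, hy, eq_comm]
      · rw [if_neg (by omega), Nat.choose_eq_zero_of_lt hj]; simp
  | k + 1, j, w, y, hw, hy => by
      simp only [Ex]
      -- the small steps
      have hstep : ∀ m ∈ range (N + 1), g m * Ex g N k (fun l =>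
            if cnt b (m :: l) = j ∧ ws b (m :: l) = w ∧ wl b (m :: l) = y then 1 else 0)
          = (if m ≤ w then gs g b m * ((k.choose j : ℝ) * P (gs g b) (k - j) (w - m)
              * P (gl g b) j y) else 0)
            + (if m ≤ y then (if j = 0 then 0 else gl g b m * ((k.choose (j - 1) : ℝ)
              * P (gs g b) (k - (j - 1)) w * P (gl g b) (j - 1) (y - m))) else 0) := by
        intro m hm
        rw [mem_range] at hm
        by_cases hb : b ≤ m
        · have e1 : gs g b m = 0 := by simp [gs, hb]
          have e2 : gl g b m = g m := by simp [gl, hb]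
          rw [e1, e2]
          simp only [cnt, ws, wl, List.map_cons, List.sum_cons, if_pos hb, zero_add, zero_mul,
            ite_self]
          by_cases hmy : m ≤ y
          · rw [if_pos hmy]
            rcases Nat.eq_zero_or_pos j with rfl | hj
            · rw [if_pos rfl]
              have : (fun l : List ℕ => if 1 + (List.map (fun m => if b ≤ m then 1 else 0) l).sum
                  = 0 ∧ (List.map (fun m => if b ≤ m then 0 else m) l).sum = w ∧
                  m + (List.map (fun m => if b ≤ m then m else 0) l).sum = y then (1:ℝ) else 0)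
                  = fun _ => 0 := by
                funext l; rw [if_neg (by omega)]
              rw [this, Ex_zero, mul_zero]
            · rw [if_neg hj.ne', ← Ex_split g N b k (j - 1) w (y - m) hw (by omega)]
              congr 2
              funext l
              simp only [cnt, ws, wl]
              refine if_congr ?_ rfl rfl
              omega
          · rw [if_neg hmy]
            have : (fun l : List ℕ => if 1 + (List.map (fun m => if b ≤ m then 1 else 0) l).sum
                  = j ∧ (List.map (fun m => if b ≤ m then 0 else m) l).sum = w ∧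
                  m + (List.map (fun m => if b ≤ m then m else 0) l).sum = y then (1:ℝ) else 0)
                  = fun _ => 0 := by
                funext l; rw [if_neg (by omega)]
            rw [this, Ex_zero, mul_zero]
        · have e1 : gs g b m = g m := by simp [gs, hb]
          have e2 : gl g b m = 0 := by simp [gl, hb]
          rw [e1, e2]
          simp only [cnt, ws, wl, List.map_cons, List.sum_cons, if_neg hb, zero_add, zero_mul,
            ite_self, add_zero]
          by_cases hmw : m ≤ w
          · rw [if_pos hmw, ← Ex_split g N b k j (w - m) y (by omega) hy]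
            congr 2
            funext l
            simp only [cnt, ws, wl]
            refine if_congr ?_ rfl rfl
            omega
          · rw [if_neg hmw]
            have : (fun l : List ℕ => if (List.map (fun m => if b ≤ m then 1 else 0) l).sum
                  = j ∧ m + (List.map (fun m => if b ≤ m then 0 else m) l).sum = w ∧
                  (List.map (fun m => if b ≤ m then m else 0) l).sum = y then (1:ℝ) else 0)
                  = fun _ => 0 := by
                funext l; rw [if_neg (by omega)]
            rw [this, Ex_zero, mul_zero]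
      rw [sum_congr rfl hstep, sum_add_distrib, ← sum_filter, ← sum_filter]
      have f1 : (range (N + 1)).filter (fun m => m ≤ w) = range (w + 1) := by
        ext i; simp only [mem_filter, mem_range]; omega
      have f2 : (range (N + 1)).filter (fun m => m ≤ y) = range (y + 1) := by
        ext i; simp only [mem_filter, mem_range]; omega
      rw [f1, f2]
      have t1 : ∑ m ∈ range (w + 1), gs g b m * ((k.choose j : ℝ) * P (gs g b) (k - j) (w - m)
              * P (gl g b) j y)
          = (k.choose j : ℝ) * P (gs g b) (k + 1 - j) w * P (gl g b) j y := by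
        rcases le_or_gt j k with hjk | hjk
        · rw [show k + 1 - j = (k - j) + 1 by omega]
          simp only [P]
          rw [mul_sum, sum_mul]
          exact sum_congr rfl fun m _ => by ring
        · rw [Nat.choose_eq_zero_of_lt hjk]
          simp
      rw [t1]
      rcases Nat.eq_zero_or_pos j with rfl | hj
      · simp
      · obtain ⟨i, rfl⟩ : ∃ i, j = i + 1 := ⟨j - 1, by omega⟩
        have t2 : ∑ m ∈ range (y + 1), (if i + 1 = 0 then 0 else gl g b m *
              ((k.choose (i + 1 - 1) : ℝ) * P (gs g b) (k - (i + 1 - 1)) w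
                * P (gl g b) (i + 1 - 1) (y - m)))
            = (k.choose i : ℝ) * P (gs g b) (k + 1 - (i + 1)) w * P (gl g b) (i + 1) y := by
          rw [show k + 1 - (i + 1) = k - i by omega]
          simp only [P]
          rw [mul_sum]
          refine sum_congr rfl fun m _ => ?_
          rw [if_neg (by omega), show i + 1 - 1 = i by omega]
          ring
        rw [t2, Nat.choose_succ_succ]
        push_cast
        ring

lemma P_smul (c : ℝ) (g : ℕ → ℝ) : ∀ k n, P (fun m => c * g m) k n = c ^ k * P g k n
  | 0, n => by simp [P]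
  | k + 1, n => by
      simp only [P]
      rw [mul_sum]
      refine sum_congr rfl fun m _ => ?_
      rw [P_smul c g k (n - m)]; ring

lemma P_congr {g g' : ℕ → ℝ} (h : g = g') (k n : ℕ) : P g k n = P g' k n := by rw [h]

/-- The total weight of the paths to `N` whose small steps sum to a value in a window of length
`b` and which have at least `J` large steps. -/
lemma window_bound {g : ℕ → ℝ} (G : GapLaw g) (N b c J K : ℕ) (hb : 1 ≤ b) (π : ℝ)
    (κ : ℝ) (hκ : κ = 1 - ∑ m ∈ range b, g m)
    (hπ : ∀ i j, J ≤ j → j * b ≤ N → ((i + j).choose j : ℝ) * (1 - κ) ^ i * κ ^ j ≤ π)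
    (hπ0 : 0 ≤ π) :
    ∑ k ∈ range K, Ex g N k (fun l => if l.sum = N ∧ c ≤ ws b l ∧ ws b l < c + b ∧ J ≤ cnt b l
      then 1 else 0) ≤ π := by
  have hκ0 : 0 ≤ κ := by rw [hκ]; linarith [G.sum_le b]
  have hκ1 : 0 ≤ 1 - κ := by
    rw [hκ]; have := sum_nonneg (s := range b) (f := g) fun m _ => G.nonneg m; linarith
  -- normalised laws
  obtain ⟨gs', Gs', hgs'⟩ : ∃ gs' : ℕ → ℝ, GapLaw gs' ∧ gs g b = fun m => (1 - κ) * gs' m := by
    rcases eq_or_lt_of_le hκ1 with h | h
    · refine ⟨fun _ => 0, ⟨rfl, fun _ => le_rfl, fun _ => by simp⟩, ?_⟩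
      funext m
      rw [mul_zero]
      unfold gs
      split_ifs with hm
      · rfl
      · have h1 : g m ≤ ∑ m ∈ range b, g m :=
          single_le_sum (f := g) (fun i _ => G.nonneg i) (by rw [mem_range]; omega)
        have : ∑ m ∈ range b, g m = 0 := by rw [hκ] at h; linarith
        exact le_antisymm (by linarith) (G.nonneg m)
    · refine ⟨fun m => gs g b m / (1 - κ), ⟨?_, fun m => ?_, fun n => ?_⟩, ?_⟩
      · simp [gs, G.zero]
      · unfold gs
        split_ifs
        · simp
        · exact div_nonneg (G.nonneg m) hκ1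
      · rw [← sum_div, div_le_one h]
        have h1 : ∑ m ∈ range n, gs g b m ≤ ∑ m ∈ range b, g m := by
          unfold gs
          have : ∑ m ∈ range n, (if b ≤ m then 0 else g m)
              = ∑ m ∈ (range n).filter (fun m => ¬ b ≤ m), g m := by
            rw [sum_filter]
            refine sum_congr rfl fun m _ => ?_
            by_cases h : b ≤ m <;> simp [h]
          rw [this]
          refine sum_le_sum_of_subset_of_nonneg ?_ fun m _ _ => G.nonneg m
          intro m hm
          simp only [mem_filter, mem_range] at hm ⊢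
          omega
        rw [hκ]; linarith
      · funext m
        rw [mul_div_cancel₀ _ h.ne']
  obtain ⟨gl', Gl', hgl', hgl0⟩ : ∃ gl' : ℕ → ℝ, GapLaw gl' ∧ (gl g b = fun m => κ * gl' m) ∧
      ∀ m < b, gl' m = 0 := by
    have htail : ∀ n, ∑ m ∈ range n, gl g b m ≤ κ := by
      intro n
      have h1 : ∑ m ∈ range n, gl g b m ≤ ∑ m ∈ range (n + b), gl g b m :=
        sum_le_sum_of_subset_of_nonneg (range_mono (by omega)) fun m _ _ => by
          unfold gl; split_ifs
          · exact G.nonneg m
          · exact le_rfl
      have h2 : ∑ m ∈ range (n + b), gl g b m = ∑ m ∈ range (n + b), g m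
          - ∑ m ∈ range b, g m := by
        have h3 : ∑ m ∈ range b, g m = ∑ m ∈ range (n + b), (if b ≤ m then 0 else g m) := by
          have h4 : range b = (range (n + b)).filter (fun m => ¬ b ≤ m) := by
            ext i; simp only [mem_filter, mem_range]; omega
          rw [h4, sum_filter]
          refine sum_congr rfl fun m _ => ?_
          by_cases h : b ≤ m <;> simp [h]
        rw [h3, ← sum_sub_distrib]
        refine sum_congr rfl fun m _ => ?_
        unfold gl
        by_cases h : b ≤ m <;> simp [h]
      have := G.sum_le (n + b)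
      rw [hκ]; linarith
    rcases eq_or_lt_of_le hκ0 with h | h
    · refine ⟨fun _ => 0, ⟨rfl, fun _ => le_rfl, fun _ => by simp⟩, ?_, fun _ _ => rfl⟩
      funext m
      rw [mul_zero]
      have h1 : gl g b m ≤ ∑ m ∈ range (m + 1), gl g b m :=
        single_le_sum (f := gl g b) (fun i _ => by
          unfold gl; split_ifs
          · exact G.nonneg i
          · exact le_rfl) (by rw [mem_range]; omega)
      have h2 := htail (m + 1)
      refine le_antisymm (by linarith) ?_
      unfold gl; split_ifs
      · exact G.nonneg m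
      · exact le_rfl
    · refine ⟨fun m => gl g b m / κ, ⟨?_, fun m => ?_, fun n => ?_⟩, ?_, fun m hm => ?_⟩
      · have : gl g b 0 = 0 := by unfold gl; split_ifs <;> simp [G.zero]
        simp [this]
      · unfold gl
        split_ifs
        · exact div_nonneg (G.nonneg m) hκ0
        · simp
      · rw [← sum_div, div_le_one h]; exact htail n
      · funext m
        rw [mul_div_cancel₀ _ h.ne']
      · simp only [gl]
        rw [if_neg (by omega), zero_div]
  -- pointwise bound
  have hpt : ∀ l : List ℕ,
      (if l.sum = N ∧ c ≤ ws b l ∧ ws b l < c + b ∧ J ≤ cnt b l then (1:ℝ) else 0)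
        ≤ ∑ w ∈ (range (N + 1)).filter (fun w => c ≤ w ∧ w < c + b), ∑ j ∈ (Ico J (N + 1)).filter (fun j => j * b ≤ N),
          if cnt b l = j ∧ ws b l = w ∧ wl b l = N - w then 1 else 0 := by
    intro l
    have hnn : ∀ w ∈ (range (N + 1)).filter (fun w => c ≤ w ∧ w < c + b),
        0 ≤ ∑ j ∈ (Ico J (N + 1)).filter (fun j => j * b ≤ N), if cnt b l = j ∧ ws b l = w ∧ wl b l = N - w then (1:ℝ) else 0 :=
      fun w _ => sum_nonneg fun j _ => by split_ifs <;> norm_num
    split_ifs with h
    · obtain ⟨h1, h2, h3, h4⟩ := h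
      have h5 := ws_add_wl b l
      have h6 := cnt_mul_le b l
      have h7 : cnt b l ≤ N := by
        have : cnt b l * 1 ≤ cnt b l * b := Nat.mul_le_mul_left _ hb
        omega
      have hw : ws b l ∈ (range (N + 1)).filter (fun w => c ≤ w ∧ w < c + b) := by
        simp only [mem_filter, mem_range]; omega
      refine le_trans ?_ (single_le_sum hnn hw)
      have hj : cnt b l ∈ (Ico J (N + 1)).filter (fun j => j * b ≤ N) := by
        rw [mem_filter, mem_Ico]; omega
      refine le_trans ?_ (single_le_sum (f := fun j => if cnt b l = j ∧ ws b l = ws b l ∧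
        wl b l = N - ws b l then (1:ℝ) else 0) (fun j _ => by split_ifs <;> norm_num) hj)
      have hyes : (fun j => if cnt b l = j ∧ ws b l = ws b l ∧
        wl b l = N - ws b l then (1:ℝ) else 0) (cnt b l) = 1 := if_pos ⟨rfl, rfl, by omega⟩
      exact hyes.ge
    · exact sum_nonneg hnn
  have h1 : ∀ k ∈ range K, Ex g N k (fun l => if l.sum = N ∧ c ≤ ws b l ∧ ws b l < c + b ∧
        J ≤ cnt b l then 1 else 0)
      ≤ ∑ w ∈ (range (N + 1)).filter (fun w => c ≤ w ∧ w < c + b), ∑ j ∈ (Ico J (N + 1)).filter (fun j => j * b ≤ N),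
          (k.choose j : ℝ) * P (gs g b) (k - j) w * P (gl g b) j (N - w) := by
    intro k _
    refine (Ex_mono G.nonneg N k _ _ hpt).trans ?_
    rw [Ex_sum]
    refine le_of_eq (sum_congr rfl fun w hw => ?_)
    rw [Ex_sum]
    refine sum_congr rfl fun j _ => ?_
    simp only [mem_filter, mem_range] at hw
    exact Ex_split g N b k j w (N - w) (by omega) (by omega)
  refine (sum_le_sum h1).trans ?_
  rw [sum_comm]
  have h2 : ∀ w ∈ (range (N + 1)).filter (fun w => c ≤ w ∧ w < c + b),
      ∑ k ∈ range K, ∑ j ∈ (Ico J (N + 1)).filter (fun j => j * b ≤ N),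
          (k.choose j : ℝ) * P (gs g b) (k - j) w * P (gl g b) j (N - w)
        ≤ π * u gl' (N - w) := by
    intro w _
    rw [sum_comm]
    have h3 : ∀ j ∈ (Ico J (N + 1)).filter (fun j => j * b ≤ N), ∑ k ∈ range K,
          (k.choose j : ℝ) * P (gs g b) (k - j) w * P (gl g b) j (N - w)
        ≤ π * P gl' j (N - w) := by
      intro j hj
      rw [mem_filter, mem_Ico] at hj
      have h4 : ∀ k ∈ range K, (k.choose j : ℝ) * P (gs g b) (k - j) w * P (gl g b) j (N - w)
          ≤ if j ≤ k then π * P gl' j (N - w) * P gs' (k - j) w else 0 := by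
        intro k _
        split_ifs with hjk
        · rw [hgs', hgl', P_smul, P_smul]
          have h5 := hπ (k - j) j (by omega) (by omega)
          rw [show k - j + j = k by omega] at h5
          have h6 : 0 ≤ P gl' j (N - w) * P gs' (k - j) w :=
            mul_nonneg (P_nonneg Gl'.nonneg _ _) (P_nonneg Gs'.nonneg _ _)
          have h7 := mul_le_mul_of_nonneg_right h5 h6
          linarith
        · rw [Nat.choose_eq_zero_of_lt (by omega)]; simp
      refine (sum_le_sum h4).trans ?_
      rw [← sum_filter]
      have h5 : (range K).filter (fun k => j ≤ k) = Ico j K := by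
        ext i; simp only [mem_filter, mem_range, mem_Ico]; omega
      rw [h5, sum_Ico_eq_sum_range]
      have h6 : ∑ i ∈ range (K - j), π * P gl' j (N - w) * P gs' (j + i - j) w
          = π * P gl' j (N - w) * ∑ i ∈ range (K - j), P gs' i w := by
        rw [mul_sum]
        refine sum_congr rfl fun i _ => ?_
        rw [Nat.add_sub_cancel_left]
      rw [h6]
      have h7 : ∑ i ∈ range (K - j), P gs' i w ≤ 1 := (sum_P_le_u Gs' w _).trans (u_le_one Gs' w)
      exact mul_le_of_le_one_right (mul_nonneg hπ0 (P_nonneg Gl'.nonneg _ _)) h7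
    refine (sum_le_sum h3).trans ?_
    rw [← mul_sum]
    refine mul_le_mul_of_nonneg_left ?_ hπ0
    refine le_trans ?_ (sum_P_le_u Gl' (N - w) (N + 1))
    refine sum_le_sum_of_subset_of_nonneg ?_ fun j _ _ => P_nonneg Gl'.nonneg _ _
    intro j hj
    rw [mem_filter, mem_Ico] at hj
    rw [mem_range]; omega
  refine (sum_le_sum h2).trans ?_
  rw [← mul_sum]
  refine mul_le_of_le_one_right hπ0 ?_
  -- the window is hit at most once
  have hone : ∑ i ∈ range (b - 1 + 1), u gl' i = 1 := by
    rw [sum_range_succ', u_zero]
    rw [sum_eq_zero]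
    · simp
    · intro i hi
      rw [mem_range] at hi
      rw [u_rec Gl'.zero (i + 1) (by omega)]
      refine sum_eq_zero fun m hm => ?_
      rw [mem_range] at hm
      rw [hgl0 m (by omega), zero_mul]
  rcases le_or_gt c N with hcN | hcN
  · have h8 : ∑ w ∈ (range (N + 1)).filter (fun w => c ≤ w ∧ w < c + b), u gl' (N - w)
        = S gl' (b - 1) (N - c) := by
      unfold S
      rw [← sum_filter]
      have h9 : (range (N + 1)).filter (fun w => c ≤ w ∧ w < c + b)
          = ((range (b - 1 + 1)).filter (fun i => i ≤ N - c)).map (addRightEmbedding c) := by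
        ext i
        simp only [mem_filter, mem_range, mem_map, addRightEmbedding, Function.Embedding.coeFn_mk]
        constructor
        · rintro ⟨h3, h4⟩
          exact ⟨i - c, by omega, by omega⟩
        · rintro ⟨j, h3, rfl⟩
          omega
      rw [h9, sum_map]
      refine sum_congr rfl fun i hi => ?_
      simp only [addRightEmbedding, Function.Embedding.coeFn_mk]
      rw [show N - (i + c) = N - c - i by omega]
    rw [h8]
    exact (S_le Gl' (b - 1) (N - c)).trans hone.le
  · rw [filter_false_of_mem]
    · simp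
    · intro w hw
      rw [mem_range] at hw
      omega

end Pool.Agent.Helper945.RenCore
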