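import Pool.Agent.Helper945.RenCore

set_option autoImplicit false

open Finset

namespace Pool.Agent.Helper945.Sharp

open Pool.Agent.Helper945.RenCore

/-! ### Convolution of sequences -/

/-- Convolution. -/
def cv (a b : ℕ → ℝ) (n : ℕ) : ℝ := ∑ i ∈ range (n + 1), a i * b (n - i)

lemma mk_cv (a b : ℕ → ℝ) : PowerSeries.mk (cv a b) = PowerSeries.mk a * PowerSeries.mk b := by
  ext n
  rw [PowerSeries.coeff_mk, PowerSeries.coeff_mul,
    Finset.Nat.sum_antidiagonal_eq_sum_range_succ
      (fun i j => PowerSeries.coeff i (PowerSeries.mk a) * PowerSeries.coeff j (PowerSeries.mk b))]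
  simp [cv]

lemma mk_inj {a b : ℕ → ℝ} (h : PowerSeries.mk a = PowerSeries.mk b) : a = b := by
  funext n
  have := congrArg (PowerSeries.coeff n) h
  simpa using this

lemma cv_comm (a b : ℕ → ℝ) : cv a b = cv b a := by
  apply mk_inj; rw [mk_cv, mk_cv, mul_comm]

lemma cv_assoc (a b c : ℕ → ℝ) : cv (cv a b) c = cv a (cv b c) := by
  apply mk_inj; rw [mk_cv, mk_cv, mk_cv, mk_cv, mul_assoc]

lemma cv_nonneg {a b : ℕ → ℝ} (ha : ∀ n, 0 ≤ a n) (hb : ∀ n, 0 ≤ b n) (n : ℕ) : 0 ≤ cv a b n :=
  sum_nonneg fun i _ => mul_nonneg (ha i) (hb _)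

lemma cv_le {a b b' : ℕ → ℝ} (ha : ∀ n, 0 ≤ a n) (hb : ∀ n, b n ≤ b' n) (n : ℕ) :
    cv a b n ≤ cv a b' n :=
  sum_le_sum fun i _ => mul_le_mul_of_nonneg_left (hb _) (ha i)

lemma cv_mono {a b : ℕ → ℝ} (ha : ∀ n, 0 ≤ a n) (hb0 : ∀ n, 0 ≤ b n) (hb : Monotone b) :
    Monotone (cv a b) := by
  intro m n hmn
  calc cv a b m ≤ ∑ i ∈ range (m + 1), a i * b (n - i) :=
        sum_le_sum fun i _ => mul_le_mul_of_nonneg_left (hb (by omega)) (ha i)
    _ ≤ cv a b n := sum_le_sum_of_subset_of_nonneg (range_mono (by omega))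
        fun i _ _ => mul_nonneg (ha i) (hb0 _)

lemma cv_sub_le {a b : ℕ → ℝ} (ha : ∀ n, 0 ≤ a n) (ha1 : ∀ n, ∑ i ∈ range n, a i ≤ 1)
    (hb0 : ∀ n, 0 ≤ b n) (hb : Monotone b) (n : ℕ) : cv a b n ≤ b n := by
  calc cv a b n ≤ ∑ i ∈ range (n + 1), a i * b n :=
        sum_le_sum fun i _ => mul_le_mul_of_nonneg_left (hb (by omega)) (ha i)
    _ = (∑ i ∈ range (n + 1), a i) * b n := by rw [sum_mul]
    _ ≤ 1 * b n := mul_le_mul_of_nonneg_right (ha1 _) (hb0 n)
    _ = b n := one_mul _

section
variable {f : ℕ → ℝ} (G : GapLaw f)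
include G

lemma u_eq_cv (n : ℕ) : u f n = (if n = 0 then 1 else 0) + cv f (u f) n := by
  rcases Nat.eq_zero_or_pos n with rfl | hn
  · simp [u_zero, cv, G.zero]
  · rw [if_neg hn.ne', zero_add]
    exact u_rec G.zero n hn

lemma mk_u : (1 - PowerSeries.mk f) * PowerSeries.mk (u f) = 1 := by
  have h : PowerSeries.mk (u f) = 1 + PowerSeries.mk f * PowerSeries.mk (u f) := by
    rw [← mk_cv]
    ext n
    rw [map_add, PowerSeries.coeff_mk, PowerSeries.coeff_mk, PowerSeries.coeff_one]
    exact u_eq_cv G n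
  linear_combination h

/-- If `B = u * x` then `B = x + f * B`. -/
lemma cv_u_rec (x : ℕ → ℝ) (n : ℕ) :
    cv (u f) x n = x n + cv f (cv (u f) x) n := by
  have h : PowerSeries.mk (cv (u f) x) = PowerSeries.mk x + PowerSeries.mk (cv f (cv (u f) x)) := by
    rw [mk_cv, mk_cv, mk_cv]
    linear_combination PowerSeries.mk x * mk_u G
  have := congrArg (PowerSeries.coeff n) h
  simpa using this

/-- If `D = X - f * X` then `X = u * D`. -/
lemma cv_u_of_sub (X : ℕ → ℝ) : cv (u f) (fun n => X n - cv f X n) = X := by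
  apply mk_inj
  rw [mk_cv]
  have h : PowerSeries.mk (fun n => X n - cv f X n) = PowerSeries.mk X
      - PowerSeries.mk f * PowerSeries.mk X := by
    rw [← mk_cv]
    ext n
    simp
  rw [h]
  linear_combination PowerSeries.mk X * mk_u G

/-- Overshoot law: the first renewal at or after `c` is at `c + y`. -/
def ov (f : ℕ → ℝ) (c y : ℕ) : ℝ :=
  (if c = 0 ∧ y = 0 then 1 else 0) + ∑ v ∈ range c, u f v * f (c + y - v)

lemma ov_nonneg (c y : ℕ) : 0 ≤ ov f c y := by
  unfold ov
  have h1 : 0 ≤ ∑ v ∈ range c, u f v * f (c + y - v) :=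
    sum_nonneg fun v _ => mul_nonneg (u_nonneg G.nonneg v) (G.nonneg _)
  split_ifs <;> linarith

lemma sum_shift_le (j N : ℕ) : ∑ y ∈ range N, f (j + 1 + y) ≤ H f j := by
  have h1 := G.sum_le (j + 1 + N)
  rw [sum_range_add] at h1
  unfold H
  linarith

lemma ov_sum (c N : ℕ) : ∑ y ∈ range N, ov f c y ≤ 1 := by
  unfold ov
  rw [sum_add_distrib]
  rcases Nat.eq_zero_or_pos c with rfl | hc
  · simp only [true_and, range_zero, sum_empty, sum_const_zero, add_zero]
    rw [sum_ite_eq']
    split_ifs <;> norm_num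
  · have h0 : ∑ y ∈ range N, (if c = 0 ∧ y = 0 then (1:ℝ) else 0) = 0 :=
      sum_eq_zero fun y _ => by rw [if_neg (by omega)]
    rw [h0, zero_add, sum_comm]
    obtain ⟨m, rfl⟩ : ∃ m, c = m + 1 := ⟨c - 1, by omega⟩
    rw [← tail_identity G.zero m]
    refine sum_le_sum fun v hv => ?_
    rw [mem_range] at hv
    rw [← mul_sum]
    refine mul_le_mul_of_nonneg_left ?_ (u_nonneg G.nonneg v)
    refine le_trans (le_of_eq ?_) (sum_shift_le G (m - v) N)
    refine sum_congr rfl fun y _ => ?_
    congr 1; omega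

lemma ov_sub (c n : ℕ) : u f (c + n) - cv f (fun n => u f (c + n)) n = ov f c n := by
  rcases Nat.eq_zero_or_pos c with rfl | hc
  · have := u_eq_cv G n
    simp only [zero_add]
    unfold ov
    simp only [true_and, range_zero, sum_empty, add_zero]
    have h2 : cv f (fun n => u f n) n = cv f (u f) n := rfl
    rw [h2]
    linarith
  · have h1 : u f (c + n) = ∑ k ∈ range (n + 1 + c), f k * u f (c + n - k) := by
      rw [u_rec G.zero (c + n) (by omega), show c + n + 1 = n + 1 + c by omega]
    rw [h1, sum_range_add]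
    have h2 : cv f (fun n => u f (c + n)) n = ∑ k ∈ range (n + 1), f k * u f (c + n - k) := by
      unfold cv
      refine sum_congr rfl fun k hk => ?_
      rw [mem_range] at hk
      simp only
      rw [show c + (n - k) = c + n - k by omega]
    rw [h2]
    unfold ov
    rw [if_neg (by omega), zero_add, add_sub_cancel_left, ← sum_range_reflect]
    refine sum_congr rfl fun v hv => ?_
    rw [mem_range] at hv
    rw [mul_comm, show n + 1 + (c - 1 - v) = c + n - v by omega,
      show c + n - (c + n - v) = v by omega]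

lemma ov_u (c : ℕ) : (fun n => u f (c + n)) = cv (ov f c) (u f) := by
  rw [cv_comm]
  have h := cv_u_of_sub G (fun n => u f (c + n))
  have h2 : (fun n => u f (c + n) - cv f (fun n => u f (c + n)) n) = ov f c := by
    funext n
    exact ov_sub G c n
  rw [h2] at h
  exact h.symm

end

/-! ### The running maximum of `u * u` -/

/-- Running maximum of the self-convolution. -/
def R (f : ℕ → ℝ) : ℕ → ℝ
  | 0 => cv (u f) (u f) 0
  | n + 1 => max (R f n) (cv (u f) (u f) (n + 1))

lemma R_mono (f : ℕ → ℝ) : Monotone (R f) := monotone_nat_of_le_succ fun _ => le_max_left _ _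

lemma le_R (f : ℕ → ℝ) : ∀ n, cv (u f) (u f) n ≤ R f n
  | 0 => le_rfl
  | _ + 1 => le_max_right _ _

lemma R_zero (f : ℕ → ℝ) : R f 0 = 1 := by
  simp [R, cv, u_zero]

lemma R_nonneg (f : ℕ → ℝ) (n : ℕ) : 0 ≤ R f n := by
  have := R_mono f (Nat.zero_le n)
  rw [R_zero] at this
  linarith

lemma R_touch (f : ℕ → ℝ) : ∀ n, ∃ m, m ≤ n ∧ R f n = R f m ∧ R f m = cv (u f) (u f) m
  | 0 => ⟨0, le_rfl, rfl, rfl⟩
  | n + 1 => by
      rcases le_total (R f n) (cv (u f) (u f) (n + 1)) with h | h
      · refine ⟨n + 1, le_rfl, rfl, ?_⟩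
        simp only [R]
        exact max_eq_right h
      · obtain ⟨m, hm, h1, h2⟩ := R_touch f n
        refine ⟨m, by omega, ?_, h2⟩
        rw [← h1]
        simp only [R]
        exact max_eq_left h

/-- The defect of the running maximum. -/
def D (f : ℕ → ℝ) (n : ℕ) : ℝ := R f n - cv f (R f) n

section
variable {f : ℕ → ℝ} (G : GapLaw f)
include G

lemma D_nonneg (n : ℕ) : 0 ≤ D f n :=
  sub_nonneg.mpr (cv_sub_le G.nonneg G.sum_le (R_nonneg f) (R_mono f) n)

lemma u_D : cv (u f) (D f) = R f := cv_u_of_sub G (R f)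

lemma F1 (n c : ℕ) : ∑ b ∈ range (n + 1), u f (n + c - b) * D f b = cv (ov f c) (R f) n := by
  have h1 : cv (D f) (fun n => u f (c + n)) = cv (ov f c) (R f) := by
    rw [ov_u G c, cv_comm, cv_assoc, u_D G]
  rw [← h1]
  unfold cv
  refine sum_congr rfl fun b hb => ?_
  rw [mem_range] at hb
  simp only
  rw [mul_comm, show c + (n - b) = n + c - b by omega]

lemma F2 (n c s : ℕ) :
    ∑ b ∈ range (n + 1), u f (n + c - b) * u f (s + b) ≤ cv (ov f c) (R f) n := by
  have h1 : ∑ b ∈ range (n + 1), u f (n + c - b) * u f (s + b)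
      = cv (ov f s) (cv (ov f c) (cv (u f) (u f))) n := by
    have h2 : cv (fun n => u f (s + n)) (fun n => u f (c + n))
        = cv (ov f s) (cv (ov f c) (cv (u f) (u f))) := by
      rw [ov_u G c, ov_u G s, cv_assoc]
      congr 1
      rw [← cv_assoc, cv_comm (u f) (ov f c), cv_assoc]
    rw [← h2]
    unfold cv
    refine sum_congr rfl fun b hb => ?_
    rw [mem_range] at hb
    simp only
    rw [mul_comm, show c + (n - b) = n + c - b by omega]
  rw [h1]
  have h3 : ∀ n, cv (ov f c) (cv (u f) (u f)) n ≤ cv (ov f c) (R f) n :=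
    fun n => cv_le (ov_nonneg G c) (le_R f) n
  calc cv (ov f s) (cv (ov f c) (cv (u f) (u f))) n ≤ cv (ov f s) (cv (ov f c) (R f)) n :=
        cv_le (ov_nonneg G s) h3 n
    _ ≤ cv (ov f c) (R f) n :=
        cv_sub_le (ov_nonneg G s) (ov_sum G s)
          (cv_nonneg (ov_nonneg G c) (R_nonneg f))
          (cv_mono (ov_nonneg G c) (R_nonneg f) (R_mono f)) n

/-- Shifted version with a negative shift. -/
lemma F2' (n c σ : ℕ) :
    ∑ b ∈ range (n + 1), (if σ ≤ b then u f (n + c - b) * u f (b - σ) else 0)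
      ≤ cv (ov f c) (R f) n := by
  have h0 : 0 ≤ cv (ov f c) (R f) n := cv_nonneg (ov_nonneg G c) (R_nonneg f) n
  rcases le_or_gt σ n with h | h
  · obtain ⟨m, rfl⟩ : ∃ m, n = σ + m := ⟨n - σ, by omega⟩
    rw [show σ + m + 1 = σ + (m + 1) by omega, sum_range_add]
    have h1 : ∑ b ∈ range σ, (if σ ≤ b then u f (σ + m + c - b) * u f (b - σ) else 0) = 0 :=
      sum_eq_zero fun b hb => by
        rw [mem_range] at hb
        rw [if_neg (by omega)]
    rw [h1, zero_add]
    have h2 : ∑ b ∈ range (m + 1), (if σ ≤ σ + b then u f (σ + m + c - (σ + b))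
        * u f (σ + b - σ) else 0) = ∑ b ∈ range (m + 1), u f (m + c - b) * u f (0 + b) := by
      refine sum_congr rfl fun b hb => ?_
      rw [mem_range] at hb
      rw [if_pos (by omega), show σ + m + c - (σ + b) = m + c - b by omega,
        show σ + b - σ = 0 + b by omega]
    rw [h2]
    refine (F2 G m c 0).trans ?_
    exact cv_mono (ov_nonneg G c) (R_nonneg f) (R_mono f) (by omega)
  · rw [sum_eq_zero fun b hb => ?_]
    · exact h0
    · rw [mem_range] at hb
      rw [if_neg (by omega)]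

lemma ov_zero (z : ℕ) : ov f z 0 = u f z := by
  rw [← ov_sub G z 0]
  simp [cv, G.zero]

lemma H_tail (b N : ℕ) : ∑ ℓ ∈ range N, (if b ≤ ℓ then f (ℓ + 2) else 0) ≤ H f (b + 1) := by
  rcases le_or_gt N b with h | h
  · rw [sum_eq_zero fun ℓ hℓ => ?_]
    · exact H_nonneg G _
    · rw [mem_range] at hℓ
      rw [if_neg (by omega)]
  · obtain ⟨m, rfl⟩ : ∃ m, N = b + m := ⟨N - b, by omega⟩
    rw [sum_range_add]
    have h1 : ∑ ℓ ∈ range b, (if b ≤ ℓ then f (ℓ + 2) else 0) = 0 :=
      sum_eq_zero fun ℓ hℓ => by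
        rw [mem_range] at hℓ
        rw [if_neg (by omega)]
    rw [h1, zero_add]
    refine le_trans (le_of_eq ?_) (sum_shift_le G (b + 1) m)
    refine sum_congr rfl fun y _ => ?_
    rw [if_pos (by omega), show b + y + 2 = b + 1 + 1 + y by omega]

lemma M1a (z t ℓ : ℕ) (hz : 0 < z) :
    ∑ b ∈ range z, (if b ≤ ℓ ∧ ℓ < b + t then u f (z - 1 - b) * u f (t - 1 - (ℓ - b)) else 0)
      ≤ ∑ b ∈ range z, (if b ≤ ℓ then u f (z - 1 - b) * D f b else 0) := by
  obtain ⟨n, c, hn, hc⟩ : ∃ n c, n = min (z - 1) ℓ ∧ z - 1 = n + c :=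
    ⟨min (z - 1) ℓ, z - 1 - min (z - 1) ℓ, rfl, by omega⟩
  have key : ∀ F : ℕ → ℝ, ∑ b ∈ range z, (if b ≤ ℓ then F b else 0)
      = ∑ b ∈ range (n + 1), F b := by
    intro F
    rw [← sum_filter]
    have h1 : (range z).filter (fun b => b ≤ ℓ) = range (n + 1) := by
      ext i; simp only [mem_filter, mem_range]; omega
    rw [h1]
  have h2 : ∀ b ∈ range z,
      (if b ≤ ℓ ∧ ℓ < b + t then u f (z - 1 - b) * u f (t - 1 - (ℓ - b)) else 0)
      = if b ≤ ℓ then (if ℓ < b + t then u f (z - 1 - b) * u f (t - 1 - (ℓ - b)) else 0)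
        else 0 := by
    intro b _
    by_cases h : b ≤ ℓ <;> by_cases h' : ℓ < b + t <;> simp [h, h']
  rw [sum_congr rfl h2, key, key]
  simp only [hc]
  rw [F1 G n c]
  rcases lt_or_ge ℓ t with h | h
  · refine le_trans (le_of_eq ?_) (F2 G n c (t - 1 - ℓ))
    refine sum_congr rfl fun b hb => ?_
    rw [mem_range] at hb
    rw [if_pos (by omega), show t - 1 - (ℓ - b) = t - 1 - ℓ + b by omega]
  · rcases Nat.eq_zero_or_pos t with rfl | ht
    · rw [sum_eq_zero fun b hb => ?_]
      · exact cv_nonneg (ov_nonneg G c) (R_nonneg f) n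
      · rw [mem_range] at hb
        rw [if_neg (by omega)]
    · refine le_trans (le_of_eq ?_) (F2' G n c (ℓ + 1 - t))
      refine sum_congr rfl fun b hb => ?_
      rw [mem_range] at hb
      by_cases h' : ℓ < b + t
      · rw [if_pos h', if_pos (by omega), show t - 1 - (ℓ - b) = b - (ℓ + 1 - t) by omega]
      · rw [if_neg h', if_neg (by omega)]

/-- The control functional. -/
def Psi (f : ℕ → ℝ) (z : ℕ) : ℝ := ∑ b ∈ range z, u f (z - 1 - b) * (H f (b + 1) * D f b)

lemma M1 (z t : ℕ) (hz : 0 < z) : u f (z + t) - u f z * u f t ≤ Psi f z := by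
  have h1 : u f (z + t) = cv (ov f z) (u f) t := congrFun (ov_u G z) t
  have h2 : ∀ y, ov f z (y + 1) = ∑ b ∈ range z, u f (z - 1 - b) * f (b + y + 2) := by
    intro y
    unfold ov
    rw [if_neg (by omega), zero_add, ← sum_range_reflect]
    refine sum_congr rfl fun b hb => ?_
    rw [mem_range] at hb
    rw [show z + (y + 1) - (z - 1 - b) = b + y + 2 by omega]
  have h3 : u f (z + t) - u f z * u f t
      = ∑ b ∈ range z, u f (z - 1 - b) * ∑ y ∈ range t, f (b + y + 2) * u f (t - 1 - y) := by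
    rw [h1]
    unfold cv
    rw [sum_range_succ', ov_zero G z, Nat.sub_zero, add_sub_cancel_right]
    have h4 : ∀ y ∈ range t, ov f z (y + 1) * u f (t - (y + 1))
        = ∑ b ∈ range z, u f (z - 1 - b) * (f (b + y + 2) * u f (t - 1 - y)) := by
      intro y _
      rw [h2, sum_mul]
      refine sum_congr rfl fun b _ => ?_
      rw [show t - (y + 1) = t - 1 - y by omega, mul_assoc]
    rw [sum_congr rfl h4, sum_comm]
    refine sum_congr rfl fun b _ => ?_
    rw [mul_sum]
  have h5 : ∀ b ∈ range z, u f (z - 1 - b) * ∑ y ∈ range t, f (b + y + 2) * u f (t - 1 - y)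
      = ∑ ℓ ∈ range (z + t), f (ℓ + 2) *
        (if b ≤ ℓ ∧ ℓ < b + t then u f (z - 1 - b) * u f (t - 1 - (ℓ - b)) else 0) := by
    intro b hb
    rw [mem_range] at hb
    obtain ⟨m, hm⟩ : ∃ m, z + t = b + (t + m) := ⟨z - b, by omega⟩
    rw [hm, sum_range_add, sum_range_add]
    rw [sum_eq_zero (s := range b) fun ℓ hℓ => ?_, sum_eq_zero (s := range m) fun ℓ hℓ => ?_]
    · rw [zero_add, add_zero, mul_sum]
      refine sum_congr rfl fun y hy => ?_
      rw [mem_range] at hy
      rw [if_pos (by omega), show t - 1 - (b + y - b) = t - 1 - y by omega]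
      ring
    · rw [if_neg (by omega), mul_zero]
    · rw [mem_range] at hℓ
      rw [if_neg (by omega), mul_zero]
  rw [h3, sum_congr rfl h5, sum_comm]
  calc ∑ ℓ ∈ range (z + t), ∑ b ∈ range z, f (ℓ + 2) *
        (if b ≤ ℓ ∧ ℓ < b + t then u f (z - 1 - b) * u f (t - 1 - (ℓ - b)) else 0)
      ≤ ∑ ℓ ∈ range (z + t), ∑ b ∈ range z, f (ℓ + 2) *
        (if b ≤ ℓ then u f (z - 1 - b) * D f b else 0) := by
        refine sum_le_sum fun ℓ _ => ?_
        rw [← mul_sum, ← mul_sum]
        exact mul_le_mul_of_nonneg_left (M1a G z t ℓ hz) (G.nonneg _)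
    _ = ∑ b ∈ range z, u f (z - 1 - b) *
        ((∑ ℓ ∈ range (z + t), (if b ≤ ℓ then f (ℓ + 2) else 0)) * D f b) := by
        rw [sum_comm]
        refine sum_congr rfl fun b _ => ?_
        rw [sum_mul, mul_sum]
        refine sum_congr rfl fun ℓ _ => ?_
        by_cases h : b ≤ ℓ
        · simp only [h, if_true]; ring
        · simp only [h, if_false]; ring
    _ ≤ Psi f z := by
        refine sum_le_sum fun b _ => ?_
        refine mul_le_mul_of_nonneg_left ?_ (u_nonneg G.nonneg _)
        exact mul_le_mul_of_nonneg_right (H_tail G b _) (D_nonneg G b)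

/-- `R n - R (n - k)` is controlled by the defect. -/
lemma flat_sub (n n1 k : ℕ) (h1 : n1 < n) (hR : R f n = R f n1)
    (hr : R f n1 = cv (u f) (u f) n1) (hk : 0 < k) :
    R f n - R f (n - k) ≤ ∑ b ∈ range (n1 + 1), (if b + 2 ≤ k then u f (n1 - b) * D f b else 0) := by
  rcases Nat.lt_or_ge k 2 with hk2 | hk2
  · have : k = 1 := by omega
    subst this
    have h2 : R f n1 ≤ R f (n - 1) := R_mono f (by omega)
    rw [sum_eq_zero fun b hb => ?_]
    · rw [hR]; linarith
    · rw [if_neg (by omega)]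
  rcases Nat.lt_or_ge (n1 + 1) k with hk3 | hk3
  · have h2 : ∑ b ∈ range (n1 + 1), (if b + 2 ≤ k then u f (n1 - b) * D f b else 0) = R f n1 := by
      rw [← u_D G, cv_comm]
      unfold cv
      refine sum_congr rfl fun b hb => ?_
      rw [mem_range] at hb
      rw [if_pos (by omega), mul_comm]
    rw [h2, hR]
    have := R_nonneg f (n - k)
    linarith
  · obtain ⟨m, rfl⟩ : ∃ m, k = m + 2 := ⟨k - 2, by omega⟩
    obtain ⟨j, rfl⟩ : ∃ j, n1 = m + 1 + j := ⟨n1 - (m + 1), by omega⟩
    have h2 : R f j ≤ R f (n - (m + 2)) := R_mono f (by omega)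
    have h3 : ∑ b ∈ range (m + 1 + j + 1), (if b + 2 ≤ m + 2 then u f (m + 1 + j - b) * D f b
        else 0) = cv (ov f (j + 1)) (R f) m := by
      rw [← F1 G m (j + 1), ← sum_filter]
      have h4 : (range (m + 1 + j + 1)).filter (fun b => b + 2 ≤ m + 2) = range (m + 1) := by
        ext i; simp only [mem_filter, mem_range]; omega
      rw [h4]
      refine sum_congr rfl fun b hb => ?_
      rw [mem_range] at hb
      rw [show m + 1 + j - b = m + (j + 1) - b by omega]
    have h5 : cv (u f) (u f) (m + 1 + j)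
        = ∑ b ∈ range (m + 1), u f (m + (j + 1) - b) * u f (0 + b)
          + cv (ov f (m + 1)) (cv (u f) (u f)) j := by
      have h6 : cv (ov f (m + 1)) (cv (u f) (u f)) = cv (fun n => u f (m + 1 + n)) (u f) := by
        rw [ov_u G (m + 1), cv_assoc]
      rw [h6]
      unfold cv
      rw [show m + 1 + j + 1 = (m + 1) + (j + 1) by omega, sum_range_add]
      congr 1
      · refine sum_congr rfl fun b hb => ?_
        rw [mem_range] at hb
        rw [mul_comm, show m + 1 + j - b = m + (j + 1) - b by omega, zero_add]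
      · refine sum_congr rfl fun b hb => ?_
        rw [mem_range] at hb
        rw [show m + 1 + j - (m + 1 + b) = j - b by omega]
    have h7 := F2 G m (j + 1) 0
    have h8 : cv (ov f (m + 1)) (cv (u f) (u f)) j ≤ R f j :=
      (cv_le (ov_nonneg G _) (le_R f) j).trans
        (cv_sub_le (ov_nonneg G _) (ov_sum G _) (R_nonneg f) (R_mono f) j)
    rw [h3, hR, hr]
    linarith

lemma flat (n n1 : ℕ) (h1 : n1 < n) (hR : R f n = R f n1)
    (hr : R f n1 = cv (u f) (u f) n1) : D f n ≤ Psi f (n1 + 1) := by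
  have e1 : D f n = H f n * R f n1 + ∑ k ∈ range (n + 1), f k * (R f n - R f (n - k)) := by
    unfold D H cv
    simp only [mul_sub]
    rw [sum_sub_distrib, ← sum_mul, hR]
    ring
  have e2 : Psi f (n1 + 1) = H f n * R f n1 + ∑ k ∈ range (n + 1), f k *
      ∑ b ∈ range (n1 + 1), (if b + 2 ≤ k then u f (n1 - b) * D f b else 0) := by
    have h2 : ∀ b ∈ range (n1 + 1), H f (b + 1)
        = H f n + ∑ k ∈ range (n + 1), (if b + 2 ≤ k then f k else 0) := by
      intro b hb
      rw [mem_range] at hb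
      unfold H
      have h3 : ∑ m ∈ range (n + 1), f m = ∑ m ∈ range (b + 1 + 1), f m
          + ∑ k ∈ range (n + 1), (if b + 2 ≤ k then f k else 0) := by
        obtain ⟨m, hm⟩ : ∃ m, n + 1 = b + 1 + 1 + m := ⟨n + 1 - (b + 2), by omega⟩
        rw [hm, sum_range_add _ (b + 1 + 1) m, sum_range_add _ (b + 1 + 1) m]
        have h9 : ∑ k ∈ range (b + 1 + 1), (if b + 2 ≤ k then f k else 0) = 0 :=
          sum_eq_zero fun k hk => by
            rw [mem_range] at hk
            rw [if_neg (by omega)]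
        rw [h9, zero_add]
        congr 1
        refine sum_congr rfl fun y _ => ?_
        rw [if_pos (by omega)]
      rw [h3]; ring
    have h4 : R f n1 = ∑ b ∈ range (n1 + 1), u f (n1 - b) * D f b := by
      conv_lhs => rw [← u_D G, cv_comm]
      unfold cv
      exact sum_congr rfl fun b _ => mul_comm _ _
    unfold Psi
    rw [h4, mul_sum]
    have h5 : ∑ k ∈ range (n + 1), f k *
        ∑ b ∈ range (n1 + 1), (if b + 2 ≤ k then u f (n1 - b) * D f b else 0)
        = ∑ b ∈ range (n1 + 1), (∑ k ∈ range (n + 1), (if b + 2 ≤ k then f k else 0))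
          * (u f (n1 - b) * D f b) := by
      simp only [mul_sum, sum_mul]
      rw [sum_comm]
      refine sum_congr rfl fun b _ => sum_congr rfl fun k _ => ?_
      by_cases h : b + 2 ≤ k
      · simp only [h, if_true]
      · simp only [h, if_false]; ring
    rw [h5, ← sum_add_distrib]
    refine sum_congr rfl fun b hb => ?_
    rw [h2 b hb, Nat.add_sub_cancel]
    ring
  rw [e1, e2]
  refine add_le_add_right (sum_le_sum fun k hk => ?_) _
  rcases Nat.eq_zero_or_pos k with rfl | hk0
  · rw [G.zero, zero_mul, zero_mul]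
  · exact mul_le_mul_of_nonneg_left (flat_sub G n n1 k h1 hR hr hk0) (G.nonneg k)

lemma touch (n : ℕ) (hr : R f n = cv (u f) (u f) n) : D f n ≤ u f n := by
  unfold D
  rw [hr, cv_u_rec G (u f) n]
  have := cv_le G.nonneg (le_R f) n
  linarith

end

/-! ### The entropy bound -/

/-- The function `ψ`. -/
noncomputable def psi (x : ℝ) : ℝ := Real.negMulLog (max x (Real.exp (-1)))

lemma psi_le (x a : ℝ) (ha : Real.exp (-1) ≤ a) : psi x ≤ a - x * (1 + Real.log a) := by
  have ha0 : 0 < a := lt_of_lt_of_le (Real.exp_pos _) ha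
  have hla : 0 ≤ 1 + Real.log a := by
    have := Real.log_le_log (Real.exp_pos _) ha
    rw [Real.log_exp] at this
    linarith
  unfold psi Real.negMulLog
  set y := max x (Real.exp (-1)) with hy
  have hy0 : 0 < y := lt_of_lt_of_le (Real.exp_pos _) (le_max_right _ _)
  have hxy : x ≤ y := le_max_left _ _
  have h1 : Real.log (a / y) ≤ a / y - 1 := Real.log_le_sub_one_of_pos (by positivity)
  rw [Real.log_div ha0.ne' hy0.ne'] at h1
  have h2 : y * (Real.log a - Real.log y) ≤ a - y := by
    have := mul_le_mul_of_nonneg_left h1 hy0.le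
    have e : y * (a / y - 1) = a - y := by field_simp
    linarith
  nlinarith

lemma psi_le_exp (x : ℝ) : psi x ≤ Real.exp (-1) := by
  have := psi_le x (Real.exp (-1)) le_rfl
  rw [Real.log_exp] at this
  linarith

lemma psi_one : psi 1 = 0 := by
  unfold psi
  rw [max_eq_left]
  · simp
  · rw [← Real.exp_zero]
    exact Real.exp_le_exp.mpr (by norm_num)

section
variable {f : ℕ → ℝ} (G : GapLaw f)
include G

lemma H_antitone_succ (n : ℕ) : H f (n + 1) ≤ H f n := by
  have : H f (n + 1) = H f n - f (n + 1) := by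
    unfold H
    rw [sum_range_succ _ (n + 1)]
    ring
  have h := G.nonneg (n + 1)
  linarith

lemma M3 (K : ℝ) (hK : K = Real.exp (-1) + H f 1) (hK1 : K ≤ 1) (n : ℕ) :
    cv (u f) (fun b => H f (b + 1) * max (u f b) K) n ≤ H f 1 + psi (u f n) := by
  induction n using Nat.strong_induction_on with
  | _ n ih =>
    rw [cv_u_rec G]
    rcases Nat.eq_zero_or_pos n with rfl | hn
    · have : cv f (cv (u f) fun b => H f (b + 1) * max (u f b) K) 0 = 0 := by
        simp [cv, G.zero]
      rw [this, u_zero, psi_one, max_eq_left hK1]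
      simp
    · set a := max (u f n) (Real.exp (-1)) with ha
      have ha1 : Real.exp (-1) ≤ a := le_max_right _ _
      have ha0 : 0 < a := lt_of_lt_of_le (Real.exp_pos _) ha1
      have hg0 : 0 ≤ H f n := H_nonneg G n
      have hε : 0 ≤ H f 1 := H_nonneg G 1
      have h1 : cv f (cv (u f) fun b => H f (b + 1) * max (u f b) K) n
          ≤ (1 - H f n) * (H f 1 + a) - u f n * (1 + Real.log a) := by
        have h2 : (1 - H f n) * (H f 1 + a) - u f n * (1 + Real.log a)
            = ∑ k ∈ range (n + 1), f k * (H f 1 + (a - u f (n - k) * (1 + Real.log a))) := by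
          rw [u_rec G.zero n hn, sum_mul]
          have : 1 - H f n = ∑ k ∈ range (n + 1), f k := by unfold H; ring
          rw [this, sum_mul, ← sum_sub_distrib]
          refine sum_congr rfl fun k _ => ?_
          ring
        rw [h2]
        unfold cv
        refine sum_le_sum fun k hk => ?_
        rcases Nat.eq_zero_or_pos k with rfl | hk0
        · rw [G.zero, zero_mul, zero_mul]
        · refine mul_le_mul_of_nonneg_left ?_ (G.nonneg k)
          have h3 := ih (n - k) (by omega)
          have h4 := psi_le (u f (n - k)) a ha1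
          unfold cv at h3
          linarith
      have h5 : max (u f n) K ≤ H f 1 + a := by
        refine max_le ?_ ?_
        · have : u f n ≤ a := le_max_left _ _
          linarith
        · rw [hK]; linarith
      have h6 : H f (n + 1) * max (u f n) K ≤ H f n * (H f 1 + a) := by
        have h7 := H_antitone_succ G n
        have h8 : 0 ≤ max (u f n) K := (u_nonneg G.nonneg n).trans (le_max_left _ _)
        exact mul_le_mul h7 h5 h8 hg0
      have h9 : u f n * (1 + Real.log a) = a * (1 + Real.log a) := by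
        rcases le_total (Real.exp (-1)) (u f n) with h | h
        · rw [show a = u f n from max_eq_left h]
        · rw [show a = Real.exp (-1) from max_eq_right h, Real.log_exp]; ring
      have h10 : psi (u f n) = - a * Real.log a := rfl
      rw [h10]
      nlinarith

lemma Psi_le (K : ℝ) (z : ℕ) (hz : 0 < z) (hD : ∀ b, b < z → D f b ≤ max (u f b) K) :
    Psi f z ≤ cv (u f) (fun b => H f (b + 1) * max (u f b) K) (z - 1) := by
  rw [cv_comm]
  unfold Psi cv
  rw [show z - 1 + 1 = z by omega]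
  refine sum_le_sum fun b hb => ?_
  rw [mem_range] at hb
  rw [mul_comm (u f (z - 1 - b))]
  refine mul_le_mul_of_nonneg_right ?_ (u_nonneg G.nonneg _)
  exact mul_le_mul_of_nonneg_left (hD b hb) (H_nonneg G _)

lemma M2 (K : ℝ) (hK : K = Real.exp (-1) + H f 1) (hK1 : K ≤ 1) (n : ℕ) :
    D f n ≤ max (u f n) K := by
  induction n using Nat.strong_induction_on with
  | _ n ih =>
    obtain ⟨m, hm, h1, h2⟩ := R_touch f n
    rcases Nat.lt_or_ge m n with h | h
    · refine le_trans ?_ (le_max_right _ _)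
      refine (flat G n m h h1 h2).trans ?_
      refine (Psi_le G K (m + 1) (by omega) fun b hb => ih b (by omega)).trans ?_
      rw [Nat.add_sub_cancel]
      refine (M3 G K hK hK1 m).trans ?_
      have := psi_le_exp (u f m)
      rw [hK]; linarith
    · have : m = n := by omega
      subst this
      exact (touch G m h2).trans (le_max_left _ _)

/-- The sharp inequality. -/
theorem sharp (hK1 : Real.exp (-1) + H f 1 ≤ 1) (z t : ℕ) (hz : 0 < z) :
    u f (z + t) - u f z * u f t ≤ H f 1 + psi (u f (z - 1)) := by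
  refine (M1 G z t hz).trans ?_
  refine (Psi_le G _ z hz fun b _ => M2 G _ rfl hK1 b).trans ?_
  exact M3 G _ rfl hK1 (z - 1)

end

end Pool.Agent.Helper945.Sharp
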