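import Pool.Agent.Helper945.PDef
import Pool.Agent.Helper945.Sharp
import Pool.Agent.Helper945.Proc

set_option autoImplicit false
set_option linter.unusedSectionVars false

open Finset Filter Topology MeasureTheory
open scoped NNReal

namespace Pool.Agent.Helper945.Skel

open Pool.Agent.Helper945.RenCore Pool.Agent.Helper945.PDef Pool.Agent.Helper945.Proc

lemma Ud_append (q : ℕ → ℝ) : ∀ (m : ℕ) (l : List ℕ) (k n : ℕ), l.length = m →
    (∀ b ∈ l, b ≤ k) → k ≤ n →
    Ud q (l ++ [k, n]) = Ud q (l ++ [k]) * q (n - k) := by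
  intro m
  induction m with
  | zero =>
    intro l k n hl _ _
    have : l = [] := List.length_eq_zero_iff.mp hl
    subst this
    simp [Ud_cons, Ud_nil]
  | succ m ih =>
    intro l k n hl hk hkn
    match l, hl, hk with
    | [], hl, _ => simp at hl
    | b :: l, hl, hk =>
      have hb : b ≤ k := hk b List.mem_cons_self
      simp only [List.cons_append, Ud_cons, List.map_append, List.map_cons, List.map_nil]
      have h := ih (l.map (· - b)) (k - b) (n - b) (by simpa using hl) (by
        intro c hc
        obtain ⟨d, hd, rfl⟩ := List.mem_map.mp hc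
        have := hk d (List.mem_cons_of_mem _ hd)
        omega) (by omega)
      rw [show n - b - (k - b) = n - k by omega] at h
      rw [h]; ring

section
variable {Ω : Type} [MeasurableSpace Ω] {P : Measure Ω} [IsProbabilityMeasure P]
  {e : ℕ → Set Ω} {q : ℕ → ℝ}

/-- required at `l`, forbidden strictly between `a` and `k`, required at `k` -/
def W (e : ℕ → Set Ω) (l : List ℕ) (a k : ℕ) : Set Ω :=
  {ω | (∀ i ∈ l, ω ∈ e i) ∧ (∀ j, a < j → j < k → ω ∉ e j) ∧ ω ∈ e k}

lemma meas_W (he : ∀ n, MeasurableSet (e n)) (l : List ℕ) (a k : ℕ) :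
    MeasurableSet (W e l a k) := by
  have h1 : W e l a k = (⋂ i ∈ l.toFinset, e i) ∩ ((⋂ j ∈ Finset.Ioo a k, (e j)ᶜ) ∩ e k) := by
    ext ω
    simp [W, and_imp]
  rw [h1]
  exact (Finset.measurableSet_biInter _ fun i _ => he i).inter
    ((Finset.measurableSet_biInter _ fun i _ => (he i).compl).inter (he k))

variable (he : ∀ n, MeasurableSet (e n))
  (hprod : ∀ l : List ℕ, l.Pairwise (· ≤ ·) → P.real {ω | ∀ i ∈ l, ω ∈ e i} = Ud q l)

include he hprod

lemma W_indep (n : ℕ) : ∀ (d a k : ℕ) (l : List ℕ), a + d + 1 = k → k ≤ n →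
    l.Pairwise (· ≤ ·) → (∀ b ∈ l, b ≤ a) →
    P.real (W e l a k ∩ e n) = P.real (W e l a k) * q (n - k) := by
  intro d
  induction d with
  | zero =>
    intro a k l hk hn hl hb
    have e1 : W e l a k ∩ e n = {ω | ∀ i ∈ l ++ [k, n], ω ∈ e i} := by
      ext ω
      simp only [W, Set.mem_inter_iff, Set.mem_ofPred_eq, List.mem_append, List.mem_cons,
        List.not_mem_nil, or_false]
      constructor
      · rintro ⟨⟨h1, h2, h3⟩, h4⟩ i (hi | rfl | rfl)
        · exact h1 i hi
        · exact h3
        · exact h4
      · intro h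
        exact ⟨⟨fun i hi => h i (Or.inl hi), fun j h1 h2 => by omega, h k (Or.inr (Or.inl rfl))⟩,
          h n (Or.inr (Or.inr rfl))⟩
    have e2 : W e l a k = {ω | ∀ i ∈ l ++ [k], ω ∈ e i} := by
      ext ω
      simp only [W, Set.mem_ofPred_eq, List.mem_append, List.mem_cons,
        List.not_mem_nil, or_false]
      constructor
      · rintro ⟨h1, h2, h3⟩ i (hi | rfl)
        · exact h1 i hi
        · exact h3
      · intro h
        exact ⟨fun i hi => h i (Or.inl hi), fun j h1 h2 => by omega, h k (Or.inr rfl)⟩
    rw [e1, e2, hprod, hprod, Ud_append q l.length l k n rfl (fun b hb' => by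
      have := hb b hb'; omega) hn]
    · rw [List.pairwise_append]
      refine ⟨hl, by simp, fun x hx y hy => ?_⟩
      have := hb x hx
      simp at hy
      omega
    · rw [List.pairwise_append]
      refine ⟨hl, by simp [hn], fun x hx y hy => ?_⟩
      have := hb x hx
      simp at hy
      omega
  | succ d ih =>
    intro a k l hk hn hl hb
    have e1 : W e l a k = W e l (a + 1) k \ W e (l ++ [a + 1]) (a + 1) k := by
      ext ω
      simp only [W, Set.mem_sdiff, Set.mem_ofPred_eq, List.mem_append, List.mem_singleton]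
      constructor
      · rintro ⟨h1, h2, h3⟩
        refine ⟨⟨h1, fun j h4 h5 => h2 j (by omega) h5, h3⟩, ?_⟩
        rintro ⟨h4, -, -⟩
        exact h2 (a + 1) (by omega) (by omega) (h4 (a + 1) (Or.inr rfl))
      · rintro ⟨⟨h1, h2, h3⟩, h4⟩
        refine ⟨h1, fun j h5 h6 h7 => ?_, h3⟩
        rcases Nat.lt_or_ge (a + 1) j with h8 | h8
        · exact h2 j h8 h6 h7
        · have : j = a + 1 := by omega
          subst this
          apply h4
          refine ⟨?_, h2, h3⟩
          rintro i (hi | rfl)
          · exact h1 i hi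
          · exact h7
    have hsub : W e (l ++ [a + 1]) (a + 1) k ⊆ W e l (a + 1) k := by
      rintro ω ⟨h1, h2, h3⟩
      exact ⟨fun i hi => h1 i (List.mem_append_left _ hi), h2, h3⟩
    have hpw : (l ++ [a + 1]).Pairwise (· ≤ ·) := by
      rw [List.pairwise_append]
      refine ⟨hl, by simp, fun x hx y hy => ?_⟩
      have := hb x hx
      simp at hy
      omega
    have hb' : ∀ b ∈ l ++ [a + 1], b ≤ a + 1 := by
      intro b hb2
      rw [List.mem_append, List.mem_singleton] at hb2
      rcases hb2 with h | rfl
      · have := hb b h; omega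
      · exact le_rfl
    have i1 := ih (a + 1) k l (by omega) hn hl (fun b hb2 => by have := hb b hb2; omega)
    have i2 := ih (a + 1) k (l ++ [a + 1]) (by omega) hn hpw hb'
    have e2 : W e l a k ∩ e n = (W e l (a + 1) k ∩ e n) \ (W e (l ++ [a + 1]) (a + 1) k ∩ e n) := by
      rw [e1]
      ext ω
      simp only [Set.mem_inter_iff, Set.mem_sdiff]
      tauto
    rw [e2, measureReal_sdiff (Set.inter_subset_inter_left _ hsub)
      ((meas_W he _ _ _).inter (he n)), i1, i2, e1, measureReal_sdiff hsub (meas_W he _ _ _)]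
    ring

omit [IsProbabilityMeasure P] he hprod in
lemma W_disj {k k' : ℕ} (hk : 0 < k) (h : k < k') : Disjoint (W e [] 0 k) (W e [] 0 k') := by
  rw [Set.disjoint_left]
  rintro ω ⟨-, -, h3⟩ ⟨-, h4, -⟩
  exact h4 k hk h h3

/-- the gap law -/
noncomputable def gap (P : Measure Ω) (e : ℕ → Set Ω) (k : ℕ) : ℝ :=
  if k = 0 then 0 else P.real (W e [] 0 k)

omit hprod in
lemma gap_law : GapLaw (gap P e) where
  zero := by simp [gap]
  nonneg := fun n => by
    unfold gap
    split_ifs
    · exact le_rfl
    · exact measureReal_nonneg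
  sum_le := fun n => by
    have h1 : ∑ m ∈ range n, gap P e m = ∑ m ∈ (range n).filter (fun m => 0 < m),
        P.real (W e [] 0 m) := by
      rw [sum_filter]
      refine sum_congr rfl fun m _ => ?_
      unfold gap
      rcases Nat.eq_zero_or_pos m with rfl | hm
      · simp
      · rw [if_neg hm.ne', if_pos hm]
    rw [h1, ← measureReal_biUnion_finset (μ := P) (s := (range n).filter (fun m => 0 < m))
      (f := fun m => W e [] 0 m)]
    · exact measureReal_le_one
    · intro i hi j hj hij
      have hi' : 0 < i := (by simpa using hi : i < n ∧ 0 < i).2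
      have hj' : 0 < j := (by simpa using hj : j < n ∧ 0 < j).2
      rcases lt_or_gt_of_ne hij with h | h
      · exact W_disj hi' h
      · exact (W_disj hj' h).symm
    · intro m _
      exact meas_W he _ _ _

lemma gap_rec (n : ℕ) (hn : 0 < n) :
    q n = ∑ k ∈ range (n + 1), gap P e k * q (n - k) := by
  have h0 : P.real (e n) = q n := by
    have := hprod [n] (List.pairwise_singleton _ _)
    rw [Ud_cons, List.map_nil, Ud_nil, mul_one] at this
    rw [← this]
    congr 1
    ext ω; simp
  have h1 : ∑ k ∈ range (n + 1), gap P e k * q (n - k)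
      = ∑ k ∈ (range (n + 1)).filter (fun m => 0 < m), P.real (W e [] 0 k ∩ e n) := by
    rw [sum_filter]
    refine sum_congr rfl fun k hk => ?_
    rw [mem_range] at hk
    unfold gap
    rcases Nat.eq_zero_or_pos k with rfl | hk0
    · simp
    · rw [if_neg hk0.ne', if_pos hk0,
        W_indep he hprod n (k - 1) 0 k [] (by omega) (by omega) List.Pairwise.nil (by simp)]
  rw [h1, ← measureReal_biUnion_finset (μ := P) (s := (range (n + 1)).filter (fun m => 0 < m))
      (f := fun m => W e [] 0 m ∩ e n), ← h0]
  · congr 1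
    ext ω
    simp only [Set.mem_iUnion, mem_filter, mem_range, Set.mem_inter_iff, exists_prop]
    constructor
    · intro hω
      classical
      have hex : ∃ k, 0 < k ∧ ω ∈ e k := ⟨n, hn, hω⟩
      refine ⟨Nat.find hex, ⟨?_, (Nat.find_spec hex).1⟩, ⟨?_, ?_, (Nat.find_spec hex).2⟩, hω⟩
      · exact Nat.lt_succ_of_le (Nat.find_min' hex ⟨hn, hω⟩)
      · intro i hi; simp at hi
      · intro j hj0 hj hmem
        exact Nat.find_min hex hj ⟨hj0, hmem⟩
    · rintro ⟨k, -, -, h⟩
      exact h
  · intro i hi j hj hij
    have hi' : 0 < i := (by simpa using hi : i < n + 1 ∧ 0 < i).2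
    have hj' : 0 < j := (by simpa using hj : j < n + 1 ∧ 0 < j).2
    have h3 : Disjoint (W e [] 0 i) (W e [] 0 j) := by
      rcases lt_or_gt_of_ne hij with h | h
      · exact W_disj hi' h
      · exact (W_disj hj' h).symm
    exact h3.mono Set.inter_subset_left Set.inter_subset_left
  · intro m _
    exact (meas_W he _ _ _).inter (he n)

lemma u_gap (hq0 : q 0 = 1) (n : ℕ) : u (gap P e) n = q n := by
  have G : GapLaw (gap P e) := gap_law he
  induction n using Nat.strong_induction_on with
  | _ n ih =>
    rcases Nat.eq_zero_or_pos n with rfl | hn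
    · rw [u_zero, hq0]
    · rw [u_rec G.zero n hn, gap_rec he hprod n hn]
      refine sum_congr rfl fun k _ => ?_
      rcases Nat.eq_zero_or_pos k with rfl | hk
      · rw [G.zero, zero_mul, zero_mul]
      · rw [ih (n - k) (by omega)]

end

/-- Skeletons of p-functions are renewal sequences. -/
theorem skeleton {p : ℝ≥0 → ℝ} (hp : IsPFunction p) (h : ℝ≥0) :
    ∃ f : ℕ → ℝ, GapLaw f ∧ ∀ n : ℕ, u f n = p (n * h) := by
  obtain ⟨hp0, -, Ω, mΩ, P, E, hP, hE, -, hprod⟩ := hp
  have key : ∀ (m : ℕ) (l : List ℕ), l.length = m → l.Pairwise (· ≤ ·) →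
      P.real {ω | ∀ i ∈ l, ω ∈ E (i * h)} = Ud (fun n : ℕ => p (n * h)) l := by
    intro m
    induction m with
    | zero =>
      intro l hl _
      have : l = [] := List.length_eq_zero_iff.mp hl
      subst this
      rw [Ud_nil]
      simp
    | succ m ih =>
      intro l hl hpw
      match l, hl, hpw with
      | [], hl, _ => simp at hl
      | b :: l, hl, hpw =>
        rw [Ud_cons]
        rw [List.pairwise_cons] at hpw
        have hlen : l.length = m := by simpa using hl
        rw [← ih (l.map (· - b)) (by simpa using hlen)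
          (List.Pairwise.map _ (fun c d hcd => Nat.sub_le_sub_right hcd _) hpw.2)]
        set t : Fin (l.length + 1) → ℝ≥0 := fun i => (((b :: l).get i : ℕ) : ℝ≥0) * h with ht
        have hmono : Monotone t := by
          intro i j hij
          simp only [ht]
          refine mul_le_mul_left ?_ h
          have h2 : (b :: l).Pairwise (· ≤ ·) := List.pairwise_cons.mpr hpw
          rcases hij.eq_or_lt with rfl | hlt
          · exact le_rfl
          · exact_mod_cast List.pairwise_iff_get.mp h2 i j hlt
        have h3 := hprod l.length t hmono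
        have e1 : (⋂ i, E (t i)) = {ω | ∀ i ∈ b :: l, ω ∈ E (i * h)} := by
          ext ω
          simp only [Set.mem_iInter, Set.mem_ofPred_eq, ht]
          constructor
          · intro hω i hi
            obtain ⟨j, rfl⟩ := List.mem_iff_get.mp hi
            exact hω j
          · intro hω i
            exact hω _ (List.get_mem _ _)
        have e2 : (⋂ i : Fin l.length, E (t i.succ - t 0))
            = {ω | ∀ i ∈ l.map (· - b), ω ∈ E (i * h)} := by
          ext ω
          simp only [Set.mem_iInter, Set.mem_ofPred_eq, ht]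
          have e3 : ∀ i : Fin l.length, (((b :: l).get i.succ : ℕ) : ℝ≥0) * h
              - (((b :: l).get 0 : ℕ) : ℝ≥0) * h = ((l.get i - b : ℕ) : ℝ≥0) * h := by
            intro i
            rw [← tsub_mul, Nat.cast_tsub]
            rfl
          simp only [e3]
          constructor
          · intro hω i hi
            obtain ⟨c, hc, rfl⟩ := List.mem_map.mp hi
            obtain ⟨j, rfl⟩ := List.mem_iff_get.mp hc
            exact hω j
          · intro hω i
            exact hω _ (List.mem_map.mpr ⟨_, List.get_mem _ _, rfl⟩)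
        rw [e1, e2] at h3
        exact h3
  refine ⟨gap P (fun n => E (n * h)), gap_law fun n => hE _, fun n => ?_⟩
  exact u_gap (q := fun n : ℕ => p (n * h)) (fun n => hE _) (fun l hl => key l.length l rfl hl)
    (by simpa using hp0) n

/-- Supermultiplicativity. -/
theorem supermul {p : ℝ≥0 → ℝ} (hp : IsPFunction p) (s t : ℝ≥0) : p s * p t ≤ p (s + t) := by
  obtain ⟨hp0, -, Ω, mΩ, P, E, hP, hE, hEp, hprod⟩ := hp
  have h := hprod 1 ![s, s + t] (by
    intro i j hij
    fin_cases i <;> fin_cases j <;> simp_all)
  simp only [Matrix.cons_val_zero] at h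
  have e1 : (⋂ i : Fin 1, E ((![s, s + t] : Fin 2 → ℝ≥0) i.succ - s)) = E t := by
    ext ω
    simp
  rw [e1, hEp t] at h
  rw [← h, ← hEp (s + t)]
  refine measureReal_mono ?_
  intro ω hω
  have := Set.mem_iInter.mp hω 1
  simpa using this

end Pool.Agent.Helper945.Skel
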