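import Mathlib

set_option autoImplicit false

namespace Pool.Agent.Helper945.SolDefs

universe u

/-- `S` solves Q1: the set `End S` of all endomorphisms, with the pointwise product
(`(φ * ψ) a = φ a * ψ a`, which is the multiplication that Mathlib puts on `S →ₙ* S` for a
commutative semigroup `S`), is isomorphic to the additive semigroup of positive rationals. -/
def IsSol1 (S : Type u) [CommSemigroup S] : Prop :=
  Nonempty ((S →ₙ* S) ≃* Multiplicative {q : ℚ // 0 < q})

/-- `S` solves Q2: `End S` with the pointwise product is isomorphic to the additive semigroup of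
nonnegative rationals. -/
def IsSol2 (S : Type u) [CommSemigroup S] : Prop :=
  Nonempty ((S →ₙ* S) ≃* Multiplicative {q : ℚ // 0 ≤ q})

/-- the multiplication of `S →ₙ* S` is the pointwise product -/
lemma end_mul_apply {S : Type u} [CommSemigroup S] (φ ψ : S →ₙ* S) (a : S) :
    (φ * ψ) a = φ a * ψ a := rfl

/-- `pw x n` is the power `x ^ (n + 1)`: so `pw x 0 = x` and `pw x (n + 1) = pw x n * x`. -/
def pw {S : Type u} [Mul S] (x : S) : ℕ → S
  | 0 => x
  | n + 1 => pw x n * x

/-- two commutative semigroup structures on the set `K` are isomorphic -/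
def IsoRel {K : Type u} (m m' : CommSemigroup K) : Prop :=
  ∃ e : K ≃ K, ∀ x y, e (m.mul x y) = m'.mul (e x) (e y)

lemma IsoRel.refl {K : Type u} (m : CommSemigroup K) : IsoRel m m := ⟨Equiv.refl K, fun _ _ => rfl⟩

lemma IsoRel.symm {K : Type u} {m m' : CommSemigroup K} (h : IsoRel m m') : IsoRel m' m := by
  obtain ⟨e, he⟩ := h
  refine ⟨e.symm, fun x y => ?_⟩
  apply e.injective
  rw [he]
  simp

lemma IsoRel.trans {K : Type u} {m m' m'' : CommSemigroup K} (h : IsoRel m m')
    (h' : IsoRel m' m'') : IsoRel m m'' := by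
  obtain ⟨e, he⟩ := h
  obtain ⟨f, hf⟩ := h'
  refine ⟨e.trans f, fun x y => ?_⟩
  simp only [Equiv.trans_apply]
  rw [he, hf]

/-- the solutions of Q1 with underlying set `K` -/
abbrev Sols1 (K : Type u) : Type u := {m : CommSemigroup K // @IsSol1 K m}

/-- the solutions of Q2 with underlying set `K` -/
abbrev Sols2 (K : Type u) : Type u := {m : CommSemigroup K // @IsSol2 K m}

/-- isomorphism of solutions of Q1 with underlying set `K` -/
def iso1 (K : Type u) : Setoid (Sols1 K) where
  r a b := IsoRel a.1 b.1
  iseqv := ⟨fun a => IsoRel.refl a.1, IsoRel.symm, IsoRel.trans⟩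

/-- isomorphism of solutions of Q2 with underlying set `K` -/
def iso2 (K : Type u) : Setoid (Sols2 K) where
  r a b := IsoRel a.1 b.1
  iseqv := ⟨fun a => IsoRel.refl a.1, IsoRel.symm, IsoRel.trans⟩

end Pool.Agent.Helper945.SolDefs
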