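import Mathlib
import Pool.Agent.Helper945.SolDefs

set_option autoImplicit false
set_option linter.unusedSectionVars false

open Polynomial

namespace Pool.Agent.Helper945.SolProof

open Pool.Agent.Helper945.SolDefs

universe u

section Crit

variable {S : Type u} [CommSemigroup S]

lemma mulhom_mul_apply (f g : S →ₙ* S) (x : S) : (f * g) x = f x * g x := rfl

lemma coe_pw (x : S) (n : ℕ) : ((pw x n : S) : WithOne S) = (x : WithOne S) ^ (n + 1) := by
  induction n with
  | zero => simp [pw]
  | succ n ih => rw [pw, WithOne.coe_mul, ih, ← pow_succ]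

lemma map_pw {T : Type u} [CommSemigroup T] (φ : S →ₙ* T) (x : S) (n : ℕ) :
    φ (pw x n) = pw (φ x) n := by
  induction n with
  | zero => rfl
  | succ n ih => rw [pw, pw, map_mul, ih]

lemma pw_mul (x y : S) (n : ℕ) : pw (x * y) n = pw x n * pw y n := by
  apply WithOne.coe_injective
  rw [WithOne.coe_mul, coe_pw, coe_pw, coe_pw, WithOne.coe_mul, mul_pow]

lemma pw_pw (x : S) (m n : ℕ) : pw (pw x m) n = pw x ((m + 1) * (n + 1) - 1) := by
  apply WithOne.coe_injective
  rw [coe_pw, coe_pw, coe_pw, ← pow_mul]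
  congr 1

lemma pw_add (x : S) (m n : ℕ) : pw x m * pw x n = pw x (m + n + 1) := by
  apply WithOne.coe_injective
  rw [WithOne.coe_mul, coe_pw, coe_pw, coe_pw, ← pow_add]
  congr 1
  omega

lemma pw_end_apply (φ : S →ₙ* S) (n : ℕ) (x : S) : (pw φ n) x = pw (φ x) n := by
  induction n with
  | zero => rfl
  | succ n ih => rw [pw, pw, mulhom_mul_apply, ih]

lemma pw_idem {e : S} (he : e * e = e) (n : ℕ) : pw e n = e := by
  induction n with
  | zero => rfl
  | succ n ih => rw [pw, ih, he]

/-- a coincidence of powers gives an idempotent power -/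
lemma exists_idem {x : S} {a b : ℕ} (h : pw x a = pw x b) (hab : a < b) :
    ∃ k, pw x k * pw x k = pw x k := by
  set y : WithOne S := (x : WithOne S) with hy
  have h1 : y ^ (a + 1) = y ^ (a + 1 + (b - a)) := by
    have := congrArg (fun s : S => (s : WithOne S)) h
    simp only [coe_pw] at this
    rw [hy, this]
    congr 1
    omega
  set d := b - a with hd
  have hd0 : 0 < d := by omega
  have h2 : ∀ j, y ^ (a + 1 + j * d) = y ^ (a + 1) := by
    intro j
    induction j with
    | zero => simp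
    | succ j ih =>
      calc y ^ (a + 1 + (j + 1) * d) = y ^ (a + 1 + j * d) * y ^ d := by
            rw [← pow_add]; congr 1; ring
        _ = y ^ (a + 1) * y ^ d := by rw [ih]
        _ = y ^ (a + 1) := by rw [← pow_add, ← h1]
  have hk : a + 1 ≤ (a + 1) * d := Nat.le_mul_of_pos_right _ hd0
  obtain ⟨r, hr⟩ := Nat.exists_eq_add_of_le hk
  refine ⟨(a + 1) * d - 1, ?_⟩
  rw [pw_add]
  apply WithOne.coe_injective
  rw [coe_pw, coe_pw]
  have e1 : (a + 1) * d - 1 + ((a + 1) * d - 1) + 1 + 1 = r + (a + 1 + (a + 1) * d) := by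
    have : 0 < (a + 1) * d := by positivity
    omega
  have e2 : (a + 1) * d - 1 + 1 = r + (a + 1) := by
    have : 0 < (a + 1) * d := by positivity
    omega
  rw [e1, e2]
  show y ^ (r + (a + 1 + (a + 1) * d)) = y ^ (r + (a + 1))
  rw [pow_add y r, h2, pow_add y r]

lemma pw_inj (hid : ∀ e : S, e * e ≠ e) {x : S} {a b : ℕ} (h : pw x a = pw x b) : a = b := by
  rcases lt_trichotomy a b with hab | hab | hab
  · obtain ⟨k, hk⟩ := exists_idem h hab
    exact absurd hk (hid _)
  · exact hab
  · obtain ⟨k, hk⟩ := exists_idem h.symm hab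
    exact absurd hk (hid _)

lemma sol1_iff_val : IsSol1 S ↔ ∃ v : (S →ₙ* S) → ℚ, Function.Injective v ∧
    Set.range v = {q | 0 < q} ∧ ∀ φ ψ, v (φ * ψ) = v φ + v ψ := by
  constructor
  · rintro ⟨Φ⟩
    refine ⟨fun φ => ((Multiplicative.toAdd (Φ φ) : {q : ℚ // 0 < q}) : ℚ), ?_, ?_, ?_⟩
    · intro φ ψ h
      exact Φ.injective (Multiplicative.toAdd.injective (Subtype.ext h))
    · ext q
      constructor
      · rintro ⟨φ, rfl⟩
        exact (Multiplicative.toAdd (Φ φ)).2
      · intro hq
        refine ⟨Φ.symm (Multiplicative.ofAdd ⟨q, hq⟩), ?_⟩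
        simp
    · intro φ ψ
      show ((Multiplicative.toAdd (Φ (φ * ψ)) : {q : ℚ // 0 < q}) : ℚ) = _
      rw [map_mul]
      rfl
  · rintro ⟨v, hinj, hr, hadd⟩
    have hpos : ∀ φ, 0 < v φ := fun φ => by
      have : v φ ∈ Set.range v := ⟨φ, rfl⟩
      rw [hr] at this
      exact this
    refine ⟨MulEquiv.ofBijective
      (⟨fun φ => Multiplicative.ofAdd ⟨v φ, hpos φ⟩, fun φ ψ => ?_⟩ :
        (S →ₙ* S) →ₙ* Multiplicative {q : ℚ // 0 < q}) ⟨?_, ?_⟩⟩
    · apply Multiplicative.toAdd.injective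
      apply Subtype.ext
      simp [hadd]
    · intro φ ψ h
      apply hinj
      have h2 := congrArg (fun t => ((Multiplicative.toAdd t : {q : ℚ // 0 < q}) : ℚ)) h
      exact h2
    · intro q
      have : ((Multiplicative.toAdd q : {q : ℚ // 0 < q}) : ℚ) ∈ Set.range v := by
        rw [hr]; exact (Multiplicative.toAdd q).2
      obtain ⟨φ, hφ⟩ := this
      refine ⟨φ, ?_⟩
      apply Multiplicative.toAdd.injective
      apply Subtype.ext
      exact hφ

lemma sol2_iff_val : IsSol2 S ↔ ∃ v : (S →ₙ* S) → ℚ, Function.Injective v ∧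
    Set.range v = {q | 0 ≤ q} ∧ ∀ φ ψ, v (φ * ψ) = v φ + v ψ := by
  constructor
  · rintro ⟨Φ⟩
    refine ⟨fun φ => ((Multiplicative.toAdd (Φ φ) : {q : ℚ // 0 ≤ q}) : ℚ), ?_, ?_, ?_⟩
    · intro φ ψ h
      exact Φ.injective (Multiplicative.toAdd.injective (Subtype.ext h))
    · ext q
      constructor
      · rintro ⟨φ, rfl⟩
        exact (Multiplicative.toAdd (Φ φ)).2
      · intro hq
        refine ⟨Φ.symm (Multiplicative.ofAdd ⟨q, hq⟩), ?_⟩
        simp
    · intro φ ψ
      show ((Multiplicative.toAdd (Φ (φ * ψ)) : {q : ℚ // 0 ≤ q}) : ℚ) = _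
      rw [map_mul]
      rfl
  · rintro ⟨v, hinj, hr, hadd⟩
    have hpos : ∀ φ, 0 ≤ v φ := fun φ => by
      have : v φ ∈ Set.range v := ⟨φ, rfl⟩
      rw [hr] at this
      exact this
    refine ⟨MulEquiv.ofBijective
      (⟨fun φ => Multiplicative.ofAdd ⟨v φ, hpos φ⟩, fun φ ψ => ?_⟩ :
        (S →ₙ* S) →ₙ* Multiplicative {q : ℚ // 0 ≤ q}) ⟨?_, ?_⟩⟩
    · apply Multiplicative.toAdd.injective
      apply Subtype.ext
      simp [hadd]
    · intro φ ψ h
      apply hinj
      have h2 := congrArg (fun t => ((Multiplicative.toAdd t : {q : ℚ // 0 ≤ q}) : ℚ)) h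
      exact h2
    · intro q
      have : ((Multiplicative.toAdd q : {q : ℚ // 0 ≤ q}) : ℚ) ∈ Set.range v := by
        rw [hr]; exact (Multiplicative.toAdd q).2
      obtain ⟨φ, hφ⟩ := this
      refine ⟨φ, ?_⟩
      apply Multiplicative.toAdd.injective
      apply Subtype.ext
      exact hφ

lemma val_pw {v : (S →ₙ* S) → ℚ} (hadd : ∀ φ ψ, v (φ * ψ) = v φ + v ψ) (φ : S →ₙ* S) (n : ℕ) :
    v (pw φ n) = (n + 1) * v φ := by
  induction n with
  | zero => simp [pw]
  | succ n ih => rw [pw, hadd, ih]; push_cast; ring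

/-- the constant endomorphism at an idempotent -/
def constEnd (e : S) (he : e * e = e) : S →ₙ* S := ⟨fun _ => e, fun _ _ => he.symm⟩

/-- from a value map: roots and rational powers -/
lemma roots_of_val {v : (S →ₙ* S) → ℚ} (hinj : Function.Injective v)
    (hr : ∀ q : ℚ, 0 < q → ∃ φ, v φ = q) (hadd : ∀ φ ψ, v (φ * ψ) = v φ + v ψ)
    (hid : 0 < v (MulHom.id S)) :
    (∀ n, Function.Bijective (fun x : S => pw x n)) ∧
      ∀ φ : S →ₙ* S, 0 < v φ → ∃ m n, ∀ x, pw (φ x) n = pw x m := by
  constructor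
  · intro n
    obtain ⟨ψ, hψ⟩ := hr (v (MulHom.id S) / (n + 1)) (by positivity)
    have h1 : pw ψ n = MulHom.id S := by
      apply hinj
      rw [val_pw hadd, hψ]
      field_simp
    have h2 : ∀ x, pw (ψ x) n = x := by
      intro x
      rw [← pw_end_apply, h1]; rfl
    constructor
    · intro x y hxy
      have h3 : ∀ z, ψ (pw z n) = z := fun z => by rw [map_pw, h2]
      have h4 := congrArg ψ hxy
      simp only [h3] at h4
      exact h4
    · intro x
      exact ⟨ψ x, h2 x⟩
  · intro φ hφ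
    set r : ℚ := v φ / v (MulHom.id S) with hrd
    have hr0 : 0 < r := div_pos hφ hid
    have h1 : (r.den : ℚ) * v φ = r.num * v (MulHom.id S) := by
      have h2 : v φ = r * v (MulHom.id S) := by rw [hrd]; field_simp
      rw [h2, ← mul_assoc, mul_comm (r.den : ℚ) r, Rat.mul_den_eq_num]
    have hnum : 0 < r.num := Rat.num_pos.mpr hr0
    refine ⟨r.num.toNat - 1, r.den - 1, fun x => ?_⟩
    have h3 : pw φ (r.den - 1) = pw (MulHom.id S) (r.num.toNat - 1) := by
      apply hinj
      rw [val_pw hadd, val_pw hadd]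
      have e1 : ((r.den - 1 : ℕ) : ℚ) + 1 = r.den := by
        have : 1 ≤ r.den := r.den_pos
        push_cast [this]; ring
      have e2 : ((r.num.toNat - 1 : ℕ) : ℚ) + 1 = r.num := by
        have h4 : 1 ≤ r.num.toNat := by omega
        have h5 : ((r.num.toNat : ℕ) : ℤ) = r.num := Int.toNat_of_nonneg hnum.le
        have h6 : ((r.num.toNat : ℕ) : ℚ) = (r.num : ℚ) := by exact_mod_cast h5
        push_cast [h4]
        rw [h6]; ring
      rw [e1, e2, h1]
    have h4 := congrArg (fun f : S →ₙ* S => f x) h3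
    simp only [pw_end_apply] at h4
    exact h4

/-- intrinsic form of Q1 -/
theorem criterion1 : IsSol1 S ↔ Nonempty S ∧ (∀ e : S, e * e ≠ e) ∧
    (∀ n, Function.Bijective (fun x : S => pw x n)) ∧
    ∀ φ : S →ₙ* S, ∃ m n, ∀ x, pw (φ x) n = pw x m := by
  rw [sol1_iff_val]
  constructor
  · rintro ⟨v, hinj, hr, hadd⟩
    have hpos : ∀ φ, 0 < v φ := fun φ => by
      have : v φ ∈ Set.range v := ⟨φ, rfl⟩
      rw [hr] at this
      exact this
    have hsur : ∀ q : ℚ, 0 < q → ∃ φ, v φ = q := fun q hq => by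
      have : q ∈ Set.range v := by rw [hr]; exact hq
      exact this
    obtain ⟨h1, h2⟩ := roots_of_val hinj hsur hadd (hpos _)
    refine ⟨?_, ?_, h1, fun φ => h2 φ (hpos φ)⟩
    · by_contra hne
      rw [not_nonempty_iff] at hne
      obtain ⟨φ, hφ⟩ := hsur 1 one_pos
      obtain ⟨ψ, hψ⟩ := hsur 2 two_pos
      have : φ = ψ := by ext x; exact hne.elim x
      rw [this, hψ] at hφ
      norm_num at hφ
    · intro e he
      have h3 : constEnd e he * constEnd e he = constEnd e he := by
        ext x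
        exact he
      have h4 := hadd (constEnd e he) (constEnd e he)
      rw [h3] at h4
      have := hpos (constEnd e he)
      linarith
  · rintro ⟨⟨x0⟩, hid, hbij, hend⟩
    choose m n hmn using hend
    have hval : ∀ (φ : S →ₙ* S) (a b : ℕ), (∀ x, pw (φ x) b = pw x a) →
        ((a : ℚ) + 1) / (b + 1) = ((m φ : ℚ) + 1) / (n φ + 1) := by
      intro φ a b hab
      have h1 : pw (pw (φ x0) b) (n φ) = pw (pw (φ x0) (n φ)) b := by
        rw [pw_pw, pw_pw, mul_comm]
      rw [hab, hmn, pw_pw, pw_pw] at h1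
      have h2 := pw_inj hid h1
      have h3 : (a + 1) * (n φ + 1) = (m φ + 1) * (b + 1) := by
        have p1 : 0 < (a + 1) * (n φ + 1) := by positivity
        have p2 : 0 < (m φ + 1) * (b + 1) := by positivity
        omega
      rw [div_eq_div_iff (by positivity) (by positivity)]
      exact_mod_cast h3
    refine ⟨fun φ => ((m φ : ℚ) + 1) / (n φ + 1), ?_, ?_, ?_⟩
    · intro φ ψ h
      simp only at h
      rw [div_eq_div_iff (by positivity) (by positivity)] at h
      have h3 : (m φ + 1) * (n ψ + 1) = (m ψ + 1) * (n φ + 1) := by exact_mod_cast h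
      ext x
      apply (hbij ((n φ + 1) * (n ψ + 1) - 1)).1
      show pw (φ x) _ = pw (ψ x) _
      rw [← pw_pw, hmn, mul_comm (n φ + 1), ← pw_pw, hmn, pw_pw, pw_pw, h3]
    · ext q
      constructor
      · rintro ⟨φ, rfl⟩
        show (0 : ℚ) < _
        positivity
      · intro hq
        change 0 < q at hq
        have hnum : 0 < q.num := Rat.num_pos.mpr hq
        set R := Equiv.ofBijective _ (hbij (q.den - 1)) with hR
        have hRs : ∀ x, pw (R.symm x) (q.den - 1) = x := fun x => R.apply_symm_apply x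
        have hRmul : ∀ x y, R.symm (x * y) = R.symm x * R.symm y := by
          intro x y
          apply R.injective
          show pw (R.symm (x * y)) (q.den - 1) = pw (R.symm x * R.symm y) (q.den - 1)
          rw [pw_mul, hRs, hRs, hRs]
        set φ : S →ₙ* S := ⟨fun x => pw (R.symm x) (q.num.toNat - 1), fun x y => by
          rw [hRmul, pw_mul]⟩ with hφ
        refine ⟨φ, ?_⟩
        have h5 : ∀ x, pw (φ x) (q.den - 1) = pw x (q.num.toNat - 1) := by
          intro x
          show pw (pw (R.symm x) (q.num.toNat - 1)) (q.den - 1) = _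
          rw [pw_pw, mul_comm, ← pw_pw, hRs]
        have h6 := hval φ _ _ h5
        show ((m φ : ℚ) + 1) / (n φ + 1) = q
        rw [← h6]
        have e1 : ((q.den - 1 : ℕ) : ℚ) + 1 = q.den := by
          have : 1 ≤ q.den := q.den_pos
          push_cast [this]; ring
        have e2 : ((q.num.toNat - 1 : ℕ) : ℚ) + 1 = q.num := by
          have h4 : 1 ≤ q.num.toNat := by omega
          have h5 : ((q.num.toNat : ℕ) : ℤ) = q.num := Int.toNat_of_nonneg hnum.le
          have h6 : ((q.num.toNat : ℕ) : ℚ) = (q.num : ℚ) := by exact_mod_cast h5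
          push_cast [h4]
          rw [h6]; ring
        rw [e1, e2]
        exact Rat.num_div_den q
    · intro φ ψ
      have h1 : ∀ x, pw ((φ * ψ) x) ((n φ + 1) * (n ψ + 1) - 1) =
          pw x ((m φ + 1) * (n ψ + 1) + (m ψ + 1) * (n φ + 1) - 1) := by
        intro x
        rw [mulhom_mul_apply, pw_mul, ← pw_pw, hmn, mul_comm (n φ + 1), ← pw_pw, hmn, pw_pw,
          pw_pw, pw_add]
        congr 1
        have p1 : 0 < (m φ + 1) * (n ψ + 1) := by positivity
        have p2 : 0 < (m ψ + 1) * (n φ + 1) := by positivity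
        omega
      have h2 := hval (φ * ψ) _ _ h1
      show ((m (φ * ψ) : ℚ) + 1) / (n (φ * ψ) + 1) = _
      rw [← h2]
      have p1 : 1 ≤ (n φ + 1) * (n ψ + 1) := Nat.one_le_iff_ne_zero.mpr (by positivity)
      have p2 : 1 ≤ (m φ + 1) * (n ψ + 1) + (m ψ + 1) * (n φ + 1) :=
        Nat.one_le_iff_ne_zero.mpr (by positivity)
      push_cast [p1, p2]
      field_simp
      ring

/-- intrinsic form of Q2 -/
theorem criterion2 : IsSol2 S ↔ ∃ e : S, (∀ x, e * x = x) ∧ (∃ a, a ≠ e) ∧
    (∀ a, a * a = a → a = e) ∧ (∀ n, Function.Bijective (fun x : S => pw x n)) ∧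
    ∀ φ : S →ₙ* S, (∀ x, φ x = e) ∨ ∃ m n, ∀ x, pw (φ x) n = pw x m := by
  rw [sol2_iff_val]
  constructor
  · rintro ⟨v, hinj, hr, hadd⟩
    have hpos : ∀ φ, 0 ≤ v φ := fun φ => by
      have : v φ ∈ Set.range v := ⟨φ, rfl⟩
      rw [hr] at this
      exact this
    have hsur : ∀ q : ℚ, 0 ≤ q → ∃ φ, v φ = q := fun q hq => by
      have : q ∈ Set.range v := by rw [hr]; exact hq
      exact this
    obtain ⟨ε, hε⟩ := hsur 0 le_rfl
    obtain ⟨δ, hδ⟩ := hsur 1 zero_le_one
    have hne : Nonempty S := by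
      by_contra hne
      rw [not_nonempty_iff] at hne
      have : ε = δ := by ext x; exact hne.elim x
      rw [this, hδ] at hε
      norm_num at hε
    obtain ⟨x0⟩ := hne
    have hεε : ε * ε = ε := by
      apply hinj
      rw [hadd, hε]; ring
    have hidem : ∀ a (ha : a * a = a), constEnd a ha = ε := by
      intro a ha
      apply hinj
      have h3 : constEnd a ha * constEnd a ha = constEnd a ha := by
        ext x
        exact ha
      have h4 := hadd (constEnd a ha) (constEnd a ha)
      rw [h3] at h4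
      rw [hε]
      linarith
    have he : ε x0 * ε x0 = ε x0 := congrArg (fun f : S →ₙ* S => f x0) hεε
    have hconst : ∀ x, ε x = ε x0 := by
      intro x
      have := hidem _ he
      have h2 := congrArg (fun f : S →ₙ* S => f x) this
      exact h2.symm
    have hex : ∃ a, a ≠ ε x0 := by
      by_contra hc
      push Not at hc
      have : ε = δ := by ext x; rw [hc (ε x), hc (δ x)]
      rw [this, hδ] at hε
      norm_num at hε
    have hidpos : 0 < v (MulHom.id S) := by
      rcases (hpos (MulHom.id S)).eq_or_lt with h | h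
      · exfalso
        have : ε = MulHom.id S := hinj (by rw [hε, h])
        obtain ⟨a, ha⟩ := hex
        apply ha
        rw [← hconst a, this]
        rfl
      · exact h
    obtain ⟨h1, h2⟩ := roots_of_val hinj (fun q hq => hsur q hq.le) hadd hidpos
    refine ⟨ε x0, ?_, hex, ?_, h1, ?_⟩
    · intro x
      have h3 : ε * MulHom.id S = MulHom.id S := by
        apply hinj
        rw [hadd, hε]; ring
      have h4 := congrArg (fun f : S →ₙ* S => f x) h3
      rw [← hconst x]
      exact h4
    · intro a ha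
      have := hidem a ha
      exact congrArg (fun f : S →ₙ* S => f x0) this
    · intro φ
      rcases (hpos φ).eq_or_lt with h | h
      · left
        intro x
        have : φ = ε := hinj (by rw [hε, h])
        rw [this, hconst]
      · right
        exact h2 φ h
  · rintro ⟨e, hex, ⟨x0, hx0⟩, hid, hbij, hend⟩
    have hee : e * e = e := hex e
    have hinjx : ∀ a b, pw x0 a = pw x0 b → a = b := by
      intro a b hab
      have hno : ∀ k, pw x0 k * pw x0 k ≠ pw x0 k := by
        intro k hk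
        have h1 := hid _ hk
        apply hx0
        apply (hbij k).1
        show pw x0 k = pw e k
        rw [h1, pw_idem hee]
      rcases lt_trichotomy a b with h | h | h
      · obtain ⟨k, hk⟩ := exists_idem hab h
        exact absurd hk (hno _)
      · exact h
      · obtain ⟨k, hk⟩ := exists_idem hab.symm h
        exact absurd hk (hno _)
    have hexcl : ∀ φ : S →ₙ* S, (∀ x, φ x = e) → ∀ m n, ¬ ∀ x, pw (φ x) n = pw x m := by
      intro φ hφ m n hmn
      have h1 := hmn x0
      rw [hφ, pw_idem hee] at h1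
      apply hx0
      apply (hbij m).1
      show pw x0 m = pw e m
      rw [← h1, pw_idem hee]
    have hend' : ∀ φ : S →ₙ* S, ∃ m n : ℕ, ¬ (∀ x, φ x = e) → ∀ x, pw (φ x) n = pw x m := by
      intro φ
      rcases hend φ with h | ⟨m, n, h⟩
      · exact ⟨0, 0, fun h' => absurd h h'⟩
      · exact ⟨m, n, fun _ => h⟩
    choose m n hmn using hend'
    have hval : ∀ (φ : S →ₙ* S) (a b : ℕ), (∀ x, pw (φ x) b = pw x a) →
        ((a : ℚ) + 1) / (b + 1) = ((m φ : ℚ) + 1) / (n φ + 1) := by
      intro φ a b hab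
      have hnc : ¬ ∀ x, φ x = e := fun h => hexcl φ h a b hab
      have h1 : pw (pw (φ x0) b) (n φ) = pw (pw (φ x0) (n φ)) b := by
        rw [pw_pw, pw_pw, mul_comm]
      rw [hab, hmn φ hnc, pw_pw, pw_pw] at h1
      have h2 := hinjx _ _ h1
      have h3 : (a + 1) * (n φ + 1) = (m φ + 1) * (b + 1) := by
        have p1 : 0 < (a + 1) * (n φ + 1) := by positivity
        have p2 : 0 < (m φ + 1) * (b + 1) := by positivity
        omega
      rw [div_eq_div_iff (by positivity) (by positivity)]
      exact_mod_cast h3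
    classical
    set v : (S →ₙ* S) → ℚ := fun φ =>
      if (∀ x, φ x = e) then 0 else ((m φ : ℚ) + 1) / (n φ + 1) with hv
    have hv0 : ∀ φ : S →ₙ* S, (∀ x, φ x = e) → v φ = 0 := fun φ h => if_pos h
    have hv1 : ∀ φ : S →ₙ* S, ¬ (∀ x, φ x = e) → v φ = ((m φ : ℚ) + 1) / (n φ + 1) :=
      fun φ h => if_neg h
    have hvpos : ∀ φ : S →ₙ* S, ¬ (∀ x, φ x = e) → 0 < v φ := by
      intro φ h
      rw [hv1 φ h]
      positivity
    refine ⟨v, ?_, ?_, ?_⟩
    · intro φ ψ h
      by_cases h1 : ∀ x, φ x = e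
      · by_cases h2 : ∀ x, ψ x = e
        · ext x; rw [h1, h2]
        · rw [hv0 φ h1] at h
          exact absurd h (hvpos ψ h2).ne
      · by_cases h2 : ∀ x, ψ x = e
        · rw [hv0 ψ h2] at h
          exact absurd h (hvpos φ h1).ne'
        · rw [hv1 φ h1, hv1 ψ h2, div_eq_div_iff (by positivity) (by positivity)] at h
          have h3 : (m φ + 1) * (n ψ + 1) = (m ψ + 1) * (n φ + 1) := by exact_mod_cast h
          ext x
          apply (hbij ((n φ + 1) * (n ψ + 1) - 1)).1
          show pw (φ x) _ = pw (ψ x) _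
          rw [← pw_pw, hmn φ h1, mul_comm (n φ + 1), ← pw_pw, hmn ψ h2, pw_pw, pw_pw, h3]
    · ext q
      constructor
      · rintro ⟨φ, rfl⟩
        show (0 : ℚ) ≤ _
        by_cases h1 : ∀ x, φ x = e
        · exact (hv0 φ h1).ge
        · exact (hvpos φ h1).le
      · intro hq
        change 0 ≤ q at hq
        rcases hq.eq_or_lt with h0 | hq
        · exact ⟨constEnd e hee, by rw [← h0]; exact hv0 _ (fun _ => rfl)⟩
        have hnum : 0 < q.num := Rat.num_pos.mpr hq
        set R := Equiv.ofBijective _ (hbij (q.den - 1)) with hR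
        have hRs : ∀ x, pw (R.symm x) (q.den - 1) = x := fun x => R.apply_symm_apply x
        have hRmul : ∀ x y, R.symm (x * y) = R.symm x * R.symm y := by
          intro x y
          apply R.injective
          show pw (R.symm (x * y)) (q.den - 1) = pw (R.symm x * R.symm y) (q.den - 1)
          rw [pw_mul, hRs, hRs, hRs]
        set φ : S →ₙ* S := ⟨fun x => pw (R.symm x) (q.num.toNat - 1), fun x y => by
          rw [hRmul, pw_mul]⟩ with hφ
        refine ⟨φ, ?_⟩
        have h5 : ∀ x, pw (φ x) (q.den - 1) = pw x (q.num.toNat - 1) := by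
          intro x
          show pw (pw (R.symm x) (q.num.toNat - 1)) (q.den - 1) = _
          rw [pw_pw, mul_comm, ← pw_pw, hRs]
        have h6 := hval φ _ _ h5
        have hnc : ¬ ∀ x, φ x = e := fun h => hexcl φ h _ _ h5
        rw [hv1 φ hnc, ← h6]
        have e1 : ((q.den - 1 : ℕ) : ℚ) + 1 = q.den := by
          have : 1 ≤ q.den := q.den_pos
          push_cast [this]; ring
        have e2 : ((q.num.toNat - 1 : ℕ) : ℚ) + 1 = q.num := by
          have h4 : 1 ≤ q.num.toNat := by omega
          have h5 : ((q.num.toNat : ℕ) : ℤ) = q.num := Int.toNat_of_nonneg hnum.le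
          have h6 : ((q.num.toNat : ℕ) : ℚ) = (q.num : ℚ) := by exact_mod_cast h5
          push_cast [h4]
          rw [h6]; ring
        rw [e1, e2]
        exact Rat.num_div_den q
    · intro φ ψ
      by_cases hφ : ∀ x, φ x = e
      · have : φ * ψ = ψ := by ext x; rw [mulhom_mul_apply, hφ, hex]
        rw [this, hv0 φ hφ, zero_add]
      by_cases hψ : ∀ x, ψ x = e
      · have : φ * ψ = φ := by ext x; rw [mulhom_mul_apply, hψ, mul_comm, hex]
        rw [this, hv0 ψ hψ, add_zero]
      have h1 : ∀ x, pw ((φ * ψ) x) ((n φ + 1) * (n ψ + 1) - 1) =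
          pw x ((m φ + 1) * (n ψ + 1) + (m ψ + 1) * (n φ + 1) - 1) := by
        intro x
        rw [mulhom_mul_apply, pw_mul, ← pw_pw, hmn φ hφ, mul_comm (n φ + 1), ← pw_pw, hmn ψ hψ,
          pw_pw, pw_pw, pw_add]
        congr 1
        have p1 : 0 < (m φ + 1) * (n ψ + 1) := by positivity
        have p2 : 0 < (m ψ + 1) * (n φ + 1) := by positivity
        omega
      have h2 := hval (φ * ψ) _ _ h1
      have hnc : ¬ ∀ x, (φ * ψ) x = e := fun h => hexcl _ h _ _ h1
      rw [hv1 _ hnc, hv1 φ hφ, hv1 ψ hψ, ← h2]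
      have p1 : 1 ≤ (n φ + 1) * (n ψ + 1) := Nat.one_le_iff_ne_zero.mpr (by positivity)
      have p2 : 1 ≤ (m φ + 1) * (n ψ + 1) + (m ψ + 1) * (n φ + 1) :=
        Nat.one_le_iff_ne_zero.mpr (by positivity)
      push_cast [p1, p2]
      field_simp
      ring

end Crit

section Order

variable {Z : Type u} [LinearOrder Z] [WellFoundedLT Z] [OrderTop Z]

/-- points that are suprema of strictly increasing sequences -/
def IsOmega (b : Z) : Prop := ∃ w : ℕ → Z, StrictMono w ∧ IsLUB (Set.range w) b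

open Classical in
/-- a chosen ladder converging to a point -/
noncomputable def lad (b : Z) : ℕ → Z := if h : IsOmega b then h.choose else fun _ => b

lemma lad_spec {b : Z} (h : IsOmega b) : StrictMono (lad b) ∧ IsLUB (Set.range (lad b)) b := by
  unfold lad
  rw [dif_pos h]
  exact h.choose_spec

lemma lad_lt {b : Z} (h : IsOmega b) (n : ℕ) : lad b n < b := by
  obtain ⟨h1, h2⟩ := lad_spec h
  exact lt_of_lt_of_le (h1 (Nat.lt_succ_self n)) (h2.1 ⟨n + 1, rfl⟩)

lemma exists_lub (w : ℕ → Z) : ∃ b, IsLUB (Set.range w) b := by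
  have hne : (upperBounds (Set.range w)).Nonempty := ⟨⊤, fun _ _ => le_top⟩
  refine ⟨WellFounded.min (wellFounded_lt (α := Z)) _ hne, WellFounded.min_mem _ _ hne, ?_⟩
  intro c hc
  exact not_lt.mp (WellFounded.not_lt_min _ _ hc)

theorem rigid (A : Z → Finset Z) (hne : ∀ x, (A x).Nonempty)
    (h1 : ∀ x y, x < y → ∀ a ∈ A x, ∃ b ∈ A y, a < b)
    (h2 : ∀ x y, x < y → ∀ b ∈ A y, ∃ a ∈ A x, a < b)
    (h3 : ∀ b, IsOmega b → ∀ n, ∀ v ∈ A b, IsOmega v ∧ lad v n ∈ A (lad b n))
    (h4 : ∀ b, IsOmega b → ∀ n, ∀ a ∈ A (lad b n), ∃ v ∈ A b, a = lad v n) :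
    ∀ x, A x = {x} := by
  classical
  set M : Z → Z := fun x => (A x).max' (hne x) with hM
  set m : Z → Z := fun x => (A x).min' (hne x) with hm
  have hMm : StrictMono M := by
    intro x y hxy
    obtain ⟨b, hb, hab⟩ := h1 x y hxy (M x) (Finset.max'_mem _ _)
    exact lt_of_lt_of_le hab (Finset.le_max' _ _ hb)
  have hmm : StrictMono m := by
    intro x y hxy
    obtain ⟨a, ha, hab⟩ := h2 x y hxy (m y) (Finset.min'_mem _ _)
    exact lt_of_le_of_lt (Finset.min'_le _ _ ha) hab
  have hM1 : ∀ x, x ≤ M x := fun x => hMm.le_apply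
  have hm1 : ∀ x, x ≤ m x := fun x => hmm.le_apply
  have key : ∀ x, M x = x := by
    intro x
    by_contra hx
    have hx1 : x < M x := lt_of_le_of_ne (hM1 x) (Ne.symm hx)
    set w : ℕ → Z := fun n => M^[n] x with hw
    have hws : ∀ n, w (n + 1) = M (w n) := fun n => by
      simp only [hw]
      exact Function.iterate_succ_apply' M n x
    have hwm : StrictMono w := by
      apply strictMono_nat_of_lt_succ
      intro n
      induction n with
      | zero => simpa [hw] using hx1
      | succ k ih =>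
        rw [hws k, hws (k + 1)]
        rw [hws k] at ih ⊢
        exact hMm ih
    obtain ⟨b, hb⟩ := exists_lub w
    have hbo : IsOmega b := ⟨w, hwm, hb⟩
    have hwb : ∀ n, w n < b := fun n =>
      lt_of_lt_of_le (hwm (Nat.lt_succ_self n)) (hb.1 ⟨n + 1, rfl⟩)
    have hlt : ∀ z, z < b → ∃ n, z < w n := by
      intro z hz
      by_contra hcon
      push Not at hcon
      have : b ≤ z := hb.2 (by rintro _ ⟨n, rfl⟩; exact hcon n)
      exact absurd hz (not_lt.mpr this)
    have hMb : M b ≤ b := by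
      have hmem : M b ∈ A b := Finset.max'_mem _ _
      have hom : IsOmega (M b) := (h3 b hbo 0 (M b) hmem).1
      have hl := (lad_spec hom).2
      apply hl.2
      rintro _ ⟨n, rfl⟩
      have h5 := (h3 b hbo n (M b) hmem).2
      have h6 : lad (M b) n ≤ M (lad b n) := Finset.le_max' _ _ h5
      obtain ⟨k, hk⟩ := hlt (lad b n) (lad_lt hbo n)
      have h7 : M (lad b n) < w (k + 1) := by
        rw [hws]
        exact hMm hk
      exact (h6.trans h7.le).trans (hwb _).le
    have hAb : ∀ v ∈ A b, v = b := by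
      intro v hv
      apply le_antisymm
      · exact (Finset.le_max' _ _ hv).trans hMb
      · exact (hm1 b).trans (Finset.min'_le _ _ hv)
    have hMl : ∀ n, M (lad b n) = lad b n := by
      intro n
      obtain ⟨v, hv, he⟩ := h4 b hbo n (M (lad b n)) (Finset.max'_mem _ _)
      rw [he, hAb v hv]
    obtain ⟨n, hn⟩ : ∃ n, x < lad b n := by
      by_contra hcon
      push Not at hcon
      have : b ≤ x := (lad_spec hbo).2.2 (by rintro _ ⟨n, rfl⟩; exact hcon n)
      exact absurd (hwb 0) (not_lt.mpr (by simpa [hw] using this))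
    obtain ⟨k, hk, hkmin⟩ : ∃ k, lad b n < w k ∧ ∀ j < k, ¬ lad b n < w j := by
      have hex := hlt (lad b n) (lad_lt hbo n)
      exact ⟨Nat.find hex, Nat.find_spec hex, fun j hj => Nat.find_min hex hj⟩
    cases k with
    | zero =>
      have : w 0 = x := rfl
      rw [this] at hk
      exact absurd hk (not_lt.mpr hn.le)
    | succ j =>
      have h8 : w j ≤ lad b n := not_lt.mp (hkmin j (Nat.lt_succ_self j))
      have h9 : M (w j) ≤ M (lad b n) := hMm.monotone h8
      rw [hMl, ← hws] at h9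
      exact absurd hk (not_lt.mpr h9)
  intro x
  ext v
  rw [Finset.mem_singleton]
  constructor
  · intro hv
    apply le_antisymm
    · calc v ≤ M x := Finset.le_max' _ _ hv
        _ = x := key x
    · exact (hm1 x).trans (Finset.min'_le _ _ hv)
  · rintro rfl
    have : M v ∈ A v := Finset.max'_mem _ _
    rwa [key v] at this

end Order

lemma exists_tau : ∃ t : ℝ, 0 < t ∧ Transcendental ℚ t := by
  have h1 : {x : ℝ | IsAlgebraic ℚ x}.Countable := Algebraic.countable ℚ ℝ
  by_contra hcon
  push Not at hcon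
  have h2 : Set.Ioi (0 : ℝ) ⊆ {x : ℝ | IsAlgebraic ℚ x} := by
    intro x hx
    have := hcon x hx
    unfold Transcendental at this
    push Not at this
    exact this
  have h3 : (Set.Ioi (0 : ℝ)).Countable := h1.mono h2
  have h4 := Cardinal.mk_Ioi_real 0
  rw [← Cardinal.le_aleph0_iff_set_countable, h4] at h3
  exact absurd h3 (not_le.mpr Cardinal.aleph0_lt_continuum)

noncomputable def tau : ℝ := exists_tau.choose

lemma tau_pos : 0 < tau := exists_tau.choose_spec.1

lemma tau_tr : Transcendental ℚ tau := exists_tau.choose_spec.2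

lemma ae_inj {p q : ℚ[X]} (h : aeval tau p = aeval tau q) : p = q :=
  (transcendental_iff_injective.mp tau_tr) h

lemma ae_ne {p : ℚ[X]} (h : p ≠ 0) : aeval tau p ≠ 0 := by
  intro h0
  apply h
  apply ae_inj
  simpa using h0

section Gen

variable {I : Type u}

/-- the value at coordinate i -/
noncomputable def ev (g : I →₀ ℚ[X]) (i : I) : ℝ := aeval tau (g i)

lemma ev_add (g h : I →₀ ℚ[X]) (i : I) : ev (g + h) i = ev g i + ev h i := by
  simp [ev]

lemma ev_sub (g h : I →₀ ℚ[X]) (i : I) : ev (g - h) i = ev g i - ev h i := by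
  simp [ev]

lemma ev_smul (q : ℚ) (g : I →₀ ℚ[X]) (i : I) : ev (q • g) i = q * ev g i := by
  simp [ev, Algebra.smul_def]

lemma ev_psmul (p : ℚ[X]) (g : I →₀ ℚ[X]) (i : I) : ev (p • g) i = aeval tau p * ev g i := by
  simp [ev]

lemma ev_ext {g h : I →₀ ℚ[X]} (H : ∀ i, ev g i = ev h i) : g = h := by
  ext1 i
  exact ae_inj (H i)

/-- coefficient extraction -/
noncomputable def cf (k : ℕ) : (I →₀ ℚ[X]) →ₗ[ℚ] (I →₀ ℚ) :=
  Finsupp.mapRange.linearMap (Polynomial.lcoeff ℚ k)

lemma cf_apply (k : ℕ) (g : I →₀ ℚ[X]) (i : I) : cf k g i = (g i).coeff k := by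
  simp [cf]

/-- a rational vector times a power of the variable -/
noncomputable def mono (k : ℕ) : (I →₀ ℚ) →ₗ[ℚ] (I →₀ ℚ[X]) :=
  Finsupp.mapRange.linearMap (Polynomial.monomial k)

lemma mono_apply (k : ℕ) (v : I →₀ ℚ) (i : I) : mono k v i = monomial k (v i) := by
  simp [mono]

lemma cf_mono (k m : ℕ) (v : I →₀ ℚ) : cf k (mono m v) = if m = k then v else 0 := by
  ext i
  rw [cf_apply, mono_apply, coeff_monomial]
  split_ifs <;> simp

lemma ev_mono (k : ℕ) (v : I →₀ ℚ) (i : I) : ev (mono k v) i = (v i : ℝ) * tau ^ k := by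
  simp [ev, mono_apply, aeval_monomial]

lemma X_smul_mono (k : ℕ) (v : I →₀ ℚ) : (X ^ k : ℚ[X]) • mono 0 v = mono k v := by
  apply ev_ext
  intro i
  rw [ev_psmul, ev_mono, ev_mono]
  simp [mul_comm]

lemma eq_mono {g : I →₀ ℚ[X]} (h : ∀ k, cf (k + 1) g = 0) : g = mono 0 (cf 0 g) := by
  ext i k
  rw [mono_apply, coeff_monomial]
  cases k with
  | zero => simp [cf_apply]
  | succ n =>
    have := congrArg (fun v => v i) (h n)
    simp only [cf_apply, Finsupp.coe_zero, Pi.zero_apply] at this
    simpa using this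

/-- the Q-space of vectors whose k-th coefficient vector lies in W k -/
noncomputable def GG (W : ℕ → Submodule ℚ (I →₀ ℚ)) : Submodule ℚ (I →₀ ℚ[X]) :=
  ⨅ k, (W k).comap (cf k)

lemma mem_GG {W : ℕ → Submodule ℚ (I →₀ ℚ)} {g : I →₀ ℚ[X]} :
    g ∈ GG W ↔ ∀ k, cf k g ∈ W k := by
  simp [GG]

/-- the cone of vectors in GG with nonnegative coordinates -/
def CC (W : ℕ → Submodule ℚ (I →₀ ℚ)) : AddSubmonoid (I →₀ ℚ[X]) where
  carrier := {g | g ∈ GG W ∧ ∀ i, 0 ≤ ev g i}
  add_mem' := by
    rintro a b ⟨ha, ha'⟩ ⟨hb, hb'⟩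
    refine ⟨add_mem ha hb, fun i => ?_⟩
    rw [ev_add]
    exact add_nonneg (ha' i) (hb' i)
  zero_mem' := ⟨zero_mem _, fun i => by simp [ev]⟩

lemma mem_CC {W : ℕ → Submodule ℚ (I →₀ ℚ)} {g : I →₀ ℚ[X]} :
    g ∈ CC W ↔ g ∈ GG W ∧ ∀ i, 0 ≤ ev g i := Iff.rfl

lemma mono_mem {W : ℕ → Submodule ℚ (I →₀ ℚ)} {v : I →₀ ℚ} {k : ℕ} (h : v ∈ W k)
    (hv : ∀ i, 0 ≤ v i) : mono k v ∈ CC W := by
  refine ⟨mem_GG.mpr fun j => ?_, fun i => ?_⟩
  · rw [cf_mono]
    split_ifs with hh
    · rwa [← hh]
    · exact zero_mem _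
  · rw [ev_mono]
    exact mul_nonneg (by exact_mod_cast hv i) (pow_nonneg tau_pos.le _)

lemma smul_mem_CC {W : ℕ → Submodule ℚ (I →₀ ℚ)} {g : I →₀ ℚ[X]} (hg : g ∈ CC W) {q : ℚ}
    (hq : 0 ≤ q) : q • g ∈ CC W := by
  refine ⟨Submodule.smul_mem _ _ hg.1, fun i => ?_⟩
  rw [ev_smul]
  exact mul_nonneg (by exact_mod_cast hq) (hg.2 i)

/-- the standing hypothesis on a map between two cones -/
structure Hyp (W W' : ℕ → Submodule ℚ (I →₀ ℚ)) (F : (I →₀ ℚ[X]) → (I →₀ ℚ[X])) : Prop where
  map : ∀ g ∈ CC W, F g ∈ CC W'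
  add : ∀ g ∈ CC W, ∀ h ∈ CC W, F (g + h) = F g + F h
  ne : ∀ g ∈ CC W, g ≠ 0 → F g ≠ 0

variable {W W' : ℕ → Submodule ℚ (I →₀ ℚ)} {F : (I →₀ ℚ[X]) → (I →₀ ℚ[X])}

lemma Hyp.zero (H : Hyp W W' F) : F 0 = 0 := by
  have := H.add 0 (zero_mem _) 0 (zero_mem _)
  rw [add_zero] at this
  exact left_eq_add.mp this

lemma Hyp.nat (H : Hyp W W' F) {g : I →₀ ℚ[X]} (hg : g ∈ CC W) (n : ℕ) :
    F (n • g) = n • F g := by
  induction n with
  | zero => simp [H.zero]
  | succ n ih =>
    rw [succ_nsmul, succ_nsmul, H.add _ (AddSubmonoid.nsmul_mem _ hg n) _ hg, ih]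

lemma Hyp.rat (H : Hyp W W' F) {g : I →₀ ℚ[X]} (hg : g ∈ CC W) {q : ℚ} (hq : 0 ≤ q) :
    F (q • g) = q • F g := by
  have h1 : q.den • (q • g) = q.num.toNat • g := by
    rw [← Nat.cast_smul_eq_nsmul ℚ, ← Nat.cast_smul_eq_nsmul ℚ, smul_smul]
    congr 1
    have h2 : ((q.num.toNat : ℕ) : ℚ) = (q.num : ℚ) := by
      have : ((q.num.toNat : ℕ) : ℤ) = q.num := Int.toNat_of_nonneg (Rat.num_nonneg.mpr hq)
      exact_mod_cast this
    rw [h2, mul_comm]
    exact Rat.mul_den_eq_num q
  have h2 : q.den • F (q • g) = q.num.toNat • F g := by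
    rw [← H.nat (smul_mem_CC hg hq), h1, H.nat hg]
  have h3 : ((q.num.toNat : ℕ) : ℚ) = q.den * q := by
    have : ((q.num.toNat : ℕ) : ℤ) = q.num := Int.toNat_of_nonneg (Rat.num_nonneg.mpr hq)
    have h4 : ((q.num.toNat : ℕ) : ℚ) = (q.num : ℚ) := by exact_mod_cast this
    rw [h4, mul_comm]
    exact (Rat.mul_den_eq_num q).symm
  rw [← Nat.cast_smul_eq_nsmul ℚ, ← Nat.cast_smul_eq_nsmul ℚ, h3, ← smul_smul] at h2
  have h5 : (q.den : ℚ) ≠ 0 := by exact_mod_cast q.den_nz
  exact smul_right_injective _ h5 h2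

/-- the multiplier lemma -/
lemma Hyp.mul (H : Hyp W W' F) {g : I →₀ ℚ[X]} (hg : g ∈ CC W) {p : ℚ[X]}
    (hp : 0 < aeval tau p) (hpg : p • g ∈ GG W) : F (p • g) = p • F g := by
  have hpc : p • g ∈ CC W := ⟨hpg, fun i => by
    rw [ev_psmul]; exact mul_nonneg hp.le (hg.2 i)⟩
  apply ev_ext
  intro i
  rw [ev_psmul]
  set a : ℝ := aeval tau p with ha
  set x := ev (F g) i with hx
  set y := ev (F (p • g)) i with hy
  have hx0 : 0 ≤ x := (H.map g hg).2 i
  have hlow : ∀ q : ℚ, 0 ≤ q → (q : ℝ) < a → q * x ≤ y := by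
    intro q hq hqa
    have hm : p • g - q • g ∈ CC W := by
      refine ⟨sub_mem hpg (Submodule.smul_mem _ _ hg.1), fun j => ?_⟩
      rw [ev_sub, ev_psmul, ev_smul, ← sub_mul]
      exact mul_nonneg (sub_nonneg.mpr hqa.le) (hg.2 j)
    have h1 : F (p • g) = F (p • g - q • g) + q • F g := by
      rw [← H.rat hg hq, ← H.add _ hm _ (smul_mem_CC hg hq), sub_add_cancel]
    rw [hy, h1, ev_add, ev_smul]
    have := (H.map _ hm).2 i
    linarith
  have hup : ∀ q : ℚ, a < q → y ≤ q * x := by
    intro q hqa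
    have hq : (0 : ℚ) ≤ q := by
      have : (0 : ℝ) < q := lt_trans hp hqa
      exact_mod_cast this.le
    have hm : q • g - p • g ∈ CC W := by
      refine ⟨sub_mem (Submodule.smul_mem _ _ hg.1) hpg, fun j => ?_⟩
      rw [ev_sub, ev_psmul, ev_smul, ← sub_mul]
      exact mul_nonneg (sub_nonneg.mpr hqa.le) (hg.2 j)
    have h1 : q • F g = F (q • g - p • g) + F (p • g) := by
      rw [← H.rat hg hq, ← H.add _ hm _ hpc, sub_add_cancel]
    have h2 := congrArg (fun v => ev v i) h1
    simp only [ev_add, ev_smul] at h2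
    have := (H.map _ hm).2 i
    rw [hx, hy, h2]
    linarith
  apply le_antisymm
  · by_contra hc
    push Not at hc
    rcases hx0.eq_or_lt with h0 | h0
    · obtain ⟨q, hq⟩ := exists_rat_gt a
      have := hup q hq
      rw [← h0] at this hc
      simp at this hc
      linarith
    · have h1 : a < y / x := (lt_div_iff₀ h0).mpr hc
      obtain ⟨q, hq1, hq2⟩ := exists_rat_btwn h1
      have := hup q hq1
      rw [lt_div_iff₀ h0] at hq2
      linarith
  · by_contra hc
    push Not at hc
    have h0 : 0 < x := by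
      rcases hx0.eq_or_lt with h0 | h0
      · exfalso
        rw [← h0] at hc
        have := (H.map _ hpc).2 i
        simp at hc
        linarith
      · exact h0
    have h1 : y / x < a := (div_lt_iff₀ h0).mpr hc
    have hy0 : 0 ≤ y / x := div_nonneg ((H.map _ hpc).2 i) hx0
    obtain ⟨q, hq1, hq2⟩ := exists_rat_btwn h1
    have := hlow q (by have : (0 : ℝ) < q := lt_of_le_of_lt hy0 hq1; exact_mod_cast this.le) hq2
    rw [div_lt_iff₀ h0] at hq1
    linarith

/-- the assumptions on the family of subspaces -/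
structure Fam (W : ℕ → Submodule ℚ (I →₀ ℚ)) : Prop where
  zero : W 0 = ⊤
  one : W 1 = ⊤
  adj : ∀ k, ∀ v ∈ W (k + 1), v ∈ W (k + 2) → v = 0

lemma single_nonneg (i : I) (j : I) : (0 : ℚ) ≤ Finsupp.single i (1 : ℚ) j := by
  classical
  rw [Finsupp.single_apply]
  split_ifs <;> norm_num

lemma unit_const (H : Hyp W W' F) (hW : Fam W) (hW' : Fam W') (i : I) :
    F (mono 0 (Finsupp.single i 1)) = mono 0 (cf 0 (F (mono 0 (Finsupp.single i 1)))) := by
  have h0 : mono 0 (Finsupp.single i 1) ∈ CC W :=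
    mono_mem (by rw [hW.zero]; trivial) (single_nonneg i)
  have h1 : mono 1 (Finsupp.single i 1) ∈ CC W :=
    mono_mem (by rw [hW.one]; trivial) (single_nonneg i)
  have h2 : F (mono 1 (Finsupp.single i 1)) = (X : ℚ[X]) • F (mono 0 (Finsupp.single i 1)) := by
    have h3 := X_smul_mono 1 (Finsupp.single i (1 : ℚ))
    rw [pow_one] at h3
    rw [← h3]
    apply H.mul h0
    · simpa using tau_pos
    · rw [h3]; exact h1.1
  apply eq_mono
  intro k
  have h4 := mem_GG.mp (H.map _ h0).1 (k + 1)
  have h5 := mem_GG.mp (H.map _ h1).1 (k + 2)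
  apply hW'.adj k _ h4
  rw [h2] at h5
  convert h5 using 1
  ext j
  simp [cf_apply]

lemma F_mono0 (H : Hyp W W' F) (hW : Fam W) (hW' : Fam W') (v : I →₀ ℚ) (hv : ∀ i, 0 ≤ v i) :
    F (mono 0 v) = mono 0 (v.sum fun i q => q • cf 0 (F (mono 0 (Finsupp.single i 1)))) := by
  classical
  induction v using Finsupp.induction with
  | zero => simp [H.zero]
  | single_add a b f ha hb ih =>
    have hf : ∀ i, 0 ≤ f i := by
      intro i
      by_cases hi : i = a
      · rw [hi, Finsupp.notMem_support_iff.mp ha]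
      · have := hv i
        rw [Finsupp.add_apply, Finsupp.single_apply, if_neg (Ne.symm hi), zero_add] at this
        exact this
    have hb0 : 0 ≤ b := by
      have := hv a
      rw [Finsupp.add_apply, Finsupp.single_eq_same, Finsupp.notMem_support_iff.mp ha,
        add_zero] at this
      exact this
    have e1 : (Finsupp.single a b : I →₀ ℚ) = b • Finsupp.single a 1 := by simp
    have m1 : mono 0 (Finsupp.single a 1) ∈ CC W :=
      mono_mem (by rw [hW.zero]; trivial) (single_nonneg a)
    have m2 : mono 0 f ∈ CC W := mono_mem (by rw [hW.zero]; trivial) hf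
    have m3 : mono 0 (Finsupp.single a b) ∈ CC W := by
      rw [e1, map_smul]; exact smul_mem_CC m1 hb0
    rw [map_add, H.add _ m3 _ m2, ih hf]
    rw [Finsupp.sum_add_index' (by simp) (by intro i x y; rw [add_smul]), map_add]
    congr 1
    rw [Finsupp.sum_single_index (by simp), e1, map_smul, H.rat m1 hb0,
      unit_const H hW hW' a, map_smul, cf_mono]
    simp

/-- transfer of membership in the subspaces -/
lemma transfer (H : Hyp W W' F) (hW : Fam W) (hW' : Fam W') (v : I →₀ ℚ) (hv : ∀ i, 0 ≤ v i)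
    (k : ℕ) (hk : v ∈ W k) :
    (v.sum fun i q => q • cf 0 (F (mono 0 (Finsupp.single i 1)))) ∈ W' k := by
  have m0 : mono 0 v ∈ CC W := mono_mem (by rw [hW.zero]; trivial) hv
  have mk : mono k v ∈ CC W := mono_mem hk hv
  have h1 : F (mono k v) = (X ^ k : ℚ[X]) • F (mono 0 v) := by
    rw [← X_smul_mono]
    apply H.mul m0
    · simpa using pow_pos tau_pos k
    · rw [X_smul_mono]; exact mk.1
  rw [F_mono0 H hW hW' v hv, X_smul_mono] at h1
  have h2 := mem_GG.mp (H.map _ mk).1 k
  rw [h1, cf_mono, if_pos rfl] at h2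
  exact h2

/-- if all unit vectors are scaled by q then the whole map is scaling by q -/
lemma scal (H : Hyp W W' F) (hW : Fam W) (hW' : Fam W') (hg2 : ∀ g ∈ GG W, ∀ v : I →₀ ℚ,
      mono 0 v - g ∈ GG W) (q : ℚ)
    (hu : ∀ i, cf 0 (F (mono 0 (Finsupp.single i 1))) = Finsupp.single i q) (g : I →₀ ℚ[X])
    (hg : g ∈ CC W) : F g = q • g := by
  classical
  have hv : ∀ v : I →₀ ℚ, (∀ i, 0 ≤ v i) → F (mono 0 v) = q • mono 0 v := by
    intro v hv
    rw [F_mono0 H hW hW' v hv, ← map_smul]
    congr 1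
    simp_rw [hu, Finsupp.smul_single, smul_eq_mul]
    ext j
    rw [Finsupp.sum_apply, Finsupp.smul_apply, Finsupp.sum]
    simp_rw [Finsupp.single_apply]
    rw [Finset.sum_ite_eq' v.support j (fun i => v i * q)]
    split_ifs with h
    · rw [smul_eq_mul, mul_comm]
    · rw [Finsupp.notMem_support_iff.mp h]; simp
  apply ev_ext
  intro j
  rw [ev_smul]
  have hq0 : (0 : ℝ) ≤ q := by
    have h1 : mono 0 (Finsupp.single j 1) ∈ CC W :=
      mono_mem (by rw [hW.zero]; trivial) (single_nonneg j)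
    have h2 := (H.map _ h1).2 j
    rw [hv _ (single_nonneg j), ev_smul, ev_mono] at h2
    simpa using h2
  apply le_antisymm
  · have key : ∀ r : ℚ, ev g j < r → ev (F g) j ≤ q * r := by
      intro r hr
      have hr0 : (0 : ℝ) < r := lt_of_le_of_lt (hg.2 j) hr
      choose N hN using fun i => exists_rat_gt (ev g i)
      set v : I →₀ ℚ := Finsupp.onFinset (insert j g.support)
        (fun i => if i = j then r else if i ∈ g.support then N i else 0) (by
          intro i hi
          rw [Finset.mem_insert]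
          by_contra hc
          push Not at hc
          apply hi
          rw [if_neg hc.1, if_neg hc.2]) with hvd
      have hvi : ∀ i, v i = if i = j then r else if i ∈ g.support then N i else 0 := by
        intro i; rfl
      have hle : ∀ i, ev g i ≤ v i := by
        intro i
        rw [hvi]
        split_ifs with h1 h2
        · rw [h1]; exact hr.le
        · exact (hN i).le
        · rw [ev, Finsupp.notMem_support_iff.mp h2]; simp
      have hv0 : ∀ i, 0 ≤ v i := by
        intro i
        have := (hg.2 i).trans (hle i)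
        exact_mod_cast this
      have m1 : mono 0 v - g ∈ CC W := by
        refine ⟨hg2 g hg.1 v, fun i => ?_⟩
        rw [ev_sub, ev_mono, pow_zero, mul_one]
        exact sub_nonneg.mpr (hle i)
      have h3 : F (mono 0 v) = F (mono 0 v - g) + F g := by
        rw [← H.add _ m1 _ hg, sub_add_cancel]
      rw [hv v hv0] at h3
      have h4 := congrArg (fun w => ev w j) h3
      simp only [ev_add, ev_smul, ev_mono, pow_zero, mul_one] at h4
      have h5 := (H.map _ m1).2 j
      have h6 : v j = r := by rw [hvi, if_pos rfl]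
      rw [h6] at h4
      linarith
    by_contra hc
    push Not at hc
    rcases hq0.eq_or_lt with h0 | h0
    · obtain ⟨r, hr⟩ := exists_rat_gt (ev g j)
      have := key r hr
      rw [← h0] at this hc
      simp at this hc
      linarith
    · have h1 : ev g j < ev (F g) j / q := by
        rw [lt_div_iff₀ h0, mul_comm]; exact hc
      obtain ⟨r, hr1, hr2⟩ := exists_rat_btwn h1
      have := key r hr1
      rw [lt_div_iff₀ h0] at hr2
      linarith
  · have key : ∀ r : ℚ, 0 ≤ r → (r : ℝ) ≤ ev g j → q * r ≤ ev (F g) j := by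
      intro r hr hrg
      have hv0 : ∀ i, 0 ≤ (Finsupp.single j r : I →₀ ℚ) i := by
        intro i
        rw [Finsupp.single_apply]
        split_ifs
        · exact hr
        · exact le_rfl
      have m0 : mono 0 (Finsupp.single j r) ∈ CC W := mono_mem (by rw [hW.zero]; trivial) hv0
      have m1 : g - mono 0 (Finsupp.single j r) ∈ CC W := by
        refine ⟨?_, fun i => ?_⟩
        · have := hg2 g hg.1 (Finsupp.single j r)
          have h2 := neg_mem this
          rwa [neg_sub] at h2
        · rw [ev_sub, ev_mono, pow_zero, mul_one, Finsupp.single_apply]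
          split_ifs with h
          · rw [← h]; linarith
          · have := hg.2 i
            simpa using this
      have h3 : F g = F (g - mono 0 (Finsupp.single j r)) + F (mono 0 (Finsupp.single j r)) := by
        rw [← H.add _ m1 _ m0, sub_add_cancel]
      rw [hv _ hv0] at h3
      have h4 := congrArg (fun w => ev w j) h3
      simp only [ev_add, ev_smul, ev_mono, pow_zero, mul_one, Finsupp.single_eq_same] at h4
      have h5 := (H.map _ m1).2 j
      linarith
    by_contra hc
    push Not at hc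
    have h0 : (0 : ℝ) < q := by
      rcases hq0.eq_or_lt with h0 | h0
      · rw [← h0, zero_mul] at hc
        have := (H.map _ hg).2 j
        linarith
      · exact h0
    have h1 : ev (F g) j / q < ev g j := by
      rw [div_lt_iff₀ h0, mul_comm]; exact hc
    obtain ⟨r, hr1, hr2⟩ := exists_rat_btwn h1
    have hr0 : (0 : ℝ) ≤ r := (div_nonneg ((H.map _ hg).2 j) h0.le).trans hr1.le
    have := key r (by exact_mod_cast hr0) hr2.le
    rw [div_lt_iff₀ h0] at hr1
    linarith

end Gen


section Concrete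

variable {Z : Type u} [LinearOrder Z] [WellFoundedLT Z] [OrderTop Z]

/-- pairs x < y -/
abbrev Edge (Z : Type u) [LinearOrder Z] := {p : Z × Z // p.1 < p.2}

/-- the index set: points and pairs -/
abbrev Idx (Z : Type u) [LinearOrder Z] := Z ⊕ Edge Z

def src (e : Edge Z) : Z := e.1.1
def tgt (e : Edge Z) : Z := e.1.2

lemma src_lt_tgt (e : Edge Z) : src e < tgt e := e.2

/-- the family of sets that are coded by coordinate subspaces -/
def AA (P : Set Z) : ℕ → Set (Idx Z)
  | 0 => Set.range Sum.inl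
  | 1 => Set.range Sum.inr
  | 2 => Sum.inl '' P
  | 3 => Sum.inl '' Pᶜ
  | n + 4 => {i | ∃ b, ∃ h : IsOmega b, i = Sum.inr ⟨(lad b n, b), lad_lt h n⟩}

noncomputable def zpart : (Idx Z →₀ ℚ) →ₗ[ℚ] (Z →₀ ℚ) :=
  Finsupp.lcomapDomain Sum.inl Sum.inl_injective

noncomputable def epart : (Idx Z →₀ ℚ) →ₗ[ℚ] (Edge Z →₀ ℚ) :=
  Finsupp.lcomapDomain Sum.inr Sum.inr_injective

lemma zpart_apply (v : Idx Z →₀ ℚ) (z : Z) : zpart v z = v (Sum.inl z) := rfl

lemma epart_apply (v : Idx Z →₀ ℚ) (e : Edge Z) : epart v e = v (Sum.inr e) := rfl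

/-- the graph of the linear extension of s -/
noncomputable def WS (s : Edge Z → Z) : Submodule ℚ (Idx Z →₀ ℚ) :=
  LinearMap.eqLocus zpart (Finsupp.lmapDomain ℚ ℚ s ∘ₗ epart)

lemma mem_WS {s : Edge Z → Z} {v : Idx Z →₀ ℚ} :
    v ∈ WS s ↔ zpart v = Finsupp.mapDomain s (epart v) := by
  rw [WS, LinearMap.mem_eqLocus]
  rfl

open Classical in
/-- the subspaces -/
noncomputable def WW (P : Set Z) : ℕ → Submodule ℚ (Idx Z →₀ ℚ)
  | 0 => ⊤
  | 1 => ⊤
  | 2 => ⊥
  | 3 => WS src
  | 4 => ⊥
  | 5 => WS tgt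
  | n + 6 => if Even n then ⊥ else Finsupp.supported ℚ ℚ (AA P (n / 2))

lemma fam (P : Set Z) : Fam (WW P) where
  zero := rfl
  one := rfl
  adj := by
    intro k v h1 h2
    match k with
    | 0 => exact h2
    | 1 => exact h1
    | 2 => exact h2
    | 3 => exact h1
    | 4 =>
      simp only [WW, Even.zero, if_true] at h2
      exact h2
    | n + 5 =>
      by_cases hn : Even n
      · simp only [WW, hn, if_true] at h1
        exact h1
      · have hn' : Even (n + 1) := by
          rw [Nat.even_add_one]; exact hn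
        have h3 : WW P (n + 5 + 2) = ⊥ := by
          show (if Even (n + 1) then ⊥ else _) = ⊥
          rw [if_pos hn']
        rw [h3] at h2
        exact h2

lemma WW_odd (P : Set Z) (m : ℕ) : WW P (2 * m + 7) = Finsupp.supported ℚ ℚ (AA P m) := by
  have h1 : ¬ Even (2 * m + 1) := by
    rw [Nat.not_even_iff_odd]; exact ⟨m, rfl⟩
  have h2 : (2 * m + 1) / 2 = m := by omega
  show (if Even (2 * m + 1) then ⊥ else Finsupp.supported ℚ ℚ (AA P ((2 * m + 1) / 2))) = _
  rw [if_neg h1, h2]

lemma sub_GG {I : Type u} {W : ℕ → Submodule ℚ (I →₀ ℚ)} (hW : Fam W) (g : I →₀ ℚ[X])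
    (hg : g ∈ GG W) (v : I →₀ ℚ) : mono 0 v - g ∈ GG W := by
  rw [mem_GG] at hg ⊢
  intro k
  rw [map_sub, cf_mono]
  cases k with
  | zero => rw [hW.zero]; trivial
  | succ n =>
    rw [if_neg (by omega), zero_sub]
    exact neg_mem (hg _)

lemma mapDomain_ne {s : Edge Z → Z} {b : Edge Z →₀ ℚ} (hb : ∀ e, 0 ≤ b e) (z : Z) :
    Finsupp.mapDomain s b z ≠ 0 ↔ ∃ e, b e ≠ 0 ∧ s e = z := by
  classical
  rw [Finsupp.mapDomain, Finsupp.sum_apply, Finsupp.sum]
  constructor
  · intro h
    obtain ⟨e, he, hne⟩ := Finset.exists_ne_zero_of_sum_ne_zero h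
    refine ⟨e, Finsupp.mem_support_iff.mp he, ?_⟩
    by_contra hc
    apply hne
    rw [Finsupp.single_apply, if_neg hc]
  · rintro ⟨e, he, rfl⟩ h0
    have hnn : ∀ e' ∈ b.support, 0 ≤ (Finsupp.single (s e') (b e') : Z →₀ ℚ) (s e) := by
      intro e' _
      rw [Finsupp.single_apply]
      split_ifs
      · exact hb e'
      · exact le_rfl
    have := (Finset.sum_eq_zero_iff_of_nonneg hnn).mp h0 e (Finsupp.mem_support_iff.mpr he)
    rw [Finsupp.single_eq_same] at this
    exact he this

theorem main (P P' : Set Z) (F : (Idx Z →₀ ℚ[X]) → (Idx Z →₀ ℚ[X]))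
    (H : Hyp (WW P) (WW P') F) :
    P = P' ∧ ∃ q : ℚ, 0 < q ∧ ∀ g ∈ CC (WW P), F g = q • g := by
  classical
  have hW := fam P
  have hW' := fam P'
  set c : Idx Z → (Idx Z →₀ ℚ) := fun i => cf 0 (F (mono 0 (Finsupp.single i 1))) with hc
  have hFc : ∀ i, F (mono 0 (Finsupp.single i 1)) = mono 0 (c i) := fun i =>
    unit_const H hW hW' i
  have hmem : ∀ i, mono 0 (Finsupp.single i (1 : ℚ)) ∈ CC (WW P) := fun i =>
    mono_mem (by rw [hW.zero]; trivial) (single_nonneg i)
  have hc0 : ∀ i j, 0 ≤ c i j := by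
    intro i j
    have := (H.map _ (hmem i)).2 j
    rw [hFc, ev_mono, pow_zero, mul_one] at this
    exact_mod_cast this
  have hcne : ∀ i, c i ≠ 0 := by
    intro i h0
    apply H.ne _ (hmem i)
    · intro h1
      have := congrArg (fun g => cf 0 g i) h1
      simp [cf_mono] at this
    · rw [hFc, h0, map_zero]
  have htr1 : ∀ k i, Finsupp.single i (1 : ℚ) ∈ WW P k → c i ∈ WW P' k := by
    intro k i hi
    have := transfer H hW hW' _ (single_nonneg i) k hi
    rwa [Finsupp.sum_single_index (by simp), one_smul] at this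
  have htr2 : ∀ k i j, Finsupp.single i (1 : ℚ) + Finsupp.single j 1 ∈ WW P k →
      c i + c j ∈ WW P' k := by
    intro k i j hi
    have := transfer H hW hW' _ (fun l => add_nonneg (single_nonneg i l) (single_nonneg j l)) k hi
    rwa [Finsupp.sum_add_index' (by simp) (by intro i x y; rw [add_smul]),
      Finsupp.sum_single_index (by simp), Finsupp.sum_single_index (by simp),
      one_smul, one_smul] at this
  have hsup : ∀ m i, i ∈ AA P m → ∀ j, c i j ≠ 0 → j ∈ AA P' m := by
    intro m i hi j hj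
    have h1 : Finsupp.single i (1 : ℚ) ∈ WW P (2 * m + 7) := by
      rw [WW_odd]
      exact Finsupp.single_mem_supported ℚ _ hi
    have h2 := htr1 _ _ h1
    rw [WW_odd, Finsupp.mem_supported] at h2
    exact h2 (by simpa using hj)
  set a : Z → (Z →₀ ℚ) := fun x => zpart (c (Sum.inl x)) with ha
  set b : Edge Z → (Edge Z →₀ ℚ) := fun e => epart (c (Sum.inr e)) with hb
  have hbn : ∀ e e', 0 ≤ b e e' := fun e e' => hc0 _ _
  have hzr : ∀ e, zpart (c (Sum.inr e)) = 0 := by
    intro e
    ext z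
    by_contra hne
    have := hsup 1 (Sum.inr e) ⟨e, rfl⟩ (Sum.inl z) hne
    obtain ⟨e', he'⟩ := this
    exact Sum.inr_ne_inl he'
  have hel : ∀ x, epart (c (Sum.inl x)) = 0 := by
    intro x
    ext e
    by_contra hne
    have := hsup 0 (Sum.inl x) ⟨x, rfl⟩ (Sum.inr e) hne
    obtain ⟨e', he'⟩ := this
    exact Sum.inl_ne_inr he'
  have hane : ∀ x, a x ≠ 0 := by
    intro x h0
    apply hcne (Sum.inl x)
    ext j
    rcases j with z | e
    · exact congrArg (fun v => v z) h0
    · exact congrArg (fun v => v e) (hel x)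
  have hbne : ∀ e, b e ≠ 0 := by
    intro e h0
    apply hcne (Sum.inr e)
    ext j
    rcases j with z | e'
    · exact congrArg (fun v => v z) (hzr e)
    · exact congrArg (fun v => v e') h0
  have hgen : ∀ (s : Edge Z → Z) (e : Edge Z),
      Finsupp.single (Sum.inl (s e)) (1 : ℚ) + Finsupp.single (Sum.inr e) 1 ∈ WS s := by
    intro s e
    rw [mem_WS]
    have e1 : zpart (Finsupp.single (Sum.inl (s e)) (1 : ℚ) + Finsupp.single (Sum.inr e) 1)
        = Finsupp.single (s e) 1 := by
      ext z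
      simp [zpart_apply, Finsupp.single_apply]
    have e2 : epart (Finsupp.single (Sum.inl (s e)) (1 : ℚ) + Finsupp.single (Sum.inr e) 1)
        = Finsupp.single e 1 := by
      ext z
      simp [epart_apply, Finsupp.single_apply]
    rw [e1, e2, Finsupp.mapDomain_single]
  have hfin : ∀ (s : Edge Z → Z) (e : Edge Z), c (Sum.inl (s e)) + c (Sum.inr e) ∈ WS s →
      a (s e) = Finsupp.mapDomain s (b e) := by
    intro s e h1
    rw [mem_WS, map_add, map_add, hzr, hel, add_zero, zero_add] at h1
    exact h1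
  have hs : ∀ e, a (src e) = Finsupp.mapDomain src (b e) := fun e =>
    hfin src e (htr2 3 _ _ (hgen src e))
  have ht : ∀ e, a (tgt e) = Finsupp.mapDomain tgt (b e) := fun e =>
    hfin tgt e (htr2 5 _ _ (hgen tgt e))
  have hrig : ∀ x, (a x).support = {x} := by
    apply rigid (fun x => (a x).support)
    · intro x
      exact Finsupp.support_nonempty_iff.mpr (hane x)
    · intro x y hxy u hu
      have h1 := hs ⟨(x, y), hxy⟩
      have h2 := ht ⟨(x, y), hxy⟩
      have h3 : a x u ≠ 0 := Finsupp.mem_support_iff.mp hu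
      change a x = _ at h1
      change a y = _ at h2
      rw [h1, mapDomain_ne (hbn _)] at h3
      obtain ⟨e, he, hes⟩ := h3
      refine ⟨tgt e, ?_, ?_⟩
      · rw [Finsupp.mem_support_iff, h2, mapDomain_ne (hbn _)]
        exact ⟨e, he, rfl⟩
      · rw [← hes]; exact src_lt_tgt e
    · intro x y hxy u hu
      have h1 := hs ⟨(x, y), hxy⟩
      have h2 := ht ⟨(x, y), hxy⟩
      have h3 : a y u ≠ 0 := Finsupp.mem_support_iff.mp hu
      change a x = _ at h1
      change a y = _ at h2
      rw [h2, mapDomain_ne (hbn _)] at h3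
      obtain ⟨e, he, hes⟩ := h3
      refine ⟨src e, ?_, ?_⟩
      · rw [Finsupp.mem_support_iff, h1, mapDomain_ne (hbn _)]
        exact ⟨e, he, rfl⟩
      · rw [← hes]; exact src_lt_tgt e
    · intro β hβ n v hv
      have h1 := hs ⟨(lad β n, β), lad_lt hβ n⟩
      have h2 := ht ⟨(lad β n, β), lad_lt hβ n⟩
      change a (lad β n) = _ at h1
      change a β = _ at h2
      have h3 : a β v ≠ 0 := Finsupp.mem_support_iff.mp hv
      rw [h2, mapDomain_ne (hbn _)] at h3
      obtain ⟨e, he, hes⟩ := h3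
      have h4 := hsup (n + 4) (Sum.inr ⟨(lad β n, β), lad_lt hβ n⟩) ⟨β, hβ, rfl⟩ (Sum.inr e) he
      obtain ⟨v', hv', he'⟩ := h4
      have he2 := Sum.inr_injective he'
      have h5 : v' = v := by rw [← hes, he2]; rfl
      subst h5
      refine ⟨hv', ?_⟩
      rw [Finsupp.mem_support_iff, h1, mapDomain_ne (hbn _)]
      exact ⟨e, he, by rw [he2]; rfl⟩
    · intro β hβ n u hu
      have h1 := hs ⟨(lad β n, β), lad_lt hβ n⟩
      have h2 := ht ⟨(lad β n, β), lad_lt hβ n⟩
      change a (lad β n) = _ at h1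
      change a β = _ at h2
      have h3 : a (lad β n) u ≠ 0 := Finsupp.mem_support_iff.mp hu
      rw [h1, mapDomain_ne (hbn _)] at h3
      obtain ⟨e, he, hes⟩ := h3
      have h4 := hsup (n + 4) (Sum.inr ⟨(lad β n, β), lad_lt hβ n⟩) ⟨β, hβ, rfl⟩ (Sum.inr e) he
      obtain ⟨v', hv', he'⟩ := h4
      have he2 := Sum.inr_injective he'
      refine ⟨v', ?_, ?_⟩
      · rw [Finsupp.mem_support_iff, h2, mapDomain_ne (hbn _)]
        exact ⟨e, he, by rw [he2]; rfl⟩
      · rw [← hes, he2]; rfl
  have hax : ∀ x, a x = Finsupp.single x (a x x) := by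
    intro x
    ext z
    rw [Finsupp.single_apply]
    split_ifs with h
    · rw [h]
    · have : z ∉ (a x).support := by rw [hrig, Finset.mem_singleton]; exact fun h' => h h'.symm
      exact Finsupp.notMem_support_iff.mp this
  have hbe : ∀ e, b e = Finsupp.single e (b e e) := by
    intro e
    ext e'
    rw [Finsupp.single_apply]
    split_ifs with h
    · rw [h]
    · by_contra hne
      apply h
      have h1 : a (src e) (src e') ≠ 0 := by
        rw [hs, mapDomain_ne (hbn _)]; exact ⟨e', hne, rfl⟩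
      have h2 : a (tgt e) (tgt e') ≠ 0 := by
        rw [ht, mapDomain_ne (hbn _)]; exact ⟨e', hne, rfl⟩
      rw [← Finsupp.mem_support_iff, hrig, Finset.mem_singleton] at h1 h2
      apply Subtype.ext
      exact Prod.ext h1.symm h2.symm
  have h1e : ∀ e, a (src e) (src e) = b e e := by
    intro e
    rw [hs e, hbe e, Finsupp.mapDomain_single, Finsupp.single_eq_same, Finsupp.single_eq_same]
  have h2e : ∀ e, a (tgt e) (tgt e) = b e e := by
    intro e
    rw [ht e, hbe e, Finsupp.mapDomain_single, Finsupp.single_eq_same, Finsupp.single_eq_same]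
  set q : ℚ := a ⊤ ⊤ with hq
  have hqx : ∀ x, a x x = q := by
    intro x
    rcases eq_or_lt_of_le (le_top : x ≤ ⊤) with h | h
    · rw [h]
    · have h3 := h1e ⟨(x, ⊤), h⟩
      have h4 := h2e ⟨(x, ⊤), h⟩
      rw [← h4] at h3
      exact h3
  have hqe : ∀ e, b e e = q := fun e => by rw [← h1e, hqx]
  have hci : ∀ i, c i = Finsupp.single i q := by
    intro i
    rcases i with x | e
    · ext j
      rcases j with z | e'
      · have : c (Sum.inl x) (Sum.inl z) = a x z := rfl
        rw [this, hax x, hqx]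
        simp [Finsupp.single_apply]
      · have : c (Sum.inl x) (Sum.inr e') = epart (c (Sum.inl x)) e' := rfl
        rw [this, hel]
        simp
    · ext j
      rcases j with z | e'
      · have : c (Sum.inr e) (Sum.inl z) = zpart (c (Sum.inr e)) z := rfl
        rw [this, hzr]
        simp
      · have : c (Sum.inr e) (Sum.inr e') = b e e' := rfl
        rw [this, hbe e, hqe]
        simp [Finsupp.single_apply]
  have hq0 : 0 < q := by
    have h1 : 0 ≤ q := hc0 _ _
    have h2 : q ≠ 0 := by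
      have : (⊤ : Z) ∈ (a ⊤).support := by rw [hrig]; simp
      exact Finsupp.mem_support_iff.mp this
    exact lt_of_le_of_ne h1 (Ne.symm h2)
  have hnonz : ∀ i, c i i ≠ 0 := by
    intro i
    rw [hci, Finsupp.single_eq_same]
    exact hq0.ne'
  refine ⟨?_, q, hq0, fun g hg => ?_⟩
  · ext x
    constructor
    · intro hx
      have := hsup 2 (Sum.inl x) ⟨x, hx, rfl⟩ (Sum.inl x) (hnonz _)
      obtain ⟨y, hy, hyx⟩ := this
      rwa [← Sum.inl_injective hyx]
    · intro hx
      by_contra hcon
      have := hsup 3 (Sum.inl x) ⟨x, hcon, rfl⟩ (Sum.inl x) (hnonz _)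
      obtain ⟨y, hy, hyx⟩ := this
      rw [Sum.inl_injective hyx] at hy
      exact hy hx
  · exact scal H hW hW' (fun g hg v => sub_GG hW g hg v) q hci g hg

end Concrete


section Sol

variable {Z : Type u} [LinearOrder Z] [WellFoundedLT Z] [OrderTop Z]

lemma cone_add_ne {I : Type u} {W : ℕ → Submodule ℚ (I →₀ ℚ)} {g h : I →₀ ℚ[X]}
    (hg : g ∈ CC W) (hh : h ∈ CC W) (hne : g ≠ 0) : g + h ≠ 0 := by
  intro h0
  apply hne
  apply ev_ext
  intro i
  have h1 := congrArg (fun v => ev v i) h0
  simp only [ev_add] at h1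
  have h2 := hg.2 i
  have h3 := hh.2 i
  have h4 : ev (0 : I →₀ ℚ[X]) i = 0 := by simp [ev]
  rw [h4] at h1 ⊢
  linarith

/-- the nonzero vectors of the cone -/
def SP (P : Set Z) : AddSubsemigroup (Idx Z →₀ ℚ[X]) where
  carrier := {g | g ∈ CC (WW P) ∧ g ≠ 0}
  add_mem' := by
    rintro a b ⟨ha, ha'⟩ ⟨hb, hb'⟩
    exact ⟨add_mem ha hb, cone_add_ne ha hb ha'⟩

lemma mem_SP {P : Set Z} {g : Idx Z →₀ ℚ[X]} : g ∈ SP P ↔ g ∈ CC (WW P) ∧ g ≠ 0 := Iff.rfl

/-- the solution of Q1 attached to P -/
abbrev S1 (P : Set Z) : Type u := Multiplicative (SP P)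

/-- the solution of Q2 attached to P -/
abbrev S2 (P : Set Z) : Type u := Multiplicative (CC (WW P))

/-- underlying vector -/
def val1 {P : Set Z} (x : S1 P) : Idx Z →₀ ℚ[X] := (Multiplicative.toAdd x : SP P)

def val2 {P : Set Z} (x : S2 P) : Idx Z →₀ ℚ[X] := (Multiplicative.toAdd x : CC (WW P))

lemma val1_inj {P : Set Z} {x y : S1 P} (h : val1 x = val1 y) : x = y :=
  Multiplicative.toAdd.injective (Subtype.ext h)

lemma val2_inj {P : Set Z} {x y : S2 P} (h : val2 x = val2 y) : x = y :=
  Multiplicative.toAdd.injective (Subtype.ext h)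

lemma val1_mul {P : Set Z} (x y : S1 P) : val1 (x * y) = val1 x + val1 y := rfl

lemma val2_mul {P : Set Z} (x y : S2 P) : val2 (x * y) = val2 x + val2 y := rfl

lemma val1_mem {P : Set Z} (x : S1 P) : val1 x ∈ SP P := (Multiplicative.toAdd x).2

lemma val2_mem {P : Set Z} (x : S2 P) : val2 x ∈ CC (WW P) := (Multiplicative.toAdd x).2

lemma val1_pw {P : Set Z} (x : S1 P) (n : ℕ) : val1 (pw x n) = ((n : ℚ) + 1) • val1 x := by
  induction n with
  | zero => simp [pw]
  | succ n ih =>
    rw [pw, val1_mul, ih]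
    push_cast
    rw [add_smul ((n : ℚ) + 1) 1, one_smul]

lemma val2_pw {P : Set Z} (x : S2 P) (n : ℕ) : val2 (pw x n) = ((n : ℚ) + 1) • val2 x := by
  induction n with
  | zero => simp [pw]
  | succ n ih =>
    rw [pw, val2_mul, ih]
    push_cast
    rw [add_smul ((n : ℚ) + 1) 1, one_smul]

def mk1 {P : Set Z} (g : Idx Z →₀ ℚ[X]) (h : g ∈ SP P) : S1 P := Multiplicative.ofAdd ⟨g, h⟩

def mk2 {P : Set Z} (g : Idx Z →₀ ℚ[X]) (h : g ∈ CC (WW P)) : S2 P :=
  Multiplicative.ofAdd ⟨g, h⟩

lemma val_mk1 {P : Set Z} (g : Idx Z →₀ ℚ[X]) (h : g ∈ SP P) : val1 (mk1 g h) = g := rfl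

lemma val_mk2 {P : Set Z} (g : Idx Z →₀ ℚ[X]) (h : g ∈ CC (WW P)) : val2 (mk2 g h) = g := rfl

lemma mk_val1 {P : Set Z} (x : S1 P) : mk1 (val1 x) (val1_mem x) = x := rfl

lemma mk_val2 {P : Set Z} (x : S2 P) : mk2 (val2 x) (val2_mem x) = x := rfl

open Classical in
/-- a homomorphism between the solutions of Q1 as a map of vectors -/
noncomputable def FF1 {P P' : Set Z} (φ : S1 P →ₙ* S1 P') (g : Idx Z →₀ ℚ[X]) :
    Idx Z →₀ ℚ[X] := if h : g ∈ SP P then val1 (φ (mk1 g h)) else 0

lemma FF1_pos {P P' : Set Z} (φ : S1 P →ₙ* S1 P') {g : Idx Z →₀ ℚ[X]} (h : g ∈ SP P) :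
    FF1 φ g = val1 (φ (mk1 g h)) := dif_pos h

lemma FF1_zero {P P' : Set Z} (φ : S1 P →ₙ* S1 P') : FF1 φ 0 = 0 := by
  apply dif_neg
  intro h
  exact h.2 rfl

lemma hyp1 {P P' : Set Z} (φ : S1 P →ₙ* S1 P') : Hyp (WW P) (WW P') (FF1 φ) where
  map := by
    intro g hg
    by_cases h0 : g = 0
    · rw [h0, FF1_zero]; exact zero_mem _
    · rw [FF1_pos φ ⟨hg, h0⟩]
      exact (val1_mem _).1
  add := by
    intro g hg h hh
    by_cases h0 : g = 0
    · rw [h0, FF1_zero, zero_add, zero_add]
    by_cases h1 : h = 0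
    · rw [h1, FF1_zero, add_zero, add_zero]
    have hgs : g ∈ SP P := ⟨hg, h0⟩
    have hhs : h ∈ SP P := ⟨hh, h1⟩
    rw [FF1_pos φ hgs, FF1_pos φ hhs, FF1_pos φ (add_mem hgs hhs), ← val1_mul, ← map_mul]
    rfl
  ne := by
    intro g hg h0
    rw [FF1_pos φ ⟨hg, h0⟩]
    exact (val1_mem _).2

theorem hom1 {P P' : Set Z} (φ : S1 P →ₙ* S1 P') : P = P' ∧
    ∃ q : ℚ, 0 < q ∧ ∀ x, val1 (φ x) = q • val1 x := by
  obtain ⟨h1, q, hq, h2⟩ := main P P' (FF1 φ) (hyp1 φ)
  refine ⟨h1, q, hq, fun x => ?_⟩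
  have h3 := h2 (val1 x) (val1_mem x).1
  rw [FF1_pos φ (val1_mem x), mk_val1] at h3
  exact h3

lemma unit_mem (P : Set Z) : mono 0 (Finsupp.single (Sum.inl ⊤) (1 : ℚ)) ∈ SP P := by
  refine ⟨mono_mem (by rw [(fam P).zero]; trivial) (single_nonneg _), fun h1 => ?_⟩
  have := congrArg (fun g => cf 0 g (Sum.inl ⊤)) h1
  simp [cf_mono] at this

lemma smul_mem_SP {P : Set Z} {g : Idx Z →₀ ℚ[X]} (hg : g ∈ SP P) {q : ℚ} (hq : 0 < q) :
    q • g ∈ SP P := ⟨smul_mem_CC hg.1 hq.le, smul_ne_zero hq.ne' hg.2⟩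

lemma num_den {q : ℚ} (hq : 0 < q) : (((q.den - 1 : ℕ) : ℚ) + 1) * q =
    ((q.num.toNat - 1 : ℕ) : ℚ) + 1 := by
  have hnum : 0 < q.num := Rat.num_pos.mpr hq
  have e1 : ((q.den - 1 : ℕ) : ℚ) + 1 = q.den := by
    have : 1 ≤ q.den := q.den_pos
    push_cast [this]; ring
  have e2 : ((q.num.toNat - 1 : ℕ) : ℚ) + 1 = q.num := by
    have h4 : 1 ≤ q.num.toNat := by omega
    have h5 : ((q.num.toNat : ℕ) : ℤ) = q.num := Int.toNat_of_nonneg hnum.le
    have h6 : ((q.num.toNat : ℕ) : ℚ) = (q.num : ℚ) := by exact_mod_cast h5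
    push_cast [h4]
    rw [h6]; ring
  rw [e1, e2, mul_comm, Rat.mul_den_eq_num]

theorem isSol1_S1 (P : Set Z) : IsSol1 (S1 P) := by
  rw [criterion1]
  refine ⟨⟨mk1 _ (unit_mem P)⟩, ?_, ?_, ?_⟩
  · intro e he
    have h1 := congrArg val1 he
    rw [val1_mul] at h1
    exact (val1_mem e).2 (left_eq_add.mp h1.symm)
  · intro n
    have hn : ((n : ℚ) + 1) ≠ 0 := by positivity
    constructor
    · intro x y h
      apply val1_inj
      have h1 := congrArg val1 h
      simp only [val1_pw] at h1
      exact smul_right_injective _ hn h1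
    · intro x
      refine ⟨mk1 (((n : ℚ) + 1)⁻¹ • val1 x) (smul_mem_SP (val1_mem x) (by positivity)), ?_⟩
      apply val1_inj
      simp only [val1_pw]
      rw [val_mk1, smul_smul, mul_inv_cancel₀ hn, one_smul]
  · intro φ
    obtain ⟨_, q, hq, h⟩ := hom1 φ
    refine ⟨q.num.toNat - 1, q.den - 1, fun x => ?_⟩
    apply val1_inj
    rw [val1_pw, val1_pw, h, smul_smul, num_den hq]

open Classical in
/-- a homomorphism between the solutions of Q2 as a map of vectors -/
noncomputable def FF2 {P P' : Set Z} (φ : S2 P →ₙ* S2 P') (g : Idx Z →₀ ℚ[X]) :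
    Idx Z →₀ ℚ[X] := if h : g ∈ CC (WW P) then val2 (φ (mk2 g h)) else 0

lemma FF2_pos {P P' : Set Z} (φ : S2 P →ₙ* S2 P') {g : Idx Z →₀ ℚ[X]} (h : g ∈ CC (WW P)) :
    FF2 φ g = val2 (φ (mk2 g h)) := dif_pos h

lemma FF2_map {P P' : Set Z} (φ : S2 P →ₙ* S2 P') (g : Idx Z →₀ ℚ[X]) (hg : g ∈ CC (WW P)) :
    FF2 φ g ∈ CC (WW P') := by
  rw [FF2_pos φ hg]; exact val2_mem _

lemma FF2_add {P P' : Set Z} (φ : S2 P →ₙ* S2 P') (g : Idx Z →₀ ℚ[X]) (hg : g ∈ CC (WW P))
    (h : Idx Z →₀ ℚ[X]) (hh : h ∈ CC (WW P)) : FF2 φ (g + h) = FF2 φ g + FF2 φ h := by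
  rw [FF2_pos φ hg, FF2_pos φ hh, FF2_pos φ (add_mem hg hh), ← val2_mul, ← map_mul]
  rfl

/-- endomorphisms of the solutions of Q2 are scalings -/
theorem end2 {P : Set Z} (φ : S2 P →ₙ* S2 P) :
    ∃ q : ℚ, 0 ≤ q ∧ ∀ x, val2 (φ x) = q • val2 x := by
  have H : Hyp (WW P) (WW P) (fun g => g + FF2 φ g) :=
    { map := fun g hg => add_mem hg (FF2_map φ g hg)
      add := fun g hg h hh => by
        rw [FF2_add φ g hg h hh]
        abel
      ne := fun g hg h0 => cone_add_ne hg (FF2_map φ g hg) h0 }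
  obtain ⟨_, q, hq, h2⟩ := main P P _ H
  have h3 : ∀ x, val2 (φ x) = (q - 1) • val2 x := by
    intro x
    have h4 := h2 (val2 x) (val2_mem x)
    rw [FF2_pos φ (val2_mem x), mk_val2] at h4
    rw [sub_smul, one_smul, ← h4]
    abel
  refine ⟨q - 1, ?_, h3⟩
  have h5 := h3 (mk2 _ (unit_mem P).1)
  have h6 := (val2_mem (φ (mk2 _ (unit_mem P).1))).2 (Sum.inl ⊤)
  rw [h5, val_mk2, ev_smul, ev_mono] at h6
  simp at h6
  exact_mod_cast (by linarith : (0 : ℝ) ≤ q - 1)

theorem isSol2_S2 (P : Set Z) : IsSol2 (S2 P) := by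
  rw [criterion2]
  have hn : ∀ n : ℕ, ((n : ℚ) + 1) ≠ 0 := fun n => by positivity
  refine ⟨mk2 0 (zero_mem _), ?_, ?_, ?_, ?_, ?_⟩
  · intro x
    apply val2_inj
    rw [val2_mul, val_mk2, zero_add]
  · refine ⟨mk2 _ (unit_mem P).1, fun h => ?_⟩
    exact (unit_mem P).2 (congrArg val2 h)
  · intro a ha
    apply val2_inj
    have h1 := congrArg val2 ha
    rw [val2_mul] at h1
    exact left_eq_add.mp h1.symm
  · intro n
    constructor
    · intro x y h
      apply val2_inj
      have h1 := congrArg val2 h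
      simp only [val2_pw] at h1
      exact smul_right_injective _ (hn n) h1
    · intro x
      refine ⟨mk2 (((n : ℚ) + 1)⁻¹ • val2 x) (smul_mem_CC (val2_mem x) (by positivity)), ?_⟩
      apply val2_inj
      simp only [val2_pw]
      rw [val_mk2, smul_smul, mul_inv_cancel₀ (hn n), one_smul]
  · intro φ
    obtain ⟨q, hq, h⟩ := end2 φ
    rcases hq.eq_or_lt with h0 | h0
    · left
      intro x
      apply val2_inj
      rw [h, ← h0, zero_smul]
      rfl
    · right
      refine ⟨q.num.toNat - 1, q.den - 1, fun x => ?_⟩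
      apply val2_inj
      rw [val2_pw, val2_pw, h, smul_smul, num_den h0]

theorem iso2' {P P' : Set Z} (Φ : S2 P ≃* S2 P') : P = P' := by
  have H : Hyp (WW P) (WW P') (FF2 Φ.toMulHom) :=
    { map := FF2_map _
      add := fun g hg h hh => FF2_add _ g hg h hh
      ne := fun g hg h0 h1 => by
        rw [FF2_pos _ hg] at h1
        have hz : val2 (Φ (mk2 0 (zero_mem _))) = 0 := by
          have e1 : (mk2 0 (zero_mem _) : S2 P) * mk2 0 (zero_mem _) = mk2 0 (zero_mem _) := by
            apply val2_inj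
            rw [val2_mul, val_mk2, zero_add]
          have e2 := congrArg (fun t => val2 (Φ t)) e1
          simp only [map_mul, val2_mul] at e2
          exact left_eq_add.mp e2.symm
        have h2 : Φ (mk2 g hg) = Φ (mk2 0 (zero_mem _)) := by
          apply val2_inj
          rw [hz]
          exact h1
        have h3 := Φ.injective h2
        exact h0 (congrArg val2 h3) }
  exact (main P P' _ H).1

end Sol


section Count

open Cardinal

/-- conjugation by an isomorphism -/
def conjEnd {S T : Type u} [CommSemigroup S] [CommSemigroup T] (e : S ≃* T) :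
    (S →ₙ* S) ≃* (T →ₙ* T) where
  toFun φ := ⟨fun t => e (φ (e.symm t)), fun a b => by simp⟩
  invFun ψ := ⟨fun s => e.symm (ψ (e s)), fun a b => by simp⟩
  left_inv φ := by ext x; show e.symm (e (φ (e.symm (e x)))) = φ x; simp
  right_inv ψ := by ext x; show e (e.symm (ψ (e (e.symm x)))) = ψ x; simp
  map_mul' φ ψ := by
    ext x
    show e ((φ * ψ) (e.symm x)) = e (φ (e.symm x)) * e (ψ (e.symm x))
    rw [mulhom_mul_apply, map_mul]

lemma IsSol1.congr {S T : Type u} [CommSemigroup S] [CommSemigroup T] (e : S ≃* T)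
    (h : IsSol1 S) : IsSol1 T := by
  obtain ⟨Φ⟩ := h
  exact ⟨(conjEnd e).symm.trans Φ⟩

lemma IsSol2.congr {S T : Type u} [CommSemigroup S] [CommSemigroup T] (e : S ≃* T)
    (h : IsSol2 S) : IsSol2 T := by
  obtain ⟨Φ⟩ := h
  exact ⟨(conjEnd e).symm.trans Φ⟩

lemma mk_commSemigroup_le (K : Type u) [Infinite K] : #(CommSemigroup K) ≤ 2 ^ #K := by
  have h1 : Function.Injective (fun m : CommSemigroup K => (m.mul : K → K → K)) := by
    intro m m' h
    exact CommSemigroup.ext h
  have h2 : #(K → K → K) = 2 ^ #K := by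
    simp only [← Cardinal.power_def]
    rw [← Cardinal.power_mul, Cardinal.mul_eq_self (Cardinal.aleph0_le_mk K),
      Cardinal.power_self_eq (Cardinal.aleph0_le_mk K)]
  rw [← h2]
  exact Cardinal.mk_le_of_injective h1

section Card

variable {Z : Type u} [LinearOrder Z] [WellFoundedLT Z] [OrderTop Z]

lemma mk_idx [Infinite Z] : #(Idx Z) = #Z := by
  apply le_antisymm
  · calc #(Idx Z) = #Z + #(Edge Z) := by simp [Idx]
      _ ≤ #Z + #(Z × Z) := by gcongr; exact Cardinal.mk_subtype_le _
      _ = #Z + #Z * #Z := by rw [Cardinal.mk_prod]; simp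
      _ = #Z := by
        rw [Cardinal.mul_eq_self (Cardinal.aleph0_le_mk Z),
          Cardinal.add_eq_self (Cardinal.aleph0_le_mk Z)]
  · exact Cardinal.mk_le_of_injective (f := fun z : Z => (Sum.inl z : Idx Z)) Sum.inl_injective

lemma mk_all [Infinite Z] : #(Idx Z →₀ ℚ[X]) ≤ #Z := by
  have h1 : #(ℚ[X]) ≤ ℵ₀ := by
    refine (Polynomial.cardinalMk_le_max).trans ?_
    simp
  have h2 := Cardinal.mk_finsupp_lift_of_infinite (Idx Z) (ℚ[X])
  rw [h2, mk_idx, Cardinal.lift_uzero]
  apply max_le
  · simp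
  · calc Cardinal.lift.{u} #(ℚ[X]) ≤ Cardinal.lift.{u} ℵ₀ := Cardinal.lift_le.mpr h1
      _ = ℵ₀ := by simp
      _ ≤ #Z := Cardinal.aleph0_le_mk Z

lemma mk_S1 [Infinite Z] (P : Set Z) : #(S1 P) = #Z := by
  apply le_antisymm
  · exact (Cardinal.mk_le_of_injective (f := fun x : S1 P => val1 x)
      (fun x y h => val1_inj h)).trans mk_all
  · have hm : ∀ x : Z, mono 0 (Finsupp.single (Sum.inl x) (1 : ℚ)) ∈ SP P := by
      intro x
      refine ⟨mono_mem (by rw [(fam P).zero]; trivial) (single_nonneg _), fun h1 => ?_⟩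
      have := congrArg (fun g => cf 0 g (Sum.inl x)) h1
      simp [cf_mono] at this
    apply Cardinal.mk_le_of_injective (f := fun x : Z => mk1 _ (hm x))
    intro x y h
    have h1 := congrArg (fun t => cf 0 (val1 t) (Sum.inl x)) h
    simp only [val_mk1, cf_mono, if_true, Finsupp.single_eq_same, Finsupp.single_apply] at h1
    by_contra hne
    rw [if_neg] at h1
    · norm_num at h1
    · intro h2
      exact hne (Sum.inl_injective h2).symm

lemma mk_S2 [Infinite Z] (P : Set Z) : #(S2 P) = #Z := by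
  apply le_antisymm
  · exact (Cardinal.mk_le_of_injective (f := fun x : S2 P => val2 x)
      (fun x y h => val2_inj h)).trans mk_all
  · rw [← mk_S1 P]
    apply Cardinal.mk_le_of_injective (f := fun x : S1 P => mk2 (val1 x) (val1_mem x).1)
    intro x y h
    exact val1_inj (congrArg val2 h)

end Card

/-- a well-ordered set with a largest element of given infinite size -/
lemma exists_order (K : Type u) [Infinite K] : ∃ (Z : Type u) (_ : LinearOrder Z)
    (_ : WellFoundedLT Z) (_ : OrderTop Z) (_ : Infinite Z), #Z = #K := by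
  obtain ⟨i1, i2⟩ := exists_wellFoundedLT K
  haveI : Infinite (WithTop K) := Infinite.of_injective (fun k : K => (k : WithTop K))
    (fun a b h => WithTop.coe_injective h)
  refine ⟨WithTop K, inferInstance, inferInstance, inferInstance, inferInstance, ?_⟩
  have : #(WithTop K) = #(Option K) := rfl
  rw [this, Cardinal.mk_option]
  exact Cardinal.add_one_eq (Cardinal.aleph0_le_mk K)

/-- the family of solutions of Q1 on a given infinite set -/
theorem family1 (K : Type u) [Infinite K] : ∃ m : Set K → CommSemigroup K,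
    (∀ P, @IsSol1 K (m P)) ∧ (∀ P, ∀ x y z, (m P).mul x y = (m P).mul x z → y = z) ∧
    ∀ P P', (∃ f : K → K, ∀ x y, f ((m P).mul x y) = (m P').mul (f x) (f y)) → P = P' := by
  obtain ⟨Z, i1, i2, i3, i4, hZ⟩ := exists_order K
  have e1 : ∀ P : Set Z, Nonempty (K ≃ S1 P) := fun P => by
    rw [← Cardinal.eq, mk_S1, hZ]
  obtain ⟨e0⟩ : Nonempty (Set K ≃ Set Z) := by
    rw [← Cardinal.eq, Cardinal.mk_set, Cardinal.mk_set, hZ]
  let E : ∀ P : Set Z, K ≃ S1 P := fun P => (e1 P).some
  refine ⟨fun P => (E (e0 P)).commSemigroup, fun P => ?_, fun P x y z h => ?_, ?_⟩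
  · let _ := (E (e0 P)).commSemigroup
    exact IsSol1.congr (E (e0 P)).mulEquiv.symm (isSol1_S1 (e0 P))
  · have h1 : (E (e0 P)) x * (E (e0 P)) y = (E (e0 P)) x * (E (e0 P)) z :=
      (E (e0 P)).symm.injective h
    have h2 := congrArg val1 h1
    rw [val1_mul, val1_mul] at h2
    exact (E (e0 P)).injective (val1_inj (add_left_cancel h2))
  · rintro P P' ⟨f, hf⟩
    have hf' : ∀ x y, E (e0 P') (f ((E (e0 P)).symm ((E (e0 P)) x * (E (e0 P)) y))) =
        (E (e0 P')) (f x) * (E (e0 P')) (f y) := by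
      intro x y
      have := congrArg (E (e0 P')) (hf x y)
      refine this.trans ?_
      exact (E (e0 P')).apply_symm_apply _
    have φ : S1 (e0 P) →ₙ* S1 (e0 P') :=
      ⟨fun t => E (e0 P') (f ((E (e0 P)).symm t)), fun a b => by
        have := hf' ((E (e0 P)).symm a) ((E (e0 P)).symm b)
        simpa using this⟩
    exact e0.injective (hom1 φ).1

/-- the family of solutions of Q2 on a given infinite set -/
theorem family2 (K : Type u) [Infinite K] : ∃ m : Set K → CommSemigroup K,
    (∀ P, @IsSol2 K (m P)) ∧ (∀ P, ∀ x y z, (m P).mul x y = (m P).mul x z → y = z) ∧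
    ∀ P P', IsoRel (m P) (m P') → P = P' := by
  obtain ⟨Z, i1, i2, i3, i4, hZ⟩ := exists_order K
  have e1 : ∀ P : Set Z, Nonempty (K ≃ S2 P) := fun P => by
    rw [← Cardinal.eq, mk_S2, hZ]
  obtain ⟨e0⟩ : Nonempty (Set K ≃ Set Z) := by
    rw [← Cardinal.eq, Cardinal.mk_set, Cardinal.mk_set, hZ]
  let E : ∀ P : Set Z, K ≃ S2 P := fun P => (e1 P).some
  refine ⟨fun P => (E (e0 P)).commSemigroup, fun P => ?_, fun P x y z h => ?_, ?_⟩
  · let _ := (E (e0 P)).commSemigroup
    exact IsSol2.congr (E (e0 P)).mulEquiv.symm (isSol2_S2 (e0 P))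
  · have h1 : (E (e0 P)) x * (E (e0 P)) y = (E (e0 P)) x * (E (e0 P)) z :=
      (E (e0 P)).symm.injective h
    have h2 := congrArg val2 h1
    rw [val2_mul, val2_mul] at h2
    exact (E (e0 P)).injective (val2_inj (add_left_cancel h2))
  · rintro P P' ⟨f, hf⟩
    have hf' : ∀ x y, E (e0 P') (f ((E (e0 P)).symm ((E (e0 P)) x * (E (e0 P)) y))) =
        (E (e0 P')) (f x) * (E (e0 P')) (f y) := by
      intro x y
      have := congrArg (E (e0 P')) (hf x y)
      refine this.trans ?_
      exact (E (e0 P')).apply_symm_apply _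
    have φ : S2 (e0 P) ≃* S2 (e0 P') :=
      MulEquiv.mk (((E (e0 P)).symm.trans f).trans (E (e0 P'))) (fun a b => by
        have := hf' ((E (e0 P)).symm a) ((E (e0 P)).symm b)
        simpa using this)
    exact e0.injective (iso2' φ)

theorem count1 (K : Type u) [Infinite K] : #(Quotient (iso1 K)) = 2 ^ #K := by
  apply le_antisymm
  · calc #(Quotient (iso1 K)) ≤ #(Sols1 K) := Cardinal.mk_quotient_le
      _ ≤ #(CommSemigroup K) := Cardinal.mk_subtype_le _
      _ ≤ 2 ^ #K := mk_commSemigroup_le K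
  · obtain ⟨m, h1, -, h2⟩ := family1 K
    rw [← Cardinal.mk_set]
    apply Cardinal.mk_le_of_injective (f := fun P : Set K => Quotient.mk (iso1 K) ⟨m P, h1 P⟩)
    intro P P' h
    have h3 : IsoRel (m P) (m P') := Quotient.exact h
    obtain ⟨e, he⟩ := h3
    exact h2 P P' ⟨e, he⟩

theorem count2 (K : Type u) [Infinite K] : #(Quotient (iso2 K)) = 2 ^ #K := by
  apply le_antisymm
  · calc #(Quotient (iso2 K)) ≤ #(Sols2 K) := Cardinal.mk_quotient_le
      _ ≤ #(CommSemigroup K) := Cardinal.mk_subtype_le _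
      _ ≤ 2 ^ #K := mk_commSemigroup_le K
  · obtain ⟨m, h1, -, h2⟩ := family2 K
    rw [← Cardinal.mk_set]
    apply Cardinal.mk_le_of_injective (f := fun P : Set K => Quotient.mk (iso2 K) ⟨m P, h1 P⟩)
    intro P P' h
    have h3 : IsoRel (m P) (m P') := Quotient.exact h
    exact h2 P P' h3

theorem infinite1 (S : Type u) [CommSemigroup S] (h : IsSol1 S) : Infinite S := by
  rw [criterion1] at h
  obtain ⟨⟨x⟩, hid, -, -⟩ := h
  exact Infinite.of_injective (fun n => pw x n) (fun a b hab => pw_inj hid hab)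

theorem infinite2 (S : Type u) [CommSemigroup S] (h : IsSol2 S) : Infinite S := by
  rw [criterion2] at h
  obtain ⟨e, he, ⟨x, hx⟩, hid, hbij, -⟩ := h
  have hno : ∀ k, pw x k * pw x k ≠ pw x k := by
    intro k hk
    have h1 := hid _ hk
    apply hx
    apply (hbij k).1
    show pw x k = pw e k
    rw [h1, pw_idem (he e)]
  refine Infinite.of_injective (fun n => pw x n) (fun a b hab => ?_)
  rcases lt_trichotomy a b with h | h | h
  · obtain ⟨k, hk⟩ := exists_idem hab h
    exact absurd hk (hno _)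
  · exact h
  · obtain ⟨k, hk⟩ := exists_idem hab.symm h
    exact absurd hk (hno _)

end Count

section RatPow

variable {S : Type u} [CommSemigroup S]

lemma toNat_pos {q : ℚ} (hq : 0 < q) : 1 ≤ q.num.toNat := by
  have : 0 < q.num := Rat.num_pos.mpr hq
  omega

lemma num_den' {q : ℚ} (hq : 0 < q) : ((q.num.toNat : ℕ) : ℚ) = q.den * q := by
  have hnum : 0 < q.num := Rat.num_pos.mpr hq
  have h5 : ((q.num.toNat : ℕ) : ℤ) = q.num := Int.toNat_of_nonneg hnum.le
  have h6 : ((q.num.toNat : ℕ) : ℚ) = (q.num : ℚ) := by exact_mod_cast h5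
  rw [h6, mul_comm, Rat.mul_den_eq_num]

/-- the rational power of an element, for exponents q > 0 -/
noncomputable def qp (hbij : ∀ n, Function.Bijective (fun x : S => pw x n)) (a : S) (q : ℚ) : S :=
  (Equiv.ofBijective _ (hbij (q.den - 1))).symm (pw a (q.num.toNat - 1))

lemma qp_spec (hbij : ∀ n, Function.Bijective (fun x : S => pw x n)) (a : S) (q : ℚ) :
    pw (qp hbij a q) (q.den - 1) = pw a (q.num.toNat - 1) :=
  (Equiv.ofBijective _ (hbij (q.den - 1))).apply_symm_apply _

lemma qp_unique (hbij : ∀ n, Function.Bijective (fun x : S => pw x n)) {a y : S} {q : ℚ}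
    (hq : 0 < q) {b c : ℕ} (h : pw y b = pw a c) (hbc : (c : ℚ) + 1 = (b + 1) * q) :
    y = qp hbij a q := by
  have hden : 1 ≤ q.den := q.den_pos
  have hnum := toNat_pos hq
  apply (hbij ((b + 1) * (q.den - 1 + 1) - 1)).1
  show pw y _ = pw (qp hbij a q) _
  have hexp : (c + 1) * (q.den - 1 + 1) - 1 = (q.num.toNat - 1 + 1) * (b + 1) - 1 := by
    have h1 : (((c + 1) * (q.den - 1 + 1) : ℕ) : ℚ) =
        (((q.num.toNat - 1 + 1) * (b + 1) : ℕ) : ℚ) := by
      have e1 : q.den - 1 + 1 = q.den := by omega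
      have e2 : q.num.toNat - 1 + 1 = q.num.toNat := by omega
      rw [e1, e2]
      push_cast
      rw [num_den' hq, hbc]
      ring
    have h2 : (c + 1) * (q.den - 1 + 1) = (q.num.toNat - 1 + 1) * (b + 1) := by exact_mod_cast h1
    rw [h2]
  calc pw y ((b + 1) * (q.den - 1 + 1) - 1) = pw (pw y b) (q.den - 1) := (pw_pw _ _ _).symm
    _ = pw a ((c + 1) * (q.den - 1 + 1) - 1) := by rw [h, pw_pw]
    _ = pw (pw a (q.num.toNat - 1)) b := by rw [hexp, pw_pw]
    _ = pw (qp hbij a q) ((q.den - 1 + 1) * (b + 1) - 1) := by rw [← qp_spec hbij, pw_pw]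
    _ = pw (qp hbij a q) ((b + 1) * (q.den - 1 + 1) - 1) := by rw [mul_comm (b + 1)]

lemma qp_add (hbij : ∀ n, Function.Bijective (fun x : S => pw x n)) (a : S) {q r : ℚ}
    (hq : 0 < q) (hr : 0 < r) : qp hbij a q * qp hbij a r = qp hbij a (q + r) := by
  have hdq : 1 ≤ q.den := q.den_pos
  have hdr : 1 ≤ r.den := r.den_pos
  have hnq := toNat_pos hq
  have hnr := toNat_pos hr
  have h1 : pw (qp hbij a q * qp hbij a r) ((q.den - 1 + 1) * (r.den - 1 + 1) - 1) =
      pw a (q.num.toNat * r.den + r.num.toNat * q.den - 1) := by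
    rw [pw_mul, ← pw_pw, qp_spec, mul_comm (q.den - 1 + 1), ← pw_pw, qp_spec, pw_pw, pw_pw, pw_add]
    congr 1
    have e1 : q.den - 1 + 1 = q.den := by omega
    have e2 : r.den - 1 + 1 = r.den := by omega
    have e3 : q.num.toNat - 1 + 1 = q.num.toNat := by omega
    have e4 : r.num.toNat - 1 + 1 = r.num.toNat := by omega
    rw [e1, e2, e3, e4]
    have p1 : 0 < q.num.toNat * r.den := by positivity
    have p2 : 0 < r.num.toNat * q.den := by positivity
    omega
  apply qp_unique hbij (add_pos hq hr) h1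
  have p1 : 1 ≤ q.num.toNat * r.den + r.num.toNat * q.den := by
    have : 0 < q.num.toNat * r.den := by positivity
    omega
  have p2 : 1 ≤ (q.den - 1 + 1) * (r.den - 1 + 1) := Nat.one_le_iff_ne_zero.mpr (by positivity)
  have e1 : q.den - 1 + 1 = q.den := by omega
  have e2 : r.den - 1 + 1 = r.den := by omega
  rw [Nat.cast_sub p1, Nat.cast_sub p2, e1, e2]
  push_cast
  rw [num_den' hq, num_den' hr]
  ring

lemma qp_inj (hbij : ∀ n, Function.Bijective (fun x : S => pw x n)) (hid : ∀ e : S, e * e ≠ e)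
    (a : S) {q r : ℚ} (hq : 0 < q) (hr : 0 < r) (h : qp hbij a q = qp hbij a r) : q = r := by
  have hdq : 1 ≤ q.den := q.den_pos
  have hdr : 1 ≤ r.den := r.den_pos
  have hnq := toNat_pos hq
  have hnr := toNat_pos hr
  have h1 : pw (pw (qp hbij a q) (q.den - 1)) (r.den - 1) =
      pw (pw (qp hbij a r) (r.den - 1)) (q.den - 1) := by
    rw [pw_pw, pw_pw, h, mul_comm]
  rw [qp_spec, qp_spec, pw_pw, pw_pw] at h1
  have h2 := pw_inj hid h1
  have e1 : q.den - 1 + 1 = q.den := by omega
  have e2 : r.den - 1 + 1 = r.den := by omega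
  have e3 : q.num.toNat - 1 + 1 = q.num.toNat := by omega
  have e4 : r.num.toNat - 1 + 1 = r.num.toNat := by omega
  rw [e1, e2, e3, e4] at h2
  have p1 : 0 < q.num.toNat * r.den := by positivity
  have p2 : 0 < r.num.toNat * q.den := by positivity
  have h3 : q.num.toNat * r.den = r.num.toNat * q.den := by omega
  have h4 : ((q.num.toNat : ℕ) : ℚ) * r.den = ((r.num.toNat : ℕ) : ℚ) * q.den := by
    exact_mod_cast h3
  rw [num_den' hq, num_den' hr] at h4
  have h5 : (q.den : ℚ) ≠ 0 := by positivity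
  have h6 : (r.den : ℚ) ≠ 0 := by positivity
  have h7 : ((q.den : ℚ) * r.den) * q = (q.den * r.den) * r := by linarith
  exact mul_left_cancel₀ (mul_ne_zero h5 h6) h7

/-- the only solution of Q1 with a nonzero additive map to the nonnegative rationals is the
classical one -/
theorem unique1 (h : IsSol1 S) (f : S → ℚ) (hf : ∀ x y, f (x * y) = f x + f y)
    (hf0 : ∀ x, 0 ≤ f x) (hne : ∃ x, f x ≠ 0) :
    Nonempty (S ≃* Multiplicative {q : ℚ // 0 < q}) := by
  classical
  rw [criterion1] at h
  obtain ⟨-, hid, hbij, hend⟩ := h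
  obtain ⟨a, ha⟩ := hne
  have ha0 : 0 < f a := lt_of_le_of_ne (hf0 a) (Ne.symm ha)
  have hpos : ∀ s, 0 < f s := by
    set ψ : S →ₙ* S := ⟨fun s => if f s = 0 then s else s * qp hbij a (f s), by
      intro s t
      by_cases hs : f s = 0
      · by_cases ht : f t = 0
        · have : f (s * t) = 0 := by rw [hf, hs, ht, add_zero]
          rw [if_pos hs, if_pos ht, if_pos this]
        · have : f (s * t) = f t := by rw [hf, hs, zero_add]
          rw [if_pos hs, if_neg ht, this, if_neg ht, mul_assoc]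
      · by_cases ht : f t = 0
        · have : f (s * t) = f s := by rw [hf, ht, add_zero]
          rw [if_neg hs, if_pos ht, this, if_neg hs]
          exact mul_right_comm s t _
        · have hs' : 0 < f s := lt_of_le_of_ne (hf0 s) (Ne.symm hs)
          have ht' : 0 < f t := lt_of_le_of_ne (hf0 t) (Ne.symm ht)
          have : f (s * t) ≠ 0 := by rw [hf]; exact (add_pos hs' ht').ne'
          rw [if_neg hs, if_neg ht, if_neg this, hf, ← qp_add hbij a hs' ht']
          exact mul_mul_mul_comm s t _ _⟩ with hψ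
    obtain ⟨m, n, hmn⟩ := hend ψ
    intro s
    by_contra hs
    have hs0 : f s = 0 := le_antisymm (not_lt.mp hs) (hf0 s)
    have h1 := hmn s
    have h2 : ψ s = s := if_pos hs0
    rw [h2] at h1
    have h3 := pw_inj hid h1
    have h4 := hmn a
    have h5 : ψ a = a * qp hbij a (f a) := if_neg ha
    rw [h5, ← h3] at h4
    have h6 : a * qp hbij a (f a) = a := (hbij n).1 h4
    have h7 : pw (a * qp hbij a (f a)) ((f a).den - 1) = pw a ((f a).den - 1) := by rw [h6]
    rw [pw_mul, qp_spec, pw_add] at h7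
    have h8 := pw_inj hid h7
    omega
  set φ : S →ₙ* S := ⟨fun s => qp hbij a (f s), fun s t => by
    rw [hf, qp_add hbij a (hpos s) (hpos t)]⟩ with hφ
  obtain ⟨m, n, hmn⟩ := hend φ
  have hsurj : ∀ s, ∃ q : ℚ, 0 < q ∧ qp hbij a q = s := by
    intro s
    have h1 : pw (qp hbij a (f s)) n = pw s m := hmn s
    have hq : 0 < ((n : ℚ) + 1) * f s / (m + 1) := by
      have := hpos s
      positivity
    refine ⟨((n : ℚ) + 1) * f s / (m + 1), hq, ?_⟩
    symm
    have hd : 1 ≤ (f s).den := (f s).den_pos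
    have hnn := toNat_pos (hpos s)
    have h2 : pw s ((m + 1) * ((f s).den - 1 + 1) - 1) =
        pw a (((f s).num.toNat - 1 + 1) * (n + 1) - 1) := by
      rw [← pw_pw, ← h1, pw_pw, mul_comm (n + 1), ← pw_pw, qp_spec, pw_pw]
    apply qp_unique hbij hq h2
    have p1 : 1 ≤ ((f s).num.toNat - 1 + 1) * (n + 1) := Nat.one_le_iff_ne_zero.mpr (by positivity)
    have p2 : 1 ≤ (m + 1) * ((f s).den - 1 + 1) := Nat.one_le_iff_ne_zero.mpr (by positivity)
    have e1 : (f s).den - 1 + 1 = (f s).den := by omega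
    have e3 : (f s).num.toNat - 1 + 1 = (f s).num.toNat := by omega
    rw [Nat.cast_sub p1, Nat.cast_sub p2, e1, e3]
    push_cast
    rw [num_den' (hpos s)]
    field_simp
    ring
  have θ : Multiplicative {q : ℚ // 0 < q} ≃* S := MulEquiv.ofBijective
    (⟨fun q => qp hbij a ((Multiplicative.toAdd q : {q : ℚ // 0 < q}) : ℚ), fun q r => by
      have := qp_add hbij a (Multiplicative.toAdd q : {q : ℚ // 0 < q}).2
        (Multiplicative.toAdd r : {q : ℚ // 0 < q}).2
      rw [this]
      rfl⟩ : Multiplicative {q : ℚ // 0 < q} →ₙ* S) ⟨by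
        intro q r hqr
        apply Multiplicative.toAdd.injective
        apply Subtype.ext
        exact qp_inj hbij hid a (Multiplicative.toAdd q : {q : ℚ // 0 < q}).2
          (Multiplicative.toAdd r : {q : ℚ // 0 < q}).2 hqr, by
        intro s
        obtain ⟨q, hq, h⟩ := hsurj s
        exact ⟨Multiplicative.ofAdd ⟨q, hq⟩, h⟩⟩
  exact ⟨θ.symm⟩

end RatPow

section More

variable {S : Type u} [CommSemigroup S]

/-- the only solution of Q2 with a nonzero additive map to the nonnegative rationals is the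
classical one -/
theorem unique2 (h : IsSol2 S) (f : S → ℚ) (hf : ∀ x y, f (x * y) = f x + f y)
    (hf0 : ∀ x, 0 ≤ f x) (hne : ∃ x, f x ≠ 0) :
    Nonempty (S ≃* Multiplicative {q : ℚ // 0 ≤ q}) := by
  classical
  rw [criterion2] at h
  obtain ⟨e, hex, -, hidu, hbij, hend⟩ := h
  obtain ⟨a, ha⟩ := hne
  have hee : e * e = e := hex e
  have hxe : ∀ x, x * e = x := fun x => by rw [mul_comm, hex]
  have hfe : f e = 0 := by
    have := hf e e
    rw [hee] at this
    linarith
  have hae : a ≠ e := fun h => ha (by rw [h, hfe])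
  have ha0 : 0 < f a := lt_of_le_of_ne (hf0 a) (Ne.symm ha)
  have hpe : ∀ x n, pw x n = e → x = e := by
    intro x n h
    apply (hbij n).1
    show pw x n = pw e n
    rw [h, pw_idem hee]
  have hno : ∀ k, pw a k * pw a k ≠ pw a k := by
    intro k hk
    exact hae (hpe a k (hidu _ hk))
  have hinja : ∀ i j, pw a i = pw a j → i = j := by
    intro i j hij
    rcases lt_trichotomy i j with h | h | h
    · obtain ⟨k, hk⟩ := exists_idem hij h
      exact absurd hk (hno _)
    · exact h
    · obtain ⟨k, hk⟩ := exists_idem hij.symm h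
      exact absurd hk (hno _)
  have hqe : ∀ q : ℚ, 0 < q → qp hbij a q ≠ e := by
    intro q hq h
    have h1 := qp_spec hbij a q
    rw [h, pw_idem hee] at h1
    exact hae (hpe a _ h1.symm)
  have hqinj : ∀ q r : ℚ, 0 < q → 0 < r → qp hbij a q = qp hbij a r → q = r := by
    intro q r hq hr h
    have hdq : 1 ≤ q.den := q.den_pos
    have hdr : 1 ≤ r.den := r.den_pos
    have hnq := toNat_pos hq
    have hnr := toNat_pos hr
    have h1 : pw (pw (qp hbij a q) (q.den - 1)) (r.den - 1) =
        pw (pw (qp hbij a r) (r.den - 1)) (q.den - 1) := by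
      rw [pw_pw, pw_pw, h, mul_comm]
    rw [qp_spec, qp_spec, pw_pw, pw_pw] at h1
    have h2 := hinja _ _ h1
    have e1 : q.den - 1 + 1 = q.den := by omega
    have e2 : r.den - 1 + 1 = r.den := by omega
    have e3 : q.num.toNat - 1 + 1 = q.num.toNat := by omega
    have e4 : r.num.toNat - 1 + 1 = r.num.toNat := by omega
    rw [e1, e2, e3, e4] at h2
    have p1 : 0 < q.num.toNat * r.den := by positivity
    have p2 : 0 < r.num.toNat * q.den := by positivity
    have h3 : q.num.toNat * r.den = r.num.toNat * q.den := by omega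
    have h4 : ((q.num.toNat : ℕ) : ℚ) * r.den = ((r.num.toNat : ℕ) : ℚ) * q.den := by
      exact_mod_cast h3
    rw [num_den' hq, num_den' hr] at h4
    have h5 : (q.den : ℚ) ≠ 0 := by positivity
    have h6 : (r.den : ℚ) ≠ 0 := by positivity
    have h7 : ((q.den : ℚ) * r.den) * q = (q.den * r.den) * r := by linarith
    exact mul_left_cancel₀ (mul_ne_zero h5 h6) h7
  set E : ℚ → S := fun q => if q = 0 then e else qp hbij a q with hE
  have hE0 : E 0 = e := if_pos rfl
  have hE1 : ∀ q, 0 < q → E q = qp hbij a q := fun q hq => if_neg hq.ne'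
  have hEadd : ∀ q r, 0 ≤ q → 0 ≤ r → E (q + r) = E q * E r := by
    intro q r hq hr
    rcases hq.eq_or_lt with h | h
    · rw [← h, zero_add, hE0, hex]
    · rcases hr.eq_or_lt with h' | h'
      · rw [← h', add_zero, hE0, hxe]
      · rw [hE1 _ h, hE1 _ h', hE1 _ (add_pos h h'), qp_add hbij a h h']
  set φ : S →ₙ* S := ⟨fun s => E (f s), fun s t => by
    rw [hf, hEadd _ _ (hf0 s) (hf0 t)]⟩ with hφ
  obtain ⟨m, n, hmn⟩ : ∃ m n, ∀ x, pw (φ x) n = pw x m := by
    rcases hend φ with h | h
    · exfalso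
      have h1 : E (f a) = e := h a
      rw [hE1 _ ha0] at h1
      exact hqe _ ha0 h1
    · exact h
  have hsurj : ∀ s, ∃ q : ℚ, 0 ≤ q ∧ E q = s := by
    intro s
    have h1 : pw (E (f s)) n = pw s m := hmn s
    rcases (hf0 s).eq_or_lt with h0 | h0
    · refine ⟨0, le_rfl, ?_⟩
      rw [← h0, hE0, pw_idem hee] at h1
      rw [hE0, hpe s m h1.symm]
    · rw [hE1 _ h0] at h1
      have hq : 0 < ((n : ℚ) + 1) * f s / (m + 1) := by positivity
      refine ⟨((n : ℚ) + 1) * f s / (m + 1), hq.le, ?_⟩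
      rw [hE1 _ hq]
      symm
      have hd : 1 ≤ (f s).den := (f s).den_pos
      have hnn := toNat_pos h0
      have h2 : pw s ((m + 1) * ((f s).den - 1 + 1) - 1) =
          pw a (((f s).num.toNat - 1 + 1) * (n + 1) - 1) := by
        rw [← pw_pw, ← h1, pw_pw, mul_comm (n + 1), ← pw_pw, qp_spec, pw_pw]
      apply qp_unique hbij hq h2
      have p1 : 1 ≤ ((f s).num.toNat - 1 + 1) * (n + 1) :=
        Nat.one_le_iff_ne_zero.mpr (by positivity)
      have p2 : 1 ≤ (m + 1) * ((f s).den - 1 + 1) := Nat.one_le_iff_ne_zero.mpr (by positivity)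
      have e1 : (f s).den - 1 + 1 = (f s).den := by omega
      have e3 : (f s).num.toNat - 1 + 1 = (f s).num.toNat := by omega
      rw [Nat.cast_sub p1, Nat.cast_sub p2, e1, e3]
      push_cast
      rw [num_den' h0]
      field_simp
      ring
  have θ : Multiplicative {q : ℚ // 0 ≤ q} ≃* S := MulEquiv.ofBijective
    (⟨fun q => E ((Multiplicative.toAdd q : {q : ℚ // 0 ≤ q}) : ℚ), fun q r => by
      have := hEadd _ _ (Multiplicative.toAdd q : {q : ℚ // 0 ≤ q}).2
        (Multiplicative.toAdd r : {q : ℚ // 0 ≤ q}).2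
      rw [← this]
      rfl⟩ : Multiplicative {q : ℚ // 0 ≤ q} →ₙ* S) ⟨by
        intro q r hqr
        apply Multiplicative.toAdd.injective
        apply Subtype.ext
        have hqr' : E ((Multiplicative.toAdd q : {q : ℚ // 0 ≤ q}) : ℚ) =
          E ((Multiplicative.toAdd r : {q : ℚ // 0 ≤ q}) : ℚ) := hqr
        rcases ((Multiplicative.toAdd q : {q : ℚ // 0 ≤ q}).2).eq_or_lt with h | h
        · rcases ((Multiplicative.toAdd r : {q : ℚ // 0 ≤ q}).2).eq_or_lt with h' | h'
          · rw [← h, ← h']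
          · rw [← h, hE0, hE1 _ h'] at hqr'
            exact absurd hqr'.symm (hqe _ h')
        · rcases ((Multiplicative.toAdd r : {q : ℚ // 0 ≤ q}).2).eq_or_lt with h' | h'
          · rw [← h', hE0, hE1 _ h] at hqr'
            exact absurd hqr' (hqe _ h)
          · rw [hE1 _ h, hE1 _ h'] at hqr'
            exact hqinj _ _ h h' hqr', by
        intro s
        obtain ⟨q, hq, h⟩ := hsurj s
        exact ⟨Multiplicative.ofAdd ⟨q, hq⟩, h⟩⟩
  exact ⟨θ.symm⟩

/-- product of an element of S with an element of S with identity -/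
def act (x : S) (y : WithOne S) : S := WithOne.recOneCoe (motive := fun _ => S) x (fun z => x * z) y

lemma coe_act (x : S) (y : WithOne S) : ((act x y : S) : WithOne S) = (x : WithOne S) * y := by
  induction y using WithOne.recOneCoe with
  | one => simp [act]
  | coe z => simp [act]

/-- for cancellative semigroups without idempotents, Q1 for S is the same as Q2 for S with an
identity adjoined -/
theorem link (hc : ∀ a b c : S, a * b = a * c → b = c) (hid : ∀ e : S, e * e ≠ e) :
    IsSol1 S ↔ IsSol2 (WithOne S) := by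
  have hpc : ∀ (x : S) n, pw (x : WithOne S) n = ((pw x n : S) : WithOne S) := by
    intro x n
    induction n with
    | zero => rfl
    | succ n ih => rw [pw, pw, ih, WithOne.coe_mul]
  have hp1 : ∀ n, pw (1 : WithOne S) n = 1 := fun n => pw_idem (mul_one 1) n
  have hno : ∀ a b : S, a * b ≠ a := by
    intro a b h
    apply hid b
    apply hc a
    rw [← mul_assoc, h, h]
  rw [criterion1, criterion2]
  constructor
  · rintro ⟨⟨x0⟩, -, hbij, hend⟩
    refine ⟨1, one_mul, ⟨x0, WithOne.coe_ne_one⟩, ?_, ?_, ?_⟩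
    · intro a ha
      induction a using WithOne.recOneCoe with
      | one => rfl
      | coe a =>
        rw [← WithOne.coe_mul] at ha
        exact absurd (WithOne.coe_injective ha) (hid a)
    · intro n
      constructor
      · intro x y h
        simp only at h
        induction x using WithOne.recOneCoe with
        | one =>
          induction y using WithOne.recOneCoe with
          | one => rfl
          | coe y =>
            rw [hp1, hpc] at h
            exact absurd h.symm WithOne.coe_ne_one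
        | coe x =>
          induction y using WithOne.recOneCoe with
          | one =>
            rw [hp1, hpc] at h
            exact absurd h WithOne.coe_ne_one
          | coe y =>
            rw [hpc, hpc] at h
            rw [(hbij n).1 (WithOne.coe_injective h)]
      · intro y
        induction y using WithOne.recOneCoe with
        | one => exact ⟨1, hp1 n⟩
        | coe y =>
          obtain ⟨x, hx⟩ := (hbij n).2 y
          exact ⟨x, by simp only; rw [hpc]; exact congrArg _ hx⟩
    · intro φ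
      set ψ : S →ₙ* S := ⟨fun x => act x (φ x), fun x y => by
        apply WithOne.coe_injective
        calc ((act (x * y) (φ ((x * y : S) : WithOne S)) : S) : WithOne S)
            = ((x * y : S) : WithOne S) * φ ((x * y : S) : WithOne S) := coe_act _ _
          _ = ((x : WithOne S) * φ x) * ((y : WithOne S) * φ y) := by
            rw [WithOne.coe_mul, map_mul]; exact mul_mul_mul_comm _ _ _ _
          _ = ((act x (φ x) * act y (φ y) : S) : WithOne S) := by
            rw [WithOne.coe_mul, coe_act, coe_act]⟩ with hψ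
      obtain ⟨m, n, hmn⟩ := hend ψ
      have h1 : ∀ x : S, (x : WithOne S) ^ (n + 1) * φ x ^ (n + 1) = (x : WithOne S) ^ (m + 1) := by
        intro x
        have := congrArg (fun s : S => (s : WithOne S)) (hmn x)
        simp only [coe_pw] at this
        rw [← this, ← mul_pow, ← coe_act]
        rfl
      have hφ1 : φ 1 = 1 := by
        have h2 : φ 1 * φ 1 = φ 1 := by rw [← map_mul, mul_one]
        generalize φ 1 = y at h2
        induction y using WithOne.recOneCoe with
        | one => rfl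
        | coe y =>
          rw [← WithOne.coe_mul] at h2
          exact absurd (WithOne.coe_injective h2) (hid y)
      rcases lt_trichotomy m n with h | h | h
      · exfalso
        obtain ⟨d, hd⟩ := Nat.exists_eq_add_of_lt h
        have h2 := h1 x0
        have h3 : (x0 : WithOne S) ^ (m + 1) * ((x0 : WithOne S) ^ (d + 1) * φ x0 ^ (n + 1)) =
            (x0 : WithOne S) ^ (m + 1) := by
          rw [← mul_assoc, ← pow_add]
          have : m + 1 + (d + 1) = n + 1 := by omega
          rw [this]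
          exact h2
        have h4 : (x0 : WithOne S) ^ (d + 1) * φ x0 ^ (n + 1) =
            ((act (pw x0 d) (φ x0 ^ (n + 1)) : S) : WithOne S) := by
          rw [coe_act, coe_pw]
        rw [h4, ← coe_pw, ← WithOne.coe_mul] at h3
        exact hno _ _ (WithOne.coe_injective h3)
      · left
        intro x
        induction x using WithOne.recOneCoe with
        | one => exact hφ1
        | coe x =>
          have h2 := h1 x
          rw [h] at h2
          generalize φ (x : WithOne S) = y at h2 ⊢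
          induction y using WithOne.recOneCoe with
          | one => rfl
          | coe y =>
            rw [← coe_pw, ← coe_pw, ← WithOne.coe_mul] at h2
            exact absurd (WithOne.coe_injective h2) (hno _ _)
      · right
        obtain ⟨d, hd⟩ := Nat.exists_eq_add_of_lt h
        refine ⟨d, n, fun x => ?_⟩
        induction x using WithOne.recOneCoe with
        | one => rw [hφ1, hp1, hp1]
        | coe x =>
          have h2 := h1 x
          have h3 : (x : WithOne S) ^ (n + 1) * φ x ^ (n + 1) =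
              (x : WithOne S) ^ (n + 1) * (x : WithOne S) ^ (d + 1) := by
            rw [h2, ← pow_add]
            congr 1
            omega
          generalize φ (x : WithOne S) = y at h3 ⊢
          induction y using WithOne.recOneCoe with
          | one =>
            exfalso
            rw [one_pow, mul_one, ← coe_pw, ← coe_pw, ← WithOne.coe_mul] at h3
            exact hno _ _ (WithOne.coe_injective h3).symm
          | coe y =>
            rw [← coe_pw, ← coe_pw, ← coe_pw, ← WithOne.coe_mul, ← WithOne.coe_mul] at h3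
            rw [hpc, hpc, hc _ _ _ (WithOne.coe_injective h3)]
  · rintro ⟨e, hex, ⟨x0, hx0⟩, hidu, hbij, hend⟩
    have he1 : e = 1 := by
      have := hex 1
      rwa [mul_one] at this
    subst he1
    have hx1 : ∃ s : S, (s : WithOne S) = x0 := WithOne.ne_one_iff_exists.mp hx0
    obtain ⟨s0, hs0⟩ := hx1
    refine ⟨⟨s0⟩, hid, ?_, ?_⟩
    · intro n
      constructor
      · intro x y h
        simp only at h
        apply WithOne.coe_injective
        apply (hbij n).1
        show pw (x : WithOne S) n = pw (y : WithOne S) n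
        rw [hpc, hpc, h]
      · intro y
        obtain ⟨x, hx⟩ := (hbij n).2 (y : WithOne S)
        simp only at hx
        induction x using WithOne.recOneCoe with
        | one =>
          rw [hp1] at hx
          exact absurd hx.symm WithOne.coe_ne_one
        | coe x =>
          rw [hpc] at hx
          exact ⟨x, WithOne.coe_injective hx⟩
    · intro φ
      have hφm : ∀ x y : WithOne S, WithOne.mapMulHom φ (x * y) =
          WithOne.mapMulHom φ x * WithOne.mapMulHom φ y := fun x y => map_mul _ _ _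
      set Φ : WithOne S →ₙ* WithOne S := ⟨fun x => WithOne.mapMulHom φ x, hφm⟩ with hΦ
      rcases hend Φ with h | ⟨m, n, h⟩
      · exfalso
        have h1 : WithOne.mapMulHom φ (s0 : WithOne S) = 1 := h s0
        rw [WithOne.mapMulHom_coe] at h1
        exact absurd h1 WithOne.coe_ne_one
      · refine ⟨m, n, fun x => ?_⟩
        have h1 : pw (WithOne.mapMulHom φ (x : WithOne S)) n = pw (x : WithOne S) m := h x
        rw [WithOne.mapMulHom_coe, hpc, hpc] at h1
        exact WithOne.coe_injective h1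

end More

section Ord

variable {G : Type u} [AddCommGroup G] [LinearOrder G] [IsOrderedAddMonoid G]

/-- the strictly positive elements of an ordered group, written multiplicatively -/
abbrev Pos (G : Type u) [AddCommGroup G] [LinearOrder G] [IsOrderedAddMonoid G] : Type u :=
  Multiplicative {x : G // 0 < x}

def gval (x : Pos G) : G := ((Multiplicative.toAdd x : {x : G // 0 < x}) : G)

def gmk (x : G) (h : 0 < x) : Pos G := Multiplicative.ofAdd ⟨x, h⟩

lemma gval_inj {x y : Pos G} (h : gval x = gval y) : x = y :=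
  Multiplicative.toAdd.injective (Subtype.ext h)

lemma gval_mk (x : G) (h : 0 < x) : gval (gmk x h) = x := rfl

lemma gmk_val (x : Pos G) (h : 0 < gval x) : gmk (gval x) h = x := rfl

lemma gval_mul (x y : Pos G) : gval (x * y) = gval x + gval y := rfl

lemma gval_pos (x : Pos G) : 0 < gval x := (Multiplicative.toAdd x : {x : G // 0 < x}).2

lemma gval_pw (x : Pos G) (n : ℕ) : gval (pw x n) = (n + 1) • gval x := by
  induction n with
  | zero => simp [pw]
  | succ n ih => rw [pw, gval_mul, ih, ← succ_nsmul]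

/-- cones of subgroups of the reals: one direction -/
lemma ordered_of_real [Nontrivial G] (f : G →+ ℝ) (hf : StrictMono f)
    (hq : ∀ (q : ℚ) (x : G), ∃ y, f y = q * f x)
    (hc : ∀ c : ℝ, (∀ x, ∃ y, f y = c * f x) → ∃ q : ℚ, c = q) : IsSol1 (Pos G) := by
  have hfp : ∀ x, 0 < f x ↔ 0 < x := fun x => by
    have := hf.lt_iff_lt (a := 0) (b := x)
    rwa [map_zero] at this
  rw [criterion1]
  obtain ⟨x1, hx1⟩ : ∃ x : G, 0 < x := by
    obtain ⟨x, hx⟩ := exists_ne (0 : G)
    exact ⟨|x|, abs_pos.mpr hx⟩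
  refine ⟨⟨gmk x1 hx1⟩, ?_, ?_, ?_⟩
  · intro e he
    have h1 := congrArg gval he
    rw [gval_mul] at h1
    exact (gval_pos e).ne' (left_eq_add.mp h1.symm)
  · intro n
    have hn : ((n : ℝ) + 1) ≠ 0 := by positivity
    constructor
    · intro x y h
      apply gval_inj
      have h1 := congrArg (fun t => f (gval t)) h
      simp only [gval_pw, map_nsmul, nsmul_eq_mul] at h1
      apply hf.injective
      push_cast at h1
      exact mul_left_cancel₀ hn h1
    · intro x
      obtain ⟨y, hy⟩ := hq (1 / ((n : ℚ) + 1)) (gval x)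
      have hy0 : 0 < y := by
        rw [← hfp, hy]
        have := (hfp _).mpr (gval_pos x)
        push_cast
        positivity
      refine ⟨gmk y hy0, ?_⟩
      apply gval_inj
      show gval (pw (gmk y hy0) n) = gval x
      rw [gval_pw, gval_mk]
      apply hf.injective
      rw [map_nsmul, hy, nsmul_eq_mul]
      push_cast
      field_simp
  · intro φ
    set g : Pos G → ℝ := fun x => f (gval (φ x)) with hg
    have hgp : ∀ x, 0 < g x := fun x => (hfp _).mpr (gval_pos _)
    have hfx : ∀ x : Pos G, 0 < f (gval x) := fun x => (hfp _).mpr (gval_pos _)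
    have hgn : ∀ x n, g (pw x n) = ((n : ℝ) + 1) * g x := by
      intro x n
      simp only [hg]
      rw [map_pw, gval_pw, map_nsmul, nsmul_eq_mul]
      push_cast
      rfl
    have hmono : ∀ x y : Pos G, f (gval x) < f (gval y) → g x < g y := by
      intro x y hxy
      have h1 : 0 < gval y - gval x := sub_pos.mpr (hf.lt_iff_lt.mp hxy)
      have h2 : y = gmk _ h1 * x := by
        apply gval_inj
        rw [gval_mul, gval_mk, sub_add_cancel]
      have h3 : g y = g (gmk _ h1) + g x := by
        conv_lhs => rw [h2]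
        simp only [hg]
        rw [map_mul, gval_mul, map_add]
      rw [h3]
      have := hgp (gmk _ h1)
      linarith
    have hprop : ∀ x y : Pos G, ¬ g x / g y < f (gval x) / f (gval y) := by
      intro x y hlt
      obtain ⟨r, hr1, hr2⟩ := exists_rat_btwn hlt
      have hr0 : (0 : ℚ) < r := by
        have : (0 : ℝ) < r := lt_trans (div_pos (hgp x) (hgp y)) hr1
        exact_mod_cast this
      have hnum : 0 < r.num := Rat.num_pos.mpr hr0
      have e1 : ((r.den - 1 : ℕ) : ℝ) + 1 = r.den := by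
        have : 1 ≤ r.den := r.den_pos
        push_cast [this]; ring
      have e2 : ((r.num.toNat - 1 : ℕ) : ℝ) + 1 = r.den * r := by
        have h4 : 1 ≤ r.num.toNat := by omega
        have h5 : ((r.num.toNat : ℕ) : ℤ) = r.num := Int.toNat_of_nonneg hnum.le
        have h6 : ((r.num.toNat : ℕ) : ℚ) = (r.num : ℚ) := by exact_mod_cast h5
        have h7 : ((r.num.toNat : ℕ) : ℚ) = r.den * r := by
          rw [h6, mul_comm, Rat.mul_den_eq_num]
        have h8 : ((r.num.toNat : ℕ) : ℝ) = r.den * r := by exact_mod_cast h7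
        push_cast [h4]
        rw [h8]; ring
      have hd : (0 : ℝ) < r.den := by exact_mod_cast r.den_pos
      have h1 : f (gval (pw y (r.num.toNat - 1))) < f (gval (pw x (r.den - 1))) := by
        rw [gval_pw, gval_pw, map_nsmul, map_nsmul, nsmul_eq_mul, nsmul_eq_mul]
        push_cast
        rw [e1, e2]
        rw [lt_div_iff₀ (hfx y)] at hr2
        nlinarith
      have h2 := hmono _ _ h1
      rw [hgn, hgn, e1, e2] at h2
      rw [div_lt_iff₀ (hgp y)] at hr1
      nlinarith
    have hprop2 : ∀ x y : Pos G, g x * f (gval y) = g y * f (gval x) := by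
      intro x y
      have h1 := hprop x y
      have h2 := hprop y x
      rw [div_lt_div_iff₀ (hgp _) (hfx _)] at h1 h2
      linarith
    set x0 : Pos G := gmk x1 hx1 with hx0
    set c : ℝ := g x0 / f (gval x0) with hcd
    have hc0 : 0 < c := div_pos (hgp _) (hfx _)
    have hgc : ∀ x, g x = c * f (gval x) := by
      intro x
      have := hprop2 x x0
      rw [hcd]
      have h3 := (hfx x0).ne'
      field_simp
      linarith
    obtain ⟨q, hcq⟩ := hc c (by
      intro x
      rcases lt_trichotomy x 0 with h | h | h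
      · have hx : 0 < -x := neg_pos.mpr h
        refine ⟨-gval (φ (gmk (-x) hx)), ?_⟩
        have h1 := hgc (gmk (-x) hx)
        simp only [hg, gval_mk, map_neg] at h1
        rw [map_neg, h1]
        ring
      · exact ⟨0, by rw [h]; simp⟩
      · exact ⟨gval (φ (gmk x h)), hgc (gmk x h)⟩)
    have hq0 : 0 < q := by
      rw [hcq] at hc0
      exact_mod_cast hc0
    have hnum : 0 < q.num := Rat.num_pos.mpr hq0
    refine ⟨q.num.toNat - 1, q.den - 1, fun x => ?_⟩
    apply gval_inj
    apply hf.injective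
    have e1 : ((q.den - 1 : ℕ) : ℝ) + 1 = q.den := by
      have : 1 ≤ q.den := q.den_pos
      push_cast [this]; ring
    have e2 : ((q.num.toNat - 1 : ℕ) : ℝ) + 1 = q.den * q := by
      have h4 : 1 ≤ q.num.toNat := by omega
      have h5 : ((q.num.toNat : ℕ) : ℤ) = q.num := Int.toNat_of_nonneg hnum.le
      have h6 : ((q.num.toNat : ℕ) : ℚ) = (q.num : ℚ) := by exact_mod_cast h5
      have h7 : ((q.num.toNat : ℕ) : ℚ) = q.den * q := by
        rw [h6, mul_comm, Rat.mul_den_eq_num]
      have h8 : ((q.num.toNat : ℕ) : ℝ) = q.den * q := by exact_mod_cast h7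
      push_cast [h4]
      rw [h8]; ring
    rw [gval_pw, gval_pw, map_nsmul, map_nsmul, nsmul_eq_mul, nsmul_eq_mul]
    push_cast
    rw [e1, e2]
    have h1 := hgc x
    simp only [hg] at h1
    rw [h1, hcq]
    ring

/-- a solution that is the positive cone of an ordered group is archimedean -/
lemma arch_of_sol (h : IsSol1 (Pos G)) : Archimedean G := by
  rw [criterion1] at h
  obtain ⟨-, hid, hbij, hend⟩ := h
  by_contra hna
  have hna' : ∃ x y : G, 0 < y ∧ ∀ n : ℕ, n • y < x := by
    by_contra hc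
    push Not at hc
    exact hna ⟨fun x y hy => hc x y hy⟩
  obtain ⟨x, y, hy, hxy⟩ := hna'
  have hx : 0 < x := by have := hxy 0; simpa using this
  have hdivp : ∀ (n : ℕ) (z : G), 0 < z → ∃ w, 0 < w ∧ (n + 1) • w = z := by
    intro n z hz
    obtain ⟨w, hw⟩ := (hbij n).2 (gmk z hz)
    refine ⟨gval w, gval_pos w, ?_⟩
    have := congrArg gval hw
    simp only [gval_pw] at this
    exact this
  have hdiv : ∀ (n : ℕ) (z : G), ∃ w, (n + 1) • w = z := by
    intro n z
    rcases lt_trichotomy z 0 with h | h | h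
    · obtain ⟨w, -, hw⟩ := hdivp n (-z) (neg_pos.mpr h)
      exact ⟨-w, by rw [smul_neg, hw, neg_neg]⟩
    · exact ⟨0, by rw [h, smul_zero]⟩
    · obtain ⟨w, -, hw⟩ := hdivp n z h
      exact ⟨w, hw⟩
  let H : AddSubgroup G :=
    { carrier := {z | ∃ n : ℕ, |z| ≤ n • y}
      zero_mem' := ⟨0, by simp⟩
      add_mem' := by
        rintro a b ⟨m, hm⟩ ⟨n, hn⟩
        refine ⟨m + n, ?_⟩
        rw [add_smul]
        exact (abs_add_le a b).trans (add_le_add hm hn)
      neg_mem' := by
        rintro a ⟨m, hm⟩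
        exact ⟨m, by rwa [abs_neg]⟩ }
  have hHdiv : ∀ (n : ℕ) (z : H), ∃ w : H, (n + 1) • w = z := by
    intro n z
    obtain ⟨w, hw⟩ := hdiv n z
    obtain ⟨k, hk⟩ := z.2
    have hwH : w ∈ H := by
      refine ⟨k, ?_⟩
      refine le_trans ?_ hk
      rw [← hw, abs_nsmul]
      calc |w| = 1 • |w| := (one_smul ℕ _).symm
        _ ≤ (n + 1) • |w| := nsmul_le_nsmul_left (abs_nonneg w) (by omega)
    exact ⟨⟨w, hwH⟩, Subtype.ext hw⟩
  have hHint : ∀ {n : ℤ}, n ≠ 0 → Function.Surjective (fun a : H => n • a) := by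
    intro n hn z
    obtain ⟨w, hw⟩ := hHdiv (n.natAbs - 1) z
    have h1 : n.natAbs - 1 + 1 = n.natAbs := by
      have : n.natAbs ≠ 0 := Int.natAbs_ne_zero.mpr hn
      omega
    rw [h1] at hw
    rcases Int.natAbs_eq n with h | h
    · refine ⟨w, ?_⟩
      show n • w = z
      rw [h, natCast_zsmul]
      exact hw
    · refine ⟨-w, ?_⟩
      show n • (-w) = z
      rw [h, neg_smul, smul_neg, neg_neg, natCast_zsmul]
      exact hw
  letI : DivisibleBy H ℤ := divisibleByOfSMulRightSurj H ℤ hHint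
  obtain ⟨r, hr⟩ := (Module.Baer.of_divisible H).extension_property_addMonoidHom H.subtype
    H.subtype_injective (AddMonoidHom.id H)
  have hrH : ∀ z : H, r (z : G) = z := fun z => DFunLike.congr_fun hr z
  have hbig : ∀ z : G, 0 < z → z ∉ H → (r z : G) < z := by
    intro z hz hzH
    obtain ⟨k, hk⟩ := (r z).2
    by_contra hc
    push Not at hc
    apply hzH
    refine ⟨k, ?_⟩
    rw [abs_of_pos hz]
    exact hc.trans ((le_abs_self _).trans hk)
  have hκ : ∀ z : G, 0 < z → 0 < z + (z - (r z : G)) := by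
    intro z hz
    by_cases hzH : z ∈ H
    · have := hrH ⟨z, hzH⟩
      simp only at this
      rw [this]
      simpa using hz
    · exact add_pos hz (sub_pos.mpr (hbig z hz hzH))
  set φ : Pos G →ₙ* Pos G := ⟨fun t => gmk _ (hκ (gval t) (gval_pos t)), fun s t => by
    apply gval_inj
    simp only [gval_mul, gval_mk, map_add, AddSubgroup.coe_add]
    abel⟩ with hφ
  obtain ⟨m, n, hmn⟩ := hend φ
  have hval : ∀ z (hz : 0 < z), (n + 1) • (z + (z - (r z : G))) = (m + 1) • z := by
    intro z hz
    have h1 := congrArg gval (hmn (gmk z hz))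
    rw [gval_pw, gval_pw] at h1
    exact h1
  have hyH : y ∈ H := ⟨1, by rw [one_smul, abs_of_pos hy]⟩
  have hxH : x ∉ H := by
    rintro ⟨k, hk⟩
    rw [abs_of_pos hx] at hk
    exact absurd (hxy k) (not_lt.mpr hk)
  have h1 := hval y hy
  have h2 := hrH ⟨y, hyH⟩
  simp only at h2
  rw [h2, sub_self, add_zero] at h1
  have h3 : n + 1 = m + 1 := nsmul_left_strictMono hy |>.injective h1
  have h4 := hval x hx
  rw [← h3] at h4
  have h5 : x + (x - (r x : G)) = x := nsmul_right_injective (by omega) h4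
  have h6 : (r x : G) = x := by
    have := add_eq_left.mp h5
    exact (sub_eq_zero.mp this).symm
  exact absurd (hbig x hx hxH) (by rw [h6]; exact lt_irrefl x)

/-- classification of the totally ordered solutions of Q1 -/
theorem ordered1 [Nontrivial G] : IsSol1 (Pos G) ↔ ∃ f : G →+ ℝ, StrictMono f ∧
    (∀ (q : ℚ) (x : G), ∃ y, f y = q * f x) ∧
    ∀ c : ℝ, (∀ x, ∃ y, f y = c * f x) → ∃ q : ℚ, c = q := by
  constructor
  · intro h
    haveI := arch_of_sol h
    obtain ⟨f0, hf0⟩ := Archimedean.exists_orderAddMonoidHom_real_injective G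
    set f : G →+ ℝ := f0.toAddMonoidHom with hfd
    have hf : StrictMono f := f0.monotone'.strictMono_of_injective hf0
    have hfp : ∀ x, 0 < f x ↔ 0 < x := fun x => by
      have := hf.lt_iff_lt (a := 0) (b := x)
      rwa [map_zero] at this
    rw [criterion1] at h
    obtain ⟨⟨t0⟩, hid, hbij, hend⟩ := h
    have hdivp : ∀ (n : ℕ) (z : G), 0 < z → ∃ w, 0 < w ∧ (n + 1) • w = z := by
      intro n z hz
      obtain ⟨w, hw⟩ := (hbij n).2 (gmk z hz)
      refine ⟨gval w, gval_pos w, ?_⟩
      have := congrArg gval hw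
      simp only [gval_pw] at this
      exact this
    have hdiv : ∀ (n : ℕ) (z : G), ∃ w, (n + 1) • w = z := by
      intro n z
      rcases lt_trichotomy z 0 with h | h | h
      · obtain ⟨w, -, hw⟩ := hdivp n (-z) (neg_pos.mpr h)
        exact ⟨-w, by rw [smul_neg, hw, neg_neg]⟩
      · exact ⟨0, by rw [h, smul_zero]⟩
      · obtain ⟨w, -, hw⟩ := hdivp n z h
        exact ⟨w, hw⟩
    refine ⟨f, hf, ?_, ?_⟩
    · intro q x
      obtain ⟨w, hw⟩ := hdiv (q.den - 1) x
      have h1 : q.den - 1 + 1 = q.den := by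
        have := q.den_pos
        omega
      rw [h1] at hw
      refine ⟨q.num • w, ?_⟩
      rw [map_zsmul, ← hw, map_nsmul, zsmul_eq_mul, nsmul_eq_mul, ← mul_assoc]
      congr 1
      have := Rat.mul_den_eq_num q
      exact_mod_cast this.symm
    · intro c hc
      obtain ⟨N, hN⟩ := exists_nat_gt (-c)
      have hcN : 0 < c + N := by linarith
      have hc' : ∀ x, ∃ y, f y = (c + N) * f x := by
        intro x
        obtain ⟨y, hy⟩ := hc x
        refine ⟨y + N • x, ?_⟩
        rw [map_add, hy, map_nsmul, nsmul_eq_mul]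
        ring
      choose g hg using hc'
      have hgp : ∀ x, 0 < x → 0 < g x := by
        intro x hx
        rw [← hfp, hg]
        exact mul_pos hcN ((hfp x).mpr hx)
      set φ : Pos G →ₙ* Pos G := ⟨fun t => gmk _ (hgp (gval t) (gval_pos t)), fun s t => by
        apply gval_inj
        apply hf.injective
        simp only [gval_mul, gval_mk, map_add, hg]
        ring⟩ with hφ
      obtain ⟨m, n, hmn⟩ := hend φ
      have h1 := congrArg (fun t => f (gval t)) (hmn t0)
      simp only [gval_pw, map_nsmul, nsmul_eq_mul] at h1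
      have h2 : f (gval (φ t0)) = (c + N) * f (gval t0) := hg _
      rw [h2] at h1
      have h3 : f (gval t0) ≠ 0 := ((hfp _).mpr (gval_pos t0)).ne'
      refine ⟨((m : ℚ) + 1) / (n + 1) - N, ?_⟩
      have h4 : (((n + 1 : ℕ) : ℝ) * (c + N)) = ((m + 1 : ℕ) : ℝ) := by
        apply mul_right_cancel₀ h3
        rw [mul_assoc]
        exact h1
      push_cast at h4 ⊢
      have h5 : ((n : ℝ) + 1) ≠ 0 := by positivity
      field_simp
      linarith
  · rintro ⟨f, h1, h2, h3⟩
    exact ordered_of_real f h1 h2 h3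

end Ord


end Pool.Agent.Helper945.SolProof
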