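import Pool.Agent.Helper945.Discr

set_option autoImplicit false

open MeasureTheory Set Filter Topology

namespace Pool.Agent.Helper945.Discr

open Pool.Agent.Helper945.RenCore Pool.Agent.Helper945.LapU

theorem upper (η : ℝ) (hη : 0 < η) (hη1 : η ≤ 1) : ∃ c : ℝ, 0 < c ∧ ∀ p : ℝ → ℝ,
    (ContinuousOn p (Ici 0) ∧ ∃ μ : Measure ℝ, μ (Iic 0) = 0 ∧
        Integrable (fun x : ℝ => 1 - Real.exp (-x)) μ ∧ ∃ a : ℝ, 0 ≤ a ∧
        ∀ s : ℝ, 0 < s →
          (∫ t in Ioi (0:ℝ), Real.exp (-(s * t)) * p t) *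
            (s + a + ∫ x, (1 - Real.exp (-(s * x))) ∂μ) = 1) →
    Real.exp (-1) + η ≤ p 1 → ∀ t ∈ Icc (0:ℝ) 1, c ≤ p t := by
  obtain ⟨c, hc, κ0, hκ0, m0, hm0, hdis⟩ := discrete (η / 2) (by linarith) (by linarith)
  refine ⟨c, hc, ?_⟩
  rintro p ⟨hpc, μ, hμ, hI, a, ha, hlap⟩ hp1 t ht
  -- continuous extension
  set p' : ℝ → ℝ := fun t => p (max t 0) with hp'
  have hp'c : Continuous p' := by
    have h1 : Continuous fun t : ℝ => max t 0 := by fun_prop
    exact continuousOn_univ.mp (hpc.comp h1.continuousOn fun t _ => by simp)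
  have hp'eq : ∀ t, 0 ≤ t → p' t = p t := fun t ht => by simp [hp', ht]
  have hlap' : ∀ s : ℝ, 0 < s → (∫ t in Ioi (0:ℝ), Real.exp (-(s * t)) * p' t) *
      (s + a + ∫ x, (1 - Real.exp (-(s * x))) ∂μ) = 1 := by
    intro s hs
    refine Eq.trans ?_ (hlap s hs)
    congr 1
    refine setIntegral_congr_fun measurableSet_Ioi fun t ht => ?_
    rw [mem_Ioi] at ht
    simp only [hp'eq t ht.le]
  have hV := volterra p' hp'c μ hμ hI a hlap'
  have hdisc := discretise (kk a μ) p' (kk_nonneg ha) (kk_anti hI)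
    (fun S T => kk_intervalIntegrable hμ hI S T) hp'c hV
  rw [← hp'eq t ht.1]
  by_contra hcon
  push Not at hcon
  set c' : ℝ := (p' t + c) / 2 with hc'
  have hc'1 : p' t < c' := by rw [hc']; linarith
  have hc'2 : c' < c := by rw [hc']; linarith
  obtain ⟨δ, hδ, hball⟩ := Metric.eventually_nhds_iff.mp
    ((hp'c.tendsto t).eventually (gt_mem_nhds hc'1))
  obtain ⟨n0, hn0⟩ := hdisc (min (min κ0 (η / 2)) (c - c'))
    (lt_min (lt_min hκ0 (by linarith)) (by linarith))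
  obtain ⟨n1, hn1⟩ := exists_nat_gt (1 / δ)
  set n : ℕ := m0 * (n0 + n1 + 1) with hn
  have hge : n0 + n1 + 1 ≤ n := by rw [hn]; exact Nat.le_mul_of_pos_left _ hm0
  have hnpos : 0 < n := by omega
  obtain ⟨g, G, hg1, herr⟩ := hn0 n (by omega) hnpos
  have hn' : (0:ℝ) < n := by exact_mod_cast hnpos
  have hun : Real.exp (-1) + η / 2 ≤ u g n := by
    have h1 := herr n le_rfl
    rw [div_self hn'.ne', hp'eq 1 zero_le_one] at h1
    have h2 := (abs_le.mp h1).1
    have h3 : min (min κ0 (η / 2)) (c - c') ≤ η / 2 :=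
      (min_le_left _ _).trans (min_le_right _ _)
    linarith
  have hκ : 1 - g 1 ≤ κ0 := hg1.trans ((min_le_left _ _).trans (min_le_left _ _))
  have hlow := hdis g G hκ n hnpos (dvd_mul_right m0 _) hun
  set m : ℕ := ⌊t * n⌋₊ with hm
  have htn : 0 ≤ t * n := mul_nonneg ht.1 hn'.le
  have hm1 : (m:ℝ) ≤ t * n := Nat.floor_le htn
  have hm2 : t * n < m + 1 := Nat.lt_floor_add_one _
  have hmn : m ≤ n := by
    have h1 : (m:ℝ) ≤ n := hm1.trans (mul_le_of_le_one_left hn'.le ht.2)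
    exact_mod_cast h1
  have hdist : dist ((m:ℝ) / n) t < δ := by
    rw [Real.dist_eq, abs_lt]
    have h1 : (m:ℝ) / n ≤ t := by rw [div_le_iff₀ hn']; exact hm1
    have h2 : t - δ < (m:ℝ) / n := by
      rw [lt_div_iff₀ hn']
      have h3 : 1 < δ * n := by
        have h4 : (n1:ℝ) ≤ n := by exact_mod_cast (show n1 ≤ n by omega)
        rw [div_lt_iff₀ hδ] at hn1
        nlinarith
      nlinarith
    constructor <;> linarith
  have h1 := hball hdist
  have h2 := hlow m hmn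
  have h3 := herr m hmn
  have h4 := (abs_le.mp h3).2
  have h5 : min (min κ0 (η / 2)) (c - c') ≤ c - c' := min_le_right _ _
  linarith

end Pool.Agent.Helper945.Discr
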