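import Pool.Agent.Helper945.LapU

set_option autoImplicit false

open MeasureTheory Set Filter Topology

namespace Pool.Agent.Helper945.LapU

/-- The tail function of the canonical measure. -/
noncomputable def kk (a : ℝ) (μ : Measure ℝ) (x : ℝ) : ℝ :=
  if 0 < x then a + (μ (Ioi x)).toReal else 0

section
variable {μ : Measure ℝ} {a : ℝ}

lemma tail_lt_top (hI : Integrable (fun x : ℝ => 1 - Real.exp (-x)) μ) {x : ℝ} (hx : 0 < x) :
    μ (Ioi x) < ⊤ := by
  have hε : 0 < 1 - Real.exp (-x) := by
    have : Real.exp (-x) < 1 := by rw [Real.exp_lt_one_iff]; linarith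
    linarith
  refine lt_of_le_of_lt (measure_mono ?_) (hI.measure_gt_lt_top hε)
  intro y hy
  rw [mem_Ioi] at hy
  have : Real.exp (-y) < Real.exp (-x) := by rw [Real.exp_lt_exp]; linarith
  simp only [Set.mem_ofPred_eq]
  linarith

lemma kk_nonneg (ha : 0 ≤ a) (x : ℝ) : 0 ≤ kk a μ x := by
  unfold kk
  split_ifs
  · exact add_nonneg ha ENNReal.toReal_nonneg
  · exact le_rfl

lemma kk_anti (hI : Integrable (fun x : ℝ => 1 - Real.exp (-x)) μ) :
    AntitoneOn (kk a μ) (Ioi 0) := by
  intro x hx y hy hxy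
  rw [mem_Ioi] at hx hy
  unfold kk
  rw [if_pos hx, if_pos hy]
  have := ENNReal.toReal_mono (tail_lt_top hI hx).ne (measure_mono (Ioi_subset_Ioi hxy))
  linarith

lemma int_exp (n : ℕ) (hn : 0 < n) (w : ℝ) :
    ∫ t in (0:ℝ)..w, Real.exp (-(n * t)) = (1 - Real.exp (-(n * w))) / n := by
  have hn' : (n:ℝ) ≠ 0 := by exact_mod_cast hn.ne'
  have h1 : ∀ t ∈ uIcc (0:ℝ) w, HasDerivAt (fun t : ℝ => -(Real.exp (-(n * t)) / n))
      (Real.exp (-(n * t))) t := by
    intro t _
    have h2 : HasDerivAt (fun t : ℝ => -((n:ℝ) * t)) (-(n:ℝ)) t := by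
      have := ((hasDerivAt_id' t).const_mul (n:ℝ)).fun_neg
      rwa [mul_one] at this
    have h3 := (h2.exp.div_const (n:ℝ)).fun_neg
    have h4 : -(Real.exp (-(n * t)) * -(n:ℝ) / n) = Real.exp (-(n * t)) := by
      rw [mul_neg, neg_div, neg_neg, mul_div_assoc, div_self hn', mul_one]
    rwa [h4] at h3
  rw [intervalIntegral.integral_eq_sub_of_hasDerivAt h1
    (Continuous.intervalIntegrable (by fun_prop) _ _)]
  simp
  ring

lemma int_n (hμ : μ (Iic 0) = 0) (hI : Integrable (fun x : ℝ => 1 - Real.exp (-x)) μ) (n : ℕ) :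
    Integrable (fun x : ℝ => 1 - Real.exp (-(n * x))) μ := by
  have hae : ∀ᵐ x ∂μ, 0 < x := by
    rw [ae_iff]
    convert hμ using 2
    ext x; simp
  refine (hI.const_mul (n:ℝ)).mono' (by fun_prop) (hae.mono fun x hx => ?_)
  have h1 : Real.exp (-(n * x)) = Real.exp (-x) ^ n := by
    rw [← Real.exp_nat_mul]; congr 1; ring
  have h2 : 0 < Real.exp (-x) := Real.exp_pos _
  have h3 : Real.exp (-x) ≤ 1 := by rw [Real.exp_le_one_iff]; linarith
  rw [h1, Real.norm_eq_abs, abs_of_nonneg (by
    have := pow_le_one₀ h2.le h3 (n := n); linarith)]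
  have h4 := one_add_mul_le_pow (show -2 ≤ Real.exp (-x) - 1 by linarith) n
  have h5 : 1 + (Real.exp (-x) - 1) = Real.exp (-x) := by ring
  rw [h5] at h4
  linarith

lemma kk_laplace (hμ : μ (Iic 0) = 0) (hI : Integrable (fun x : ℝ => 1 - Real.exp (-x)) μ)
    (n : ℕ) (hn : 0 < n) :
    IntegrableOn (fun t => Real.exp (-(n * t)) * kk a μ t) (Ioi 0) ∧
    ∫ t in Ioi (0:ℝ), Real.exp (-(n * t)) * kk a μ t
      = (a + ∫ x, (1 - Real.exp (-(n * x))) ∂μ) / n := by
  have hn' : (0:ℝ) < n := by exact_mod_cast hn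
  have hae : ∀ᵐ x ∂μ, 0 < x := by
    rw [ae_iff]
    convert hμ using 2
    ext x; simp
  have hlc := lintegral_comp_eq_lintegral_meas_lt_mul μ (f := fun x : ℝ => x)
    (g := fun t => Real.exp (-(n * t))) (hae.mono fun x hx => hx.le) aemeasurable_id
    (fun t _ => Continuous.intervalIntegrable (by fun_prop) _ _)
    (Eventually.of_forall fun t => (Real.exp_pos _).le)
  have hIn := (int_n hμ hI n).div_const (n:ℝ)
  have hnn : 0 ≤ᵐ[μ] fun x => (1 - Real.exp (-(n * x))) / n := hae.mono fun x hx => by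
    have : Real.exp (-(n * x)) ≤ 1 := by
      rw [Real.exp_le_one_iff]
      have : 0 < (n:ℝ) * x := by positivity
      linarith
    exact div_nonneg (by linarith) hn'.le
  simp_rw [int_exp n hn] at hlc
  rw [← ofReal_integral_eq_lintegral_ofReal hIn hnn] at hlc
  have hset : ∀ t : ℝ, {x : ℝ | t < x} = Ioi t := fun t => rfl
  simp_rw [hset] at hlc
  have hmeas : Measurable fun t : ℝ => μ (Ioi t) * ENNReal.ofReal (Real.exp (-(n * t))) := by
    refine Measurable.mul ?_ (by fun_prop)
    exact Antitone.measurable fun x y hxy => measure_mono (Ioi_subset_Ioi hxy)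
  have hne : ∫⁻ t in Ioi (0:ℝ), μ (Ioi t) * ENNReal.ofReal (Real.exp (-(n * t))) ≠ ⊤ := by
    rw [← hlc]; exact ENNReal.ofReal_ne_top
  have hi := integrable_toReal_of_lintegral_ne_top hmeas.aemeasurable hne
  have hv := integral_toReal hmeas.aemeasurable (ae_lt_top hmeas hne)
  rw [← hlc, ENNReal.toReal_ofReal (integral_nonneg_of_ae hnn), integral_div] at hv
  have hr : ∀ t : ℝ, (μ (Ioi t) * ENNReal.ofReal (Real.exp (-(n * t)))).toReal
      = Real.exp (-(n * t)) * (μ (Ioi t)).toReal := by
    intro t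
    rw [ENNReal.toReal_mul, ENNReal.toReal_ofReal (Real.exp_pos _).le, mul_comm]
  simp_rw [hr] at hi hv
  have hexp : IntegrableOn (fun t : ℝ => Real.exp (-(n * t)) * a) (Ioi 0) := by
    have := (integrableOn_exp_mul_Ioi (a := -(n:ℝ)) (by linarith) 0).mul_const a
    refine IntegrableOn.congr_fun this (fun t _ => ?_) measurableSet_Ioi
    congr 2; ring
  have hexpv : ∫ t in Ioi (0:ℝ), Real.exp (-(n * t)) * a = a / n := by
    rw [integral_mul_const]
    have : (fun t : ℝ => Real.exp (-(n * t))) = fun t => Real.exp (-(n:ℝ) * t) := by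
      funext t; congr 1; ring
    rw [this, integral_exp_mul_Ioi (by linarith) 0]
    simp
    ring
  have hcongr : EqOn (fun t => Real.exp (-(n * t)) * a + Real.exp (-(n * t)) * (μ (Ioi t)).toReal)
      (fun t => Real.exp (-(n * t)) * kk a μ t) (Ioi 0) := by
    intro t ht
    rw [mem_Ioi] at ht
    simp only [kk, if_pos ht]
    ring
  refine ⟨IntegrableOn.congr_fun (Integrable.add hexp hi) hcongr measurableSet_Ioi, ?_⟩
  rw [← setIntegral_congr_fun measurableSet_Ioi hcongr, integral_add hexp hi, hexpv, hv]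
  ring

lemma kk_intervalIntegrable (hμ : μ (Iic 0) = 0)
    (hI : Integrable (fun x : ℝ => 1 - Real.exp (-x)) μ) (S T : ℝ) :
    IntervalIntegrable (kk a μ) volume S T := by
  have h1 := (kk_laplace (a := a) hμ hI 1 one_pos).1
  have h2 : Integrable (fun t => Real.exp (-((1:ℕ) * t)) * kk a μ t) := by
    rw [← integrableOn_univ, ← Iic_union_Ioi (a := (0:ℝ))]
    refine IntegrableOn.union ?_ h1
    refine (integrableOn_zero).congr_fun (fun t ht => ?_) measurableSet_Iic
    rw [mem_Iic] at ht
    simp [kk, not_lt.mpr ht]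
  have h3 : kk a μ = fun t => Real.exp t * (Real.exp (-((1:ℕ) * t)) * kk a μ t) := by
    funext t
    rw [← mul_assoc, ← Real.exp_add]
    simp
  rw [h3]
  exact (h2.intervalIntegrable).continuousOn_mul Real.continuous_exp.continuousOn

end

/-- The convolution with a continuous function is continuous. -/
lemma conv_continuous (k p : ℝ → ℝ) (hk : ∀ S T, IntervalIntegrable k volume S T)
    (hp : Continuous p) : Continuous fun t => ∫ x in (0:ℝ)..t, k x * p (t - x) := by
  rw [continuous_iff_continuousAt]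
  intro t0
  set R : ℝ := |t0| + 1 with hR
  have hR0 : 0 < R := by positivity
  obtain ⟨C, hC⟩ : ∃ C, ∀ x ∈ Icc (-(2 * R)) (2 * R), ‖p x‖ ≤ C :=
    isCompact_Icc.exists_bound_of_continuousOn hp.continuousOn
  have hkm : AEStronglyMeasurable k (volume.restrict (uIoc (-R) R)) := (hk (-R) R).aestronglyMeasurable_restrict_uIoc
  have := intervalIntegral.continuousAt_parametric_primitive_of_dominated
    (μ := volume) (F := fun t x => k x * p (t - x)) (fun x => ‖k x‖ * C) (-R) R (a₀ := 0)
    (b₀ := t0) (x₀ := t0) (fun t => hkm.mul (by fun_prop)) ?_ ((hk _ _).norm.mul_const C)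
    (Eventually.of_forall fun x => by fun_prop) ⟨by linarith, hR0⟩ ?_ (by simp)
  · exact ContinuousAt.comp (f := fun t : ℝ => (t, t))
      (g := fun p' : ℝ × ℝ => ∫ x in (0:ℝ)..p'.2, k x * p (p'.1 - x)) this (by fun_prop)
  · have h1 : ∀ᶠ t in 𝓝 t0, |t| < R := by
      have : ContinuousAt (fun t : ℝ => |t|) t0 := continuous_abs.continuousAt
      exact this.eventually (gt_mem_nhds (by rw [hR]; linarith))
    filter_upwards [h1] with t ht
    refine (ae_restrict_mem measurableSet_uIoc).mono fun x hx => ?_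
    rw [uIoc_of_le (by linarith)] at hx
    rw [norm_mul]
    refine mul_le_mul_of_nonneg_left (hC _ ?_) (norm_nonneg _)
    rw [abs_lt] at ht
    rw [mem_Ioc] at hx
    constructor <;> linarith
  · have := neg_abs_le t0
    have := le_abs_self t0
    constructor <;> linarith

/-- From the Laplace form to the renewal equation. -/
theorem volterra (p : ℝ → ℝ) (hp : Continuous p) (μ : Measure ℝ) (hμ : μ (Iic 0) = 0)
    (hI : Integrable (fun x : ℝ => 1 - Real.exp (-x)) μ) (a : ℝ)
    (h : ∀ s : ℝ, 0 < s → (∫ t in Ioi (0:ℝ), Real.exp (-(s * t)) * p t) *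
      (s + a + ∫ x, (1 - Real.exp (-(s * x))) ∂μ) = 1) (t : ℝ) (ht : 0 ≤ t) :
    p t + ∫ x in (0:ℝ)..t, kk a μ x * p (t - x) = 1 := by
  set F : ℝ → ℝ := fun t => ∫ x in (0:ℝ)..t, kk a μ x * p (t - x) with hF
  have hFc : Continuous F := conv_continuous _ _ (fun S T => kk_intervalIntegrable hμ hI S T) hp
  have hpI : ∀ n : ℕ, 0 < n → IntegrableOn (fun t => Real.exp (-(n * t)) * p t) (Ioi 0) := by
    intro n hn
    by_contra hcon
    have h1 := h n (by exact_mod_cast hn)
    rw [integral_undef hcon, zero_mul] at h1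
    exact zero_ne_one h1
  have hFI : ∀ n : ℕ, 0 < n → IntegrableOn (fun t => Real.exp (-(n * t)) * F t) (Ioi 0) ∧
      ∫ t in Ioi (0:ℝ), Real.exp (-(n * t)) * F t
        = (∫ t in Ioi (0:ℝ), Real.exp (-(n * t)) * kk a μ t)
          * ∫ t in Ioi (0:ℝ), Real.exp (-(n * t)) * p t := by
    intro n hn
    have hk := (kk_laplace (a := a) hμ hI n hn).1
    have h1 := integrable_posConvolution (μ := volume) (ν := volume) hk (hpI n hn)
      (ContinuousLinearMap.mul ℝ ℝ)
    have h2 := integral_posConvolution (μ := volume) (ν := volume) hk (hpI n hn)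
      (ContinuousLinearMap.mul ℝ ℝ)
    have h3 : ∀ x : ℝ, ∫ t in (0:ℝ)..x, ContinuousLinearMap.mul ℝ ℝ (Real.exp (-(n * t)) * kk a μ t)
        (Real.exp (-(n * (x - t))) * p (x - t)) = Real.exp (-(n * x)) * F x := by
      intro x
      rw [hF]
      simp only [ContinuousLinearMap.mul_apply']
      rw [← intervalIntegral.integral_const_mul]
      refine intervalIntegral.integral_congr fun t _ => ?_
      have : Real.exp (-(n * x)) = Real.exp (-(n * t)) * Real.exp (-(n * (x - t))) := by
        rw [← Real.exp_add]; congr 1; ring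
      rw [this]; ring
    constructor
    · unfold posConvolution at h1
      rw [integrable_indicator_iff measurableSet_Ioi] at h1
      exact IntegrableOn.congr_fun h1 (fun x _ => h3 x) measurableSet_Ioi
    · simp_rw [h3] at h2
      rw [h2]
      rfl
  have key : ∀ t, 0 < t → p t + F t - 1 = 0 := by
    have hone : ∀ n : ℕ, 0 < n → IntegrableOn (fun t : ℝ => Real.exp (-(n * t)) * 1) (Ioi 0) ∧
        ∫ t in Ioi (0:ℝ), Real.exp (-(n * t)) * 1 = 1 / n := by
      intro n hn
      have hn' : (0:ℝ) < n := by exact_mod_cast hn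
      have e : (fun t : ℝ => Real.exp (-(n * t)) * 1) = fun t => Real.exp (-(n:ℝ) * t) := by
        funext t; rw [mul_one]; congr 1; ring
      rw [e]
      refine ⟨integrableOn_exp_mul_Ioi (by linarith) 0, ?_⟩
      rw [integral_exp_mul_Ioi (by linarith) 0]
      simp
    have heq : ∀ n : ℕ, (fun t => Real.exp (-(n * t)) * (p t + F t - 1))
        = fun t => (Real.exp (-(n * t)) * p t + Real.exp (-(n * t)) * F t)
          - Real.exp (-(n * t)) * 1 := by
      intro n; funext t; ring
    refine fun t ht => laplace_unique (fun t => p t + F t - 1)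
      ((hp.add hFc).sub continuous_const).continuousOn (fun n hn => ?_) (fun n hn => ?_) t ht
    · rw [heq]
      exact ((hpI n hn).add (hFI n hn).1).sub (hone n hn).1
    · have hn' : (0:ℝ) < n := by exact_mod_cast hn
      have hAB : IntegrableOn (fun t => Real.exp (-(n * t)) * p t + Real.exp (-(n * t)) * F t)
        (Ioi 0) := (hpI n hn).add (hFI n hn).1
      rw [heq, integral_sub hAB (hone n hn).1,
        integral_add (hpI n hn) (hFI n hn).1, (hone n hn).2, (hFI n hn).2,
        (kk_laplace (a := a) hμ hI n hn).2]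
      have h1 := h n hn'
      field_simp
      linarith
  rcases ht.eq_or_lt with rfl | ht
  · -- continuity at zero
    have h1 : Tendsto (fun t => p t + F t) (𝓝[>] 0) (𝓝 (p 0 + F 0)) :=
      ((hp.add hFc).tendsto 0).mono_left nhdsWithin_le_nhds
    have h2 : Tendsto (fun t => p t + F t) (𝓝[>] 0) (𝓝 1) := by
      refine (tendsto_const_nhds (x := (1:ℝ))).congr' ?_
      filter_upwards [self_mem_nhdsWithin] with t ht
      have := key t ht
      linarith
    exact tendsto_nhds_unique h1 h2
  · have := key t ht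
    linarith

end Pool.Agent.Helper945.LapU
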